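import Pool.Agent.V1197.ZN.FO

namespace Pool.Agent.V1197.ZN
open Finset

def vN (v : Fin 7 → Fin 3 → ℝ) (n : ℕ) : Fin 3 → ℝ := v (Fin.ofNat 7 n)

def Dn (v : Fin 7 → Fin 3 → ℝ) (a b c : ℕ) : ℝ := det3 (vN v a) (vN v b) (vN v c)

def pv (v : Fin 7 → Fin 3 → ℝ) (k : ℕ) : ℝ := Dn v (nth taL k) (nth tbL k) (nth tcL k)

theorem vN_val (v : Fin 7 → Fin 3 → ℝ) (a : Fin 7) : vN v a = v a := by
  simp only [vN]
  congr 1
  ext
  simp [Fin.ofNat, Nat.mod_eq_of_lt a.2]

theorem Dn_val (v : Fin 7 → Fin 3 → ℝ) (a b c : Fin 7) : Dn v a b c = D v a b c := by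
  simp only [Dn, vN_val, D]

theorem Dn_eq (v : Fin 7 → Fin 3 → ℝ) (a b c : Fin 7) :
    Dn v a b c = sg a b c * pv v (ix a b c) := by
  rcases tri_spec a b c with ⟨h, h1, h2, h3⟩ | ⟨h, h1, h2, h3⟩ | ⟨h, h1, h2, h3⟩ | ⟨h, h1, h2, h3⟩ |
    ⟨h, h1, h2, h3⟩ | ⟨h, h1, h2, h3⟩ | ⟨h, h1⟩
  · rw [pv, h1, h2, h3, h]; simp
  · rw [pv, h1, h2, h3, h]; simp only [Dn, det3]; push_cast; ring
  · rw [pv, h1, h2, h3, h]; simp only [Dn, det3]; push_cast; ring
  · rw [pv, h1, h2, h3, h]; simp only [Dn, det3]; push_cast; ring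
  · rw [pv, h1, h2, h3, h]; simp only [Dn, det3]; push_cast; ring
  · rw [pv, h1, h2, h3, h]; simp only [Dn, det3]; push_cast; ring
  · rw [h]
    rcases h1 with h1 | h1 | h1
    · rw [h1]; simp only [Dn, det3]; push_cast; ring
    · rw [h1]; simp only [Dn, det3]; push_cast; ring
    · rw [h1]; simp only [Dn, det3]; push_cast; ring

theorem Dn_eq' (v : Fin 7 → Fin 3 → ℝ) (a b c : ℕ) (ha : a < 7) (hb : b < 7) (hc : c < 7) :
    Dn v a b c = sg a b c * pv v (ix a b c) := Dn_eq v ⟨a, ha⟩ ⟨b, hb⟩ ⟨c, hc⟩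

theorem PS_range (p : ℕ → ℝ) (k n : ℕ) : PS p k n = ∑ j ∈ range n, |p (k + j)| := by
  induction n generalizing k with
  | zero => simp [PS]
  | succ n ih =>
    rw [sum_range_succ', PS, ih, add_comm]
    congr 1
    refine sum_congr rfl (fun j _ => ?_)
    congr 2
    ring

theorem P2_range (p : ℕ → ℝ) (k n : ℕ) : P2 p k n = ∑ j ∈ range n, p (k + j) ^ 2 := by
  induction n generalizing k with
  | zero => simp [P2]
  | succ n ih =>
    rw [sum_range_succ', P2, ih, add_comm]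
    congr 1
    refine sum_congr rfl (fun j _ => ?_)
    congr 2
    ring

theorem sg_cases : ∀ a b c : Fin 7, sg a b c = 0 ∨ sg a b c = 1 ∨ sg a b c = -1 := by
  decide +kernel

theorem S1_PS (v : Fin 7 → Fin 3 → ℝ) : S1 v = 6 * PS (pv v) 0 35 := by
  rw [S1, PS_range]
  simp only [Nat.zero_add]
  refine sum_ix (fun k => |pv v k|) _ (fun a b c => ?_)
  rw [← Dn_val, Dn_eq, abs_mul]
  rcases sg_cases a b c with h | h | h <;> rw [h] <;> simp

theorem S2_P2 (v : Fin 7 → Fin 3 → ℝ) : S2 v = 6 * P2 (pv v) 0 35 := by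
  rw [S2, P2_range]
  simp only [Nat.zero_add]
  refine sum_ix (fun k => pv v k ^ 2) _ (fun a b c => ?_)
  rw [← Dn_val, Dn_eq, mul_pow]
  rcases sg_cases a b c with h | h | h <;> rw [h] <;> simp

theorem dot_PS (l : List ℤ) (p : ℕ → ℝ) (k : ℕ)
    (h : ∀ j, j < l.length → (nthZ l j : ℝ) * p (k + j) = |p (k + j)|) :
    dot l p k = PS p k l.length := by
  induction l generalizing k with
  | nil => simp [dot, PS]
  | cons a l ih =>
    simp only [dot, PS, List.length_cons]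
    have h0 := h 0 (by simp)
    simp only [nthZ, Nat.add_zero] at h0
    rw [h0, ih (k + 1)]
    intro j hj
    have := h (j + 1) (by simpa using hj)
    simp only [nthZ] at this
    rw [show k + 1 + j = k + (j + 1) by ring]
    exact this

theorem ix_symm : ∀ a b c : Fin 7, ix b a c = ix a b c ∧ ix a c b = ix a b c := by decide +kernel

theorem sg_swap1 : ∀ a b c : Fin 7, sg b a c = - sg a b c := by decide +kernel

theorem sg_swap2 : ∀ a b c : Fin 7, sg a c b = - sg a b c := by decide +kernel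

theorem class_contra (C : Cls) (hc : check C = true) (hc1 : 18 * (C.eta : ℤ) < C.del)
    (hc2 : 0 < C.s) (hc3 : C.om.sum = 0) (hc4 : C.om.length = 7) (hlen : C.chi.length = 35)
    (hpm : ∀ k, k < 35 → |(nthZ C.chi k : ℝ)| ≤ 1)
    (v : Fin 7 → Fin 3 → ℝ) (F0 : ℝ) (hF0 : 0 < F0)
    (hMI : ∀ w : Fin 7 → Fin 3 → ℝ, S1 w ^ 2 ≤ 6 * F0 ^ 2 * S2 w)
    (hS1 : S1 v = 6 * F0) (hS2 : S2 v = 6)
    (hT : ∀ i, ∑ b, ∑ c, (D v i b c) ^ 2 = 6 / 7)
    (hbig : 6272 ≤ 200 * F0 ^ 2)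
    (hchi : ∀ k, k < 35 → (nthZ C.chi k : ℝ) * pv v k = |pv v k|) : False := by
  set chi : Fin 7 → Fin 7 → Fin 7 → ℝ := fun a b c => (chf C.chi a b c : ℝ) with hchidef
  have hle : ∀ a b c, |chi a b c| ≤ 1 := by
    intro a b c
    simp only [hchidef, chf]
    push_cast
    rw [abs_mul]
    rcases sg_cases a b c with h | h | h
    · rw [h]; simp
    · have hlt := ix_lt a b c (by rw [h]; norm_num)
      rw [h]; simpa using hpm _ hlt
    · have hlt := ix_lt a b c (by rw [h]; norm_num)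
      rw [h]; simpa using hpm _ hlt
  have habs : ∀ a b c, chi a b c * D v a b c = |D v a b c| := by
    intro a b c
    rw [← Dn_val, Dn_eq]
    simp only [hchidef, chf]
    push_cast
    rw [abs_mul]
    rcases sg_cases a b c with h | h | h
    · rw [h]; simp
    · have hlt := ix_lt a b c (by rw [h]; norm_num)
      rw [h, ← hchi _ hlt]; simp
    · have hlt := ix_lt a b c (by rw [h]; norm_num)
      rw [h, ← hchi _ hlt]; simp
  have f1 : ∀ a b c, chi b a c = - chi a b c := by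
    intro a b c
    simp only [hchidef, chf]
    rw [sg_swap1, (ix_symm a b c).1]; push_cast; ring
  have f2 : ∀ a b c, chi a c b = - chi a b c := by
    intro a b c
    simp only [hchidef, chf]
    rw [sg_swap2, (ix_symm a b c).2]; push_cast; ring
  have d1 : ∀ a b c, D v b a c = - D v a b c := fun a b c => det3_swap12 _ _ _
  have d2 : ∀ a b c, D v a c b = - D v a b c := fun a b c => det3_swap23 _ _ _
  have hFO : ∀ i j, ∑ b, ∑ c, chi j b c * D v i b c = F0 * ∑ b, ∑ c, D v j b c * D v i b c := by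
    intro i j
    have h := first_order v F0 hF0 hMI hS1 hS2 chi hle habs i j
    rw [sum_E v i j chi f1 f2, sum_E v i j (D v) d1 d2] at h
    linarith
  -- transfer to list sums
  have hpairlist : ∀ q ∈ pairs7, q.1 % 7 = q.1 ∧ q.2 % 7 = q.2 := by decide +kernel
  have hmod : ∀ g : ℕ → ℕ → ℝ, (pairs7.map (fun q => g (q.1 % 7) (q.2 % 7))).sum = (pairs7.map (fun q => g q.1 q.2)).sum := by
    intro g
    refine congrArg List.sum (List.map_congr_left (fun q hq => ?_))
    rw [(hpairlist q hq).1, (hpairlist q hq).2]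
  have hpair : ∀ i j : Fin 7, ∑ b, ∑ c, chi j b c * D v i b c =
      2 * (pairs7.map (fun q => (chf C.chi j q.1 q.2 : ℝ) * Dn v i q.1 q.2)).sum := by
    intro i j
    rw [← hmod (fun b c => (chf C.chi j b c : ℝ) * Dn v i b c),
      ← sum_pairs (fun b c => (chf C.chi j (b % 7) (c % 7) : ℝ) * Dn v i (b % 7) (c % 7))]
    · refine sum_congr rfl (fun b _ => sum_congr rfl (fun c _ => ?_))
      simp only [hchidef]
      rw [Nat.mod_eq_of_lt b.2, Nat.mod_eq_of_lt c.2, Dn_val]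
    · intro a b
      have ha : a % 7 < 7 := Nat.mod_lt _ (by norm_num)
      have hb : b % 7 < 7 := Nat.mod_lt _ (by norm_num)
      have e1 := f2 j ⟨a % 7, ha⟩ ⟨b % 7, hb⟩
      have e2 := d2 i ⟨a % 7, ha⟩ ⟨b % 7, hb⟩
      rw [← Dn_val, ← Dn_val] at e2
      simp only [hchidef] at e1
      rw [e1, e2]; ring
    · intro a
      have ha : a % 7 < 7 := Nat.mod_lt _ (by norm_num)
      have e2 := d2 i ⟨a % 7, ha⟩ ⟨a % 7, ha⟩
      rw [← Dn_val] at e2
      have : Dn v i (a % 7) (a % 7) = 0 := by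
        simp only at e2
        linarith
      rw [this]; ring
  have hTp : ∀ i : Fin 7, 2 * (pairs7.map (fun q => Dn v i q.1 q.2 ^ 2)).sum = 6 / 7 := by
    intro i
    rw [← hT i, ← hmod (fun b c => Dn v i b c ^ 2), ← sum_pairs (fun b c => Dn v i (b % 7) (c % 7) ^ 2)]
    · refine sum_congr rfl (fun b _ => sum_congr rfl (fun c _ => ?_))
      rw [Nat.mod_eq_of_lt b.2, Nat.mod_eq_of_lt c.2, Dn_val]
    · intro a b
      simp only [Dn, det3]; ring
    · intro a
      simp only [Dn, det3]; ring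
  have hP2 : P2 (pv v) 0 35 = 1 := by
    have := S2_P2 v
    linarith
  have hdot : dot C.chi (pv v) 0 = F0 := by
    have h := dot_PS C.chi (pv v) 0 (by
      intro j hj
      rw [hlen] at hj
      rw [Nat.zero_add]
      exact hchi j hj)
    rw [h, hlen]
    have := S1_PS v
    linarith
  refine contra C (pv v) (Dn v) (Dn_eq' v) ?_ (3 / 7) ?_ ?_ ?_ ?_ ?_ hc hc1 hc2 hc3 hc4
  · intro i a b c d
    simp only [Dn, det3]; ring
  · intro i hi
    have := hTp ⟨i, hi⟩
    simp only at this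
    linarith
  · intro i j hi hj
    have e1 := hpair ⟨i, hi⟩ ⟨j, hj⟩
    have e2 := hpair ⟨j, hj⟩ ⟨i, hi⟩
    rw [hFO] at e1 e2
    have e3 : ∑ b, ∑ c, D v ⟨j, hj⟩ b c * D v ⟨i, hi⟩ b c = ∑ b, ∑ c, D v ⟨i, hi⟩ b c * D v ⟨j, hj⟩ b c :=
      sum_congr rfl (fun b _ => sum_congr rfl (fun c _ => mul_comm _ _))
    rw [e3] at e1
    simp only at e1 e2
    linarith
  · intro i hi
    have e1 := hpair ⟨i, hi⟩ ⟨i, hi⟩
    have e2 := hpair 0 0
    rw [hFO] at e1 e2
    have e3 : ∀ i : Fin 7, ∑ b, ∑ c, D v i b c * D v i b c = 6 / 7 := by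
      intro i
      rw [← hT i]
      exact sum_congr rfl (fun b _ => sum_congr rfl (fun c _ => by ring))
    rw [e3] at e1 e2
    simp only [Fin.val_zero] at e1 e2
    linarith
  · rw [hP2, hdot]; linarith
  · rw [hP2]; norm_num

end Pool.Agent.V1197.ZN
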