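import Mathlib

/-! Integer certificates for the positivity of quadratic forms. -/

namespace Pool.Agent.V1197.ZN

def dot : List ℤ → (ℕ → ℝ) → ℕ → ℝ
  | [], _, _ => 0
  | a :: l, p, k => (a : ℝ) * p k + dot l p (k + 1)

/-- value of an upper triangular quadratic form; row `k` starts at the diagonal -/
def qev : List (List ℤ) → (ℕ → ℝ) → ℕ → ℝ
  | [], _, _ => 0
  | r :: N, p, k => p k * dot r p k + qev N p (k + 1)

def vadd : List ℤ → List ℤ → List ℤ
  | [], m => m
  | a :: l, [] => a :: l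
  | a :: l, b :: m => Int.add a b :: vadd l m

def vscale (c : ℤ) : List ℤ → List ℤ
  | [] => []
  | a :: l => Int.mul c a :: vscale c l

def madd : List (List ℤ) → List (List ℤ) → List (List ℤ)
  | [], m => m
  | a :: l, [] => a :: l
  | a :: l, b :: m => vadd a b :: madd l m

def mscale (c : ℤ) : List (List ℤ) → List (List ℤ)
  | [] => []
  | a :: l => vscale c a :: mscale c l

/-- the square of a linear form -/
def outer : List ℤ → List (List ℤ)
  | [] => []
  | a :: u => (match a with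
      | Int.ofNat 0 => []
      | _ => Int.mul a a :: vscale (Int.add a a) u) :: outer u

def single : ℕ → ℤ → List ℤ
  | 0, c => [c]
  | k + 1, c => 0 :: single k c

def ms : ℕ → ℕ → ℤ → List (List ℤ)
  | 0, j, c => [single j c]
  | i + 1, j, c => [] :: ms i j c

theorem dot_vadd (l m : List ℤ) (p : ℕ → ℝ) (k : ℕ) :
    dot (vadd l m) p k = dot l p k + dot m p k := by
  induction l generalizing m k with
  | nil => simp [vadd, dot]
  | cons a l ih =>
    cases m with
    | nil => simp [vadd, dot]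
    | cons b m =>
      simp only [vadd, dot, ih]
      have : Int.add a b = a + b := rfl
      rw [this]; push_cast; ring

theorem dot_vscale (c : ℤ) (l : List ℤ) (p : ℕ → ℝ) (k : ℕ) :
    dot (vscale c l) p k = c * dot l p k := by
  induction l generalizing k with
  | nil => simp [vscale, dot]
  | cons a l ih =>
    simp only [vscale, dot, ih]
    have : Int.mul c a = c * a := rfl
    rw [this]; push_cast; ring

theorem qev_madd (l m : List (List ℤ)) (p : ℕ → ℝ) (k : ℕ) :
    qev (madd l m) p k = qev l p k + qev m p k := by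
  induction l generalizing m k with
  | nil => simp [madd, qev]
  | cons a l ih =>
    cases m with
    | nil => simp [madd, qev]
    | cons b m => simp only [madd, qev, ih, dot_vadd]; ring

theorem qev_mscale (c : ℤ) (l : List (List ℤ)) (p : ℕ → ℝ) (k : ℕ) :
    qev (mscale c l) p k = c * qev l p k := by
  induction l generalizing k with
  | nil => simp [mscale, qev]
  | cons a l ih => simp only [mscale, qev, ih, dot_vscale]; ring

theorem qev_outer (u : List ℤ) (p : ℕ → ℝ) (k : ℕ) :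
    qev (outer u) p k = dot u p k ^ 2 := by
  induction u generalizing k with
  | nil => simp [outer, qev, dot]
  | cons a u ih =>
    have h : dot (match a with
        | Int.ofNat 0 => []
        | _ => Int.mul a a :: vscale (Int.add a a) u) p k = (a : ℝ) * a * p k + 2 * a * dot u p (k + 1) := by
      split
      · simp [dot]
      · simp only [dot, dot_vscale]
        have h1 : Int.mul a a = a * a := rfl
        have h2 : Int.add a a = a + a := rfl
        rw [h1, h2]; push_cast; ring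
    simp only [outer, qev, ih, h]
    simp only [dot]
    ring

theorem dot_single (i : ℕ) (c : ℤ) (p : ℕ → ℝ) (k : ℕ) : dot (single i c) p k = c * p (k + i) := by
  induction i generalizing k with
  | zero => simp [single, dot]
  | succ i ih =>
    simp only [single, dot, ih]
    rw [Nat.add_right_comm k 1 i, Nat.add_assoc k i 1]
    simp

theorem qev_ms (i j : ℕ) (c : ℤ) (p : ℕ → ℝ) (k : ℕ) :
    qev (ms i j c) p k = c * p (k + i) * p (k + i + j) := by
  induction i generalizing k with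
  | zero => simp [ms, qev, dot_single]; ring
  | succ i ih =>
    simp only [ms, qev, dot, ih]
    rw [Nat.add_right_comm k 1 i, Nat.add_assoc k i 1]
    simp

def addMon (N : List (List ℤ)) (c : ℤ) (i j : ℕ) : List (List ℤ) :=
  madd N (ms (min i j) (max i j - min i j) (Int.add c c))

theorem qev_addMon (N : List (List ℤ)) (c : ℤ) (i j : ℕ) (p : ℕ → ℝ) :
    qev (addMon N c i j) p 0 = qev N p 0 + 2 * (c * p i * p j) := by
  simp only [addMon, qev_madd, qev_ms, Nat.zero_add]
  have h : Int.add c c = c + c := rfl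
  rw [h, Nat.add_sub_cancel' (min_le_max)]
  rcases le_total i j with hij | hij
  · rw [min_eq_left hij, max_eq_right hij]; push_cast; ring
  · rw [min_eq_right hij, max_eq_left hij]; push_cast; ring

/-- sum of squares of linear forms -/
def sumOuter : List (List ℤ) → List (List ℤ)
  | [] => []
  | u :: l => madd (outer u) (sumOuter l)

theorem qev_sumOuter (U : List (List ℤ)) (p : ℕ → ℝ) (k : ℕ) :
    qev (sumOuter U) p k = (U.map (fun u => dot u p k ^ 2)).sum := by
  induction U with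
  | nil => simp [sumOuter, qev]
  | cons u l ih => simp only [sumOuter, qev_madd, qev_outer, ih, List.map_cons, List.sum_cons]

def eqZ : ℤ → ℤ → Bool
  | .ofNat m, .ofNat n => Nat.beq m n
  | .negSucc m, .negSucc n => Nat.beq m n
  | _, _ => false

theorem eqZ_spec (a b : ℤ) (h : eqZ a b = true) : a = b := by
  cases a <;> cases b <;> simp_all [eqZ]

def eqL : List ℤ → List ℤ → Bool
  | [], [] => true
  | a :: l, b :: m => eqZ a b && eqL l m
  | _, _ => false

theorem eqL_spec (a b : List ℤ) (h : eqL a b = true) : a = b := by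
  induction a generalizing b with
  | nil => cases b <;> simp_all [eqL]
  | cons x l ih =>
    cases b with
    | nil => simp [eqL] at h
    | cons y m =>
      simp only [eqL, Bool.and_eq_true] at h
      rw [eqZ_spec _ _ h.1, ih _ h.2]

def eqLL : List (List ℤ) → List (List ℤ) → Bool
  | [], [] => true
  | a :: l, b :: m => eqL a b && eqLL l m
  | _, _ => false

theorem eqLL_spec (a b : List (List ℤ)) (h : eqLL a b = true) : a = b := by
  induction a generalizing b with
  | nil => cases b <;> simp_all [eqLL]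
  | cons x l ih =>
    cases b with
    | nil => simp [eqLL] at h
    | cons y m =>
      simp only [eqLL, Bool.and_eq_true] at h
      rw [eqL_spec _ _ h.1, ih _ h.2]

/-! combinatorics of triples -/

def sgn1 (a b : ℕ) : ℤ := cond (Nat.blt a b) (.ofNat 1) (cond (Nat.blt b a) (.negSucc 0) (.ofNat 0))

def sg (a b c : ℕ) : ℤ := Int.mul (Int.mul (sgn1 a b) (sgn1 a c)) (sgn1 b c)

def mn (a b : ℕ) : ℕ := cond (Nat.ble a b) a b

def mx (a b : ℕ) : ℕ := cond (Nat.ble a b) b a

/-- position of the triple `{a,b,c}` in colexicographic order (`0` if two entries agree) -/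
def ix (a b c : ℕ) : ℕ :=
  cond (Nat.beq a b) 0 (cond (Nat.beq b c) 0 (cond (Nat.beq a c) 0
  (let lo := mn (mn a b) c
  let hi := mx (mx a b) c
  let mid := Nat.sub (Nat.sub (Nat.add (Nat.add a b) c) lo) hi
  Nat.add (Nat.add (Nat.div (Nat.mul (Nat.mul hi (Nat.sub hi 1)) (Nat.sub hi 2)) 6)
    (Nat.div (Nat.mul mid (Nat.sub mid 1)) 2)) lo)))

def nth : List ℕ → ℕ → ℕ
  | [], _ => 0
  | a :: _, 0 => a
  | _ :: l, n + 1 => nth l n

def nthZ : List ℤ → ℕ → ℤ
  | [], _ => 0
  | a :: _, 0 => a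
  | _ :: l, n + 1 => nthZ l n

def taL : List ℕ := [0, 0, 0, 1, 0, 0, 1, 0, 1, 2, 0, 0, 1, 0, 1, 2, 0, 1, 2, 3, 0, 0, 1, 0, 1, 2, 0, 1, 2, 3, 0, 1, 2, 3, 4]
def tbL : List ℕ := [1, 1, 2, 2, 1, 2, 2, 3, 3, 3, 1, 2, 2, 3, 3, 3, 4, 4, 4, 4, 1, 2, 2, 3, 3, 3, 4, 4, 4, 4, 5, 5, 5, 5, 5]
def tcL : List ℕ := [2, 3, 3, 3, 4, 4, 4, 4, 4, 4, 5, 5, 5, 5, 5, 5, 5, 5, 5, 5, 6, 6, 6, 6, 6, 6, 6, 6, 6, 6, 6, 6, 6, 6, 6]

theorem tri_spec : ∀ a b c : Fin 7,
    (sg a b c = 1 ∧ nth taL (ix a b c) = a ∧ nth tbL (ix a b c) = b ∧ nth tcL (ix a b c) = c) ∨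
    (sg a b c = -1 ∧ nth taL (ix a b c) = b ∧ nth tbL (ix a b c) = a ∧ nth tcL (ix a b c) = c) ∨
    (sg a b c = -1 ∧ nth taL (ix a b c) = a ∧ nth tbL (ix a b c) = c ∧ nth tcL (ix a b c) = b) ∨
    (sg a b c = -1 ∧ nth taL (ix a b c) = c ∧ nth tbL (ix a b c) = b ∧ nth tcL (ix a b c) = a) ∨
    (sg a b c = 1 ∧ nth taL (ix a b c) = b ∧ nth tbL (ix a b c) = c ∧ nth tcL (ix a b c) = a) ∨
    (sg a b c = 1 ∧ nth taL (ix a b c) = c ∧ nth tbL (ix a b c) = a ∧ nth tcL (ix a b c) = b) ∨
    (sg a b c = 0 ∧ (a = b ∨ b = c ∨ a = c)) := by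
  decide +kernel

theorem ix_lt : ∀ a b c : Fin 7, sg a b c ≠ 0 → ix a b c < 35 := by decide +kernel

def pairs7 : List (ℕ × ℕ) := [(0, 1), (0, 2), (0, 3), (0, 4), (0, 5), (0, 6), (1, 2), (1, 3), (1, 4), (1, 5), (1, 6), (2, 3), (2, 4), (2, 5), (2, 6), (3, 4), (3, 5), (3, 6), (4, 5), (4, 6), (5, 6)]

def up (i x : ℕ) : ℕ := if x < i then x else x + 1

def quads6 : List (ℕ × ℕ × ℕ × ℕ) := [(0, 1, 2, 3), (0, 1, 2, 4), (0, 1, 2, 5), (0, 1, 3, 4), (0, 1, 3, 5), (0, 1, 4, 5), (0, 2, 3, 4), (0, 2, 3, 5), (0, 2, 4, 5), (0, 3, 4, 5), (1, 2, 3, 4), (1, 2, 3, 5), (1, 2, 4, 5), (1, 3, 4, 5), (2, 3, 4, 5)]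

def gps : List (ℕ × ℕ × ℕ × ℕ × ℕ) :=
  [0, 1, 2, 3, 4, 5, 6].flatMap fun i => quads6.map fun q => (i, up i q.1, up i q.2.1, up i q.2.2.1, up i q.2.2.2)

def addGP (N : List (List ℤ)) (m : ℤ) (q : ℕ × ℕ × ℕ × ℕ × ℕ) : List (List ℤ) :=
  let i := q.1
  let a := q.2.1
  let b := q.2.2.1
  let c := q.2.2.2.1
  let d := q.2.2.2.2
  addMon (addMon (addMon N (Int.mul m (Int.mul (sg i a b) (sg i c d))) (ix i a b) (ix i c d))
    (Int.neg (Int.mul m (Int.mul (sg i a c) (sg i b d)))) (ix i a c) (ix i b d))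
    (Int.mul m (Int.mul (sg i a d) (sg i b c))) (ix i a d) (ix i b c)

def addGPs : List (ℕ × ℕ × ℕ × ℕ × ℕ) → List ℤ → List (List ℤ) → List (List ℤ)
  | q :: l, m :: ms, N => addGPs l ms (addGP N m q)
  | _, _, N => N

def addT (i : ℕ) (w : ℤ) : List (ℕ × ℕ) → List (List ℤ) → List (List ℤ)
  | [], N => N
  | q :: l, N => addT i w l (addMon N (Int.mul w (Int.mul (sg i q.1 q.2) (sg i q.1 q.2))) (ix i q.1 q.2) (ix i q.1 q.2))

def addTs : ℕ → List ℤ → List (List ℤ) → List (List ℤ)
  | _, [], N => N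
  | i, w :: l, N => addTs (i + 1) l (addT i w pairs7 N)

/-- the linear form `s * ∑ χ(j,b,c) D(i,b,c)` -/
def linA (chi : List ℤ) (i j : ℕ) (s : ℤ) : List (ℕ × ℕ) → List ℤ → List ℤ
  | [], L => L
  | q :: l, L => linA chi i j s l
      (vadd L (single (ix i q.1 q.2)
        (Int.mul s (Int.mul (Int.mul (sg j q.1 q.2) (nthZ chi (ix j q.1 q.2))) (sg i q.1 q.2)))))

def linOff (chi : List ℤ) (i j : ℕ) : List ℤ := linA chi j i (-1) pairs7 (linA chi i j 1 pairs7 [])

def linDiag (chi : List ℤ) (i : ℕ) : List ℤ := linA chi 0 0 (-1) pairs7 (linA chi i i 1 pairs7 [])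

def linAll (chi : List ℤ) : List (List ℤ) :=
  pairs7.map (fun q => linOff chi q.1 q.2) ++ [1, 2, 3, 4, 5, 6].map (fun q => linDiag chi q)

def diagM (c : ℤ) : ℕ → List (List ℤ)
  | 0 => []
  | n + 1 => [c] :: diagM c n

structure Cls where
  chi : List ℤ
  mu : List ℤ
  om : List ℤ
  kap : ℤ
  s : ℤ
  del : ℤ
  eta : ℕ
  L : List (List ℤ)
  U : List (List ℤ)

def base (C : Cls) : List (List ℤ) :=
  addTs 0 C.om (addGPs gps C.mu (madd (diagM 6272 35) (mscale (Int.negSucc 199) (outer C.chi))))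

def rowOK (eta : ℕ) : List ℤ → ℕ → Bool
  | [], _ => true
  | _ :: _, 0 => false
  | a :: l, n + 1 => Nat.ble a.natAbs eta && rowOK eta l n

def matOK (eta : ℕ) : List (List ℤ) → ℕ → Bool
  | [], _ => true
  | _ :: _, 0 => false
  | r :: l, n + 1 => rowOK eta r (n + 1) && matOK eta l n

def mkR (C : Cls) : List (List ℤ) :=
  madd (madd (diagM (Int.neg C.del) 35) (mscale C.s (madd (base C) (mscale C.kap (sumOuter C.L)))))
    (mscale (Int.negSucc 0) (sumOuter C.U))

def check (C : Cls) : Bool :=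
  matOK C.eta (mkR C) 35 && eqLL (linAll C.chi) C.L

end Pool.Agent.V1197.ZN
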