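import Pool.Agent.V1197.ZN.Cert

namespace Pool.Agent.V1197.ZN

/-- bit position of a triple avoiding `0`, shifted by one -/
def blL : List ℕ := [0, 0, 0, 1, 0, 0, 2, 0, 3, 4, 0, 0, 5, 0, 6, 7, 0, 8, 9, 10, 0, 0, 11, 0, 12, 13, 0, 14, 15, 16, 0, 17, 18, 19, 20]

/-- triple index of a bit -/
def kkL : List ℕ := [3, 6, 8, 9, 12, 14, 15, 17, 18, 19, 22, 24, 25, 27, 28, 29, 31, 32, 33, 34]

def levelsA : List (List (ℕ × ℕ × ℕ)) := [[], [], [], [(0, 1, 2)], [], [], [(0, 4, 5)], [], [(1, 4, 7)], [(2, 5, 7), (3, 6, 8)]]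

def levelsB : List (List (ℕ × ℕ × ℕ)) := [[], [], [(0, 10, 11)], [], [(1, 10, 13)], [(2, 11, 13), (3, 12, 14)], [], [(4, 10, 16)], [(5, 11, 16), (6, 12, 17)], [(7, 13, 16), (8, 14, 17), (9, 15, 18)]]

def levels : List (List (ℕ × ℕ × ℕ)) := levelsA ++ levelsB

def chiL : List (List ℤ) := [
  [.ofNat 1, .ofNat 1, .ofNat 1, .ofNat 1, .ofNat 1, .ofNat 1, .ofNat 1, .ofNat 1, .ofNat 1, .ofNat 1, .ofNat 1, .ofNat 1, .ofNat 1, .ofNat 1, .ofNat 1, .ofNat 1, .ofNat 1, .ofNat 1, .ofNat 1, .ofNat 1, .ofNat 1, .ofNat 1, .ofNat 1, .ofNat 1, .ofNat 1, .ofNat 1, .ofNat 1, .ofNat 1, .ofNat 1, .ofNat 1, .ofNat 1, .ofNat 1, .ofNat 1, .ofNat 1, .ofNat 1],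
  [.ofNat 1, .ofNat 1, .ofNat 1, .ofNat 1, .ofNat 1, .ofNat 1, .ofNat 1, .ofNat 1, .ofNat 1, .ofNat 1, .ofNat 1, .ofNat 1, .ofNat 1, .ofNat 1, .ofNat 1, .ofNat 1, .ofNat 1, .ofNat 1, .ofNat 1, .ofNat 1, .ofNat 1, .ofNat 1, .ofNat 1, .ofNat 1, .ofNat 1, .ofNat 1, .ofNat 1, .ofNat 1, .ofNat 1, .ofNat 1, .ofNat 1, .ofNat 1, .ofNat 1, .ofNat 1, .negSucc 0],
  [.ofNat 1, .ofNat 1, .ofNat 1, .ofNat 1, .ofNat 1, .ofNat 1, .ofNat 1, .ofNat 1, .ofNat 1, .ofNat 1, .ofNat 1, .ofNat 1, .ofNat 1, .ofNat 1, .ofNat 1, .ofNat 1, .ofNat 1, .ofNat 1, .ofNat 1, .ofNat 1, .ofNat 1, .ofNat 1, .ofNat 1, .ofNat 1, .ofNat 1, .ofNat 1, .ofNat 1, .ofNat 1, .ofNat 1, .ofNat 1, .ofNat 1, .ofNat 1, .ofNat 1, .negSucc 0, .negSucc 0],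
  [.ofNat 1, .ofNat 1, .ofNat 1, .ofNat 1, .ofNat 1, .ofNat 1, .ofNat 1, .ofNat 1, .ofNat 1, .ofNat 1, .ofNat 1, .ofNat 1, .ofNat 1, .ofNat 1, .ofNat 1, .ofNat 1, .ofNat 1, .ofNat 1, .ofNat 1, .ofNat 1, .ofNat 1, .ofNat 1, .ofNat 1, .ofNat 1, .ofNat 1, .ofNat 1, .ofNat 1, .ofNat 1, .ofNat 1, .negSucc 0, .ofNat 1, .ofNat 1, .ofNat 1, .negSucc 0, .negSucc 0],
  [.ofNat 1, .ofNat 1, .ofNat 1, .ofNat 1, .ofNat 1, .ofNat 1, .ofNat 1, .ofNat 1, .ofNat 1, .ofNat 1, .ofNat 1, .ofNat 1, .ofNat 1, .ofNat 1, .ofNat 1, .ofNat 1, .ofNat 1, .ofNat 1, .ofNat 1, .ofNat 1, .ofNat 1, .ofNat 1, .ofNat 1, .ofNat 1, .ofNat 1, .ofNat 1, .ofNat 1, .ofNat 1, .ofNat 1, .negSucc 0, .ofNat 1, .ofNat 1, .negSucc 0, .negSucc 0, .negSucc 0],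
  [.ofNat 1, .ofNat 1, .ofNat 1, .ofNat 1, .ofNat 1, .ofNat 1, .ofNat 1, .ofNat 1, .ofNat 1, .ofNat 1, .ofNat 1, .ofNat 1, .ofNat 1, .ofNat 1, .ofNat 1, .ofNat 1, .ofNat 1, .ofNat 1, .ofNat 1, .negSucc 0, .ofNat 1, .ofNat 1, .ofNat 1, .ofNat 1, .ofNat 1, .ofNat 1, .ofNat 1, .ofNat 1, .ofNat 1, .negSucc 0, .ofNat 1, .ofNat 1, .negSucc 0, .negSucc 0, .negSucc 0],
  [.ofNat 1, .ofNat 1, .ofNat 1, .ofNat 1, .ofNat 1, .ofNat 1, .ofNat 1, .ofNat 1, .ofNat 1, .ofNat 1, .ofNat 1, .ofNat 1, .ofNat 1, .ofNat 1, .ofNat 1, .ofNat 1, .ofNat 1, .ofNat 1, .negSucc 0, .negSucc 0, .ofNat 1, .ofNat 1, .ofNat 1, .ofNat 1, .ofNat 1, .ofNat 1, .ofNat 1, .ofNat 1, .ofNat 1, .negSucc 0, .ofNat 1, .ofNat 1, .ofNat 1, .ofNat 1, .ofNat 1],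
  [.ofNat 1, .ofNat 1, .ofNat 1, .ofNat 1, .ofNat 1, .ofNat 1, .ofNat 1, .ofNat 1, .ofNat 1, .ofNat 1, .ofNat 1, .ofNat 1, .ofNat 1, .ofNat 1, .ofNat 1, .ofNat 1, .ofNat 1, .ofNat 1, .negSucc 0, .negSucc 0, .ofNat 1, .ofNat 1, .ofNat 1, .ofNat 1, .ofNat 1, .ofNat 1, .ofNat 1, .ofNat 1, .ofNat 1, .negSucc 0, .ofNat 1, .ofNat 1, .ofNat 1, .negSucc 0, .ofNat 1],
  [.ofNat 1, .ofNat 1, .ofNat 1, .ofNat 1, .ofNat 1, .ofNat 1, .ofNat 1, .ofNat 1, .ofNat 1, .ofNat 1, .ofNat 1, .ofNat 1, .ofNat 1, .ofNat 1, .ofNat 1, .ofNat 1, .ofNat 1, .ofNat 1, .negSucc 0, .negSucc 0, .ofNat 1, .ofNat 1, .ofNat 1, .ofNat 1, .ofNat 1, .ofNat 1, .ofNat 1, .ofNat 1, .negSucc 0, .negSucc 0, .ofNat 1, .ofNat 1, .ofNat 1, .ofNat 1, .ofNat 1],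
  [.ofNat 1, .ofNat 1, .ofNat 1, .ofNat 1, .ofNat 1, .ofNat 1, .ofNat 1, .ofNat 1, .ofNat 1, .ofNat 1, .ofNat 1, .ofNat 1, .ofNat 1, .ofNat 1, .ofNat 1, .ofNat 1, .ofNat 1, .ofNat 1, .negSucc 0, .negSucc 0, .ofNat 1, .ofNat 1, .ofNat 1, .ofNat 1, .ofNat 1, .negSucc 0, .ofNat 1, .ofNat 1, .negSucc 0, .negSucc 0, .ofNat 1, .ofNat 1, .negSucc 0, .negSucc 0, .ofNat 1],
  [.ofNat 1, .ofNat 1, .ofNat 1, .ofNat 1, .ofNat 1, .ofNat 1, .ofNat 1, .ofNat 1, .ofNat 1, .ofNat 1, .ofNat 1, .ofNat 1, .ofNat 1, .ofNat 1, .ofNat 1, .ofNat 1, .ofNat 1, .ofNat 1, .ofNat 1, .negSucc 0, .ofNat 1, .ofNat 1, .ofNat 1, .ofNat 1, .ofNat 1, .ofNat 1, .ofNat 1, .ofNat 1, .negSucc 0, .negSucc 0, .ofNat 1, .negSucc 0, .negSucc 0, .negSucc 0, .negSucc 0]]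

def nthL : List (List ℤ) → ℕ → List ℤ
  | [], _ => []
  | a :: _, 0 => a
  | _ :: l, n + 1 => nthL l n

def okq (x y z t : Bool) : Bool :=
  !(x != y && x == z) && !(x != y && x == t) && !(x != z && x == t) && !(y != z && y == t)

/-- bit test -/
def tb (x i : ℕ) : Bool := Nat.beq (Nat.mod (Nat.div x (Nat.pow 2 i)) 2) 1

theorem tb_eq (x i : ℕ) : tb x i = x.testBit i := by
  rw [Nat.testBit_eq_decide_div_mod_eq]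
  show Nat.beq (x / 2 ^ i % 2) 1 = decide (x / 2 ^ i % 2 = 1)
  rw [Bool.eq_iff_iff, Nat.beq_eq, decide_eq_true_eq]

def sgk (x k : ℕ) : ℤ :=
  match nth blL k with
  | 0 => .ofNat 1
  | j + 1 => cond (tb x j) (.ofNat 1) (.negSucc 0)

def pd (e i : ℕ) : ℕ := Nat.mod (Nat.div e (Nat.pow 8 i)) 8

def sd (e i : ℕ) : ℤ := cond (tb e (Nat.add 21 i)) (.negSucc 0) (.ofNat 1)

def rd (e : ℕ) : ℕ := Nat.div e 268435456

def goodk (e x : ℕ) (chi : List ℤ) (k : ℕ) : Bool :=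
  let a := nth taL k
  let b := nth tbL k
  let c := nth tcL k
  eqZ (Int.mul (Int.mul (Int.mul (nthZ chi k) (Int.mul (Int.mul (sd e a) (sd e b)) (sd e c))) (sg (pd e a) (pd e b) (pd e c)))
    (sgk x (ix (pd e a) (pd e b) (pd e c)))) (.ofNat 1)

def allk (P : ℕ → Bool) : ℕ → Bool
  | 0 => true
  | k + 1 => P k && allk P k

def isPerm (e : ℕ) : Bool :=
  allk (fun i => Nat.ble (pd e i) 6 && allk (fun j => !(Nat.beq (pd e j) (pd e i))) i) 7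

def good (e x : ℕ) : Bool :=
  Nat.ble (rd e) 10 && isPerm e && allk (goodk e x (nthL chiL (rd e))) 35

def dfs (leaf : ℕ → ℕ → Bool) : List (List (ℕ × ℕ × ℕ)) → ℕ → ℕ → List ℕ → Option (List ℕ)
  | [], _, _, [] => none
  | [], _, x, e :: tab => cond (leaf e x) (some tab) none
  | qs :: rest, n, x, tab =>
    match (cond (qs.all (fun q => okq (tb x q.1) (tb x q.2.1) (tb x q.2.2) false))
        (dfs leaf rest (n + 1) x tab) (some tab)) with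
    | none => none
    | some tab1 =>
      cond (qs.all (fun q => okq (tb x q.1) (tb x q.2.1) (tb x q.2.2) true))
        (dfs leaf rest (n + 1) (Nat.add x (Nat.pow 2 n)) tab1) (some tab1)

def isS : Option (List ℕ) → Bool
  | none => false
  | some _ => true

def chunkOK : List (ℕ × List ℕ) → Bool
  | [] => true
  | q :: l => isS (dfs good levelsB 10 q.1 q.2) && chunkOK l

end Pool.Agent.V1197.ZN
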