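import Pool.Agent.V1197.ZN.Bridge
import Pool.Agent.V1197.ZN.Tree

namespace Pool.Agent.V1197.ZN

/-- binary encoding of a bit pattern -/
def enc (b : ℕ → Bool) : ℕ → ℕ
  | 0 => 0
  | n + 1 => if b n then enc b n + 2 ^ n else enc b n

theorem enc_lt (b : ℕ → Bool) (n : ℕ) : enc b n < 2 ^ n := by
  induction n with
  | zero => simp [enc]
  | succ n ih =>
    simp only [enc]
    split_ifs <;> rw [pow_succ] <;> omega

theorem enc_testBit (b : ℕ → Bool) (n i : ℕ) (hi : i < n) : (enc b n).testBit i = b i := by
  induction n with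
  | zero => omega
  | succ n ih =>
    simp only [enc]
    by_cases hb : b n = true
    · rw [if_pos hb, add_comm]
      rcases Nat.lt_succ_iff_lt_or_eq.1 hi with h | h
      · rw [Nat.testBit_two_pow_add_gt h, ih h]
      · subst h
        rw [Nat.testBit_two_pow_add_eq, Nat.testBit_eq_false_of_lt (enc_lt b i)]
        simpa using hb.symm
    · rw [if_neg hb]
      rcases Nat.lt_succ_iff_lt_or_eq.1 hi with h | h
      · exact ih h
      · subst h
        rw [Nat.testBit_eq_false_of_lt (enc_lt b i)]
        simpa using hb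

theorem dfs_sub (leaf : ℕ → ℕ → Bool) (qs : List (List (ℕ × ℕ × ℕ))) (n x : ℕ) (tab tab' : List ℕ)
    (h : dfs leaf qs n x tab = some tab') : ∀ e ∈ tab', e ∈ tab := by
  induction qs generalizing n x tab tab' with
  | nil =>
    cases tab with
    | nil => simp [dfs] at h
    | cons e tab =>
      simp only [dfs] at h
      cases hl : leaf e x with
      | false => rw [hl] at h; simp at h
      | true =>
        rw [hl] at h
        simp only [cond_true, Option.some.injEq] at h
        subst h
        intro e' he'
        exact List.mem_cons_of_mem _ he'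
  | cons q0 rest ih =>
    simp only [dfs] at h
    generalize hX : (cond (q0.all (fun q => okq (tb x q.1) (tb x q.2.1) (tb x q.2.2) false))
        (dfs leaf rest (n + 1) x tab) (some tab)) = X at h
    cases X with
    | none => simp at h
    | some tab1 =>
      have h1 : ∀ e ∈ tab1, e ∈ tab := by
        generalize q0.all (fun q => okq (tb x q.1) (tb x q.2.1) (tb x q.2.2) false) = c at hX
        cases c with
        | false =>
          simp only [cond_false, Option.some.injEq] at hX
          subst hX
          exact fun e he => he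
        | true => exact ih _ _ _ _ hX
      have h2 : ∀ e ∈ tab', e ∈ tab1 := by
        simp only at h
        generalize q0.all (fun q => okq (tb x q.1) (tb x q.2.1) (tb x q.2.2) true) = c at h
        cases c with
        | false =>
          simp only [cond_false, Option.some.injEq] at h
          subst h
          exact fun e he => he
        | true => exact ih _ _ _ _ h
      exact fun e he => h1 e (h2 e he)

theorem dfs_sound (leaf : ℕ → ℕ → Bool) (b : ℕ → Bool) (qs : List (List (ℕ × ℕ × ℕ))) (n : ℕ) (tab tab' : List ℕ)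
    (h : dfs leaf qs n (enc b n) tab = some tab')
    (hq : ∀ m, m < qs.length → ∀ q ∈ qs.getD m [],
      q.1 < n + m ∧ q.2.1 < n + m ∧ q.2.2 < n + m ∧ okq (b q.1) (b q.2.1) (b q.2.2) (b (n + m)) = true) :
    ∃ e ∈ tab, leaf e (enc b (n + qs.length)) = true := by
  induction qs generalizing n tab tab' with
  | nil =>
    cases tab with
    | nil => simp [dfs] at h
    | cons e tab =>
      simp only [dfs] at h
      cases hl : leaf e (enc b n) with
      | false => rw [hl] at h; simp at h
      | true => exact ⟨e, List.mem_cons_self, hl⟩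
  | cons q0 rest ih =>
    have hq0 := hq 0 (by simp)
    simp only [List.getD_cons_zero, Nat.add_zero] at hq0
    have hrest : ∀ m, m < rest.length → ∀ q ∈ rest.getD m [],
        q.1 < n + 1 + m ∧ q.2.1 < n + 1 + m ∧ q.2.2 < n + 1 + m ∧
          okq (b q.1) (b q.2.1) (b q.2.2) (b (n + 1 + m)) = true := by
      intro m hm q hqm
      have := hq (m + 1) (by simpa using hm) q (by simpa using hqm)
      rw [show n + 1 + m = n + (m + 1) by ring]
      exact this
    have hlen : n + 1 + rest.length = n + (q0 :: rest).length := by simp; ring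
    have hall : ∀ v : Bool, b n = v → q0.all (fun q => okq (tb (enc b n) q.1)
        (tb (enc b n) q.2.1) (tb (enc b n) q.2.2) v) = true := by
      intro v hv
      rw [List.all_eq_true]
      intro q hq'
      obtain ⟨h1, h2, h3, h4⟩ := hq0 q hq'
      rw [tb_eq, tb_eq, tb_eq, enc_testBit b n _ h1, enc_testBit b n _ h2, enc_testBit b n _ h3, ← hv]
      exact h4
    simp only [dfs] at h
    cases hb : b n with
    | false =>
      rw [hall false hb, cond_true] at h
      have henc : enc b (n + 1) = enc b n := by simp [enc, hb]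
      cases hr : dfs leaf rest (n + 1) (enc b n) tab with
      | none => rw [hr] at h; simp at h
      | some tab1 =>
        rw [← henc] at hr
        rw [← hlen]
        exact ih (n + 1) tab tab1 hr hrest
    | true =>
      have henc : enc b (n + 1) = Nat.add (enc b n) (Nat.pow 2 n) := by
        show enc b (n + 1) = enc b n + 2 ^ n
        simp [enc, hb]
      generalize hX : (cond (q0.all (fun q => okq (tb (enc b n) q.1)
        (tb (enc b n) q.2.1) (tb (enc b n) q.2.2) false)) (dfs leaf rest (n + 1) (enc b n) tab) (some tab)) = X at h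
      cases X with
      | none => simp at h
      | some tab1 =>
        have h1 : ∀ e ∈ tab1, e ∈ tab := by
          generalize q0.all (fun q => okq (tb (enc b n) q.1) (tb (enc b n) q.2.1) (tb (enc b n) q.2.2) false) = c at hX
          cases c with
          | false =>
            simp only [cond_false, Option.some.injEq] at hX
            subst hX
            exact fun e he => he
          | true => exact dfs_sub _ _ _ _ _ _ hX
        simp only at h
        rw [hall true hb, cond_true, ← henc] at h
        rw [← hlen]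
        obtain ⟨e, he, hl⟩ := ih (n + 1) tab1 tab' h hrest
        exact ⟨e, h1 e he, hl⟩

theorem chunkOK_spec (l : List (ℕ × List ℕ)) (h : chunkOK l = true) :
    ∀ q ∈ l, isS (dfs good levelsB 10 q.1 q.2) = true := by
  induction l with
  | nil => intro q hq; simp at hq
  | cons a l ih =>
    simp only [chunkOK, Bool.and_eq_true] at h
    intro q hq
    rcases List.mem_cons.1 hq with h1 | h1
    · rw [h1]; exact h.1
    · exact ih h.2 q h1

theorem isS_spec (o : Option (List ℕ)) (h : isS o = true) : ∃ t, o = some t := by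
  cases o with
  | none => simp [isS] at h
  | some t => exact ⟨t, rfl⟩

/-- signed rearrangement -/
def act (v : Fin 7 → Fin 3 → ℝ) (π : Fin 7 → Fin 7) (e : Fin 7 → ℝ) : Fin 7 → Fin 3 → ℝ :=
  fun i => e i • v (π i)

theorem D_act (v : Fin 7 → Fin 3 → ℝ) (π : Fin 7 → Fin 7) (e : Fin 7 → ℝ) (a b c : Fin 7) :
    D (act v π e) a b c = e a * e b * e c * D v (π a) (π b) (π c) := by
  simp only [D, act, det3, Pi.smul_apply, smul_eq_mul]
  ring

def IsSign (x : ℝ) : Prop := x = 1 ∨ x = -1

theorem allk_spec (P : ℕ → Bool) (n : ℕ) (h : allk P n = true) : ∀ k, k < n → P k = true := by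
  induction n with
  | zero => intro k hk; omega
  | succ n ih =>
    simp only [allk, Bool.and_eq_true] at h
    intro k hk
    rcases Nat.lt_succ_iff_lt_or_eq.1 hk with h1 | h1
    · exact ih h.2 k h1
    · rw [h1]; exact h.1

theorem sd_sign (e i : ℕ) : sd e i = 1 ∨ sd e i = -1 := by
  unfold sd
  cases tb e (Nat.add 21 i)
  · left; rfl
  · right; rfl

theorem tabc_lt : ∀ k, k < 35 → nth taL k < 7 ∧ nth tbL k < 7 ∧ nth tcL k < 7 := by decide +kernel

/-- consequence of a good table entry -/
theorem good_spec (e x : ℕ) (h : good e x = true) (u : Fin 7 → Fin 3 → ℝ)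
    (hu : ∀ k, k < 35 → 0 < (sgk x k : ℝ) * pv u k) :
    ∃ (π : Fin 7 → Fin 7) (ε : Fin 7 → ℝ) (r : ℕ), Function.Injective π ∧ (∀ i, IsSign (ε i)) ∧ r < 11 ∧
      ∀ k, k < 35 → 0 < (nthZ (nthL chiL r) k : ℝ) * pv (act u π ε) k := by
  simp only [good, Bool.and_eq_true, Nat.ble_eq] at h
  obtain ⟨⟨hr, hp⟩, hk⟩ := h
  have hpd : ∀ i, i < 7 → pd e i < 7 := by
    intro i hi
    have := allk_spec _ _ hp i hi
    simp only [Bool.and_eq_true, Nat.ble_eq] at this
    omega
  have hinj : ∀ i j, i < 7 → j < i → pd e j ≠ pd e i := by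
    intro i j hi hj
    have := allk_spec _ _ hp i hi
    simp only [Bool.and_eq_true] at this
    have := allk_spec _ _ this.2 j hj
    intro h0
    rw [h0] at this
    simp at this
  refine ⟨fun i => ⟨pd e i, hpd i i.2⟩, fun i => (sd e i : ℝ), rd e, ?_, ?_, by omega, ?_⟩
  · intro i j hij
    have hv : pd e i = pd e j := congrArg Fin.val hij
    rcases lt_trichotomy (i : ℕ) j with h1 | h1 | h1
    · exact absurd hv (hinj j i j.2 h1)
    · exact Fin.ext h1
    · exact absurd hv.symm (hinj i j i.2 h1)
  · intro i
    rcases sd_sign e i with h1 | h1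
    · left; show ((sd e i : ℤ) : ℝ) = 1; rw [h1]; norm_num
    · right; show ((sd e i : ℤ) : ℝ) = -1; rw [h1]; norm_num
  · intro k hk35
    have hg := allk_spec _ _ hk k hk35
    have hg := eqZ_spec _ _ hg
    simp only [imul] at hg
    obtain ⟨ha, hb, hc⟩ := tabc_lt k hk35
    set a := nth taL k with hadef
    set b := nth tbL k with hbdef
    set c := nth tcL k with hcdef
    set π : Fin 7 → Fin 7 := fun i => ⟨pd e i, hpd i i.2⟩ with hπ
    have hpvk : pv (act u π (fun i => (sd e i : ℝ))) k =
        (sd e a : ℝ) * sd e b * sd e c * (sg (pd e a) (pd e b) (pd e c) * pv u (ix (pd e a) (pd e b) (pd e c))) := by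
      have h1 : pv (act u π (fun i => (sd e i : ℝ))) k =
          D (act u π (fun i => (sd e i : ℝ))) ⟨a, ha⟩ ⟨b, hb⟩ ⟨c, hc⟩ := by
        rw [← Dn_val]; rfl
      rw [h1, D_act, ← Dn_val, Dn_eq]
    rw [hpvk]
    have hgR : (nthZ (nthL chiL (rd e)) k : ℝ) * ((sd e a : ℝ) * sd e b * sd e c) *
        sg (pd e a) (pd e b) (pd e c) * sgk x (ix (pd e a) (pd e b) (pd e c)) = 1 := by
      have e1 : (Int.ofNat 1 : ℤ) = 1 := rfl
      rw [e1] at hg
      exact_mod_cast hg
    have hsg0 : sg (pd e a) (pd e b) (pd e c) ≠ 0 := by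
      intro h0
      rw [h0] at hgR
      norm_num at hgR
    have hixlt := ix_lt ⟨pd e a, hpd a ha⟩ ⟨pd e b, hpd b hb⟩ ⟨pd e c, hpd c hc⟩ hsg0
    have hpos := hu _ hixlt
    simp only at hpos
    have hs2 : (sgk x (ix (pd e a) (pd e b) (pd e c)) : ℝ) * sgk x (ix (pd e a) (pd e b) (pd e c)) = 1 := by
      have : sgk x (ix (pd e a) (pd e b) (pd e c)) = 1 ∨ sgk x (ix (pd e a) (pd e b) (pd e c)) = -1 := by
        unfold sgk
        split
        · left; rfl
        · rename_i j _
          cases tb x j
          · right; rfl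
          · left; rfl
      rcases this with h | h <;> rw [h] <;> norm_num
    have hfin : (nthZ (nthL chiL (rd e)) k : ℝ) * ((sd e a : ℝ) * sd e b * sd e c *
        (sg (pd e a) (pd e b) (pd e c) * pv u (ix (pd e a) (pd e b) (pd e c)))) =
        sgk x (ix (pd e a) (pd e b) (pd e c)) * pv u (ix (pd e a) (pd e b) (pd e c)) := by
      calc _ = ((nthZ (nthL chiL (rd e)) k : ℝ) * ((sd e a : ℝ) * sd e b * sd e c) *
          sg (pd e a) (pd e b) (pd e c)) * (sgk x (ix (pd e a) (pd e b) (pd e c)) * sgk x (ix (pd e a) (pd e b) (pd e c)))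
          * pv u (ix (pd e a) (pd e b) (pd e c)) := by rw [hs2]; ring
        _ = ((nthZ (nthL chiL (rd e)) k : ℝ) * ((sd e a : ℝ) * sd e b * sd e c) *
          sg (pd e a) (pd e b) (pd e c) * sgk x (ix (pd e a) (pd e b) (pd e c))) *
          (sgk x (ix (pd e a) (pd e b) (pd e c)) * pv u (ix (pd e a) (pd e b) (pd e c))) := by ring
        _ = _ := by rw [hgR]; ring
    rw [hfin]
    exact hpos

end Pool.Agent.V1197.ZN
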