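import Pool.Agent.V1197.ZN.Gen

namespace Pool.Agent.V1197.ZN
open Filter Topology

noncomputable def sgnR (x : ℝ) : ℝ := if 0 < x then 1 else -1

theorem sgnR_isSign (x : ℝ) : IsSign (sgnR x) := by
  unfold sgnR IsSign
  split_ifs
  · left; rfl
  · right; rfl

theorem sgnR_mul (x : ℝ) (hx : x ≠ 0) : 0 < sgnR x * x := by
  unfold sgnR
  split_ifs with h
  · linarith
  · have : x < 0 := lt_of_le_of_ne (not_lt.1 h) hx
    linarith

theorem normalize (w : Fin 7 → Fin 3 → ℝ) (hg : Gen w) :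
    ∃ (π : Fin 7 → Fin 7) (ε : Fin 7 → ℝ), Function.Injective π ∧ (∀ i, IsSign (ε i)) ∧
      Norm (act w π ε) := by
  set t : Fin 5 → ℝ := fun j => D w 0 1 j.succ.succ with ht
  have ht0 : ∀ j, t j ≠ 0 := by
    intro j
    refine hg _ _ _ (sg_ne _ _ _ (by decide) ?_)
    rw [Fin.lt_def]
    simp
  have h012 : D w 0 1 2 ≠ 0 := hg _ _ _ (by decide)
  set key : Fin 5 → ℝ := fun j => D w 0 1 2 * (D w 0 2 j.succ.succ / t j) with hkey
  set σ := Tuple.sort key with hσ
  have hmono : Monotone (key ∘ σ) := Tuple.monotone_sort key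
  have hrel : ∀ a b : Fin 5, (key b - key a) * (t a * t b) =
      D w 0 1 2 ^ 2 * D w 0 a.succ.succ b.succ.succ := by
    intro a b
    have h1 : D w 0 1 2 * D w 0 a.succ.succ b.succ.succ = t a * D w 0 2 b.succ.succ - t b * D w 0 2 a.succ.succ := by
      simp only [ht, D, det3]; ring
    have e : (key b - key a) * (t a * t b) = D w 0 1 2 * (t a * D w 0 2 b.succ.succ - t b * D w 0 2 a.succ.succ) := by
      simp only [hkey]
      have ha := ht0 a
      have hb := ht0 b
      field_simp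
    rw [e, ← h1]; ring
  have hne : ∀ a b : Fin 5, a ≠ b → D w 0 a.succ.succ b.succ.succ ≠ 0 := by
    intro a b hab
    refine hg _ _ _ ?_
    have h1 : (a : ℕ) ≠ b := fun h => hab (Fin.ext h)
    have : ∀ a b : Fin 5, (a : ℕ) ≠ b → sg ((0 : Fin 7) : ℕ) ((a.succ.succ : Fin 7) : ℕ) ((b.succ.succ : Fin 7) : ℕ) ≠ 0 := by
      decide
    exact this a b h1
  have hpos : ∀ i j : Fin 5, i < j → 0 < sgnR (t (σ i)) * sgnR (t (σ j)) * D w 0 (σ i).succ.succ (σ j).succ.succ := by
    intro i j hij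
    have hle : key (σ i) ≤ key (σ j) := hmono hij.le
    have hr := hrel (σ i) (σ j)
    have hd := hne (σ i) (σ j) (fun h => (ne_of_lt hij) (σ.injective h))
    have ha := sgnR_mul _ (ht0 (σ i))
    have hb := sgnR_mul _ (ht0 (σ j))
    have hsa : sgnR (t (σ i)) ^ 2 = 1 := by
      rcases sgnR_isSign (t (σ i)) with h | h <;> rw [h] <;> norm_num
    have hsb : sgnR (t (σ j)) ^ 2 = 1 := by
      rcases sgnR_isSign (t (σ j)) with h | h <;> rw [h] <;> norm_num
    have h2 : (sgnR (t (σ i)) * sgnR (t (σ j)) * D w 0 (σ i).succ.succ (σ j).succ.succ) * D w 0 1 2 ^ 2 =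
        (key (σ j) - key (σ i)) * ((sgnR (t (σ i)) * t (σ i)) * (sgnR (t (σ j)) * t (σ j))) := by
      calc _ = sgnR (t (σ i)) * sgnR (t (σ j)) * (D w 0 1 2 ^ 2 * D w 0 (σ i).succ.succ (σ j).succ.succ) := by ring
        _ = sgnR (t (σ i)) * sgnR (t (σ j)) * ((key (σ j) - key (σ i)) * (t (σ i) * t (σ j))) := by rw [hr]
        _ = _ := by ring
    have h3 : 0 ≤ (sgnR (t (σ i)) * sgnR (t (σ j)) * D w 0 (σ i).succ.succ (σ j).succ.succ) * D w 0 1 2 ^ 2 := by
      rw [h2]
      exact mul_nonneg (by linarith) (mul_pos ha hb).le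
    have h4 : 0 < D w 0 1 2 ^ 2 := by positivity
    have h5 : 0 ≤ sgnR (t (σ i)) * sgnR (t (σ j)) * D w 0 (σ i).succ.succ (σ j).succ.succ := by
      by_contra hlt
      push Not at hlt
      have := mul_neg_of_neg_of_pos hlt h4
      linarith
    refine lt_of_le_of_ne h5 (Ne.symm ?_)
    refine mul_ne_zero (mul_ne_zero ?_ ?_) hd
    · intro h; rw [h] at hsa; norm_num at hsa
    · intro h; rw [h] at hsb; norm_num at hsb
  refine ⟨Fin.cons 0 (Fin.cons 1 (fun j => (σ j).succ.succ)), Fin.cons 1 (Fin.cons 1 (fun j => sgnR (t (σ j)))), ?_, ?_, ?_⟩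
  · rw [Fin.cons_injective_iff]
    refine ⟨?_, ?_⟩
    · rintro ⟨j, hj⟩
      revert hj
      refine Fin.cases ?_ (fun j => ?_) j
      · intro h
        rw [Fin.cons_zero] at h
        exact absurd h (by decide)
      · intro h
        have h' := congrArg Fin.val h
        simp only [Fin.cons_succ, Fin.val_succ, Fin.val_zero] at h'
        omega
    · rw [Fin.cons_injective_iff]
      refine ⟨?_, ?_⟩
      · rintro ⟨j, hj⟩
        have h' : ((σ j).val + 1) + 1 = 1 := congrArg Fin.val hj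
        omega
      · intro a b h
        exact σ.injective (Fin.succ_injective _ (Fin.succ_injective _ h))
  · intro i
    refine Fin.cases ?_ (fun i => ?_) i
    · left; rfl
    · refine Fin.cases ?_ (fun i => ?_) i
      · left; rfl
      · exact sgnR_isSign _
  · intro i j
    refine Fin.cases ?_ (fun i => ?_) i <;> refine Fin.cases ?_ (fun j => ?_) j
    · intro h; exact absurd h (lt_irrefl _)
    · intro h; exact absurd h (lt_irrefl _)
    · intro _ h
      exfalso
      have h' : (i.succ : Fin 7).val < (0 : Fin 7).val := h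
      simp only [Fin.val_zero] at h'
      omega
    · refine Fin.cases ?_ (fun i => ?_) i <;> refine Fin.cases ?_ (fun j => ?_) j
      · intro _ h; exact absurd h (lt_irrefl _)
      · intro _ _
        rw [D_act]
        have := sgnR_mul _ (ht0 (σ j))
        simpa [Fin.cons_succ, ht] using this
      · intro _ h
        exfalso
        have h' : (i.succ.succ : Fin 7).val < ((0 : Fin 6).succ).val := h
        simp only [Fin.val_succ, Fin.val_zero] at h'
        omega
      · intro _ h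
        rw [D_act]
        have hij : i < j := Fin.succ_lt_succ_iff.1 (Fin.succ_lt_succ_iff.1 h)
        have := hpos i j hij
        simpa [Fin.cons_succ] using this

theorem act_act (v : Fin 7 → Fin 3 → ℝ) (π π' : Fin 7 → Fin 7) (ε ε' : Fin 7 → ℝ) :
    act (act v π ε) π' ε' = act v (π ∘ π') (fun i => ε' i * ε (π' i)) := by
  funext i
  simp only [act, Function.comp, smul_smul]

theorem sg_inj : ∀ a b c : Fin 7, sg a b c ≠ 0 ↔ (a ≠ b ∧ b ≠ c ∧ a ≠ c) := by decide +kernel

theorem IsSign.ne {x : ℝ} (h : IsSign x) : x ≠ 0 := by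
  rcases h with h | h <;> rw [h] <;> norm_num

theorem Gen_act (w : Fin 7 → Fin 3 → ℝ) (hg : Gen w) (π : Fin 7 → Fin 7) (ε : Fin 7 → ℝ)
    (hπ : Function.Injective π) (hε : ∀ i, IsSign (ε i)) : Gen (act w π ε) := by
  intro a b c h
  rw [D_act]
  refine mul_ne_zero (mul_ne_zero (mul_ne_zero (hε a).ne (hε b).ne) (hε c).ne) (hg _ _ _ ?_)
  rw [sg_inj] at h ⊢
  exact ⟨fun h' => h.1 (hπ h'), fun h' => h.2.1 (hπ h'), fun h' => h.2.2 (hπ h')⟩

theorem gen_class (w : Fin 7 → Fin 3 → ℝ) (hg : Gen w) :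
    ∃ (π : Fin 7 → Fin 7) (ε : Fin 7 → ℝ) (r : ℕ), Function.Injective π ∧ (∀ i, IsSign (ε i)) ∧ r < 11 ∧
      ∀ k, k < 35 → 0 < (nthZ (nthL chiL r) k : ℝ) * pv (act w π ε) k := by
  obtain ⟨π, ε, h1, h2, h3⟩ := normalize w hg
  obtain ⟨π', ε', r, g1, g2, g3, g4⟩ := norm_class _ (Gen_act w hg π ε h1 h2) h3
  refine ⟨π ∘ π', fun i => ε' i * ε (π' i), r, h1.comp g1, ?_, g3, ?_⟩
  · intro i
    rcases g2 i with h | h <;> rcases h2 (π' i) with h' | h' <;> simp only [h, h', IsSign] <;> norm_num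
  · intro k hk
    rw [← act_act]
    exact g4 k hk

/-- moment curve -/
def mom (i : Fin 7) : Fin 3 → ℝ := ![1, (i : ℝ), (i : ℝ) ^ 2]

theorem mom_det (a b c : Fin 7) (h : sg a b c ≠ 0) : det3 (mom a) (mom b) (mom c) ≠ 0 := by
  rw [sg_inj] at h
  have e : det3 (mom a) (mom b) (mom c) = ((b : ℝ) - a) * ((c : ℝ) - a) * ((c : ℝ) - b) := by
    simp only [det3, mom, Matrix.cons_val_zero, Matrix.cons_val_one, Matrix.cons_val]
    ring
  rw [e]
  have hne : ∀ a b : Fin 7, a ≠ b → ((b : ℕ) : ℝ) - ((a : ℕ) : ℝ) ≠ 0 := by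
    intro a b hab h0
    have : ((b : ℕ) : ℝ) = ((a : ℕ) : ℝ) := by linarith
    exact hab (Fin.ext (by exact_mod_cast this.symm))
  exact mul_ne_zero (mul_ne_zero (hne _ _ h.1) (hne _ _ h.2.2)) (hne _ _ h.2.1)

theorem pert_ne (v : Fin 7 → Fin 3 → ℝ) (a b c : Fin 7) (h : sg a b c ≠ 0) :
    ∀ᶠ t : ℝ in 𝓝[>] 0, D (fun i => v i + t • mom i) a b c ≠ 0 := by
  have hm := mom_det a b c h
  -- the minor is a cubic polynomial in t
  set d0 := det3 (v a) (v b) (v c) with hd0
  set d1 := det3 (mom a) (v b) (v c) + det3 (v a) (mom b) (v c) + det3 (v a) (v b) (mom c) with hd1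
  set d2 := det3 (mom a) (mom b) (v c) + det3 (mom a) (v b) (mom c) + det3 (v a) (mom b) (mom c) with hd2
  set d3 := det3 (mom a) (mom b) (mom c) with hd3
  have he : ∀ t : ℝ, D (fun i => v i + t • mom i) a b c = d0 + d1 * t + d2 * t ^ 2 + d3 * t ^ 3 := by
    intro t
    simp only [D, hd0, hd1, hd2, hd3, det3, Pi.add_apply, Pi.smul_apply, smul_eq_mul]
    ring
  let P : Polynomial ℝ := Polynomial.C d0 + Polynomial.C d1 * Polynomial.X +
    Polynomial.C d2 * Polynomial.X ^ 2 + Polynomial.C d3 * Polynomial.X ^ 3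
  have hP : P ≠ 0 := by
    intro h0
    have : P.coeff 3 = d3 := by
      simp [P, Polynomial.coeff_X, Polynomial.coeff_C, Polynomial.coeff_X_pow]
    rw [h0] at this
    exact hm (by simpa using this.symm)
  have hfin : {t : ℝ | P.eval t = 0}.Finite := by
    refine (P.roots.toFinset.finite_toSet).subset ?_
    intro t ht
    simp only [Finset.mem_coe, Multiset.mem_toFinset]
    exact (Polynomial.mem_roots hP).2 ht
  have hcl : IsClosed ({t : ℝ | P.eval t = 0} \ {0}) := (hfin.subset Set.diff_subset).isClosed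
  have hev : ∀ᶠ t : ℝ in 𝓝 0, t ∉ ({t : ℝ | P.eval t = 0} \ {0}) :=
    hcl.isOpen_compl.mem_nhds (by simp)
  filter_upwards [hev.filter_mono nhdsWithin_le_nhds, self_mem_nhdsWithin] with t ht htpos
  rw [he]
  intro h0
  apply ht
  refine ⟨?_, ?_⟩
  · show P.eval t = 0
    simp only [P, Polynomial.eval_add, Polynomial.eval_mul, Polynomial.eval_C, Polynomial.eval_X,
      Polynomial.eval_pow]
    exact h0
  · simpa using ne_of_gt (show (0 : ℝ) < t from htpos)

theorem pert_gen (v : Fin 7 → Fin 3 → ℝ) :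
    ∀ᶠ t : ℝ in 𝓝[>] 0, Gen (fun i => v i + t • mom i) := by
  have : ∀ᶠ t : ℝ in 𝓝[>] 0, ∀ x : {x : Fin 7 × Fin 7 × Fin 7 // sg x.1 x.2.1 x.2.2 ≠ 0},
      D (fun i => v i + t • mom i) x.1.1 x.1.2.1 x.1.2.2 ≠ 0 := by
    rw [Filter.eventually_all]
    rintro ⟨⟨a, b, c⟩, h⟩
    exact pert_ne v a b c h
  filter_upwards [this] with t ht a b c h
  exact ht ⟨⟨a, b, c⟩, h⟩

noncomputable def bsg (e : Fin 7 → Bool) (i : Fin 7) : ℝ := if e i then -1 else 1

theorem classify_all (v : Fin 7 → Fin 3 → ℝ) :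
    ∃ (π : Fin 7 → Fin 7) (ε : Fin 7 → ℝ) (r : ℕ), Function.Injective π ∧ (∀ i, IsSign (ε i)) ∧ r < 11 ∧
      ∀ k, k < 35 → 0 ≤ (nthZ (nthL chiL r) k : ℝ) * pv (act v π ε) k := by
  by_contra hno
  push Not at hno
  have key : ∀ x : (Fin 7 → Fin 7) × (Fin 7 → Bool) × Fin 11, ∀ᶠ t : ℝ in 𝓝[>] 0,
      Function.Injective x.1 → ∃ k, k < 35 ∧
        (nthZ (nthL chiL x.2.2) k : ℝ) * pv (act (fun i => v i + t • mom i) x.1 (bsg x.2.1)) k < 0 := by
    rintro ⟨π, e, r⟩
    by_cases hπ : Function.Injective π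
    · obtain ⟨k, hk, hlt⟩ := hno π (bsg e) r hπ (fun i => by
        unfold bsg IsSign
        split_ifs
        · right; rfl
        · left; rfl) r.2
      have hcont : Continuous fun t : ℝ => (nthZ (nthL chiL r) k : ℝ) *
          pv (act (fun i => v i + t • mom i) π (bsg e)) k := by
        simp only [pv, Dn, vN, act, det3, Pi.add_apply, Pi.smul_apply, smul_eq_mul]
        fun_prop
      have hlt0 : (nthZ (nthL chiL r) k : ℝ) * pv (act (fun i => v i + (0 : ℝ) • mom i) π (bsg e)) k < 0 := by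
        simpa using hlt
      have := (hcont.tendsto 0).eventually (gt_mem_nhds hlt0)
      filter_upwards [this.filter_mono nhdsWithin_le_nhds] with t ht _
      exact ⟨k, hk, ht⟩
    · filter_upwards with t h
      exact absurd h hπ
  rw [← Filter.eventually_all] at key
  obtain ⟨t, ht, hgen⟩ := (key.and (pert_gen v)).exists
  obtain ⟨π, ε, r, h1, h2, h3, h4⟩ := gen_class _ hgen
  set e : Fin 7 → Bool := fun i => decide (ε i = -1) with he
  have hbs : bsg e = ε := by
    funext i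
    unfold bsg
    rcases h2 i with h | h
    · rw [if_neg (by simp only [he, h]; norm_num), h]
    · rw [if_pos (by simp only [he, h]; norm_num), h]
  obtain ⟨k, hk, hlt⟩ := ht ⟨π, e, ⟨r, h3⟩⟩ h1
  rw [hbs] at hlt
  exact absurd (h4 k hk) (not_lt.2 hlt.le)

end Pool.Agent.V1197.ZN
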