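import Pool.Agent.V1197.ZN.Zono

namespace Pool.Agent.V1197.ZN
open MeasureTheory Set
open scoped ENNReal

/-- the 3x3 minors of a configuration of seven vectors -/
def D (v : Fin 7 → Fin 3 → ℝ) (a b c : Fin 7) : ℝ := det3 (v a) (v b) (v c)

noncomputable def S1 (v : Fin 7 → Fin 3 → ℝ) : ℝ := ∑ a, ∑ b, ∑ c, |D v a b c|

noncomputable def S2 (v : Fin 7 → Fin 3 → ℝ) : ℝ := ∑ a, ∑ b, ∑ c, (D v a b c) ^ 2

theorem det3_swap12 (u v w : Fin 3 → ℝ) : det3 v u w = - det3 u v w := by
  simp only [det3]; ring

theorem det3_swap23 (u v w : Fin 3 → ℝ) : det3 u w v = - det3 u v w := by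
  simp only [det3]; ring

theorem det3_self12 (u w : Fin 3 → ℝ) : det3 u u w = 0 := by
  simp only [det3]; ring

theorem det3_self23 (u w : Fin 3 → ℝ) : det3 u w w = 0 := by
  simp only [det3]; ring

theorem det3_self13 (u w : Fin 3 → ℝ) : det3 u w u = 0 := by
  simp only [det3]; ring

theorem pair_sum (x : Fin 3 → ℝ) (L : List (Fin 3 → ℝ)) :
    (L.map (fun b => (L.map (fun c => |det3 x b c|)).sum)).sum = 2 * p3 x L := by
  induction L with
  | nil => simp [p3]
  | cons w L ih =>
    simp only [List.map_cons, List.sum_cons, p3, det3_self23, abs_zero, zero_add,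
      List.sum_map_add, ih]
    have : (L.map (fun b => |det3 x b w|)).sum = (L.map (fun b => |det3 x w b|)).sum := by
      congr 1
      refine List.map_congr_left (fun b _ => ?_)
      rw [det3_swap23, abs_neg]
    rw [this]
    ring

theorem triple_sum (L : List (Fin 3 → ℝ)) :
    (L.map (fun a => (L.map (fun b => (L.map (fun c => |det3 a b c|)).sum)).sum)).sum
      = 6 * s3 L := by
  induction L with
  | nil => simp [s3]
  | cons x L ih =>
    have hx := pair_sum x L
    simp only [List.map_cons, List.sum_cons, s3, det3_self12, det3_self23, det3_self13, abs_zero, zero_add,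
      List.sum_map_add, ih, List.map_const', List.sum_replicate, smul_zero] at hx ⊢
    have h1 : (L.map (fun a => (L.map (fun c => |det3 a x c|)).sum)).sum = 2 * p3 x L := by
      rw [← hx]
      congr 1
      refine List.map_congr_left (fun a _ => ?_)
      congr 1
      refine List.map_congr_left (fun c _ => ?_)
      rw [det3_swap12, abs_neg]
    have h2 : (L.map (fun a => (L.map (fun b => |det3 a b x|)).sum)).sum = 2 * p3 x L := by
      rw [← hx]
      congr 1
      refine List.map_congr_left (fun a _ => ?_)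
      congr 1
      refine List.map_congr_left (fun b _ => ?_)
      rw [det3_swap23, abs_neg, det3_swap12, abs_neg]
    rw [h1, h2, hx]
    ring

theorem S1_eq (v : Fin 7 → Fin 3 → ℝ) : S1 v = 6 * s3 (List.ofFn v) := by
  rw [← triple_sum, S1]
  simp only [List.map_ofFn, List.sum_ofFn, Function.comp, D]

/-- members of the zonotope -/
theorem mem_Zn_ofFn {d n : ℕ} (v : Fin n → Fin d → ℝ) (x : Fin d → ℝ) :
    x ∈ Zn (List.ofFn v) ↔ ∃ t : Fin n → ℝ, (∀ i, t i ∈ Icc (0 : ℝ) 1) ∧ x = ∑ i, t i • v i := by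
  induction n generalizing x with
  | zero =>
    simp only [List.ofFn_zero, Zn, Set.mem_singleton_iff, Finset.univ_eq_empty, Finset.sum_empty]
    constructor
    · intro h; exact ⟨fun _ => 0, fun i => i.elim0, h⟩
    · rintro ⟨_, _, h⟩; exact h
  | succ n ih =>
    simp only [List.ofFn_succ, Zn, Set.mem_add]
    constructor
    · rintro ⟨a, ha, b, hb, rfl⟩
      obtain ⟨t, ht, rfl⟩ := (ih (fun i => v i.succ) a).1 ha
      rw [segment_eq_image] at hb
      obtain ⟨s, hs, rfl⟩ := hb
      refine ⟨Fin.cons s t, ?_, ?_⟩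
      · intro i
        refine Fin.cases ?_ (fun j => ?_) i
        · simpa using hs
        · simpa using ht j
      · rw [Fin.sum_univ_succ]
        simp only [Fin.cons_zero, Fin.cons_succ, smul_zero, zero_add]
        rw [add_comm]
    · rintro ⟨t, ht, rfl⟩
      refine ⟨∑ i : Fin n, t i.succ • v i.succ, (ih _ _).2 ⟨fun i => t i.succ, fun i => ht _, rfl⟩,
        t 0 • v 0, ?_, ?_⟩
      · rw [segment_eq_image]
        exact ⟨t 0, ht 0, by simp⟩
      · rw [Fin.sum_univ_succ, add_comm]

/-- the unit cube -/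
def cube (n : ℕ) : Set (EuclideanSpace ℝ (Fin n)) := {x | ∀ i, x i ∈ Icc (0 : ℝ) 1}

/-- volume of the projection of the unit cube to a subspace -/
noncomputable def shadow {n : ℕ} (H : Submodule ℝ (EuclideanSpace ℝ (Fin n))) : ℝ≥0∞ :=
  volume ((fun x => H.orthogonalProjectionOnto x) '' cube n)

theorem basis_volume (H : Submodule ℝ (EuclideanSpace ℝ (Fin 7))) (b : OrthonormalBasis (Fin 3) ℝ H)
    (v : Fin 7 → Fin 3 → ℝ) (hv : ∀ i a, v i a = (b a : EuclideanSpace ℝ (Fin 7)) i) :
    shadow H = ENNReal.ofReal (S1 v / 6) := by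
  have hS : S1 v / 6 = s3 (List.ofFn v) := by rw [S1_eq]; ring
  rw [hS, ← vol3]
  have m1 := b.measurePreserving_repr
  have m2 := PiLp.volume_preserving_ofLp (Fin 3)
  have m := m2.comp m1
  set e : H ≃ᵐ (Fin 3 → ℝ) := (b.repr.toHomeomorph.toMeasurableEquiv).trans
    (MeasurableEquiv.toLp 2 (Fin 3 → ℝ)).symm with he
  have hme : MeasurePreserving e := m
  have key : e '' ((fun x => H.orthogonalProjectionOnto x) '' cube 7) = Zn (List.ofFn v) := by
    ext y
    rw [mem_Zn_ofFn]
    have hco : ∀ x : EuclideanSpace ℝ (Fin 7), e (H.orthogonalProjectionOnto x) = ∑ i, x i • v i := by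
      intro x
      funext a
      have h1 : e (H.orthogonalProjectionOnto x) a = b.repr (H.orthogonalProjectionOnto x) a := rfl
      rw [h1, OrthonormalBasis.repr_apply_apply]
      have h2 : inner ℝ (b a) (H.orthogonalProjectionOnto x) = inner ℝ (b a : EuclideanSpace ℝ (Fin 7)) x := by
        exact Submodule.inner_orthogonalProjectionOnto_eq_of_mem_left (b a) x
      rw [h2, PiLp.inner_apply]
      simp only [Finset.sum_apply, Pi.smul_apply, smul_eq_mul, hv]
      refine Finset.sum_congr rfl (fun i _ => ?_)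
      simp [mul_comm]
    constructor
    · rintro ⟨_, ⟨x, hx, rfl⟩, rfl⟩
      exact ⟨fun i => x i, hx, hco x⟩
    · rintro ⟨t, ht, rfl⟩
      exact ⟨_, ⟨WithLp.toLp 2 t, ht, rfl⟩, hco _⟩
  rw [← key, shadow, ← hme.measure_preimage_equiv]
  congr 1
  exact (e.preimage_image _).symm

end Pool.Agent.V1197.ZN
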