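import Pool.Agent.V1197.ZN.Cert

namespace Pool.Agent.V1197.ZN

def cls0 : Cls where
  chi := [.ofNat 1, .ofNat 1, .ofNat 1, .ofNat 1, .ofNat 1, .ofNat 1, .ofNat 1, .ofNat 1, .ofNat 1, .ofNat 1, .ofNat 1, .ofNat 1, .ofNat 1, .ofNat 1, .ofNat 1, .ofNat 1, .ofNat 1, .ofNat 1, .ofNat 1, .ofNat 1, .ofNat 1, .ofNat 1, .ofNat 1, .ofNat 1, .ofNat 1, .ofNat 1, .ofNat 1, .ofNat 1, .ofNat 1, .ofNat 1, .ofNat 1, .ofNat 1, .ofNat 1, .ofNat 1, .ofNat 1]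
  mu := [.ofNat 300, .ofNat 300, .ofNat 300, .ofNat 300, .negSucc 42, .ofNat 300, .ofNat 300, .ofNat 276, .negSucc 42, .ofNat 300, .ofNat 300, .ofNat 300, .ofNat 300, .ofNat 300, .ofNat 300, .negSucc 299, .ofNat 43, .negSucc 299, .negSucc 275, .ofNat 43, .negSucc 299, .negSucc 299, .negSucc 299, .negSucc 299, .negSucc 299, .ofNat 300, .ofNat 300, .ofNat 300, .ofNat 300, .ofNat 300, .ofNat 300, .negSucc 42, .ofNat 300, .ofNat 300, .ofNat 300, .ofNat 300, .negSucc 299, .negSucc 299, .negSucc 299, .negSucc 299, .negSucc 299, .ofNat 43, .negSucc 275, .negSucc 299, .ofNat 300, .negSucc 299, .negSucc 299, .negSucc 299, .ofNat 300, .ofNat 300, .ofNat 300, .negSucc 42, .ofNat 276, .ofNat 300, .negSucc 299, .ofNat 300, .negSucc 42, .ofNat 300, .negSucc 299, .negSucc 299, .ofNat 300, .negSucc 299, .negSucc 299, .negSucc 275, .negSucc 299, .ofNat 300, .ofNat 43, .negSucc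 299, .ofNat 300, .ofNat 300, .negSucc 299, .negSucc 299, .ofNat 300, .negSucc 42, .ofNat 300, .ofNat 300, .ofNat 300, .negSucc 299, .ofNat 300, .negSucc 299, .negSucc 299, .ofNat 300, .negSucc 299, .ofNat 43, .negSucc 299, .ofNat 300, .negSucc 299, .negSucc 275, .ofNat 43, .negSucc 299, .ofNat 300, .ofNat 300, .ofNat 300, .ofNat 300, .negSucc 42, .ofNat 300, .ofNat 300, .ofNat 276, .negSucc 42, .ofNat 300, .ofNat 300, .ofNat 300, .ofNat 300, .ofNat 300, .ofNat 300]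
  om := [.ofNat 0, .ofNat 0, .ofNat 0, .ofNat 0, .ofNat 0, .ofNat 0, .ofNat 0]
  kap := 5
  s := 1000
  del := 120000
  eta := 4368
  L := [
    [.ofNat 0, .ofNat 0, .ofNat 1, .negSucc 0, .ofNat 0, .ofNat 1, .negSucc 0, .ofNat 1, .negSucc 0, .ofNat 0, .ofNat 0, .ofNat 1, .negSucc 0, .ofNat 1, .negSucc 0, .ofNat 0, .ofNat 1, .negSucc 0, .ofNat 0, .ofNat 0, .ofNat 0, .ofNat 1, .negSucc 0, .ofNat 1, .negSucc 0, .ofNat 0, .ofNat 1, .negSucc 0, .ofNat 0, .ofNat 0, .ofNat 1, .negSucc 0],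
    [.ofNat 0, .negSucc 0, .ofNat 0, .ofNat 1, .negSucc 0, .ofNat 0, .ofNat 1, .ofNat 1, .ofNat 0, .negSucc 0, .negSucc 0, .ofNat 0, .ofNat 1, .ofNat 1, .ofNat 0, .negSucc 0, .ofNat 1, .ofNat 0, .negSucc 0, .ofNat 0, .negSucc 0, .ofNat 0, .ofNat 1, .ofNat 1, .ofNat 0, .negSucc 0, .ofNat 1, .ofNat 0, .negSucc 0, .ofNat 0, .ofNat 1, .ofNat 0, .negSucc 0],
    [.ofNat 1, .ofNat 0, .ofNat 0, .negSucc 0, .negSucc 0, .negSucc 0, .ofNat 0, .ofNat 0, .ofNat 1, .ofNat 1, .negSucc 0, .negSucc 0, .ofNat 0, .ofNat 0, .ofNat 1, .ofNat 1, .ofNat 1, .ofNat 0, .ofNat 0, .negSucc 0, .negSucc 0, .negSucc 0, .ofNat 0, .ofNat 0, .ofNat 1, .ofNat 1, .ofNat 1, .ofNat 0, .ofNat 0, .negSucc 0, .ofNat 1, .ofNat 0, .ofNat 0, .negSucc 0],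
    [.ofNat 1, .ofNat 1, .ofNat 1, .ofNat 0, .ofNat 0, .ofNat 0, .negSucc 0, .ofNat 0, .negSucc 0, .negSucc 0, .negSucc 0, .negSucc 0, .ofNat 0, .negSucc 0, .ofNat 0, .ofNat 0, .ofNat 0, .ofNat 1, .ofNat 1, .ofNat 1, .negSucc 0, .negSucc 0, .ofNat 0, .negSucc 0, .ofNat 0, .ofNat 0, .ofNat 0, .ofNat 1, .ofNat 1, .ofNat 1, .ofNat 1, .ofNat 0, .ofNat 0, .ofNat 0, .negSucc 0],
    [.ofNat 1, .ofNat 1, .ofNat 1, .ofNat 0, .ofNat 1, .ofNat 1, .ofNat 0, .ofNat 1, .ofNat 0, .ofNat 0, .ofNat 0, .ofNat 0, .negSucc 0, .ofNat 0, .negSucc 0, .negSucc 0, .ofNat 0, .negSucc 0, .negSucc 0, .negSucc 0, .negSucc 0, .negSucc 0, .ofNat 0, .negSucc 0, .ofNat 0, .ofNat 0, .negSucc 0, .ofNat 0, .ofNat 0, .ofNat 0, .ofNat 0, .ofNat 1, .ofNat 1, .ofNat 1, .ofNat 1],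
    [.ofNat 1, .ofNat 1, .ofNat 1, .ofNat 0, .ofNat 1, .ofNat 1, .ofNat 0, .ofNat 1, .ofNat 0, .ofNat 0, .ofNat 1, .ofNat 1, .ofNat 0, .ofNat 1, .ofNat 0, .ofNat 0, .ofNat 1, .ofNat 0, .ofNat 0, .ofNat 0, .ofNat 0, .ofNat 0, .negSucc 0, .ofNat 0, .negSucc 0, .negSucc 0, .ofNat 0, .negSucc 0, .negSucc 0, .negSucc 0, .ofNat 0, .negSucc 0, .negSucc 0, .negSucc 0, .negSucc 0],
    [.ofNat 0, .ofNat 1, .negSucc 0, .ofNat 0, .ofNat 1, .negSucc 0, .ofNat 0, .ofNat 0, .ofNat 1, .negSucc 0, .ofNat 1, .negSucc 0, .ofNat 0, .ofNat 0, .ofNat 1, .negSucc 0, .ofNat 0, .ofNat 1, .negSucc 0, .ofNat 0, .ofNat 1, .negSucc 0, .ofNat 0, .ofNat 0, .ofNat 1, .negSucc 0, .ofNat 0, .ofNat 1, .negSucc 0, .ofNat 0, .ofNat 0, .ofNat 1, .negSucc 0],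
    [.negSucc 0, .ofNat 0, .ofNat 1, .ofNat 0, .ofNat 1, .ofNat 0, .negSucc 0, .negSucc 0, .ofNat 0, .ofNat 1, .ofNat 1, .ofNat 0, .negSucc 0, .negSucc 0, .ofNat 0, .ofNat 1, .ofNat 0, .ofNat 1, .ofNat 0, .negSucc 0, .ofNat 1, .ofNat 0, .negSucc 0, .negSucc 0, .ofNat 0, .ofNat 1, .ofNat 0, .ofNat 1, .ofNat 0, .negSucc 0, .ofNat 0, .ofNat 1, .ofNat 0, .negSucc 0],
    [.negSucc 0, .negSucc 0, .ofNat 0, .ofNat 1, .ofNat 0, .ofNat 1, .ofNat 0, .ofNat 1, .ofNat 0, .negSucc 0, .ofNat 1, .ofNat 0, .negSucc 0, .ofNat 0, .negSucc 0, .ofNat 0, .negSucc 0, .ofNat 0, .ofNat 1, .ofNat 1, .ofNat 1, .ofNat 0, .negSucc 0, .ofNat 0, .negSucc 0, .ofNat 0, .negSucc 0, .ofNat 0, .ofNat 1, .ofNat 1, .ofNat 0, .ofNat 1, .ofNat 0, .ofNat 0, .negSucc 0],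
    [.negSucc 0, .negSucc 0, .ofNat 0, .ofNat 1, .negSucc 0, .ofNat 0, .ofNat 1, .ofNat 0, .ofNat 1, .ofNat 0, .ofNat 0, .ofNat 1, .ofNat 0, .ofNat 1, .ofNat 0, .negSucc 0, .ofNat 1, .ofNat 0, .negSucc 0, .negSucc 0, .ofNat 1, .ofNat 0, .negSucc 0, .ofNat 0, .negSucc 0, .ofNat 0, .ofNat 0, .negSucc 0, .ofNat 0, .ofNat 0, .negSucc 0, .ofNat 0, .ofNat 1, .ofNat 1, .ofNat 1],
    [.negSucc 0, .negSucc 0, .ofNat 0, .ofNat 1, .negSucc 0, .ofNat 0, .ofNat 1, .ofNat 0, .ofNat 1, .ofNat 0, .negSucc 0, .ofNat 0, .ofNat 1, .ofNat 0, .ofNat 1, .ofNat 0, .ofNat 0, .ofNat 1, .ofNat 0, .ofNat 0, .ofNat 0, .ofNat 1, .ofNat 0, .ofNat 1, .ofNat 0, .negSucc 0, .ofNat 1, .ofNat 0, .negSucc 0, .negSucc 0, .ofNat 1, .ofNat 0, .negSucc 0, .negSucc 0, .negSucc 0],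
    [.ofNat 1, .negSucc 0, .ofNat 0, .ofNat 0, .ofNat 0, .ofNat 1, .ofNat 1, .negSucc 0, .negSucc 0, .ofNat 0, .ofNat 0, .ofNat 1, .ofNat 1, .negSucc 0, .negSucc 0, .ofNat 0, .ofNat 0, .ofNat 0, .ofNat 1, .negSucc 0, .ofNat 0, .ofNat 1, .ofNat 1, .negSucc 0, .negSucc 0, .ofNat 0, .ofNat 0, .ofNat 0, .ofNat 1, .negSucc 0, .ofNat 0, .ofNat 0, .ofNat 1, .negSucc 0],
    [.ofNat 1, .ofNat 0, .negSucc 0, .negSucc 0, .negSucc 0, .ofNat 0, .ofNat 0, .ofNat 1, .ofNat 1, .ofNat 0, .ofNat 0, .ofNat 1, .ofNat 1, .ofNat 0, .ofNat 0, .negSucc 0, .negSucc 0, .negSucc 0, .ofNat 0, .ofNat 1, .ofNat 0, .ofNat 1, .ofNat 1, .ofNat 0, .ofNat 0, .negSucc 0, .negSucc 0, .negSucc 0, .ofNat 0, .ofNat 1, .ofNat 0, .ofNat 0, .ofNat 1, .ofNat 0, .negSucc 0],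
    [.ofNat 1, .ofNat 0, .negSucc 0, .negSucc 0, .ofNat 0, .negSucc 0, .negSucc 0, .ofNat 0, .ofNat 0, .ofNat 1, .negSucc 0, .ofNat 0, .ofNat 0, .ofNat 1, .ofNat 1, .ofNat 0, .ofNat 1, .ofNat 1, .ofNat 0, .negSucc 0, .ofNat 0, .ofNat 1, .ofNat 1, .ofNat 0, .ofNat 0, .negSucc 0, .ofNat 0, .ofNat 0, .negSucc 0, .ofNat 0, .negSucc 0, .negSucc 0, .ofNat 0, .ofNat 1, .ofNat 1],
    [.ofNat 1, .ofNat 0, .negSucc 0, .negSucc 0, .ofNat 0, .negSucc 0, .negSucc 0, .ofNat 0, .ofNat 0, .ofNat 1, .ofNat 0, .negSucc 0, .negSucc 0, .ofNat 0, .ofNat 0, .ofNat 1, .ofNat 0, .ofNat 0, .ofNat 1, .ofNat 0, .negSucc 0, .ofNat 0, .ofNat 0, .ofNat 1, .ofNat 1, .ofNat 0, .ofNat 1, .ofNat 1, .ofNat 0, .negSucc 0, .ofNat 1, .ofNat 1, .ofNat 0, .negSucc 0, .negSucc 0],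
    [.ofNat 0, .ofNat 1, .ofNat 1, .ofNat 1, .negSucc 0, .negSucc 0, .negSucc 0, .ofNat 0, .ofNat 0, .ofNat 0, .ofNat 0, .ofNat 0, .ofNat 0, .ofNat 1, .ofNat 1, .ofNat 1, .negSucc 0, .negSucc 0, .negSucc 0, .ofNat 0, .ofNat 0, .ofNat 0, .ofNat 0, .ofNat 1, .ofNat 1, .ofNat 1, .negSucc 0, .negSucc 0, .negSucc 0, .ofNat 0, .ofNat 0, .ofNat 0, .ofNat 0, .ofNat 1, .negSucc 0],
    [.ofNat 0, .ofNat 1, .ofNat 1, .ofNat 1, .ofNat 0, .ofNat 0, .ofNat 0, .negSucc 0, .negSucc 0, .negSucc 0, .negSucc 0, .negSucc 0, .negSucc 0, .ofNat 0, .ofNat 0, .ofNat 0, .ofNat 1, .ofNat 1, .ofNat 1, .ofNat 0, .ofNat 0, .ofNat 0, .ofNat 0, .ofNat 1, .ofNat 1, .ofNat 1, .ofNat 0, .ofNat 0, .ofNat 0, .negSucc 0, .negSucc 0, .negSucc 0, .negSucc 0, .ofNat 0, .ofNat 1],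
    [.ofNat 0, .ofNat 1, .ofNat 1, .ofNat 1, .ofNat 0, .ofNat 0, .ofNat 0, .negSucc 0, .negSucc 0, .negSucc 0, .ofNat 0, .ofNat 0, .ofNat 0, .negSucc 0, .negSucc 0, .negSucc 0, .ofNat 0, .ofNat 0, .ofNat 0, .ofNat 1, .negSucc 0, .negSucc 0, .negSucc 0, .ofNat 0, .ofNat 0, .ofNat 0, .ofNat 1, .ofNat 1, .ofNat 1, .ofNat 0, .ofNat 1, .ofNat 1, .ofNat 1, .ofNat 0, .negSucc 0],
    [.ofNat 0, .ofNat 0, .ofNat 0, .ofNat 0, .ofNat 1, .ofNat 1, .ofNat 1, .ofNat 1, .ofNat 1, .ofNat 1, .negSucc 0, .negSucc 0, .negSucc 0, .negSucc 0, .negSucc 0, .negSucc 0, .ofNat 0, .ofNat 0, .ofNat 0, .ofNat 0, .ofNat 0, .ofNat 0, .ofNat 0, .ofNat 0, .ofNat 0, .ofNat 0, .ofNat 1, .ofNat 1, .ofNat 1, .ofNat 1, .negSucc 0, .negSucc 0, .negSucc 0, .negSucc 0, .ofNat 0],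
    [.ofNat 0, .ofNat 0, .ofNat 0, .ofNat 0, .ofNat 1, .ofNat 1, .ofNat 1, .ofNat 1, .ofNat 1, .ofNat 1, .ofNat 0, .ofNat 0, .ofNat 0, .ofNat 0, .ofNat 0, .ofNat 0, .negSucc 0, .negSucc 0, .negSucc 0, .negSucc 0, .negSucc 0, .negSucc 0, .negSucc 0, .negSucc 0, .negSucc 0, .negSucc 0, .ofNat 0, .ofNat 0, .ofNat 0, .ofNat 0, .ofNat 1, .ofNat 1, .ofNat 1, .ofNat 1, .ofNat 0],
    [.ofNat 0, .ofNat 0, .ofNat 0, .ofNat 0, .ofNat 0, .ofNat 0, .ofNat 0, .ofNat 0, .ofNat 0, .ofNat 0, .ofNat 1, .ofNat 1, .ofNat 1, .ofNat 1, .ofNat 1, .ofNat 1, .ofNat 1, .ofNat 1, .ofNat 1, .ofNat 1, .negSucc 0, .negSucc 0, .negSucc 0, .negSucc 0, .negSucc 0, .negSucc 0, .negSucc 0, .negSucc 0, .negSucc 0, .negSucc 0, .ofNat 0, .ofNat 0, .ofNat 0, .ofNat 0, .ofNat 0],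
    [.ofNat 0, .ofNat 0, .negSucc 0, .ofNat 1, .ofNat 0, .negSucc 0, .ofNat 1, .negSucc 0, .ofNat 1, .ofNat 0, .ofNat 0, .negSucc 0, .ofNat 1, .negSucc 0, .ofNat 1, .ofNat 0, .negSucc 0, .ofNat 1, .ofNat 0, .ofNat 0, .ofNat 0, .negSucc 0, .ofNat 1, .negSucc 0, .ofNat 1, .ofNat 0, .negSucc 0, .ofNat 1, .ofNat 0, .ofNat 0, .negSucc 0, .ofNat 1],
    [.ofNat 0, .negSucc 0, .ofNat 0, .ofNat 1, .negSucc 0, .ofNat 0, .ofNat 1, .negSucc 0, .ofNat 0, .ofNat 1, .negSucc 0, .ofNat 0, .ofNat 1, .negSucc 0, .ofNat 0, .ofNat 1, .negSucc 0, .ofNat 0, .ofNat 1, .ofNat 0, .negSucc 0, .ofNat 0, .ofNat 1, .negSucc 0, .ofNat 0, .ofNat 1, .negSucc 0, .ofNat 0, .ofNat 1, .ofNat 0, .negSucc 0, .ofNat 0, .ofNat 1],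
    [.negSucc 0, .ofNat 0, .ofNat 0, .ofNat 1, .negSucc 0, .negSucc 0, .ofNat 0, .ofNat 0, .ofNat 1, .ofNat 1, .negSucc 0, .negSucc 0, .ofNat 0, .ofNat 0, .ofNat 1, .ofNat 1, .negSucc 0, .ofNat 0, .ofNat 0, .ofNat 1, .negSucc 0, .negSucc 0, .ofNat 0, .ofNat 0, .ofNat 1, .ofNat 1, .negSucc 0, .ofNat 0, .ofNat 0, .ofNat 1, .negSucc 0, .ofNat 0, .ofNat 0, .ofNat 1],
    [.negSucc 0, .negSucc 0, .negSucc 0, .ofNat 0, .ofNat 0, .ofNat 0, .ofNat 1, .ofNat 0, .ofNat 1, .ofNat 1, .negSucc 0, .negSucc 0, .ofNat 0, .negSucc 0, .ofNat 0, .ofNat 0, .ofNat 0, .ofNat 1, .ofNat 1, .ofNat 1, .negSucc 0, .negSucc 0, .ofNat 0, .negSucc 0, .ofNat 0, .ofNat 0, .ofNat 0, .ofNat 1, .ofNat 1, .ofNat 1, .negSucc 0, .ofNat 0, .ofNat 0, .ofNat 0, .ofNat 1],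
    [.negSucc 0, .negSucc 0, .negSucc 0, .ofNat 0, .negSucc 0, .negSucc 0, .ofNat 0, .negSucc 0, .ofNat 0, .ofNat 0, .ofNat 0, .ofNat 0, .ofNat 1, .ofNat 0, .ofNat 1, .ofNat 1, .ofNat 0, .ofNat 1, .ofNat 1, .ofNat 1, .negSucc 0, .negSucc 0, .ofNat 0, .negSucc 0, .ofNat 0, .ofNat 0, .negSucc 0, .ofNat 0, .ofNat 0, .ofNat 0, .ofNat 0, .ofNat 1, .ofNat 1, .ofNat 1, .ofNat 1],
    [.negSucc 0, .negSucc 0, .negSucc 0, .ofNat 0, .negSucc 0, .negSucc 0, .ofNat 0, .negSucc 0, .ofNat 0, .ofNat 0, .negSucc 0, .negSucc 0, .ofNat 0, .negSucc 0, .ofNat 0, .ofNat 0, .negSucc 0, .ofNat 0, .ofNat 0, .ofNat 0, .ofNat 0, .ofNat 0, .ofNat 1, .ofNat 0, .ofNat 1, .ofNat 1, .ofNat 0, .ofNat 1, .ofNat 1, .ofNat 1, .ofNat 0, .ofNat 1, .ofNat 1, .ofNat 1, .ofNat 1]]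
  U := [
    [.ofNat 2111],
    [.negSucc 892, .ofNat 1709],
    [.negSucc 510, .negSucc 1028, .ofNat 1996],
    [.negSucc 237, .negSucc 396, .negSucc 385, .ofNat 2363],
    [.negSucc 390, .negSucc 820, .negSucc 733, .negSucc 294, .ofNat 1964],
    [.negSucc 291, .negSucc 717, .negSucc 684, .negSucc 223, .negSucc 875, .ofNat 1993],
    [.negSucc 153, .negSucc 382, .negSucc 425, .negSucc 173, .negSucc 377, .negSucc 439, .ofNat 2346],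
    [.negSucc 41, .negSucc 285, .negSucc 374, .negSucc 124, .negSucc 486, .negSucc 599, .negSucc 222, .ofNat 2224],
    [.negSucc 19, .negSucc 201, .negSucc 338, .negSucc 164, .negSucc 249, .negSucc 436, .negSucc 199, .negSucc 287, .ofNat 2365],
    [.ofNat 23, .negSucc 19, .negSucc 141, .negSucc 136, .negSucc 40, .negSucc 203, .negSucc 144, .negSucc 180, .negSucc 122, .ofNat 2416],
    [.negSucc 166, .negSucc 244, .negSucc 139, .negSucc 205, .negSucc 354, .negSucc 293, .negSucc 133, .negSucc 247, .negSucc 95, .negSucc 167, .ofNat 2301],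
    [.negSucc 147, .negSucc 360, .negSucc 274, .negSucc 206, .negSucc 500, .negSucc 461, .negSucc 152, .negSucc 318, .negSucc 271, .negSucc 47, .negSucc 370, .ofNat 2238],
    [.negSucc 106, .negSucc 129, .negSucc 172, .negSucc 121, .negSucc 349, .negSucc 408, .negSucc 183, .negSucc 302, .negSucc 59, .negSucc 8, .negSucc 239, .negSucc 299, .ofNat 2371],
    [.ofNat 0, .negSucc 146, .negSucc 190, .negSucc 17, .negSucc 381, .negSucc 463, .negSucc 232, .negSucc 338, .negSucc 108, .negSucc 186, .negSucc 274, .negSucc 376, .negSucc 159, .ofNat 2284],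
    [.negSucc 143, .negSucc 114, .negSucc 270, .negSucc 107, .negSucc 292, .negSucc 242, .negSucc 268, .negSucc 369, .negSucc 186, .ofNat 15, .negSucc 190, .negSucc 383, .negSucc 196, .negSucc 280, .ofNat 2363],
    [.negSucc 126, .ofNat 32, .negSucc 75, .negSucc 99, .negSucc 108, .negSucc 263, .negSucc 235, .negSucc 138, .negSucc 254, .negSucc 89, .ofNat 2, .negSucc 143, .negSucc 134, .negSucc 170, .negSucc 146, .ofNat 2419],
    [.ofNat 16, .ofNat 14, .negSucc 0, .negSucc 116, .negSucc 131, .negSucc 199, .negSucc 15, .negSucc 215, .negSucc 60, .negSucc 144, .negSucc 193, .negSucc 235, .negSucc 78, .negSucc 256, .negSucc 107, .negSucc 42, .ofNat 2364],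
    [.ofNat 13, .ofNat 4, .negSucc 109, .ofNat 43, .negSucc 113, .negSucc 276, .negSucc 98, .negSucc 283, .negSucc 140, .ofNat 29, .negSucc 127, .negSucc 304, .negSucc 140, .negSucc 303, .negSucc 161, .negSucc 1, .negSucc 160, .ofNat 2414],
    [.ofNat 23, .negSucc 107, .ofNat 33, .ofNat 26, .ofNat 9, .negSucc 106, .negSucc 112, .negSucc 105, .negSucc 246, .negSucc 96, .ofNat 13, .negSucc 123, .negSucc 106, .negSucc 284, .negSucc 256, .negSucc 110, .negSucc 150, .negSucc 106, .ofNat 2418],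
    [.negSucc 115, .ofNat 27, .negSucc 121, .ofNat 51, .ofNat 17, .negSucc 128, .ofNat 37, .negSucc 86, .negSucc 84, .negSucc 94, .ofNat 13, .ofNat 18, .ofNat 43, .negSucc 103, .negSucc 101, .negSucc 86, .negSucc 121, .negSucc 85, .negSucc 77, .ofNat 2439],
    [.negSucc 101, .negSucc 103, .ofNat 14, .ofNat 39, .negSucc 106, .negSucc 140, .negSucc 127, .ofNat 3, .ofNat 36, .negSucc 95, .negSucc 120, .ofNat 0, .ofNat 6, .negSucc 139, .ofNat 16, .negSucc 90, .ofNat 0, .ofNat 29, .negSucc 103, .negSucc 102, .ofNat 2438],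
    [.negSucc 85, .negSucc 246, .negSucc 137, .ofNat 14, .negSucc 121, .negSucc 153, .negSucc 4, .negSucc 47, .negSucc 128, .ofNat 20, .negSucc 295, .negSucc 180, .negSucc 48, .negSucc 60, .negSucc 165, .ofNat 18, .negSucc 51, .negSucc 138, .ofNat 17, .negSucc 104, .negSucc 105, .ofNat 2403],
    [.negSucc 65, .negSucc 215, .negSucc 233, .negSucc 83, .negSucc 88, .negSucc 237, .negSucc 86, .negSucc 124, .ofNat 29, .negSucc 104, .negSucc 237, .negSucc 236, .negSucc 99, .negSucc 119, .ofNat 23, .ofNat 21, .negSucc 112, .ofNat 25, .ofNat 47, .negSucc 81, .negSucc 88, .negSucc 101, .ofNat 2445],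
    [.ofNat 31, .negSucc 93, .negSucc 91, .ofNat 23, .negSucc 240, .negSucc 263, .negSucc 122, .negSucc 159, .negSucc 11, .ofNat 9, .negSucc 132, .negSucc 290, .negSucc 173, .negSucc 171, .negSucc 49, .negSucc 19, .negSucc 55, .negSucc 153, .negSucc 131, .ofNat 35, .negSucc 96, .negSucc 138, .ofNat 13, .ofNat 2407],
    [.ofNat 42, .negSucc 87, .negSucc 210, .negSucc 90, .negSucc 225, .negSucc 130, .negSucc 226, .negSucc 265, .negSucc 112, .negSucc 110, .negSucc 243, .negSucc 158, .negSucc 253, .negSucc 279, .negSucc 125, .ofNat 5, .negSucc 160, .negSucc 4, .negSucc 116, .ofNat 41, .negSucc 93, .negSucc 251, .negSucc 86, .negSucc 141, .ofNat 2425],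
    [.ofNat 32, .ofNat 39, .negSucc 65, .negSucc 77, .negSucc 92, .negSucc 210, .negSucc 72, .negSucc 215, .negSucc 77, .negSucc 77, .negSucc 85, .negSucc 215, .negSucc 209, .negSucc 226, .negSucc 217, .negSucc 84, .negSucc 102, .negSucc 97, .ofNat 29, .ofNat 41, .ofNat 45, .negSucc 78, .negSucc 79, .negSucc 94, .negSucc 82, .ofNat 2449],
    [.negSucc 109, .ofNat 27, .ofNat 38, .negSucc 93, .negSucc 84, .negSucc 102, .ofNat 31, .negSucc 106, .ofNat 17, .ofNat 33, .negSucc 234, .negSucc 255, .negSucc 117, .negSucc 263, .negSucc 141, .negSucc 117, .negSucc 148, .negSucc 0, .negSucc 3, .ofNat 9, .negSucc 101, .negSucc 117, .ofNat 28, .negSucc 116, .negSucc 1, .ofNat 28, .ofNat 2424],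
    [.negSucc 112, .ofNat 33, .negSucc 87, .ofNat 42, .negSucc 84, .negSucc 221, .negSucc 81, .negSucc 234, .negSucc 95, .ofNat 45, .negSucc 213, .negSucc 131, .negSucc 226, .negSucc 148, .negSucc 251, .negSucc 111, .negSucc 266, .negSucc 108, .ofNat 8, .negSucc 109, .negSucc 90, .negSucc 236, .negSucc 81, .negSucc 252, .negSucc 104, .ofNat 31, .negSucc 117, .ofNat 2430],
    [.ofNat 26, .negSucc 96, .ofNat 46, .negSucc 102, .ofNat 34, .negSucc 73, .negSucc 83, .negSucc 209, .negSucc 220, .negSucc 78, .negSucc 89, .negSucc 218, .negSucc 207, .negSucc 124, .negSucc 120, .negSucc 220, .negSucc 248, .negSucc 221, .negSucc 103, .ofNat 39, .ofNat 29, .negSucc 90, .negSucc 72, .negSucc 234, .negSucc 224, .negSucc 76, .negSucc 109, .negSucc 94, .ofNat 2440],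
    [.negSucc 96, .ofNat 37, .ofNat 21, .negSucc 98, .ofNat 36, .ofNat 40, .ofNat 42, .negSucc 68, .negSucc 75, .negSucc 78, .negSucc 85, .negSucc 85, .negSucc 78, .negSucc 203, .negSucc 209, .negSucc 214, .negSucc 221, .negSucc 69, .negSucc 211, .negSucc 71, .ofNat 41, .ofNat 40, .ofNat 52, .negSucc 80, .negSucc 73, .negSucc 79, .negSucc 92, .negSucc 78, .negSucc 73, .ofNat 2452],
    [.ofNat 44, .negSucc 98, .ofNat 45, .negSucc 88, .ofNat 37, .ofNat 41, .negSucc 87, .ofNat 46, .negSucc 93, .negSucc 86, .negSucc 75, .negSucc 89, .ofNat 38, .negSucc 93, .ofNat 19, .ofNat 38, .negSucc 98, .ofNat 16, .negSucc 116, .ofNat 32, .negSucc 93, .negSucc 95, .ofNat 31, .negSucc 85, .negSucc 114, .ofNat 20, .negSucc 87, .ofNat 19, .negSucc 115, .ofNat 30, .ofNat 2449],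
    [.ofNat 28, .ofNat 32, .negSucc 90, .ofNat 46, .ofNat 37, .negSucc 89, .ofNat 43, .negSucc 89, .ofNat 42, .negSucc 78, .negSucc 69, .negSucc 216, .negSucc 78, .negSucc 222, .negSucc 91, .ofNat 39, .negSucc 231, .negSucc 90, .ofNat 17, .negSucc 101, .negSucc 86, .negSucc 225, .negSucc 82, .negSucc 83, .negSucc 82, .ofNat 40, .negSucc 224, .negSucc 82, .ofNat 35, .ofNat 39, .negSucc 81, .ofNat 2451],
    [.ofNat 35, .negSucc 90, .ofNat 35, .ofNat 28, .negSucc 90, .ofNat 39, .ofNat 42, .negSucc 87, .negSucc 84, .ofNat 49, .ofNat 43, .negSucc 74, .negSucc 72, .negSucc 212, .negSucc 214, .negSucc 80, .negSucc 84, .negSucc 208, .negSucc 87, .ofNat 34, .ofNat 31, .negSucc 87, .negSucc 76, .negSucc 211, .negSucc 210, .negSucc 75, .negSucc 84, .negSucc 213, .negSucc 75, .ofNat 42, .negSucc 86, .negSucc 71, .ofNat 2453],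
    [.negSucc 91, .ofNat 38, .ofNat 34, .ofNat 45, .negSucc 88, .negSucc 88, .negSucc 81, .ofNat 42, .ofNat 40, .ofNat 40, .ofNat 38, .ofNat 38, .ofNat 44, .negSucc 71, .negSucc 77, .negSucc 81, .negSucc 213, .negSucc 71, .negSucc 215, .negSucc 81, .negSucc 101, .ofNat 20, .ofNat 44, .negSucc 84, .negSucc 77, .negSucc 77, .negSucc 221, .negSucc 211, .negSucc 207, .negSucc 68, .negSucc 91, .negSucc 77, .negSucc 68, .ofNat 2454],
    [.negSucc 89, .negSucc 89, .negSucc 89, .negSucc 83, .ofNat 41, .ofNat 37, .ofNat 47, .ofNat 33, .negSucc 96, .ofNat 47, .ofNat 33, .negSucc 102, .ofNat 29, .ofNat 41, .negSucc 96, .ofNat 39, .negSucc 72, .negSucc 74, .negSucc 83, .negSucc 91, .ofNat 41, .negSucc 102, .ofNat 47, .ofNat 33, .ofNat 43, .ofNat 47, .negSucc 85, .negSucc 78, .negSucc 78, .negSucc 78, .negSucc 97, .negSucc 83, .negSucc 74, .negSucc 66, .ofNat 2455]]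

theorem cls0_ok : check cls0 = true := by decide +kernel

end Pool.Agent.V1197.ZN
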