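import Pool.Agent.V1197.ZN.Cert

namespace Pool.Agent.V1197.ZN

def cls1 : Cls where
  chi := [.ofNat 1, .ofNat 1, .ofNat 1, .ofNat 1, .ofNat 1, .ofNat 1, .ofNat 1, .ofNat 1, .ofNat 1, .ofNat 1, .ofNat 1, .ofNat 1, .ofNat 1, .ofNat 1, .ofNat 1, .ofNat 1, .ofNat 1, .ofNat 1, .ofNat 1, .ofNat 1, .ofNat 1, .ofNat 1, .ofNat 1, .ofNat 1, .ofNat 1, .ofNat 1, .ofNat 1, .ofNat 1, .ofNat 1, .ofNat 1, .ofNat 1, .ofNat 1, .ofNat 1, .ofNat 1, .negSucc 0]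
  mu := [.ofNat 300, .ofNat 300, .ofNat 300, .ofNat 299, .negSucc 299, .ofNat 300, .ofNat 300, .ofNat 300, .ofNat 300, .ofNat 300, .ofNat 300, .ofNat 300, .ofNat 300, .ofNat 300, .ofNat 300, .negSucc 299, .negSucc 299, .negSucc 23, .negSucc 299, .negSucc 299, .negSucc 299, .negSucc 299, .negSucc 299, .negSucc 299, .negSucc 299, .ofNat 300, .ofNat 300, .ofNat 300, .ofNat 300, .ofNat 300, .negSucc 113, .ofNat 300, .ofNat 300, .ofNat 300, .ofNat 300, .ofNat 300, .negSucc 299, .negSucc 299, .negSucc 299, .negSucc 299, .negSucc 299, .negSucc 299, .negSucc 299, .negSucc 299, .ofNat 300, .negSucc 299, .negSucc 299, .negSucc 299, .ofNat 300, .ofNat 300, .ofNat 300, .ofNat 300, .ofNat 300, .ofNat 300, .negSucc 299, .ofNat 300, .negSucc 299, .ofNat 262, .negSucc 299, .negSucc 299, .ofNat 300, .negSucc 299, .negSucc 299, .negSucc 299, .negSucc 299, .negSucc 299, .negSucc 24, .negSucc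 299, .negSucc 299, .negSucc 299, .negSucc 299, .negSucc 299, .negSucc 299, .negSucc 299, .negSucc 299, .ofNat 300, .ofNat 300, .negSucc 299, .ofNat 130, .ofNat 22, .ofNat 300, .ofNat 297, .ofNat 275, .ofNat 300, .ofNat 300, .ofNat 300, .negSucc 299, .ofNat 300, .ofNat 300, .ofNat 300, .ofNat 300, .ofNat 300, .ofNat 300, .ofNat 300, .ofNat 242, .negSucc 299, .ofNat 300, .ofNat 300, .negSucc 299, .negSucc 299, .ofNat 300, .ofNat 300, .negSucc 299, .negSucc 299, .negSucc 299]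
  om := [.ofNat 837, .negSucc 299, .negSucc 299, .ofNat 298, .negSucc 299, .ofNat 65, .negSucc 299]
  kap := 400
  s := 3000
  del := 360000
  eta := 12416
  L := [
    [.ofNat 0, .ofNat 0, .ofNat 1, .negSucc 0, .ofNat 0, .ofNat 1, .negSucc 0, .ofNat 1, .negSucc 0, .ofNat 0, .ofNat 0, .ofNat 1, .negSucc 0, .ofNat 1, .negSucc 0, .ofNat 0, .ofNat 1, .negSucc 0, .ofNat 0, .ofNat 0, .ofNat 0, .ofNat 1, .negSucc 0, .ofNat 1, .negSucc 0, .ofNat 0, .ofNat 1, .negSucc 0, .ofNat 0, .ofNat 0, .ofNat 1, .negSucc 0],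
    [.ofNat 0, .negSucc 0, .ofNat 0, .ofNat 1, .negSucc 0, .ofNat 0, .ofNat 1, .ofNat 1, .ofNat 0, .negSucc 0, .negSucc 0, .ofNat 0, .ofNat 1, .ofNat 1, .ofNat 0, .negSucc 0, .ofNat 1, .ofNat 0, .negSucc 0, .ofNat 0, .negSucc 0, .ofNat 0, .ofNat 1, .ofNat 1, .ofNat 0, .negSucc 0, .ofNat 1, .ofNat 0, .negSucc 0, .ofNat 0, .ofNat 1, .ofNat 0, .negSucc 0],
    [.ofNat 1, .ofNat 0, .ofNat 0, .negSucc 0, .negSucc 0, .negSucc 0, .ofNat 0, .ofNat 0, .ofNat 1, .ofNat 1, .negSucc 0, .negSucc 0, .ofNat 0, .ofNat 0, .ofNat 1, .ofNat 1, .ofNat 1, .ofNat 0, .ofNat 0, .negSucc 0, .negSucc 0, .negSucc 0, .ofNat 0, .ofNat 0, .ofNat 1, .ofNat 1, .ofNat 1, .ofNat 0, .ofNat 0, .negSucc 0, .ofNat 1, .ofNat 0, .ofNat 0, .negSucc 0],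
    [.ofNat 1, .ofNat 1, .ofNat 1, .ofNat 0, .ofNat 0, .ofNat 0, .negSucc 0, .ofNat 0, .negSucc 0, .negSucc 0, .negSucc 0, .negSucc 0, .ofNat 0, .negSucc 0, .ofNat 0, .ofNat 0, .ofNat 0, .ofNat 1, .ofNat 1, .ofNat 1, .negSucc 0, .negSucc 0, .ofNat 0, .negSucc 0, .ofNat 0, .ofNat 0, .ofNat 0, .ofNat 1, .ofNat 1, .ofNat 1, .negSucc 0, .ofNat 0, .ofNat 0, .ofNat 0, .negSucc 0],
    [.ofNat 1, .ofNat 1, .ofNat 1, .ofNat 0, .ofNat 1, .ofNat 1, .ofNat 0, .ofNat 1, .ofNat 0, .ofNat 0, .ofNat 0, .ofNat 0, .negSucc 0, .ofNat 0, .negSucc 0, .negSucc 0, .ofNat 0, .negSucc 0, .negSucc 0, .negSucc 0, .negSucc 0, .negSucc 0, .ofNat 0, .negSucc 0, .ofNat 0, .ofNat 0, .ofNat 1, .ofNat 0, .ofNat 0, .ofNat 0, .ofNat 0, .ofNat 1, .ofNat 1, .ofNat 1, .ofNat 1],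
    [.ofNat 1, .ofNat 1, .ofNat 1, .ofNat 0, .ofNat 1, .ofNat 1, .ofNat 0, .ofNat 1, .ofNat 0, .ofNat 0, .ofNat 1, .ofNat 1, .ofNat 0, .ofNat 1, .ofNat 0, .ofNat 0, .negSucc 0, .ofNat 0, .ofNat 0, .ofNat 0, .ofNat 0, .ofNat 0, .negSucc 0, .ofNat 0, .negSucc 0, .negSucc 0, .ofNat 0, .negSucc 0, .negSucc 0, .negSucc 0, .ofNat 0, .negSucc 0, .negSucc 0, .negSucc 0, .negSucc 0],
    [.ofNat 0, .ofNat 1, .negSucc 0, .ofNat 0, .ofNat 1, .negSucc 0, .ofNat 0, .ofNat 0, .ofNat 1, .negSucc 0, .ofNat 1, .negSucc 0, .ofNat 0, .ofNat 0, .ofNat 1, .negSucc 0, .ofNat 0, .ofNat 1, .negSucc 0, .ofNat 0, .ofNat 1, .negSucc 0, .ofNat 0, .ofNat 0, .ofNat 1, .negSucc 0, .ofNat 0, .ofNat 1, .negSucc 0, .ofNat 0, .ofNat 0, .ofNat 1, .negSucc 0],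
    [.negSucc 0, .ofNat 0, .ofNat 1, .ofNat 0, .ofNat 1, .ofNat 0, .negSucc 0, .negSucc 0, .ofNat 0, .ofNat 1, .ofNat 1, .ofNat 0, .negSucc 0, .negSucc 0, .ofNat 0, .ofNat 1, .ofNat 0, .ofNat 1, .ofNat 0, .negSucc 0, .ofNat 1, .ofNat 0, .negSucc 0, .negSucc 0, .ofNat 0, .ofNat 1, .ofNat 0, .ofNat 1, .ofNat 0, .negSucc 0, .ofNat 0, .ofNat 1, .ofNat 0, .negSucc 0],
    [.negSucc 0, .negSucc 0, .ofNat 0, .ofNat 1, .ofNat 0, .ofNat 1, .ofNat 0, .ofNat 1, .ofNat 0, .negSucc 0, .ofNat 1, .ofNat 0, .negSucc 0, .ofNat 0, .negSucc 0, .ofNat 0, .negSucc 0, .ofNat 0, .ofNat 1, .ofNat 1, .ofNat 1, .ofNat 0, .negSucc 0, .ofNat 0, .negSucc 0, .ofNat 0, .negSucc 0, .ofNat 0, .ofNat 1, .ofNat 1, .ofNat 0, .negSucc 0, .ofNat 0, .ofNat 0, .negSucc 0],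
    [.negSucc 0, .negSucc 0, .ofNat 0, .ofNat 1, .negSucc 0, .ofNat 0, .ofNat 1, .ofNat 0, .ofNat 1, .ofNat 0, .ofNat 0, .ofNat 1, .ofNat 0, .ofNat 1, .ofNat 0, .negSucc 0, .ofNat 1, .ofNat 0, .negSucc 0, .negSucc 0, .ofNat 1, .ofNat 0, .negSucc 0, .ofNat 0, .negSucc 0, .ofNat 0, .ofNat 0, .ofNat 1, .ofNat 0, .ofNat 0, .negSucc 0, .ofNat 0, .ofNat 1, .ofNat 1, .ofNat 1],
    [.negSucc 0, .negSucc 0, .ofNat 0, .ofNat 1, .negSucc 0, .ofNat 0, .ofNat 1, .ofNat 0, .ofNat 1, .ofNat 0, .negSucc 0, .ofNat 0, .ofNat 1, .ofNat 0, .ofNat 1, .ofNat 0, .ofNat 0, .negSucc 0, .ofNat 0, .ofNat 0, .ofNat 0, .ofNat 1, .ofNat 0, .ofNat 1, .ofNat 0, .negSucc 0, .ofNat 1, .ofNat 0, .negSucc 0, .negSucc 0, .ofNat 1, .ofNat 0, .negSucc 0, .negSucc 0, .negSucc 0],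
    [.ofNat 1, .negSucc 0, .ofNat 0, .ofNat 0, .ofNat 0, .ofNat 1, .ofNat 1, .negSucc 0, .negSucc 0, .ofNat 0, .ofNat 0, .ofNat 1, .ofNat 1, .negSucc 0, .negSucc 0, .ofNat 0, .ofNat 0, .ofNat 0, .ofNat 1, .negSucc 0, .ofNat 0, .ofNat 1, .ofNat 1, .negSucc 0, .negSucc 0, .ofNat 0, .ofNat 0, .ofNat 0, .ofNat 1, .negSucc 0, .ofNat 0, .ofNat 0, .ofNat 1, .negSucc 0],
    [.ofNat 1, .ofNat 0, .negSucc 0, .negSucc 0, .negSucc 0, .ofNat 0, .ofNat 0, .ofNat 1, .ofNat 1, .ofNat 0, .ofNat 0, .ofNat 1, .ofNat 1, .ofNat 0, .ofNat 0, .negSucc 0, .negSucc 0, .negSucc 0, .ofNat 0, .ofNat 1, .ofNat 0, .ofNat 1, .ofNat 1, .ofNat 0, .ofNat 0, .negSucc 0, .negSucc 0, .negSucc 0, .ofNat 0, .ofNat 1, .ofNat 0, .ofNat 0, .negSucc 0, .ofNat 0, .negSucc 0],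
    [.ofNat 1, .ofNat 0, .negSucc 0, .negSucc 0, .ofNat 0, .negSucc 0, .negSucc 0, .ofNat 0, .ofNat 0, .ofNat 1, .negSucc 0, .ofNat 0, .ofNat 0, .ofNat 1, .ofNat 1, .ofNat 0, .ofNat 1, .ofNat 1, .ofNat 0, .negSucc 0, .ofNat 0, .ofNat 1, .ofNat 1, .ofNat 0, .ofNat 0, .negSucc 0, .ofNat 0, .ofNat 0, .ofNat 1, .ofNat 0, .negSucc 0, .negSucc 0, .ofNat 0, .ofNat 1, .ofNat 1],
    [.ofNat 1, .ofNat 0, .negSucc 0, .negSucc 0, .ofNat 0, .negSucc 0, .negSucc 0, .ofNat 0, .ofNat 0, .ofNat 1, .ofNat 0, .negSucc 0, .negSucc 0, .ofNat 0, .ofNat 0, .ofNat 1, .ofNat 0, .ofNat 0, .negSucc 0, .ofNat 0, .negSucc 0, .ofNat 0, .ofNat 0, .ofNat 1, .ofNat 1, .ofNat 0, .ofNat 1, .ofNat 1, .ofNat 0, .negSucc 0, .ofNat 1, .ofNat 1, .ofNat 0, .negSucc 0, .negSucc 0],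
    [.ofNat 0, .ofNat 1, .ofNat 1, .ofNat 1, .negSucc 0, .negSucc 0, .negSucc 0, .ofNat 0, .ofNat 0, .ofNat 0, .ofNat 0, .ofNat 0, .ofNat 0, .ofNat 1, .ofNat 1, .ofNat 1, .negSucc 0, .negSucc 0, .negSucc 0, .ofNat 0, .ofNat 0, .ofNat 0, .ofNat 0, .ofNat 1, .ofNat 1, .ofNat 1, .negSucc 0, .negSucc 0, .negSucc 0, .ofNat 0, .ofNat 0, .ofNat 0, .ofNat 0, .negSucc 0, .negSucc 0],
    [.ofNat 0, .ofNat 1, .ofNat 1, .ofNat 1, .ofNat 0, .ofNat 0, .ofNat 0, .negSucc 0, .negSucc 0, .negSucc 0, .negSucc 0, .negSucc 0, .negSucc 0, .ofNat 0, .ofNat 0, .ofNat 0, .ofNat 1, .ofNat 1, .ofNat 1, .ofNat 0, .ofNat 0, .ofNat 0, .ofNat 0, .ofNat 1, .ofNat 1, .ofNat 1, .ofNat 0, .ofNat 0, .ofNat 0, .ofNat 1, .negSucc 0, .negSucc 0, .negSucc 0, .ofNat 0, .ofNat 1],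
    [.ofNat 0, .ofNat 1, .ofNat 1, .ofNat 1, .ofNat 0, .ofNat 0, .ofNat 0, .negSucc 0, .negSucc 0, .negSucc 0, .ofNat 0, .ofNat 0, .ofNat 0, .negSucc 0, .negSucc 0, .negSucc 0, .ofNat 0, .ofNat 0, .ofNat 0, .negSucc 0, .negSucc 0, .negSucc 0, .negSucc 0, .ofNat 0, .ofNat 0, .ofNat 0, .ofNat 1, .ofNat 1, .ofNat 1, .ofNat 0, .ofNat 1, .ofNat 1, .ofNat 1, .ofNat 0, .negSucc 0],
    [.ofNat 0, .ofNat 0, .ofNat 0, .ofNat 0, .ofNat 1, .ofNat 1, .ofNat 1, .ofNat 1, .ofNat 1, .ofNat 1, .negSucc 0, .negSucc 0, .negSucc 0, .negSucc 0, .negSucc 0, .negSucc 0, .ofNat 0, .ofNat 0, .ofNat 0, .ofNat 0, .ofNat 0, .ofNat 0, .ofNat 0, .ofNat 0, .ofNat 0, .ofNat 0, .ofNat 1, .ofNat 1, .ofNat 1, .ofNat 1, .negSucc 0, .negSucc 0, .negSucc 0, .negSucc 0, .ofNat 0],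
    [.ofNat 0, .ofNat 0, .ofNat 0, .ofNat 0, .ofNat 1, .ofNat 1, .ofNat 1, .ofNat 1, .ofNat 1, .ofNat 1, .ofNat 0, .ofNat 0, .ofNat 0, .ofNat 0, .ofNat 0, .ofNat 0, .negSucc 0, .negSucc 0, .negSucc 0, .negSucc 0, .negSucc 0, .negSucc 0, .negSucc 0, .negSucc 0, .negSucc 0, .negSucc 0, .ofNat 0, .ofNat 0, .ofNat 0, .ofNat 0, .ofNat 1, .ofNat 1, .ofNat 1, .ofNat 1, .ofNat 0],
    [.ofNat 0, .ofNat 0, .ofNat 0, .ofNat 0, .ofNat 0, .ofNat 0, .ofNat 0, .ofNat 0, .ofNat 0, .ofNat 0, .ofNat 1, .ofNat 1, .ofNat 1, .ofNat 1, .ofNat 1, .ofNat 1, .ofNat 1, .ofNat 1, .ofNat 1, .ofNat 1, .negSucc 0, .negSucc 0, .negSucc 0, .negSucc 0, .negSucc 0, .negSucc 0, .negSucc 0, .negSucc 0, .negSucc 0, .negSucc 0, .ofNat 0, .ofNat 0, .ofNat 0, .ofNat 0, .ofNat 0],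
    [.ofNat 0, .ofNat 0, .negSucc 0, .ofNat 1, .ofNat 0, .negSucc 0, .ofNat 1, .negSucc 0, .ofNat 1, .ofNat 0, .ofNat 0, .negSucc 0, .ofNat 1, .negSucc 0, .ofNat 1, .ofNat 0, .negSucc 0, .ofNat 1, .ofNat 0, .ofNat 0, .ofNat 0, .negSucc 0, .ofNat 1, .negSucc 0, .ofNat 1, .ofNat 0, .negSucc 0, .ofNat 1, .ofNat 0, .ofNat 0, .negSucc 0, .ofNat 1],
    [.ofNat 0, .negSucc 0, .ofNat 0, .ofNat 1, .negSucc 0, .ofNat 0, .ofNat 1, .negSucc 0, .ofNat 0, .ofNat 1, .negSucc 0, .ofNat 0, .ofNat 1, .negSucc 0, .ofNat 0, .ofNat 1, .negSucc 0, .ofNat 0, .ofNat 1, .ofNat 0, .negSucc 0, .ofNat 0, .ofNat 1, .negSucc 0, .ofNat 0, .ofNat 1, .negSucc 0, .ofNat 0, .ofNat 1, .ofNat 0, .negSucc 0, .ofNat 0, .ofNat 1],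
    [.negSucc 0, .ofNat 0, .ofNat 0, .ofNat 1, .negSucc 0, .negSucc 0, .ofNat 0, .ofNat 0, .ofNat 1, .ofNat 1, .negSucc 0, .negSucc 0, .ofNat 0, .ofNat 0, .ofNat 1, .ofNat 1, .negSucc 0, .ofNat 0, .ofNat 0, .ofNat 1, .negSucc 0, .negSucc 0, .ofNat 0, .ofNat 0, .ofNat 1, .ofNat 1, .negSucc 0, .ofNat 0, .ofNat 0, .ofNat 1, .negSucc 0, .ofNat 0, .ofNat 0, .ofNat 1],
    [.negSucc 0, .negSucc 0, .negSucc 0, .ofNat 0, .ofNat 0, .ofNat 0, .ofNat 1, .ofNat 0, .ofNat 1, .ofNat 1, .negSucc 0, .negSucc 0, .ofNat 0, .negSucc 0, .ofNat 0, .ofNat 0, .ofNat 0, .ofNat 1, .ofNat 1, .ofNat 1, .negSucc 0, .negSucc 0, .ofNat 0, .negSucc 0, .ofNat 0, .ofNat 0, .ofNat 0, .ofNat 1, .ofNat 1, .ofNat 1, .negSucc 0, .ofNat 0, .ofNat 0, .ofNat 0, .negSucc 0],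
    [.negSucc 0, .negSucc 0, .negSucc 0, .ofNat 0, .negSucc 0, .negSucc 0, .ofNat 0, .negSucc 0, .ofNat 0, .ofNat 0, .ofNat 0, .ofNat 0, .ofNat 1, .ofNat 0, .ofNat 1, .ofNat 1, .ofNat 0, .ofNat 1, .ofNat 1, .ofNat 1, .negSucc 0, .negSucc 0, .ofNat 0, .negSucc 0, .ofNat 0, .ofNat 0, .negSucc 0, .ofNat 0, .ofNat 0, .ofNat 0, .ofNat 0, .ofNat 1, .ofNat 1, .ofNat 1, .negSucc 0],
    [.negSucc 0, .negSucc 0, .negSucc 0, .ofNat 0, .negSucc 0, .negSucc 0, .ofNat 0, .negSucc 0, .ofNat 0, .ofNat 0, .negSucc 0, .negSucc 0, .ofNat 0, .negSucc 0, .ofNat 0, .ofNat 0, .negSucc 0, .ofNat 0, .ofNat 0, .ofNat 0, .ofNat 0, .ofNat 0, .ofNat 1, .ofNat 0, .ofNat 1, .ofNat 1, .ofNat 0, .ofNat 1, .ofNat 1, .ofNat 1, .ofNat 0, .ofNat 1, .ofNat 1, .ofNat 1, .negSucc 0]]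
  U := [
    [.ofNat 3918],
    [.negSucc 2579, .ofNat 2871],
    [.negSucc 1624, .negSucc 2678, .ofNat 4082],
    [.negSucc 1680, .negSucc 1106, .negSucc 30, .ofNat 5024],
    [.negSucc 641, .negSucc 1695, .negSucc 2171, .negSucc 1000, .ofNat 4143],
    [.negSucc 1004, .negSucc 2338, .negSucc 1569, .negSucc 416, .negSucc 1495, .ofNat 3989],
    [.negSucc 1331, .negSucc 2065, .negSucc 954, .ofNat 1064, .negSucc 1118, .negSucc 181, .ofNat 4643],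
    [.ofNat 124, .negSucc 1014, .negSucc 1256, .negSucc 668, .negSucc 1059, .negSucc 1120, .negSucc 615, .ofNat 4821],
    [.negSucc 788, .negSucc 1472, .negSucc 1606, .negSucc 63, .negSucc 909, .negSucc 915, .ofNat 844, .ofNat 61, .ofNat 4963],
    [.negSucc 526, .negSucc 819, .negSucc 1180, .negSucc 1266, .ofNat 24, .negSucc 568, .ofNat 19, .ofNat 63, .ofNat 1208, .ofNat 5262],
    [.negSucc 229, .negSucc 88, .negSucc 692, .negSucc 499, .negSucc 95, .negSucc 727, .negSucc 926, .negSucc 877, .negSucc 627, .negSucc 795, .ofNat 5125],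
    [.negSucc 344, .negSucc 874, .negSucc 476, .negSucc 212, .negSucc 1355, .negSucc 728, .negSucc 507, .negSucc 1027, .negSucc 900, .negSucc 276, .negSucc 323, .ofNat 4897],
    [.negSucc 525, .negSucc 1306, .negSucc 869, .ofNat 638, .negSucc 1800, .negSucc 1081, .ofNat 989, .negSucc 1212, .ofNat 294, .negSucc 297, .negSucc 966, .ofNat 88, .ofNat 4806],
    [.negSucc 19, .negSucc 318, .negSucc 466, .negSucc 154, .negSucc 966, .negSucc 1159, .negSucc 856, .negSucc 217, .negSucc 306, .negSucc 235, .negSucc 464, .negSucc 346, .negSucc 388, .ofNat 5389],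
    [.negSucc 590, .negSucc 588, .negSucc 1035, .negSucc 33, .negSucc 1283, .negSucc 1644, .negSucc 270, .negSucc 993, .ofNat 731, .ofNat 574, .negSucc 939, .negSucc 1024, .ofNat 589, .ofNat 46, .ofNat 5131],
    [.negSucc 464, .negSucc 416, .negSucc 269, .negSucc 616, .negSucc 478, .negSucc 1020, .negSucc 982, .negSucc 708, .negSucc 278, .ofNat 1089, .negSucc 264, .negSucc 615, .negSucc 374, .negSucc 76, .ofNat 663, .ofNat 5238],
    [.ofNat 135, .negSucc 224, .negSucc 3, .negSucc 711, .negSucc 636, .negSucc 428, .negSucc 273, .negSucc 270, .negSucc 395, .negSucc 467, .negSucc 495, .ofNat 139, .ofNat 115, .ofNat 576, .ofNat 194, .negSucc 20, .ofNat 5728],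
    [.negSucc 149, .ofNat 86, .negSucc 548, .negSucc 221, .ofNat 161, .negSucc 1168, .negSucc 678, .negSucc 1255, .negSucc 656, .negSucc 267, .ofNat 65, .negSucc 901, .negSucc 37, .negSucc 155, .ofNat 570, .ofNat 507, .ofNat 997, .ofNat 4956],
    [.negSucc 444, .negSucc 681, .negSucc 13, .ofNat 146, .negSucc 263, .negSucc 129, .negSucc 22, .negSucc 1478, .negSucc 1248, .negSucc 726, .negSucc 292, .negSucc 395, .ofNat 271, .negSucc 1344, .negSucc 430, .ofNat 469, .ofNat 485, .ofNat 967, .ofNat 4885],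
    [.negSucc 829, .negSucc 672, .negSucc 726, .negSucc 87, .negSucc 492, .negSucc 479, .negSucc 155, .negSucc 210, .negSucc 338, .negSucc 561, .negSucc 170, .negSucc 457, .ofNat 148, .negSucc 509, .negSucc 264, .ofNat 108, .negSucc 220, .ofNat 168, .ofNat 564, .ofNat 5147],
    [.negSucc 851, .negSucc 103, .negSucc 223, .negSucc 174, .ofNat 510, .negSucc 162, .negSucc 242, .negSucc 182, .ofNat 178, .negSucc 865, .ofNat 1283, .ofNat 358, .negSucc 514, .negSucc 62, .negSucc 234, .negSucc 864, .negSucc 310, .ofNat 91, .negSucc 616, .negSucc 587, .ofNat 5796],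
    [.negSucc 300, .negSucc 972, .negSucc 453, .negSucc 440, .negSucc 232, .ofNat 64, .negSucc 346, .negSucc 330, .negSucc 579, .ofNat 120, .negSucc 233, .ofNat 703, .negSucc 134, .negSucc 44, .negSucc 805, .negSucc 243, .ofNat 0, .negSucc 858, .negSucc 264, .negSucc 695, .ofNat 1227, .ofNat 5509],
    [.ofNat 804, .negSucc 1170, .negSucc 1671, .negSucc 386, .negSucc 1395, .negSucc 1033, .ofNat 729, .negSucc 638, .ofNat 169, .ofNat 314, .negSucc 1562, .negSucc 450, .ofNat 1603, .negSucc 618, .ofNat 447, .negSucc 181, .negSucc 363, .negSucc 92, .ofNat 204, .negSucc 145, .negSucc 477, .ofNat 1031, .ofNat 5245],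
    [.negSucc 229, .negSucc 249, .negSucc 162, .ofNat 390, .negSucc 1053, .negSucc 827, .negSucc 547, .negSucc 151, .negSucc 389, .negSucc 443, .negSucc 619, .negSucc 429, .negSucc 707, .ofNat 663, .negSucc 200, .negSucc 278, .ofNat 440, .negSucc 795, .negSucc 1011, .negSucc 272, .ofNat 466, .ofNat 831, .ofNat 92, .ofNat 5761],
    [.ofNat 320, .ofNat 471, .negSucc 1045, .negSucc 202, .negSucc 1060, .negSucc 2025, .negSucc 814, .negSucc 1088, .ofNat 183, .ofNat 19, .negSucc 1288, .negSucc 1769, .negSucc 148, .negSucc 509, .ofNat 1200, .ofNat 559, .negSucc 300, .ofNat 454, .negSucc 555, .ofNat 81, .negSucc 615, .negSucc 629, .ofNat 1316, .ofNat 637, .ofNat 5341],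
    [.negSucc 710, .ofNat 266, .ofNat 842, .ofNat 360, .negSucc 956, .negSucc 1072, .negSucc 1054, .negSucc 1413, .negSucc 445, .ofNat 350, .negSucc 733, .negSucc 1221, .negSucc 1147, .negSucc 857, .negSucc 134, .ofNat 1357, .negSucc 334, .negSucc 207, .ofNat 401, .ofNat 7, .ofNat 103, .negSucc 259, .negSucc 3, .ofNat 501, .ofNat 1385, .ofNat 5603],
    [.ofNat 323, .ofNat 402, .ofNat 767, .negSucc 730, .ofNat 408, .ofNat 678, .ofNat 107, .ofNat 756, .negSucc 259, .ofNat 48, .negSucc 1111, .negSucc 555, .negSucc 1041, .negSucc 175, .negSucc 1122, .negSucc 1141, .ofNat 1088, .negSucc 941, .negSucc 1018, .negSucc 1238, .negSucc 592, .ofNat 243, .negSucc 174, .ofNat 861, .ofNat 3, .negSucc 270, .ofNat 5821],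
    [.negSucc 712, .negSucc 186, .negSucc 616, .ofNat 587, .ofNat 328, .negSucc 852, .ofNat 396, .negSucc 865, .ofNat 551, .ofNat 73, .negSucc 831, .negSucc 1684, .negSucc 880, .negSucc 1291, .negSucc 300, .negSucc 789, .ofNat 492, .ofNat 1048, .negSucc 734, .negSucc 802, .ofNat 190, .negSucc 1035, .negSucc 189, .negSucc 217, .ofNat 802, .ofNat 276, .ofNat 1081, .ofNat 5050],
    [.ofNat 454, .negSucc 732, .negSucc 349, .negSucc 481, .ofNat 377, .ofNat 277, .negSucc 67, .negSucc 900, .negSucc 833, .ofNat 466, .negSucc 1119, .negSucc 1049, .negSucc 872, .negSucc 2010, .negSucc 1373, .negSucc 486, .negSucc 54, .ofNat 464, .ofNat 916, .negSucc 803, .negSucc 329, .ofNat 106, .ofNat 440, .negSucc 1071, .negSucc 334, .ofNat 573, .ofNat 519, .ofNat 1192, .ofNat 5017],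
    [.negSucc 689, .ofNat 119, .negSucc 144, .ofNat 144, .negSucc 214, .ofNat 163, .ofNat 203, .ofNat 203, .negSucc 103, .negSucc 772, .negSucc 1092, .negSucc 1286, .negSucc 826, .negSucc 1260, .negSucc 1174, .negSucc 1264, .negSucc 729, .negSucc 252, .ofNat 148, .ofNat 727, .negSucc 114, .negSucc 454, .ofNat 458, .negSucc 13, .ofNat 540, .ofNat 597, .negSucc 386, .ofNat 469, .ofNat 975, .ofNat 5343],
    [.ofNat 393, .ofNat 25, .ofNat 491, .negSucc 871, .ofNat 30, .ofNat 565, .negSucc 483, .ofNat 975, .negSucc 560, .negSucc 493, .ofNat 560, .ofNat 811, .negSucc 36, .ofNat 937, .negSucc 573, .negSucc 404, .ofNat 531, .negSucc 1733, .negSucc 1290, .negSucc 1006, .negSucc 359, .ofNat 448, .negSucc 690, .ofNat 1095, .negSucc 553, .negSucc 771, .ofNat 1371, .negSucc 1146, .negSucc 1238, .negSucc 1502, .ofNat 6241],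
    [.negSucc 176, .ofNat 366, .negSucc 885, .ofNat 183, .ofNat 305, .negSucc 1355, .ofNat 222, .negSucc 1095, .ofNat 839, .negSucc 27, .ofNat 338, .negSucc 1161, .ofNat 423, .negSucc 1133, .ofNat 723, .ofNat 105, .negSucc 516, .ofNat 170, .negSucc 1440, .negSucc 778, .negSucc 673, .negSucc 1699, .ofNat 189, .negSucc 1032, .ofNat 1182, .ofNat 81, .ofNat 250, .ofNat 1225, .negSucc 869, .negSucc 900, .ofNat 753, .ofNat 5507],
    [.negSucc 176, .negSucc 896, .ofNat 220, .ofNat 218, .negSucc 433, .ofNat 164, .ofNat 245, .negSucc 1412, .negSucc 808, .ofNat 733, .ofNat 172, .ofNat 374, .ofNat 59, .negSucc 900, .negSucc 935, .ofNat 708, .negSucc 410, .negSucc 222, .ofNat 149, .negSucc 1353, .negSucc 730, .negSucc 802, .negSucc 382, .negSucc 1786, .negSucc 843, .ofNat 1037, .negSucc 211, .ofNat 645, .ofNat 1254, .negSucc 782, .ofNat 108, .ofNat 1293, .ofNat 5564],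
    [.negSucc 1016, .negSucc 457, .negSucc 863, .ofNat 255, .negSucc 661, .negSucc 579, .ofNat 71, .ofNat 61, .ofNat 305, .negSucc 182, .negSucc 508, .negSucc 312, .ofNat 387, .ofNat 151, .ofNat 153, .negSucc 576, .negSucc 297, .ofNat 192, .negSucc 49, .ofNat 368, .negSucc 538, .negSucc 833, .ofNat 223, .negSucc 903, .negSucc 252, .negSucc 334, .negSucc 863, .ofNat 274, .ofNat 681, .ofNat 1341, .negSucc 769, .ofNat 610, .ofNat 1259, .ofNat 5908],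
    [.ofNat 525, .ofNat 525, .ofNat 525, .negSucc 104, .ofNat 788, .ofNat 368, .ofNat 158, .negSucc 52, .negSucc 262, .ofNat 158, .negSucc 52, .ofNat 368, .negSucc 682, .ofNat 788, .negSucc 262, .negSucc 682, .ofNat 1785, .ofNat 315, .negSucc 524, .negSucc 1364, .ofNat 788, .ofNat 368, .ofNat 158, .negSucc 52, .negSucc 262, .ofNat 158, .ofNat 525, .negSucc 104, .negSucc 104, .negSucc 104, .negSucc 734, .negSucc 524, .ofNat 315, .ofNat 1155, .ofNat 5714]]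

theorem cls1_ok : check cls1 = true := by decide +kernel

end Pool.Agent.V1197.ZN
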