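import Pool.Agent.V1197.ZN.Cert

namespace Pool.Agent.V1197.ZN

def cls10 : Cls where
  chi := [.ofNat 1, .ofNat 1, .ofNat 1, .ofNat 1, .ofNat 1, .ofNat 1, .ofNat 1, .ofNat 1, .ofNat 1, .ofNat 1, .ofNat 1, .ofNat 1, .ofNat 1, .ofNat 1, .ofNat 1, .ofNat 1, .ofNat 1, .ofNat 1, .ofNat 1, .negSucc 0, .ofNat 1, .ofNat 1, .ofNat 1, .ofNat 1, .ofNat 1, .ofNat 1, .ofNat 1, .ofNat 1, .negSucc 0, .negSucc 0, .ofNat 1, .negSucc 0, .negSucc 0, .negSucc 0, .negSucc 0]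
  mu := [.ofNat 300, .ofNat 300, .ofNat 300, .ofNat 300, .ofNat 300, .ofNat 300, .ofNat 300, .ofNat 300, .ofNat 300, .ofNat 300, .ofNat 300, .ofNat 300, .ofNat 300, .ofNat 300, .ofNat 300, .negSucc 299, .negSucc 299, .negSucc 299, .negSucc 299, .negSucc 299, .ofNat 300, .negSucc 299, .negSucc 299, .ofNat 300, .ofNat 17, .ofNat 300, .ofNat 300, .negSucc 299, .negSucc 91, .negSucc 21, .ofNat 300, .ofNat 300, .ofNat 300, .ofNat 300, .negSucc 299, .negSucc 299, .negSucc 299, .ofNat 300, .ofNat 300, .negSucc 230, .negSucc 299, .negSucc 299, .ofNat 91, .ofNat 300, .negSucc 299, .negSucc 299, .negSucc 299, .negSucc 16, .negSucc 299, .negSucc 299, .negSucc 299, .negSucc 299, .negSucc 299, .negSucc 299, .ofNat 300, .negSucc 299, .negSucc 91, .negSucc 21, .ofNat 300, .ofNat 300, .ofNat 300, .negSucc 299, .ofNat 231, .ofNat 300, .ofNat 300, .negSucc 299, .ofNat 300, .negSucc 299, .ofNat 300,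 .negSucc 299, .ofNat 91, .ofNat 300, .negSucc 299, .negSucc 299, .negSucc 299, .ofNat 300, .ofNat 300, .negSucc 299, .negSucc 299, .negSucc 299, .negSucc 299, .negSucc 16, .negSucc 299, .negSucc 299, .ofNat 300, .negSucc 21, .ofNat 300, .ofNat 300, .negSucc 299, .negSucc 91, .ofNat 300, .negSucc 299, .ofNat 300, .negSucc 299, .ofNat 300, .ofNat 300, .ofNat 231, .ofNat 300, .negSucc 299, .negSucc 299, .negSucc 299, .negSucc 299, .negSucc 299, .ofNat 91, .ofNat 300]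
  om := [.negSucc 1799, .ofNat 300, .ofNat 300, .ofNat 300, .ofNat 300, .ofNat 300, .ofNat 300]
  kap := 25600
  s := 100000
  del := 12000000
  eta := 452432
  L := [
    [.ofNat 0, .ofNat 0, .ofNat 1, .negSucc 0, .ofNat 0, .ofNat 1, .negSucc 0, .ofNat 1, .negSucc 0, .ofNat 0, .ofNat 0, .ofNat 1, .negSucc 0, .ofNat 1, .negSucc 0, .ofNat 0, .ofNat 1, .negSucc 0, .ofNat 0, .ofNat 0, .ofNat 0, .ofNat 1, .negSucc 0, .ofNat 1, .negSucc 0, .ofNat 0, .ofNat 1, .negSucc 0, .ofNat 0, .ofNat 0, .negSucc 0, .negSucc 0],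
    [.ofNat 0, .negSucc 0, .ofNat 0, .ofNat 1, .negSucc 0, .ofNat 0, .ofNat 1, .ofNat 1, .ofNat 0, .negSucc 0, .negSucc 0, .ofNat 0, .ofNat 1, .ofNat 1, .ofNat 0, .negSucc 0, .ofNat 1, .ofNat 0, .negSucc 0, .ofNat 0, .negSucc 0, .ofNat 0, .ofNat 1, .ofNat 1, .ofNat 0, .negSucc 0, .negSucc 0, .ofNat 0, .negSucc 0, .ofNat 0, .negSucc 0, .ofNat 0, .negSucc 0],
    [.ofNat 1, .ofNat 0, .ofNat 0, .negSucc 0, .negSucc 0, .negSucc 0, .ofNat 0, .ofNat 0, .ofNat 1, .ofNat 1, .negSucc 0, .negSucc 0, .ofNat 0, .ofNat 0, .ofNat 1, .ofNat 1, .negSucc 0, .ofNat 0, .ofNat 0, .negSucc 0, .negSucc 0, .negSucc 0, .ofNat 0, .ofNat 0, .ofNat 1, .ofNat 1, .negSucc 0, .ofNat 0, .ofNat 0, .negSucc 0, .negSucc 0, .ofNat 0, .ofNat 0, .negSucc 0],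
    [.ofNat 1, .ofNat 1, .ofNat 1, .ofNat 0, .ofNat 0, .ofNat 0, .negSucc 0, .ofNat 0, .negSucc 0, .negSucc 0, .negSucc 0, .negSucc 0, .ofNat 0, .ofNat 1, .ofNat 0, .ofNat 0, .ofNat 0, .ofNat 1, .ofNat 1, .ofNat 1, .negSucc 0, .ofNat 1, .ofNat 0, .ofNat 1, .ofNat 0, .ofNat 0, .ofNat 0, .ofNat 1, .ofNat 1, .ofNat 1, .negSucc 0, .ofNat 0, .ofNat 0, .ofNat 0, .negSucc 0],
    [.ofNat 1, .ofNat 1, .ofNat 1, .ofNat 0, .ofNat 1, .ofNat 1, .ofNat 0, .negSucc 0, .ofNat 0, .ofNat 0, .ofNat 0, .ofNat 0, .negSucc 0, .ofNat 0, .negSucc 0, .negSucc 0, .ofNat 0, .negSucc 0, .negSucc 0, .negSucc 0, .ofNat 1, .ofNat 1, .ofNat 0, .ofNat 1, .ofNat 0, .ofNat 0, .ofNat 1, .ofNat 0, .ofNat 0, .ofNat 0, .ofNat 0, .ofNat 1, .ofNat 1, .ofNat 1, .ofNat 1],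
    [.ofNat 1, .ofNat 1, .ofNat 1, .ofNat 0, .ofNat 1, .negSucc 0, .ofNat 0, .negSucc 0, .ofNat 0, .ofNat 0, .negSucc 0, .negSucc 0, .ofNat 0, .negSucc 0, .ofNat 0, .ofNat 0, .negSucc 0, .ofNat 0, .ofNat 0, .ofNat 0, .ofNat 0, .ofNat 0, .negSucc 0, .ofNat 0, .negSucc 0, .negSucc 0, .ofNat 0, .negSucc 0, .negSucc 0, .negSucc 0, .ofNat 0, .negSucc 0, .negSucc 0, .negSucc 0, .negSucc 0],
    [.ofNat 0, .ofNat 1, .negSucc 0, .ofNat 0, .ofNat 1, .negSucc 0, .ofNat 0, .ofNat 0, .ofNat 1, .negSucc 0, .ofNat 1, .negSucc 0, .ofNat 0, .ofNat 0, .ofNat 1, .negSucc 0, .ofNat 0, .ofNat 1, .negSucc 0, .ofNat 0, .ofNat 1, .negSucc 0, .ofNat 0, .ofNat 0, .ofNat 1, .negSucc 0, .ofNat 0, .negSucc 0, .negSucc 0, .ofNat 0, .ofNat 0, .negSucc 0, .ofNat 1],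
    [.negSucc 0, .ofNat 0, .ofNat 1, .ofNat 0, .ofNat 1, .ofNat 0, .negSucc 0, .negSucc 0, .ofNat 0, .ofNat 1, .ofNat 1, .ofNat 0, .negSucc 0, .negSucc 0, .ofNat 0, .ofNat 1, .ofNat 0, .negSucc 0, .ofNat 0, .negSucc 0, .ofNat 1, .ofNat 0, .negSucc 0, .negSucc 0, .ofNat 0, .ofNat 1, .ofNat 0, .negSucc 0, .ofNat 0, .negSucc 0, .ofNat 0, .negSucc 0, .ofNat 0, .ofNat 1],
    [.negSucc 0, .negSucc 0, .ofNat 0, .ofNat 1, .ofNat 0, .ofNat 1, .ofNat 0, .ofNat 1, .ofNat 0, .negSucc 0, .ofNat 1, .ofNat 0, .negSucc 0, .ofNat 0, .ofNat 1, .ofNat 0, .negSucc 0, .ofNat 0, .ofNat 1, .ofNat 1, .ofNat 1, .ofNat 0, .ofNat 1, .ofNat 0, .ofNat 1, .ofNat 0, .negSucc 0, .ofNat 0, .ofNat 1, .ofNat 1, .ofNat 0, .negSucc 0, .ofNat 0, .ofNat 0, .ofNat 1],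
    [.negSucc 0, .negSucc 0, .ofNat 0, .ofNat 1, .negSucc 0, .ofNat 0, .ofNat 1, .ofNat 0, .negSucc 0, .ofNat 0, .ofNat 0, .ofNat 1, .ofNat 0, .ofNat 1, .ofNat 0, .negSucc 0, .ofNat 1, .ofNat 0, .negSucc 0, .negSucc 0, .ofNat 1, .ofNat 0, .ofNat 1, .ofNat 0, .ofNat 1, .ofNat 0, .ofNat 0, .ofNat 1, .ofNat 0, .ofNat 0, .negSucc 0, .ofNat 0, .ofNat 1, .ofNat 1, .ofNat 1],
    [.negSucc 0, .negSucc 0, .ofNat 0, .ofNat 1, .negSucc 0, .ofNat 0, .negSucc 0, .ofNat 0, .negSucc 0, .ofNat 0, .negSucc 0, .ofNat 0, .negSucc 0, .ofNat 0, .negSucc 0, .ofNat 0, .ofNat 0, .negSucc 0, .ofNat 0, .ofNat 0, .ofNat 0, .ofNat 1, .ofNat 0, .ofNat 1, .ofNat 0, .negSucc 0, .ofNat 1, .ofNat 0, .negSucc 0, .negSucc 0, .ofNat 1, .ofNat 0, .negSucc 0, .negSucc 0, .negSucc 0],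
    [.ofNat 1, .negSucc 0, .ofNat 0, .ofNat 0, .ofNat 0, .ofNat 1, .ofNat 1, .negSucc 0, .negSucc 0, .ofNat 0, .ofNat 0, .ofNat 1, .ofNat 1, .negSucc 0, .negSucc 0, .ofNat 0, .ofNat 0, .ofNat 0, .negSucc 0, .negSucc 0, .ofNat 0, .ofNat 1, .ofNat 1, .negSucc 0, .negSucc 0, .ofNat 0, .ofNat 0, .ofNat 0, .negSucc 0, .ofNat 1, .ofNat 0, .ofNat 0, .negSucc 0, .ofNat 1],
    [.ofNat 1, .ofNat 0, .negSucc 0, .negSucc 0, .negSucc 0, .ofNat 0, .ofNat 0, .ofNat 1, .ofNat 1, .ofNat 0, .ofNat 0, .ofNat 1, .ofNat 1, .ofNat 0, .ofNat 0, .ofNat 1, .negSucc 0, .negSucc 0, .ofNat 0, .ofNat 1, .ofNat 0, .ofNat 1, .ofNat 1, .ofNat 0, .ofNat 0, .ofNat 1, .negSucc 0, .negSucc 0, .ofNat 0, .ofNat 1, .ofNat 0, .ofNat 0, .negSucc 0, .ofNat 0, .ofNat 1],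
    [.ofNat 1, .ofNat 0, .negSucc 0, .negSucc 0, .ofNat 0, .negSucc 0, .negSucc 0, .ofNat 0, .ofNat 0, .negSucc 0, .negSucc 0, .ofNat 0, .ofNat 0, .ofNat 1, .ofNat 1, .ofNat 0, .ofNat 1, .ofNat 1, .ofNat 0, .negSucc 0, .ofNat 0, .ofNat 1, .negSucc 0, .ofNat 0, .ofNat 0, .ofNat 1, .ofNat 0, .ofNat 0, .ofNat 1, .ofNat 0, .negSucc 0, .negSucc 0, .ofNat 0, .ofNat 1, .negSucc 0],
    [.ofNat 1, .ofNat 0, .negSucc 0, .negSucc 0, .ofNat 0, .negSucc 0, .negSucc 0, .ofNat 0, .ofNat 0, .negSucc 0, .ofNat 0, .negSucc 0, .ofNat 1, .ofNat 0, .ofNat 0, .negSucc 0, .ofNat 0, .ofNat 0, .negSucc 0, .ofNat 0, .negSucc 0, .ofNat 0, .ofNat 0, .ofNat 1, .ofNat 1, .ofNat 0, .ofNat 1, .ofNat 1, .ofNat 0, .negSucc 0, .ofNat 1, .ofNat 1, .ofNat 0, .negSucc 0, .negSucc 0],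
    [.ofNat 0, .ofNat 1, .ofNat 1, .ofNat 1, .negSucc 0, .negSucc 0, .negSucc 0, .ofNat 0, .ofNat 0, .ofNat 0, .ofNat 0, .ofNat 0, .ofNat 0, .ofNat 1, .ofNat 1, .ofNat 1, .negSucc 0, .negSucc 0, .negSucc 0, .ofNat 0, .ofNat 0, .ofNat 0, .ofNat 0, .ofNat 1, .ofNat 1, .negSucc 0, .negSucc 0, .negSucc 0, .negSucc 0, .ofNat 0, .ofNat 0, .ofNat 0, .ofNat 0, .negSucc 0, .ofNat 1],
    [.ofNat 0, .ofNat 1, .ofNat 1, .ofNat 1, .ofNat 0, .ofNat 0, .ofNat 0, .negSucc 0, .negSucc 0, .negSucc 0, .negSucc 0, .negSucc 0, .negSucc 0, .ofNat 0, .ofNat 0, .ofNat 0, .ofNat 1, .ofNat 1, .ofNat 1, .ofNat 0, .ofNat 0, .ofNat 0, .ofNat 0, .ofNat 1, .negSucc 0, .negSucc 0, .ofNat 0, .ofNat 0, .ofNat 0, .ofNat 1, .negSucc 0, .negSucc 0, .negSucc 0, .ofNat 0, .negSucc 0],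
    [.ofNat 0, .ofNat 1, .ofNat 1, .ofNat 1, .ofNat 0, .ofNat 0, .ofNat 0, .negSucc 0, .negSucc 0, .ofNat 1, .ofNat 0, .ofNat 0, .ofNat 0, .negSucc 0, .ofNat 1, .ofNat 1, .ofNat 0, .ofNat 0, .ofNat 0, .negSucc 0, .negSucc 0, .negSucc 0, .negSucc 0, .ofNat 0, .ofNat 0, .ofNat 0, .ofNat 1, .ofNat 1, .ofNat 1, .ofNat 0, .ofNat 1, .ofNat 1, .ofNat 1, .ofNat 0, .ofNat 1],
    [.ofNat 0, .ofNat 0, .ofNat 0, .ofNat 0, .ofNat 1, .ofNat 1, .ofNat 1, .ofNat 1, .ofNat 1, .ofNat 1, .negSucc 0, .negSucc 0, .negSucc 0, .negSucc 0, .negSucc 0, .negSucc 0, .ofNat 0, .ofNat 0, .ofNat 0, .ofNat 0, .ofNat 0, .ofNat 0, .ofNat 0, .ofNat 0, .ofNat 0, .ofNat 0, .ofNat 1, .negSucc 0, .negSucc 0, .negSucc 0, .negSucc 0, .negSucc 0, .ofNat 1, .ofNat 1, .ofNat 0],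
    [.ofNat 0, .ofNat 0, .ofNat 0, .ofNat 0, .ofNat 1, .ofNat 1, .ofNat 1, .ofNat 1, .ofNat 1, .ofNat 1, .ofNat 0, .ofNat 0, .ofNat 0, .ofNat 0, .ofNat 0, .ofNat 0, .negSucc 0, .ofNat 1, .ofNat 1, .ofNat 1, .negSucc 0, .negSucc 0, .negSucc 0, .negSucc 0, .negSucc 0, .negSucc 0, .ofNat 0, .ofNat 0, .ofNat 0, .ofNat 0, .ofNat 1, .ofNat 1, .ofNat 1, .negSucc 0, .ofNat 0],
    [.ofNat 0, .ofNat 0, .ofNat 0, .ofNat 0, .ofNat 0, .ofNat 0, .ofNat 0, .ofNat 0, .ofNat 0, .ofNat 0, .ofNat 1, .ofNat 1, .ofNat 1, .ofNat 1, .ofNat 1, .ofNat 1, .ofNat 1, .ofNat 1, .negSucc 0, .negSucc 0, .negSucc 0, .negSucc 0, .negSucc 0, .negSucc 0, .negSucc 0, .negSucc 0, .negSucc 0, .negSucc 0, .negSucc 0, .ofNat 1, .ofNat 0, .ofNat 0, .ofNat 0, .ofNat 0, .ofNat 0],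
    [.ofNat 0, .ofNat 0, .negSucc 0, .ofNat 1, .ofNat 0, .negSucc 0, .ofNat 1, .negSucc 0, .ofNat 1, .ofNat 0, .ofNat 0, .negSucc 0, .ofNat 1, .negSucc 0, .ofNat 1, .ofNat 0, .negSucc 0, .ofNat 1, .ofNat 0, .ofNat 0, .ofNat 0, .negSucc 0, .ofNat 1, .negSucc 0, .ofNat 1, .ofNat 0, .negSucc 0, .ofNat 1, .ofNat 0, .ofNat 0, .negSucc 0, .negSucc 0],
    [.ofNat 0, .negSucc 0, .ofNat 0, .ofNat 1, .negSucc 0, .ofNat 0, .ofNat 1, .negSucc 0, .ofNat 0, .ofNat 1, .negSucc 0, .ofNat 0, .ofNat 1, .negSucc 0, .ofNat 0, .ofNat 1, .negSucc 0, .ofNat 0, .ofNat 1, .ofNat 0, .negSucc 0, .ofNat 0, .ofNat 1, .negSucc 0, .ofNat 0, .ofNat 1, .negSucc 0, .ofNat 0, .negSucc 0, .ofNat 0, .negSucc 0, .ofNat 0, .negSucc 0],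
    [.negSucc 0, .ofNat 0, .ofNat 0, .ofNat 1, .negSucc 0, .negSucc 0, .ofNat 0, .ofNat 0, .ofNat 1, .ofNat 1, .negSucc 0, .negSucc 0, .ofNat 0, .ofNat 0, .ofNat 1, .ofNat 1, .negSucc 0, .ofNat 0, .ofNat 0, .negSucc 0, .negSucc 0, .negSucc 0, .ofNat 0, .ofNat 0, .ofNat 1, .ofNat 1, .negSucc 0, .ofNat 0, .ofNat 0, .negSucc 0, .negSucc 0, .ofNat 0, .ofNat 0, .negSucc 0],
    [.negSucc 0, .negSucc 0, .negSucc 0, .ofNat 0, .ofNat 0, .ofNat 0, .ofNat 1, .ofNat 0, .ofNat 1, .ofNat 1, .negSucc 0, .negSucc 0, .ofNat 0, .negSucc 0, .ofNat 0, .ofNat 0, .ofNat 0, .ofNat 1, .ofNat 1, .negSucc 0, .negSucc 0, .negSucc 0, .ofNat 0, .negSucc 0, .ofNat 0, .ofNat 0, .ofNat 0, .ofNat 1, .negSucc 0, .negSucc 0, .negSucc 0, .ofNat 0, .ofNat 0, .ofNat 0, .negSucc 0],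
    [.negSucc 0, .negSucc 0, .negSucc 0, .ofNat 0, .negSucc 0, .negSucc 0, .ofNat 0, .negSucc 0, .ofNat 0, .ofNat 0, .ofNat 0, .ofNat 0, .ofNat 1, .ofNat 0, .ofNat 1, .ofNat 1, .ofNat 0, .ofNat 1, .ofNat 1, .negSucc 0, .negSucc 0, .negSucc 0, .ofNat 0, .negSucc 0, .ofNat 0, .ofNat 0, .negSucc 0, .ofNat 0, .ofNat 0, .ofNat 0, .ofNat 0, .negSucc 0, .negSucc 0, .negSucc 0, .negSucc 0],
    [.negSucc 0, .negSucc 0, .negSucc 0, .ofNat 0, .negSucc 0, .negSucc 0, .ofNat 0, .negSucc 0, .ofNat 0, .ofNat 0, .negSucc 0, .negSucc 0, .ofNat 0, .negSucc 0, .ofNat 0, .ofNat 0, .negSucc 0, .ofNat 0, .ofNat 0, .ofNat 0, .ofNat 0, .ofNat 0, .ofNat 1, .ofNat 0, .ofNat 1, .ofNat 1, .ofNat 0, .ofNat 1, .negSucc 0, .negSucc 0, .ofNat 0, .negSucc 0, .negSucc 0, .negSucc 0, .negSucc 0]]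
  U := [
    [.ofNat 20242],
    [.negSucc 34312, .ofNat 25744],
    [.negSucc 24571, .negSucc 12160, .ofNat 27551],
    [.negSucc 66696, .negSucc 11084, .negSucc 4149, .ofNat 86780],
    [.ofNat 1650, .negSucc 5555, .negSucc 9189, .negSucc 21765, .ofNat 23154],
    [.negSucc 15594, .negSucc 29377, .negSucc 7204, .ofNat 6933, .negSucc 3746, .ofNat 33458],
    [.negSucc 4996, .negSucc 10574, .negSucc 12364, .negSucc 2359, .negSucc 9800, .negSucc 1790, .ofNat 33744],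
    [.negSucc 3831, .negSucc 23208, .negSucc 13804, .negSucc 25269, .negSucc 4636, .ofNat 12550, .ofNat 1754, .ofNat 68418],
    [.ofNat 5453, .negSucc 2377, .negSucc 81445, .negSucc 50001, .negSucc 1455, .negSucc 2939, .negSucc 26, .ofNat 44704, .ofNat 87390],
    [.negSucc 11506, .ofNat 7490, .ofNat 5136, .ofNat 4315, .negSucc 11414, .negSucc 9941, .negSucc 5046, .negSucc 10862, .negSucc 6691, .ofNat 35880],
    [.negSucc 6300, .negSucc 7668, .ofNat 4717, .negSucc 22831, .ofNat 22810, .ofNat 14214, .negSucc 35243, .negSucc 5326, .negSucc 8234, .negSucc 24414, .ofNat 61181],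
    [.negSucc 9905, .negSucc 30377, .negSucc 16023, .ofNat 1771, .negSucc 21136, .ofNat 6980, .ofNat 12937, .ofNat 21597, .negSucc 10504, .ofNat 5241, .negSucc 4980, .ofNat 37928],
    [.ofNat 35363, .ofNat 39267, .negSucc 18208, .negSucc 23098, .negSucc 4989, .negSucc 54546, .negSucc 630, .negSucc 42725, .ofNat 2275, .negSucc 7876, .ofNat 3472, .ofNat 7297, .ofNat 70754],
    [.negSucc 19842, .negSucc 25721, .negSucc 12094, .negSucc 8903, .negSucc 23605, .ofNat 4329, .negSucc 4943, .ofNat 25209, .negSucc 5685, .ofNat 1904, .negSucc 157, .ofNat 26479, .negSucc 4594, .ofNat 48220],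
    [.ofNat 13971, .ofNat 5806, .negSucc 22633, .ofNat 4552, .negSucc 8939, .negSucc 30472, .negSucc 3166, .negSucc 3812, .ofNat 423, .negSucc 17908, .negSucc 10306, .ofNat 1041, .ofNat 16421, .negSucc 3916, .ofNat 49536],
    [.negSucc 16365, .ofNat 32765, .ofNat 21705, .ofNat 32849, .negSucc 37288, .negSucc 31757, .negSucc 24931, .negSucc 27967, .negSucc 26733, .ofNat 31564, .negSucc 18775, .ofNat 846, .negSucc 11808, .negSucc 3396, .ofNat 8942, .ofNat 65634],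
    [.negSucc 87873, .negSucc 94592, .negSucc 57167, .negSucc 20972, .negSucc 70632, .ofNat 10289, .negSucc 7721, .ofNat 82521, .negSucc 29594, .negSucc 17980, .ofNat 26657, .ofNat 87945, .ofNat 8062, .ofNat 93888, .negSucc 9572, .negSucc 17810, .ofNat 104080],
    [.ofNat 55262, .ofNat 23675, .negSucc 42216, .negSucc 8938, .ofNat 14674, .negSucc 30721, .ofNat 32152, .negSucc 8650, .ofNat 30495, .negSucc 27264, .negSucc 46925, .negSucc 32651, .ofNat 15293, .negSucc 15492, .ofNat 27747, .negSucc 30005, .negSucc 19608, .ofNat 59287],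
    [.negSucc 72399, .negSucc 16301, .ofNat 37756, .ofNat 63451, .negSucc 10934, .ofNat 46307, .negSucc 3765, .negSucc 14872, .negSucc 7568, .ofNat 43235, .negSucc 32588, .negSucc 26280, .negSucc 83568, .negSucc 30488, .negSucc 6766, .ofNat 42331, .negSucc 29619, .negSucc 6586, .ofNat 112527],
    [.ofNat 573, .ofNat 25192, .ofNat 2974, .ofNat 329, .ofNat 38999, .ofNat 16399, .ofNat 8405, .ofNat 58287, .ofNat 39455, .ofNat 2606, .ofNat 1343, .negSucc 34480, .negSucc 5544, .negSucc 26504, .negSucc 15339, .negSucc 11584, .negSucc 36295, .ofNat 552, .ofNat 57060, .ofNat 127152],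
    [.negSucc 23733, .ofNat 33023, .ofNat 21414, .negSucc 4368, .ofNat 27568, .negSucc 18073, .negSucc 8999, .negSucc 54718, .negSucc 3502, .negSucc 10601, .ofNat 36137, .negSucc 1623, .negSucc 51606, .negSucc 51, .negSucc 17482, .negSucc 16944, .negSucc 402, .negSucc 14589, .negSucc 1448, .negSucc 5571, .ofNat 101422],
    [.ofNat 25823, .negSucc 27890, .ofNat 9465, .negSucc 13725, .negSucc 5156, .ofNat 18953, .negSucc 34158, .ofNat 25143, .negSucc 20228, .negSucc 7485, .negSucc 18808, .ofNat 42874, .negSucc 9633, .ofNat 41936, .negSucc 35290, .negSucc 6168, .negSucc 43428, .negSucc 34704, .negSucc 1061, .ofNat 34268, .ofNat 30074, .ofNat 95982],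
    [.negSucc 3236, .negSucc 49019, .negSucc 47438, .negSucc 11304, .ofNat 19748, .ofNat 61526, .ofNat 78163, .ofNat 73253, .ofNat 56025, .negSucc 9999, .negSucc 11044, .negSucc 16979, .negSucc 8722, .negSucc 25985, .negSucc 72379, .negSucc 81496, .negSucc 39186, .negSucc 568, .ofNat 41868, .ofNat 97425, .ofNat 33593, .ofNat 19557, .ofNat 92489],
    [.ofNat 15527, .ofNat 31020, .ofNat 35019, .negSucc 7969, .negSucc 9623, .negSucc 8513, .negSucc 42046, .ofNat 19419, .negSucc 19478, .negSucc 51493, .negSucc 24188, .negSucc 6273, .negSucc 32839, .ofNat 61900, .negSucc 7868, .negSucc 28990, .ofNat 26296, .negSucc 27960, .negSucc 38842, .ofNat 18668, .ofNat 19613, .ofNat 44631, .negSucc 4723, .ofNat 84878],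
    [.ofNat 25163, .ofNat 19559, .negSucc 45689, .negSucc 3841, .negSucc 41584, .negSucc 65959, .negSucc 77868, .ofNat 24310, .ofNat 2238, .negSucc 106431, .ofNat 10216, .negSucc 40469, .ofNat 1641, .ofNat 63643, .ofNat 20582, .negSucc 59381, .ofNat 7513, .negSucc 31544, .negSucc 75613, .ofNat 22975, .ofNat 48449, .ofNat 51694, .ofNat 65807, .ofNat 104086, .ofNat 123257],
    [.ofNat 19736, .negSucc 24563, .negSucc 65661, .negSucc 87143, .negSucc 24622, .negSucc 5358, .negSucc 13377, .negSucc 13889, .ofNat 40462, .ofNat 53596, .ofNat 3963, .ofNat 9928, .ofNat 29134, .negSucc 47913, .negSucc 6924, .ofNat 55745, .negSucc 60838, .negSucc 14377, .ofNat 19357, .negSucc 2727, .negSucc 14898, .ofNat 17108, .ofNat 23005, .negSucc 54998, .ofNat 26496, .ofNat 135174],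
    [.ofNat 28592, .ofNat 44549, .ofNat 84018, .negSucc 6527, .ofNat 9016, .ofNat 67770, .negSucc 44944, .ofNat 15274, .negSucc 100512, .negSucc 24562, .negSucc 51107, .ofNat 5959, .negSucc 91657, .ofNat 9303, .negSucc 110553, .negSucc 59405, .ofNat 43352, .negSucc 75205, .negSucc 6773, .ofNat 32529, .ofNat 26100, .ofNat 97770, .negSucc 13389, .ofNat 129407, .negSucc 44703, .negSucc 35444, .ofNat 133008],
    [.negSucc 71321, .negSucc 79688, .negSucc 66625, .ofNat 85295, .negSucc 54890, .negSucc 21866, .ofNat 73687, .negSucc 65704, .negSucc 32480, .negSucc 17238, .negSucc 12630, .negSucc 33792, .ofNat 37471, .negSucc 59764, .ofNat 21949, .negSucc 42869, .negSucc 22466, .ofNat 49123, .ofNat 5879, .negSucc 13069, .ofNat 6528, .negSucc 39042, .ofNat 110640, .negSucc 29542, .ofNat 84741, .ofNat 10118, .negSucc 2525, .ofNat 157364],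
    [.ofNat 3113, .ofNat 14113, .ofNat 13023, .negSucc 35466, .negSucc 20953, .negSucc 22006, .negSucc 76867, .ofNat 1617, .negSucc 27472, .negSucc 17325, .negSucc 3630, .negSucc 8403, .negSucc 37309, .ofNat 17835, .ofNat 40107, .ofNat 41353, .negSucc 7992, .negSucc 15858, .ofNat 80496, .ofNat 18677, .ofNat 7501, .ofNat 28804, .negSucc 22509, .ofNat 28425, .ofNat 36160, .ofNat 104312, .ofNat 4778, .ofNat 64628, .ofNat 171764],
    [.ofNat 45690, .ofNat 48987, .ofNat 7398, .ofNat 1579, .ofNat 9213, .ofNat 33069, .negSucc 8735, .ofNat 29293, .negSucc 45069, .negSucc 101784, .ofNat 51201, .ofNat 38945, .ofNat 35756, .ofNat 90607, .ofNat 46405, .ofNat 9577, .ofNat 41401, .ofNat 99459, .ofNat 45470, .ofNat 75587, .negSucc 19692, .ofNat 6548, .ofNat 644, .ofNat 8698, .negSucc 55722, .negSucc 67240, .negSucc 46196, .ofNat 6997, .ofNat 66491, .ofNat 170567],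
    [.negSucc 21327, .ofNat 11028, .negSucc 10464, .negSucc 28199, .ofNat 79171, .ofNat 26147, .negSucc 58909, .negSucc 19405, .negSucc 37256, .negSucc 29543, .ofNat 113792, .ofNat 49920, .negSucc 29915, .negSucc 47402, .negSucc 29009, .negSucc 9549, .ofNat 591, .negSucc 39123, .negSucc 15184, .ofNat 41693, .ofNat 84383, .ofNat 25605, .negSucc 48360, .negSucc 22387, .negSucc 38255, .negSucc 41702, .ofNat 74934, .negSucc 39149, .ofNat 15297, .ofNat 9601, .ofNat 168666],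
    [.ofNat 64925, .negSucc 3542, .ofNat 11924, .negSucc 26192, .negSucc 10672, .ofNat 46098, .ofNat 9175, .negSucc 3325, .negSucc 41290, .ofNat 15660, .negSucc 13268, .ofNat 46911, .ofNat 56901, .ofNat 12747, .negSucc 69372, .negSucc 16333, .ofNat 28690, .negSucc 22714, .negSucc 21902, .ofNat 3767, .negSucc 69462, .ofNat 37670, .negSucc 2702, .ofNat 21728, .negSucc 49422, .negSucc 3827, .ofNat 55891, .ofNat 76753, .ofNat 21510, .ofNat 16154, .ofNat 85170, .ofNat 177175],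
    [.negSucc 6024, .ofNat 77661, .ofNat 421, .negSucc 29431, .ofNat 101418, .ofNat 1012, .negSucc 11534, .ofNat 36311, .ofNat 47787, .ofNat 30046, .ofNat 30895, .negSucc 64425, .negSucc 59540, .ofNat 18022, .ofNat 23939, .negSucc 65434, .ofNat 17664, .ofNat 58921, .negSucc 6545, .negSucc 11855, .ofNat 1018, .negSucc 77111, .negSucc 94674, .ofNat 5840, .ofNat 36169, .negSucc 29576, .ofNat 89307, .ofNat 35559, .ofNat 48009, .negSucc 58665, .ofNat 29925, .ofNat 48102, .ofNat 172105],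
    [.ofNat 27437, .negSucc 9015, .ofNat 9422, .negSucc 27012, .ofNat 82220, .ofNat 82699, .ofNat 27781, .negSucc 17890, .negSucc 45546, .negSucc 27109, .ofNat 19201, .ofNat 46567, .negSucc 36619, .negSucc 8802, .negSucc 72856, .negSucc 72820, .ofNat 118620, .ofNat 17474, .negSucc 18706, .negSucc 45582, .ofNat 82859, .ofNat 82380, .ofNat 256, .negSucc 27240, .negSucc 54382, .ofNat 36604, .ofNat 63890, .negSucc 267, .ofNat 27425, .ofNat 46023, .negSucc 63585, .negSucc 36072, .ofNat 37096, .ofNat 187099],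
    [.ofNat 101, .ofNat 25969, .ofNat 51837, .ofNat 38903, .negSucc 50, .ofNat 77857, .ofNat 38752, .ofNat 51686, .ofNat 12884, .ofNat 38752, .ofNat 103725, .ofNat 103725, .negSucc 12984, .ofNat 25818, .ofNat 13187, .ofNat 13082, .negSucc 25766, .negSucc 90436, .negSucc 64568, .ofNat 12833, .ofNat 77857, .negSucc 50, .ofNat 38752, .negSucc 50, .ofNat 38949, .ofNat 13187, .negSucc 25766, .negSucc 38700, .ofNat 38701, .ofNat 64569, .ofNat 25969, .ofNat 64569, .ofNat 90437, .ofNat 64569, .ofNat 197927]]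

theorem cls10_ok : check cls10 = true := by decide +kernel

end Pool.Agent.V1197.ZN
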