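import Pool.Agent.V1197.ZN.Cert

namespace Pool.Agent.V1197.ZN

def cls2 : Cls where
  chi := [.ofNat 1, .ofNat 1, .ofNat 1, .ofNat 1, .ofNat 1, .ofNat 1, .ofNat 1, .ofNat 1, .ofNat 1, .ofNat 1, .ofNat 1, .ofNat 1, .ofNat 1, .ofNat 1, .ofNat 1, .ofNat 1, .ofNat 1, .ofNat 1, .ofNat 1, .ofNat 1, .ofNat 1, .ofNat 1, .ofNat 1, .ofNat 1, .ofNat 1, .ofNat 1, .ofNat 1, .ofNat 1, .ofNat 1, .ofNat 1, .ofNat 1, .ofNat 1, .ofNat 1, .negSucc 0, .negSucc 0]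
  mu := [.ofNat 300, .ofNat 300, .ofNat 300, .ofNat 300, .ofNat 300, .ofNat 300, .ofNat 300, .ofNat 300, .ofNat 300, .ofNat 300, .ofNat 300, .ofNat 300, .ofNat 300, .ofNat 300, .ofNat 300, .negSucc 299, .negSucc 299, .negSucc 299, .negSucc 299, .negSucc 299, .negSucc 299, .negSucc 299, .negSucc 299, .negSucc 299, .ofNat 117, .ofNat 300, .ofNat 300, .ofNat 300, .ofNat 300, .ofNat 300, .negSucc 215, .ofNat 300, .ofNat 300, .ofNat 300, .ofNat 300, .ofNat 300, .negSucc 299, .negSucc 299, .negSucc 299, .negSucc 299, .negSucc 299, .negSucc 298, .negSucc 299, .negSucc 299, .ofNat 300, .negSucc 299, .negSucc 299, .negSucc 299, .ofNat 300, .ofNat 300, .negSucc 299, .ofNat 300, .ofNat 300, .negSucc 299, .ofNat 300, .ofNat 300, .ofNat 249, .negSucc 299, .negSucc 299, .negSucc 299, .ofNat 300, .negSucc 82, .negSucc 299, .negSucc 299, .ofNat 15, .negSucc 299, .negSucc 299, .ofNat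 165, .negSucc 299, .negSucc 299, .negSucc 299, .negSucc 299, .negSucc 299, .negSucc 299, .ofNat 300, .ofNat 300, .ofNat 300, .negSucc 299, .ofNat 300, .ofNat 300, .ofNat 300, .ofNat 300, .ofNat 300, .ofNat 300, .negSucc 299, .ofNat 300, .ofNat 300, .ofNat 300, .negSucc 299, .negSucc 299, .ofNat 300, .ofNat 300, .ofNat 300, .ofNat 152, .ofNat 146, .negSucc 11, .ofNat 300, .negSucc 299, .negSucc 299, .negSucc 19, .ofNat 300, .negSucc 299, .negSucc 299, .negSucc 145, .ofNat 300]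
  om := [.negSucc 1199, .ofNat 300, .ofNat 300, .ofNat 300, .ofNat 300, .negSucc 299, .ofNat 300]
  kap := 6400
  s := 30000
  del := 3600000
  eta := 144528
  L := [
    [.ofNat 0, .ofNat 0, .ofNat 1, .negSucc 0, .ofNat 0, .ofNat 1, .negSucc 0, .ofNat 1, .negSucc 0, .ofNat 0, .ofNat 0, .ofNat 1, .negSucc 0, .ofNat 1, .negSucc 0, .ofNat 0, .ofNat 1, .negSucc 0, .ofNat 0, .ofNat 0, .ofNat 0, .ofNat 1, .negSucc 0, .ofNat 1, .negSucc 0, .ofNat 0, .ofNat 1, .negSucc 0, .ofNat 0, .ofNat 0, .ofNat 1, .negSucc 0],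
    [.ofNat 0, .negSucc 0, .ofNat 0, .ofNat 1, .negSucc 0, .ofNat 0, .ofNat 1, .ofNat 1, .ofNat 0, .negSucc 0, .negSucc 0, .ofNat 0, .ofNat 1, .ofNat 1, .ofNat 0, .negSucc 0, .ofNat 1, .ofNat 0, .negSucc 0, .ofNat 0, .negSucc 0, .ofNat 0, .ofNat 1, .ofNat 1, .ofNat 0, .negSucc 0, .ofNat 1, .ofNat 0, .negSucc 0, .ofNat 0, .ofNat 1, .ofNat 0, .negSucc 0],
    [.ofNat 1, .ofNat 0, .ofNat 0, .negSucc 0, .negSucc 0, .negSucc 0, .ofNat 0, .ofNat 0, .ofNat 1, .ofNat 1, .negSucc 0, .negSucc 0, .ofNat 0, .ofNat 0, .ofNat 1, .ofNat 1, .ofNat 1, .ofNat 0, .ofNat 0, .negSucc 0, .negSucc 0, .negSucc 0, .ofNat 0, .ofNat 0, .ofNat 1, .ofNat 1, .ofNat 1, .ofNat 0, .ofNat 0, .negSucc 0, .negSucc 0, .ofNat 0, .ofNat 0, .negSucc 0],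
    [.ofNat 1, .ofNat 1, .ofNat 1, .ofNat 0, .ofNat 0, .ofNat 0, .negSucc 0, .ofNat 0, .negSucc 0, .negSucc 0, .negSucc 0, .negSucc 0, .ofNat 0, .negSucc 0, .ofNat 0, .ofNat 0, .ofNat 0, .ofNat 1, .ofNat 1, .ofNat 1, .negSucc 0, .negSucc 0, .ofNat 0, .negSucc 0, .ofNat 0, .ofNat 0, .ofNat 0, .ofNat 1, .ofNat 1, .ofNat 1, .negSucc 0, .ofNat 0, .ofNat 0, .ofNat 0, .negSucc 0],
    [.ofNat 1, .ofNat 1, .ofNat 1, .ofNat 0, .ofNat 1, .ofNat 1, .ofNat 0, .ofNat 1, .ofNat 0, .ofNat 0, .ofNat 0, .ofNat 0, .negSucc 0, .ofNat 0, .negSucc 0, .negSucc 0, .ofNat 0, .negSucc 0, .negSucc 0, .negSucc 0, .negSucc 0, .negSucc 0, .ofNat 0, .ofNat 1, .ofNat 0, .ofNat 0, .ofNat 1, .ofNat 0, .ofNat 0, .ofNat 0, .ofNat 0, .ofNat 1, .ofNat 1, .ofNat 1, .ofNat 1],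
    [.ofNat 1, .ofNat 1, .ofNat 1, .ofNat 0, .ofNat 1, .ofNat 1, .ofNat 0, .ofNat 1, .ofNat 0, .ofNat 0, .ofNat 1, .ofNat 1, .ofNat 0, .negSucc 0, .ofNat 0, .ofNat 0, .negSucc 0, .ofNat 0, .ofNat 0, .ofNat 0, .ofNat 0, .ofNat 0, .negSucc 0, .ofNat 0, .negSucc 0, .negSucc 0, .ofNat 0, .negSucc 0, .negSucc 0, .negSucc 0, .ofNat 0, .negSucc 0, .negSucc 0, .negSucc 0, .negSucc 0],
    [.ofNat 0, .ofNat 1, .negSucc 0, .ofNat 0, .ofNat 1, .negSucc 0, .ofNat 0, .ofNat 0, .ofNat 1, .negSucc 0, .ofNat 1, .negSucc 0, .ofNat 0, .ofNat 0, .ofNat 1, .negSucc 0, .ofNat 0, .ofNat 1, .negSucc 0, .ofNat 0, .ofNat 1, .negSucc 0, .ofNat 0, .ofNat 0, .ofNat 1, .negSucc 0, .ofNat 0, .ofNat 1, .negSucc 0, .ofNat 0, .ofNat 0, .ofNat 1, .negSucc 0],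
    [.negSucc 0, .ofNat 0, .ofNat 1, .ofNat 0, .ofNat 1, .ofNat 0, .negSucc 0, .negSucc 0, .ofNat 0, .ofNat 1, .ofNat 1, .ofNat 0, .negSucc 0, .negSucc 0, .ofNat 0, .ofNat 1, .ofNat 0, .ofNat 1, .ofNat 0, .negSucc 0, .ofNat 1, .ofNat 0, .negSucc 0, .negSucc 0, .ofNat 0, .ofNat 1, .ofNat 0, .ofNat 1, .ofNat 0, .negSucc 0, .ofNat 0, .negSucc 0, .ofNat 0, .negSucc 0],
    [.negSucc 0, .negSucc 0, .ofNat 0, .ofNat 1, .ofNat 0, .ofNat 1, .ofNat 0, .ofNat 1, .ofNat 0, .negSucc 0, .ofNat 1, .ofNat 0, .negSucc 0, .ofNat 0, .negSucc 0, .ofNat 0, .negSucc 0, .ofNat 0, .ofNat 1, .ofNat 1, .ofNat 1, .ofNat 0, .negSucc 0, .ofNat 0, .negSucc 0, .ofNat 0, .negSucc 0, .ofNat 0, .ofNat 1, .ofNat 1, .ofNat 0, .negSucc 0, .ofNat 0, .ofNat 0, .negSucc 0],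
    [.negSucc 0, .negSucc 0, .ofNat 0, .ofNat 1, .negSucc 0, .ofNat 0, .ofNat 1, .ofNat 0, .ofNat 1, .ofNat 0, .ofNat 0, .ofNat 1, .ofNat 0, .ofNat 1, .ofNat 0, .negSucc 0, .ofNat 1, .ofNat 0, .negSucc 0, .negSucc 0, .ofNat 1, .ofNat 0, .negSucc 0, .ofNat 0, .ofNat 1, .ofNat 0, .ofNat 0, .ofNat 1, .ofNat 0, .ofNat 0, .negSucc 0, .ofNat 0, .ofNat 1, .ofNat 1, .ofNat 1],
    [.negSucc 0, .negSucc 0, .ofNat 0, .ofNat 1, .negSucc 0, .ofNat 0, .ofNat 1, .ofNat 0, .ofNat 1, .ofNat 0, .negSucc 0, .ofNat 0, .ofNat 1, .ofNat 0, .negSucc 0, .ofNat 0, .ofNat 0, .negSucc 0, .ofNat 0, .ofNat 0, .ofNat 0, .ofNat 1, .ofNat 0, .ofNat 1, .ofNat 0, .negSucc 0, .ofNat 1, .ofNat 0, .negSucc 0, .negSucc 0, .ofNat 1, .ofNat 0, .negSucc 0, .negSucc 0, .negSucc 0],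
    [.ofNat 1, .negSucc 0, .ofNat 0, .ofNat 0, .ofNat 0, .ofNat 1, .ofNat 1, .negSucc 0, .negSucc 0, .ofNat 0, .ofNat 0, .ofNat 1, .ofNat 1, .negSucc 0, .negSucc 0, .ofNat 0, .ofNat 0, .ofNat 0, .ofNat 1, .negSucc 0, .ofNat 0, .ofNat 1, .ofNat 1, .negSucc 0, .negSucc 0, .ofNat 0, .ofNat 0, .ofNat 0, .ofNat 1, .negSucc 0, .ofNat 0, .ofNat 0, .negSucc 0, .negSucc 0],
    [.ofNat 1, .ofNat 0, .negSucc 0, .negSucc 0, .negSucc 0, .ofNat 0, .ofNat 0, .ofNat 1, .ofNat 1, .ofNat 0, .ofNat 0, .ofNat 1, .ofNat 1, .ofNat 0, .ofNat 0, .negSucc 0, .negSucc 0, .negSucc 0, .ofNat 0, .ofNat 1, .ofNat 0, .ofNat 1, .ofNat 1, .ofNat 0, .ofNat 0, .negSucc 0, .negSucc 0, .negSucc 0, .ofNat 0, .ofNat 1, .ofNat 0, .ofNat 0, .negSucc 0, .ofNat 0, .negSucc 0],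
    [.ofNat 1, .ofNat 0, .negSucc 0, .negSucc 0, .ofNat 0, .negSucc 0, .negSucc 0, .ofNat 0, .ofNat 0, .ofNat 1, .negSucc 0, .ofNat 0, .ofNat 0, .ofNat 1, .ofNat 1, .ofNat 0, .ofNat 1, .ofNat 1, .ofNat 0, .negSucc 0, .ofNat 0, .ofNat 1, .ofNat 1, .ofNat 0, .ofNat 0, .ofNat 1, .ofNat 0, .ofNat 0, .ofNat 1, .ofNat 0, .negSucc 0, .negSucc 0, .ofNat 0, .ofNat 1, .ofNat 1],
    [.ofNat 1, .ofNat 0, .negSucc 0, .negSucc 0, .ofNat 0, .negSucc 0, .negSucc 0, .ofNat 0, .ofNat 0, .ofNat 1, .ofNat 0, .negSucc 0, .negSucc 0, .ofNat 0, .ofNat 0, .negSucc 0, .ofNat 0, .ofNat 0, .negSucc 0, .ofNat 0, .negSucc 0, .ofNat 0, .ofNat 0, .ofNat 1, .ofNat 1, .ofNat 0, .ofNat 1, .ofNat 1, .ofNat 0, .negSucc 0, .ofNat 1, .ofNat 1, .ofNat 0, .negSucc 0, .negSucc 0],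
    [.ofNat 0, .ofNat 1, .ofNat 1, .ofNat 1, .negSucc 0, .negSucc 0, .negSucc 0, .ofNat 0, .ofNat 0, .ofNat 0, .ofNat 0, .ofNat 0, .ofNat 0, .ofNat 1, .ofNat 1, .ofNat 1, .negSucc 0, .negSucc 0, .negSucc 0, .ofNat 0, .ofNat 0, .ofNat 0, .ofNat 0, .ofNat 1, .ofNat 1, .ofNat 1, .negSucc 0, .negSucc 0, .negSucc 0, .ofNat 0, .ofNat 0, .ofNat 0, .ofNat 0, .negSucc 0, .ofNat 1],
    [.ofNat 0, .ofNat 1, .ofNat 1, .ofNat 1, .ofNat 0, .ofNat 0, .ofNat 0, .negSucc 0, .negSucc 0, .negSucc 0, .negSucc 0, .negSucc 0, .negSucc 0, .ofNat 0, .ofNat 0, .ofNat 0, .ofNat 1, .ofNat 1, .ofNat 1, .ofNat 0, .ofNat 0, .ofNat 0, .ofNat 0, .ofNat 1, .ofNat 1, .ofNat 1, .ofNat 0, .ofNat 0, .ofNat 0, .ofNat 1, .negSucc 0, .negSucc 0, .negSucc 0, .ofNat 0, .ofNat 1],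
    [.ofNat 0, .ofNat 1, .ofNat 1, .ofNat 1, .ofNat 0, .ofNat 0, .ofNat 0, .negSucc 0, .negSucc 0, .negSucc 0, .ofNat 0, .ofNat 0, .ofNat 0, .negSucc 0, .negSucc 0, .negSucc 0, .ofNat 0, .ofNat 0, .ofNat 0, .negSucc 0, .negSucc 0, .negSucc 0, .negSucc 0, .ofNat 0, .ofNat 0, .ofNat 0, .ofNat 1, .ofNat 1, .ofNat 1, .ofNat 0, .ofNat 1, .ofNat 1, .ofNat 1, .ofNat 0, .negSucc 0],
    [.ofNat 0, .ofNat 0, .ofNat 0, .ofNat 0, .ofNat 1, .ofNat 1, .ofNat 1, .ofNat 1, .ofNat 1, .ofNat 1, .negSucc 0, .negSucc 0, .negSucc 0, .negSucc 0, .negSucc 0, .negSucc 0, .ofNat 0, .ofNat 0, .ofNat 0, .ofNat 0, .ofNat 0, .ofNat 0, .ofNat 0, .ofNat 0, .ofNat 0, .ofNat 0, .ofNat 1, .ofNat 1, .ofNat 1, .negSucc 0, .negSucc 0, .negSucc 0, .negSucc 0, .negSucc 0, .ofNat 0],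
    [.ofNat 0, .ofNat 0, .ofNat 0, .ofNat 0, .ofNat 1, .ofNat 1, .ofNat 1, .ofNat 1, .ofNat 1, .ofNat 1, .ofNat 0, .ofNat 0, .ofNat 0, .ofNat 0, .ofNat 0, .ofNat 0, .negSucc 0, .negSucc 0, .negSucc 0, .ofNat 1, .negSucc 0, .negSucc 0, .negSucc 0, .negSucc 0, .negSucc 0, .negSucc 0, .ofNat 0, .ofNat 0, .ofNat 0, .ofNat 0, .ofNat 1, .ofNat 1, .ofNat 1, .ofNat 1, .ofNat 0],
    [.ofNat 0, .ofNat 0, .ofNat 0, .ofNat 0, .ofNat 0, .ofNat 0, .ofNat 0, .ofNat 0, .ofNat 0, .ofNat 0, .ofNat 1, .ofNat 1, .ofNat 1, .ofNat 1, .ofNat 1, .ofNat 1, .ofNat 1, .ofNat 1, .ofNat 1, .ofNat 1, .negSucc 0, .negSucc 0, .negSucc 0, .negSucc 0, .negSucc 0, .negSucc 0, .negSucc 0, .negSucc 0, .negSucc 0, .negSucc 0, .ofNat 0, .ofNat 0, .ofNat 0, .ofNat 0, .ofNat 0],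
    [.ofNat 0, .ofNat 0, .negSucc 0, .ofNat 1, .ofNat 0, .negSucc 0, .ofNat 1, .negSucc 0, .ofNat 1, .ofNat 0, .ofNat 0, .negSucc 0, .ofNat 1, .negSucc 0, .ofNat 1, .ofNat 0, .negSucc 0, .ofNat 1, .ofNat 0, .ofNat 0, .ofNat 0, .negSucc 0, .ofNat 1, .negSucc 0, .ofNat 1, .ofNat 0, .negSucc 0, .ofNat 1, .ofNat 0, .ofNat 0, .negSucc 0, .ofNat 1],
    [.ofNat 0, .negSucc 0, .ofNat 0, .ofNat 1, .negSucc 0, .ofNat 0, .ofNat 1, .negSucc 0, .ofNat 0, .ofNat 1, .negSucc 0, .ofNat 0, .ofNat 1, .negSucc 0, .ofNat 0, .ofNat 1, .negSucc 0, .ofNat 0, .ofNat 1, .ofNat 0, .negSucc 0, .ofNat 0, .ofNat 1, .negSucc 0, .ofNat 0, .ofNat 1, .negSucc 0, .ofNat 0, .ofNat 1, .ofNat 0, .negSucc 0, .ofNat 0, .ofNat 1],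
    [.negSucc 0, .ofNat 0, .ofNat 0, .ofNat 1, .negSucc 0, .negSucc 0, .ofNat 0, .ofNat 0, .ofNat 1, .ofNat 1, .negSucc 0, .negSucc 0, .ofNat 0, .ofNat 0, .ofNat 1, .ofNat 1, .negSucc 0, .ofNat 0, .ofNat 0, .ofNat 1, .negSucc 0, .negSucc 0, .ofNat 0, .ofNat 0, .ofNat 1, .ofNat 1, .negSucc 0, .ofNat 0, .ofNat 0, .ofNat 1, .negSucc 0, .ofNat 0, .ofNat 0, .negSucc 0],
    [.negSucc 0, .negSucc 0, .negSucc 0, .ofNat 0, .ofNat 0, .ofNat 0, .ofNat 1, .ofNat 0, .ofNat 1, .ofNat 1, .negSucc 0, .negSucc 0, .ofNat 0, .negSucc 0, .ofNat 0, .ofNat 0, .ofNat 0, .ofNat 1, .ofNat 1, .ofNat 1, .negSucc 0, .negSucc 0, .ofNat 0, .negSucc 0, .ofNat 0, .ofNat 0, .ofNat 0, .ofNat 1, .ofNat 1, .ofNat 1, .negSucc 0, .ofNat 0, .ofNat 0, .ofNat 0, .negSucc 0],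
    [.negSucc 0, .negSucc 0, .negSucc 0, .ofNat 0, .negSucc 0, .negSucc 0, .ofNat 0, .negSucc 0, .ofNat 0, .ofNat 0, .ofNat 0, .ofNat 0, .ofNat 1, .ofNat 0, .ofNat 1, .ofNat 1, .ofNat 0, .ofNat 1, .ofNat 1, .ofNat 1, .negSucc 0, .negSucc 0, .ofNat 0, .negSucc 0, .ofNat 0, .ofNat 0, .negSucc 0, .ofNat 0, .ofNat 0, .ofNat 0, .ofNat 0, .ofNat 1, .ofNat 1, .negSucc 0, .negSucc 0],
    [.negSucc 0, .negSucc 0, .negSucc 0, .ofNat 0, .negSucc 0, .negSucc 0, .ofNat 0, .negSucc 0, .ofNat 0, .ofNat 0, .negSucc 0, .negSucc 0, .ofNat 0, .negSucc 0, .ofNat 0, .ofNat 0, .negSucc 0, .ofNat 0, .ofNat 0, .ofNat 0, .ofNat 0, .ofNat 0, .ofNat 1, .ofNat 0, .ofNat 1, .ofNat 1, .ofNat 0, .ofNat 1, .ofNat 1, .ofNat 1, .ofNat 0, .ofNat 1, .ofNat 1, .negSucc 0, .negSucc 0]]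
  U := [
    [.ofNat 10553],
    [.negSucc 15041, .ofNat 9680],
    [.negSucc 8598, .negSucc 8729, .ofNat 12912],
    [.negSucc 12120, .negSucc 7426, .ofNat 1149, .ofNat 23776],
    [.negSucc 3887, .negSucc 2997, .negSucc 10363, .negSucc 7952, .ofNat 15660],
    [.negSucc 3547, .negSucc 12570, .negSucc 3102, .negSucc 1171, .negSucc 4223, .ofNat 14105],
    [.negSucc 11618, .negSucc 20425, .negSucc 8319, .ofNat 11395, .negSucc 6543, .ofNat 5020, .ofNat 30153],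
    [.ofNat 4472, .negSucc 4751, .negSucc 3881, .negSucc 7894, .negSucc 2935, .negSucc 818, .negSucc 5771, .ofNat 18238],
    [.negSucc 11787, .negSucc 13336, .negSucc 11506, .ofNat 2380, .negSucc 5777, .negSucc 2328, .ofNat 11099, .ofNat 2122, .ofNat 25326],
    [.negSucc 12232, .negSucc 13944, .negSucc 18366, .negSucc 10349, .ofNat 1670, .negSucc 3386, .ofNat 7390, .ofNat 1039, .ofNat 18791, .ofNat 31974],
    [.ofNat 8826, .ofNat 5151, .negSucc 2026, .negSucc 9250, .ofNat 3335, .negSucc 3141, .negSucc 10858, .negSucc 351, .negSucc 6582, .negSucc 4034, .ofNat 19552],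
    [.ofNat 1356, .negSucc 1722, .ofNat 2572, .negSucc 2553, .negSucc 6919, .negSucc 858, .negSucc 6261, .negSucc 3797, .negSucc 9549, .negSucc 3572, .ofNat 3777, .ofNat 17911],
    [.negSucc 12438, .negSucc 10097, .ofNat 1386, .ofNat 21976, .negSucc 17649, .negSucc 4485, .ofNat 17080, .negSucc 8378, .ofNat 2691, .negSucc 9273, .negSucc 11822, .ofNat 3630, .ofNat 27404],
    [.negSucc 6340, .negSucc 13714, .negSucc 8789, .ofNat 4830, .negSucc 11712, .negSucc 5783, .ofNat 1317, .ofNat 7377, .ofNat 7021, .negSucc 1109, .negSucc 2094, .ofNat 1122, .ofNat 3892, .ofNat 20261],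
    [.ofNat 6678, .ofNat 5311, .negSucc 11641, .negSucc 12275, .negSucc 1372, .negSucc 14220, .negSucc 9975, .ofNat 987, .ofNat 3643, .ofNat 4316, .negSucc 976, .negSucc 5282, .ofNat 1129, .ofNat 5917, .ofNat 22875],
    [.negSucc 8118, .negSucc 5354, .negSucc 1469, .ofNat 1108, .negSucc 5402, .negSucc 9088, .negSucc 2620, .negSucc 4667, .ofNat 4122, .ofNat 5368, .negSucc 6808, .negSucc 8895, .ofNat 3178, .ofNat 2858, .ofNat 5994, .ofNat 24997],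
    [.negSucc 5347, .negSucc 16174, .negSucc 8840, .negSucc 9930, .negSucc 19453, .negSucc 8298, .negSucc 2102, .ofNat 2414, .ofNat 2318, .negSucc 3498, .negSucc 2816, .ofNat 8181, .ofNat 7525, .ofNat 22481, .ofNat 7007, .ofNat 990, .ofNat 30025],
    [.ofNat 3980, .ofNat 3819, .negSucc 12484, .negSucc 13676, .ofNat 5433, .negSucc 16024, .negSucc 18930, .negSucc 7777, .negSucc 13415, .negSucc 5545, .ofNat 6539, .negSucc 2759, .negSucc 3422, .ofNat 10182, .ofNat 16637, .negSucc 1507, .ofNat 18627, .ofNat 32625],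
    [.negSucc 9574, .negSucc 5779, .ofNat 3081, .ofNat 8676, .negSucc 7097, .negSucc 862, .ofNat 3127, .negSucc 25253, .negSucc 21107, .negSucc 20019, .negSucc 1463, .negSucc 693, .ofNat 6349, .negSucc 1212, .negSucc 6923, .ofNat 7845, .ofNat 20028, .ofNat 15792, .ofNat 33641],
    [.negSucc 10083, .negSucc 7886, .negSucc 13306, .negSucc 10334, .ofNat 3336, .negSucc 790, .negSucc 821, .ofNat 10974, .ofNat 10139, .ofNat 12411, .negSucc 7456, .negSucc 15274, .negSucc 9197, .ofNat 6994, .ofNat 3089, .ofNat 5170, .negSucc 1935, .negSucc 3415, .ofNat 408, .ofNat 30677],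
    [.negSucc 6184, .ofNat 4204, .negSucc 2792, .negSucc 5319, .ofNat 14277, .ofNat 3024, .negSucc 3380, .negSucc 211, .ofNat 1792, .negSucc 14288, .ofNat 22901, .ofNat 302, .negSucc 9410, .negSucc 7512, .negSucc 3353, .negSucc 3645, .negSucc 8165, .negSucc 531, .negSucc 4322, .negSucc 10893, .ofNat 36582],
    [.negSucc 6598, .negSucc 13636, .negSucc 7821, .negSucc 8051, .negSucc 8921, .ofNat 1518, .ofNat 1218, .negSucc 7715, .ofNat 897, .ofNat 3434, .ofNat 2566, .ofNat 17433, .ofNat 4510, .ofNat 1649, .negSucc 9541, .negSucc 4484, .negSucc 15, .negSucc 10884, .negSucc 1693, .negSucc 9697, .ofNat 23934, .ofNat 32814],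
    [.ofNat 3816, .negSucc 22708, .negSucc 19085, .negSucc 3474, .negSucc 16170, .negSucc 8491, .ofNat 10122, .negSucc 4807, .ofNat 1210, .ofNat 5587, .negSucc 18253, .ofNat 1264, .ofNat 22778, .negSucc 735, .ofNat 2763, .ofNat 180, .negSucc 1465, .negSucc 966, .ofNat 345, .negSucc 4632, .negSucc 3737, .ofNat 18450, .ofNat 42124],
    [.ofNat 945, .ofNat 753, .ofNat 818, .ofNat 10569, .negSucc 3424, .ofNat 3506, .negSucc 1547, .ofNat 12640, .ofNat 345, .negSucc 7072, .ofNat 605, .negSucc 839, .negSucc 12103, .ofNat 7559, .negSucc 12774, .negSucc 14301, .negSucc 5973, .negSucc 11818, .negSucc 6312, .negSucc 1693, .ofNat 3411, .ofNat 6542, .negSucc 294, .ofNat 29684],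
    [.ofNat 1437, .negSucc 1218, .negSucc 12973, .negSucc 2104, .negSucc 18010, .negSucc 17975, .negSucc 4550, .negSucc 123, .ofNat 11341, .ofNat 2353, .negSucc 6467, .negSucc 2806, .negSucc 143, .ofNat 11198, .ofNat 6542, .negSucc 12380, .ofNat 659, .negSucc 6864, .negSucc 14073, .negSucc 4522, .ofNat 6900, .ofNat 10408, .ofNat 6558, .ofNat 16629, .ofNat 29940],
    [.ofNat 5477, .ofNat 6098, .negSucc 2060, .negSucc 7572, .negSucc 7307, .negSucc 21203, .negSucc 20698, .negSucc 18043, .negSucc 9794, .ofNat 4694, .negSucc 4722, .negSucc 11547, .negSucc 5655, .ofNat 556, .ofNat 10319, .ofNat 12312, .ofNat 1021, .ofNat 4489, .ofNat 1236, .negSucc 11443, .ofNat 1221, .ofNat 6628, .ofNat 10254, .ofNat 7898, .ofNat 14196, .ofNat 30103],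
    [.ofNat 14236, .ofNat 10263, .ofNat 13265, .negSucc 13018, .negSucc 2494, .ofNat 4734, .negSucc 1713, .ofNat 15345, .negSucc 2121, .ofNat 710, .negSucc 26029, .negSucc 11958, .negSucc 15190, .ofNat 2022, .negSucc 13493, .negSucc 14896, .ofNat 21393, .negSucc 13725, .negSucc 10927, .negSucc 14531, .negSucc 18184, .negSucc 2807, .negSucc 778, .ofNat 26331, .ofNat 8377, .ofNat 2786, .ofNat 43128],
    [.negSucc 20805, .negSucc 520, .ofNat 126, .ofNat 13517, .ofNat 11796, .negSucc 7794, .ofNat 1691, .negSucc 8676, .ofNat 6930, .negSucc 4829, .negSucc 2377, .negSucc 23622, .negSucc 19320, .negSucc 8866, .negSucc 5350, .negSucc 17237, .ofNat 10117, .ofNat 17649, .negSucc 14974, .negSucc 12210, .ofNat 14655, .negSucc 9801, .negSucc 10165, .ofNat 3790, .ofNat 19839, .ofNat 3492, .ofNat 19081, .ofNat 44385],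
    [.ofNat 11191, .negSucc 8312, .negSucc 3670, .negSucc 7671, .ofNat 8391, .ofNat 12105, .ofNat 3836, .negSucc 9552, .negSucc 16316, .ofNat 5450, .negSucc 15489, .negSucc 8265, .negSucc 10988, .negSucc 19511, .negSucc 25854, .negSucc 15251, .ofNat 961, .negSucc 1191, .ofNat 8862, .negSucc 15920, .negSucc 2050, .ofNat 12869, .ofNat 14966, .negSucc 5398, .negSucc 6813, .ofNat 13928, .ofNat 15819, .ofNat 18596, .ofNat 43925],
    [.negSucc 15908, .ofNat 2435, .ofNat 694, .ofNat 12082, .negSucc 17110, .negSucc 8890, .negSucc 9776, .negSucc 457, .negSucc 9170, .negSucc 19397, .negSucc 11677, .negSucc 12115, .negSucc 6530, .ofNat 5614, .ofNat 911, .ofNat 38, .negSucc 13994, .negSucc 5730, .ofNat 3084, .ofNat 20349, .ofNat 3220, .ofNat 2209, .ofNat 10272, .ofNat 14132, .ofNat 12339, .ofNat 12196, .negSucc 15686, .negSucc 4923, .ofNat 5054, .ofNat 48291],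
    [.negSucc 1136, .ofNat 1709, .ofNat 16571, .negSucc 6338, .ofNat 7958, .ofNat 17067, .negSucc 12098, .ofNat 14220, .negSucc 18401, .negSucc 9708, .ofNat 20706, .ofNat 25219, .negSucc 7275, .ofNat 20609, .negSucc 20980, .negSucc 6989, .ofNat 6056, .negSucc 29278, .negSucc 20980, .negSucc 7275, .ofNat 6062, .ofNat 20609, .negSucc 17317, .ofNat 25237, .negSucc 21614, .negSucc 17853, .ofNat 20722, .negSucc 19932, .negSucc 21803, .negSucc 17435, .ofNat 52840],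
    [.ofNat 8649, .ofNat 7006, .negSucc 20329, .ofNat 3247, .negSucc 3164, .negSucc 20776, .ofNat 12667, .negSucc 9274, .ofNat 12925, .negSucc 8140, .negSucc 343, .negSucc 14689, .ofNat 18894, .negSucc 1274, .ofNat 12785, .negSucc 15975, .negSucc 7318, .negSucc 3124, .negSucc 22420, .negSucc 338, .negSucc 13517, .negSucc 19660, .ofNat 18019, .ofNat 2405, .ofNat 20821, .negSucc 16115, .ofNat 3381, .ofNat 11847, .negSucc 15679, .negSucc 2844, .ofNat 12248, .ofNat 48508],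
    [.negSucc 16537, .negSucc 8679, .ofNat 1391, .ofNat 5363, .negSucc 11987, .negSucc 12467, .negSucc 5263, .negSucc 19896, .negSucc 2913, .ofNat 15156, .negSucc 2508, .negSucc 4609, .negSucc 3444, .negSucc 5094, .ofNat 5969, .ofNat 17626, .negSucc 10437, .negSucc 2606, .negSucc 1499, .negSucc 4621, .negSucc 15916, .negSucc 21401, .negSucc 9459, .negSucc 13306, .ofNat 8528, .ofNat 23666, .negSucc 7294, .ofNat 11288, .ofNat 15943, .ofNat 4225, .negSucc 1447, .ofNat 23201, .ofNat 52474],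
    [.ofNat 4412, .ofNat 889, .negSucc 6799, .negSucc 5627, .ofNat 12179, .ofNat 15523, .ofNat 5662, .ofNat 15342, .negSucc 1845, .negSucc 13033, .ofNat 7654, .ofNat 11999, .ofNat 1137, .ofNat 9680, .negSucc 8869, .negSucc 20902, .ofNat 5233, .negSucc 2284, .negSucc 3285, .ofNat 7926, .ofNat 1160, .negSucc 3377, .negSucc 5549, .negSucc 6613, .negSucc 16441, .negSucc 19901, .ofNat 80, .ofNat 1327, .ofNat 8747, .ofNat 20960, .ofNat 6755, .ofNat 8927, .ofNat 17617, .ofNat 49947],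
    [.ofNat 7031, .ofNat 13954, .ofNat 13954, .ofNat 3570, .ofNat 6869, .negSucc 53, .negSucc 3515, .negSucc 53, .negSucc 3515, .ofNat 3732, .negSucc 53, .ofNat 6869, .negSucc 10438, .ofNat 27963, .ofNat 10655, .ofNat 3732, .ofNat 20877, .negSucc 3352, .negSucc 17198, .negSucc 24122, .ofNat 13948, .ofNat 6869, .ofNat 3407, .ofNat 13943, .ofNat 10414, .ofNat 17578, .ofNat 108, .negSucc 10275, .negSucc 10275, .negSucc 3352, .negSucc 13737, .negSucc 10275, .ofNat 3570, .ofNat 24123, .ofNat 55467]]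

theorem cls2_ok : check cls2 = true := by decide +kernel

end Pool.Agent.V1197.ZN
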