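import Pool.Agent.V1197.ZN.Cert

namespace Pool.Agent.V1197.ZN

def cls3 : Cls where
  chi := [.ofNat 1, .ofNat 1, .ofNat 1, .ofNat 1, .ofNat 1, .ofNat 1, .ofNat 1, .ofNat 1, .ofNat 1, .ofNat 1, .ofNat 1, .ofNat 1, .ofNat 1, .ofNat 1, .ofNat 1, .ofNat 1, .ofNat 1, .ofNat 1, .ofNat 1, .ofNat 1, .ofNat 1, .ofNat 1, .ofNat 1, .ofNat 1, .ofNat 1, .ofNat 1, .ofNat 1, .ofNat 1, .ofNat 1, .negSucc 0, .ofNat 1, .ofNat 1, .ofNat 1, .negSucc 0, .negSucc 0]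
  mu := [.ofNat 300, .ofNat 300, .ofNat 300, .ofNat 163, .ofNat 300, .ofNat 300, .ofNat 300, .ofNat 183, .ofNat 300, .ofNat 300, .ofNat 300, .ofNat 300, .ofNat 300, .ofNat 300, .ofNat 300, .negSucc 299, .negSucc 299, .negSucc 299, .negSucc 299, .negSucc 299, .negSucc 299, .negSucc 299, .negSucc 299, .negSucc 299, .negSucc 299, .ofNat 300, .ofNat 300, .ofNat 300, .ofNat 300, .ofNat 300, .negSucc 119, .ofNat 300, .ofNat 300, .ofNat 300, .ofNat 300, .ofNat 300, .negSucc 299, .negSucc 299, .negSucc 299, .negSucc 299, .negSucc 291, .negSucc 277, .negSucc 299, .negSucc 299, .ofNat 300, .negSucc 299, .negSucc 299, .negSucc 299, .ofNat 300, .negSucc 193, .negSucc 299, .ofNat 300, .negSucc 299, .negSucc 299, .negSucc 299, .ofNat 128, .negSucc 299, .negSucc 299, .negSucc 299, .negSucc 299, .ofNat 300, .negSucc 299, .negSucc 299, .negSucc 299, .ofNat 300, .negSucc 299, .negSucc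 299, .ofNat 300, .negSucc 299, .ofNat 300, .negSucc 299, .ofNat 300, .negSucc 299, .ofNat 300, .ofNat 300, .ofNat 300, .ofNat 292, .negSucc 299, .negSucc 114, .ofNat 300, .ofNat 275, .ofNat 300, .ofNat 300, .ofNat 300, .negSucc 299, .ofNat 300, .ofNat 300, .ofNat 300, .negSucc 299, .negSucc 299, .ofNat 300, .ofNat 226, .ofNat 300, .negSucc 299, .negSucc 299, .negSucc 247, .negSucc 299, .negSucc 299, .negSucc 299, .negSucc 299, .negSucc 261, .negSucc 299, .negSucc 299, .negSucc 241, .negSucc 299]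
  om := [.negSucc 200, .ofNat 299, .negSucc 299, .negSucc 95, .ofNat 299, .negSucc 299, .ofNat 299]
  kap := 20
  s := 1000
  del := 120000
  eta := 3874
  L := [
    [.ofNat 0, .ofNat 0, .ofNat 1, .negSucc 0, .ofNat 0, .ofNat 1, .negSucc 0, .ofNat 1, .negSucc 0, .ofNat 0, .ofNat 0, .ofNat 1, .negSucc 0, .ofNat 1, .negSucc 0, .ofNat 0, .ofNat 1, .negSucc 0, .ofNat 0, .ofNat 0, .ofNat 0, .ofNat 1, .negSucc 0, .ofNat 1, .negSucc 0, .ofNat 0, .ofNat 1, .negSucc 0, .ofNat 0, .ofNat 0, .ofNat 1, .negSucc 0],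
    [.ofNat 0, .negSucc 0, .ofNat 0, .ofNat 1, .negSucc 0, .ofNat 0, .ofNat 1, .ofNat 1, .ofNat 0, .negSucc 0, .negSucc 0, .ofNat 0, .ofNat 1, .ofNat 1, .ofNat 0, .negSucc 0, .ofNat 1, .ofNat 0, .negSucc 0, .ofNat 0, .negSucc 0, .ofNat 0, .ofNat 1, .ofNat 1, .ofNat 0, .negSucc 0, .ofNat 1, .ofNat 0, .negSucc 0, .ofNat 0, .ofNat 1, .ofNat 0, .negSucc 0],
    [.ofNat 1, .ofNat 0, .ofNat 0, .negSucc 0, .negSucc 0, .negSucc 0, .ofNat 0, .ofNat 0, .ofNat 1, .ofNat 1, .negSucc 0, .negSucc 0, .ofNat 0, .ofNat 0, .ofNat 1, .ofNat 1, .ofNat 1, .ofNat 0, .ofNat 0, .negSucc 0, .negSucc 0, .negSucc 0, .ofNat 0, .ofNat 0, .ofNat 1, .ofNat 1, .negSucc 0, .ofNat 0, .ofNat 0, .negSucc 0, .negSucc 0, .ofNat 0, .ofNat 0, .negSucc 0],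
    [.ofNat 1, .ofNat 1, .ofNat 1, .ofNat 0, .ofNat 0, .ofNat 0, .negSucc 0, .ofNat 0, .negSucc 0, .negSucc 0, .negSucc 0, .negSucc 0, .ofNat 0, .negSucc 0, .ofNat 0, .ofNat 0, .ofNat 0, .ofNat 1, .ofNat 1, .ofNat 1, .negSucc 0, .negSucc 0, .ofNat 0, .ofNat 1, .ofNat 0, .ofNat 0, .ofNat 0, .ofNat 1, .ofNat 1, .ofNat 1, .negSucc 0, .ofNat 0, .ofNat 0, .ofNat 0, .negSucc 0],
    [.ofNat 1, .ofNat 1, .ofNat 1, .ofNat 0, .ofNat 1, .ofNat 1, .ofNat 0, .ofNat 1, .ofNat 0, .ofNat 0, .ofNat 0, .ofNat 0, .negSucc 0, .ofNat 0, .negSucc 0, .negSucc 0, .ofNat 0, .negSucc 0, .negSucc 0, .negSucc 0, .negSucc 0, .negSucc 0, .ofNat 0, .ofNat 1, .ofNat 0, .ofNat 0, .ofNat 1, .ofNat 0, .ofNat 0, .ofNat 0, .ofNat 0, .ofNat 1, .ofNat 1, .ofNat 1, .ofNat 1],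
    [.ofNat 1, .ofNat 1, .ofNat 1, .ofNat 0, .ofNat 1, .ofNat 1, .ofNat 0, .negSucc 0, .ofNat 0, .ofNat 0, .ofNat 1, .ofNat 1, .ofNat 0, .negSucc 0, .ofNat 0, .ofNat 0, .negSucc 0, .ofNat 0, .ofNat 0, .ofNat 0, .ofNat 0, .ofNat 0, .negSucc 0, .ofNat 0, .negSucc 0, .negSucc 0, .ofNat 0, .negSucc 0, .negSucc 0, .negSucc 0, .ofNat 0, .negSucc 0, .negSucc 0, .negSucc 0, .negSucc 0],
    [.ofNat 0, .ofNat 1, .negSucc 0, .ofNat 0, .ofNat 1, .negSucc 0, .ofNat 0, .ofNat 0, .ofNat 1, .negSucc 0, .ofNat 1, .negSucc 0, .ofNat 0, .ofNat 0, .ofNat 1, .negSucc 0, .ofNat 0, .ofNat 1, .negSucc 0, .ofNat 0, .ofNat 1, .negSucc 0, .ofNat 0, .ofNat 0, .ofNat 1, .negSucc 0, .ofNat 0, .ofNat 1, .negSucc 0, .ofNat 0, .ofNat 0, .ofNat 1, .negSucc 0],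
    [.negSucc 0, .ofNat 0, .ofNat 1, .ofNat 0, .ofNat 1, .ofNat 0, .negSucc 0, .negSucc 0, .ofNat 0, .ofNat 1, .ofNat 1, .ofNat 0, .negSucc 0, .negSucc 0, .ofNat 0, .ofNat 1, .ofNat 0, .ofNat 1, .ofNat 0, .negSucc 0, .ofNat 1, .ofNat 0, .negSucc 0, .negSucc 0, .ofNat 0, .ofNat 1, .ofNat 0, .negSucc 0, .ofNat 0, .negSucc 0, .ofNat 0, .negSucc 0, .ofNat 0, .negSucc 0],
    [.negSucc 0, .negSucc 0, .ofNat 0, .ofNat 1, .ofNat 0, .ofNat 1, .ofNat 0, .ofNat 1, .ofNat 0, .negSucc 0, .ofNat 1, .ofNat 0, .negSucc 0, .ofNat 0, .negSucc 0, .ofNat 0, .negSucc 0, .ofNat 0, .ofNat 1, .ofNat 1, .ofNat 1, .ofNat 0, .negSucc 0, .ofNat 0, .ofNat 1, .ofNat 0, .negSucc 0, .ofNat 0, .ofNat 1, .ofNat 1, .ofNat 0, .negSucc 0, .ofNat 0, .ofNat 0, .negSucc 0],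
    [.negSucc 0, .negSucc 0, .ofNat 0, .ofNat 1, .negSucc 0, .ofNat 0, .ofNat 1, .ofNat 0, .ofNat 1, .ofNat 0, .ofNat 0, .ofNat 1, .ofNat 0, .ofNat 1, .ofNat 0, .negSucc 0, .ofNat 1, .ofNat 0, .negSucc 0, .negSucc 0, .ofNat 1, .ofNat 0, .negSucc 0, .ofNat 0, .ofNat 1, .ofNat 0, .ofNat 0, .ofNat 1, .ofNat 0, .ofNat 0, .negSucc 0, .ofNat 0, .ofNat 1, .ofNat 1, .ofNat 1],
    [.negSucc 0, .negSucc 0, .ofNat 0, .ofNat 1, .negSucc 0, .ofNat 0, .ofNat 1, .ofNat 0, .negSucc 0, .ofNat 0, .negSucc 0, .ofNat 0, .ofNat 1, .ofNat 0, .negSucc 0, .ofNat 0, .ofNat 0, .negSucc 0, .ofNat 0, .ofNat 0, .ofNat 0, .ofNat 1, .ofNat 0, .ofNat 1, .ofNat 0, .negSucc 0, .ofNat 1, .ofNat 0, .negSucc 0, .negSucc 0, .ofNat 1, .ofNat 0, .negSucc 0, .negSucc 0, .negSucc 0],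
    [.ofNat 1, .negSucc 0, .ofNat 0, .ofNat 0, .ofNat 0, .ofNat 1, .ofNat 1, .negSucc 0, .negSucc 0, .ofNat 0, .ofNat 0, .ofNat 1, .ofNat 1, .negSucc 0, .negSucc 0, .ofNat 0, .ofNat 0, .ofNat 0, .ofNat 1, .negSucc 0, .ofNat 0, .ofNat 1, .ofNat 1, .negSucc 0, .negSucc 0, .ofNat 0, .ofNat 0, .ofNat 0, .negSucc 0, .negSucc 0, .ofNat 0, .ofNat 0, .negSucc 0, .negSucc 0],
    [.ofNat 1, .ofNat 0, .negSucc 0, .negSucc 0, .negSucc 0, .ofNat 0, .ofNat 0, .ofNat 1, .ofNat 1, .ofNat 0, .ofNat 0, .ofNat 1, .ofNat 1, .ofNat 0, .ofNat 0, .negSucc 0, .negSucc 0, .negSucc 0, .ofNat 0, .ofNat 1, .ofNat 0, .ofNat 1, .ofNat 1, .ofNat 0, .ofNat 0, .ofNat 1, .negSucc 0, .negSucc 0, .ofNat 0, .ofNat 1, .ofNat 0, .ofNat 0, .negSucc 0, .ofNat 0, .negSucc 0],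
    [.ofNat 1, .ofNat 0, .negSucc 0, .negSucc 0, .ofNat 0, .negSucc 0, .negSucc 0, .ofNat 0, .ofNat 0, .ofNat 1, .negSucc 0, .ofNat 0, .ofNat 0, .ofNat 1, .ofNat 1, .ofNat 0, .ofNat 1, .ofNat 1, .ofNat 0, .negSucc 0, .ofNat 0, .ofNat 1, .ofNat 1, .ofNat 0, .ofNat 0, .ofNat 1, .ofNat 0, .ofNat 0, .ofNat 1, .ofNat 0, .negSucc 0, .negSucc 0, .ofNat 0, .ofNat 1, .ofNat 1],
    [.ofNat 1, .ofNat 0, .negSucc 0, .negSucc 0, .ofNat 0, .negSucc 0, .negSucc 0, .ofNat 0, .ofNat 0, .negSucc 0, .ofNat 0, .negSucc 0, .negSucc 0, .ofNat 0, .ofNat 0, .negSucc 0, .ofNat 0, .ofNat 0, .negSucc 0, .ofNat 0, .negSucc 0, .ofNat 0, .ofNat 0, .ofNat 1, .ofNat 1, .ofNat 0, .ofNat 1, .ofNat 1, .ofNat 0, .negSucc 0, .ofNat 1, .ofNat 1, .ofNat 0, .negSucc 0, .negSucc 0],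
    [.ofNat 0, .ofNat 1, .ofNat 1, .ofNat 1, .negSucc 0, .negSucc 0, .negSucc 0, .ofNat 0, .ofNat 0, .ofNat 0, .ofNat 0, .ofNat 0, .ofNat 0, .ofNat 1, .ofNat 1, .ofNat 1, .negSucc 0, .negSucc 0, .negSucc 0, .ofNat 0, .ofNat 0, .ofNat 0, .ofNat 0, .ofNat 1, .ofNat 1, .ofNat 1, .negSucc 0, .negSucc 0, .negSucc 0, .ofNat 0, .ofNat 0, .ofNat 0, .ofNat 0, .negSucc 0, .ofNat 1],
    [.ofNat 0, .ofNat 1, .ofNat 1, .ofNat 1, .ofNat 0, .ofNat 0, .ofNat 0, .negSucc 0, .negSucc 0, .negSucc 0, .negSucc 0, .negSucc 0, .negSucc 0, .ofNat 0, .ofNat 0, .ofNat 0, .ofNat 1, .ofNat 1, .ofNat 1, .ofNat 0, .ofNat 0, .ofNat 0, .ofNat 0, .ofNat 1, .ofNat 1, .ofNat 1, .ofNat 0, .ofNat 0, .ofNat 0, .ofNat 1, .negSucc 0, .negSucc 0, .negSucc 0, .ofNat 0, .negSucc 0],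
    [.ofNat 0, .ofNat 1, .ofNat 1, .ofNat 1, .ofNat 0, .ofNat 0, .ofNat 0, .negSucc 0, .negSucc 0, .negSucc 0, .ofNat 0, .ofNat 0, .ofNat 0, .negSucc 0, .negSucc 0, .negSucc 0, .ofNat 0, .ofNat 0, .ofNat 0, .negSucc 0, .negSucc 0, .negSucc 0, .negSucc 0, .ofNat 0, .ofNat 0, .ofNat 0, .ofNat 1, .ofNat 1, .ofNat 1, .ofNat 0, .ofNat 1, .ofNat 1, .ofNat 1, .ofNat 0, .negSucc 0],
    [.ofNat 0, .ofNat 0, .ofNat 0, .ofNat 0, .ofNat 1, .ofNat 1, .ofNat 1, .ofNat 1, .ofNat 1, .ofNat 1, .negSucc 0, .negSucc 0, .negSucc 0, .negSucc 0, .negSucc 0, .negSucc 0, .ofNat 0, .ofNat 0, .ofNat 0, .ofNat 0, .ofNat 0, .ofNat 0, .ofNat 0, .ofNat 0, .ofNat 0, .ofNat 0, .ofNat 1, .ofNat 1, .ofNat 1, .negSucc 0, .negSucc 0, .negSucc 0, .negSucc 0, .ofNat 1, .ofNat 0],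
    [.ofNat 0, .ofNat 0, .ofNat 0, .ofNat 0, .ofNat 1, .ofNat 1, .ofNat 1, .ofNat 1, .ofNat 1, .ofNat 1, .ofNat 0, .ofNat 0, .ofNat 0, .ofNat 0, .ofNat 0, .ofNat 0, .negSucc 0, .negSucc 0, .negSucc 0, .ofNat 1, .negSucc 0, .negSucc 0, .negSucc 0, .negSucc 0, .negSucc 0, .negSucc 0, .ofNat 0, .ofNat 0, .ofNat 0, .ofNat 0, .ofNat 1, .ofNat 1, .ofNat 1, .ofNat 1, .ofNat 0],
    [.ofNat 0, .ofNat 0, .ofNat 0, .ofNat 0, .ofNat 0, .ofNat 0, .ofNat 0, .ofNat 0, .ofNat 0, .ofNat 0, .ofNat 1, .ofNat 1, .ofNat 1, .ofNat 1, .ofNat 1, .ofNat 1, .ofNat 1, .ofNat 1, .ofNat 1, .negSucc 0, .negSucc 0, .negSucc 0, .negSucc 0, .negSucc 0, .negSucc 0, .negSucc 0, .negSucc 0, .negSucc 0, .negSucc 0, .negSucc 0, .ofNat 0, .ofNat 0, .ofNat 0, .ofNat 0, .ofNat 0],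
    [.ofNat 0, .ofNat 0, .negSucc 0, .ofNat 1, .ofNat 0, .negSucc 0, .ofNat 1, .negSucc 0, .ofNat 1, .ofNat 0, .ofNat 0, .negSucc 0, .ofNat 1, .negSucc 0, .ofNat 1, .ofNat 0, .negSucc 0, .ofNat 1, .ofNat 0, .ofNat 0, .ofNat 0, .negSucc 0, .ofNat 1, .negSucc 0, .ofNat 1, .ofNat 0, .negSucc 0, .ofNat 1, .ofNat 0, .ofNat 0, .negSucc 0, .ofNat 1],
    [.ofNat 0, .negSucc 0, .ofNat 0, .ofNat 1, .negSucc 0, .ofNat 0, .ofNat 1, .negSucc 0, .ofNat 0, .ofNat 1, .negSucc 0, .ofNat 0, .ofNat 1, .negSucc 0, .ofNat 0, .ofNat 1, .negSucc 0, .ofNat 0, .ofNat 1, .ofNat 0, .negSucc 0, .ofNat 0, .ofNat 1, .negSucc 0, .ofNat 0, .ofNat 1, .negSucc 0, .ofNat 0, .ofNat 1, .ofNat 0, .negSucc 0, .ofNat 0, .ofNat 1],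
    [.negSucc 0, .ofNat 0, .ofNat 0, .ofNat 1, .negSucc 0, .negSucc 0, .ofNat 0, .ofNat 0, .ofNat 1, .ofNat 1, .negSucc 0, .negSucc 0, .ofNat 0, .ofNat 0, .ofNat 1, .ofNat 1, .negSucc 0, .ofNat 0, .ofNat 0, .ofNat 1, .negSucc 0, .negSucc 0, .ofNat 0, .ofNat 0, .ofNat 1, .ofNat 1, .negSucc 0, .ofNat 0, .ofNat 0, .negSucc 0, .negSucc 0, .ofNat 0, .ofNat 0, .negSucc 0],
    [.negSucc 0, .negSucc 0, .negSucc 0, .ofNat 0, .ofNat 0, .ofNat 0, .ofNat 1, .ofNat 0, .ofNat 1, .ofNat 1, .negSucc 0, .negSucc 0, .ofNat 0, .negSucc 0, .ofNat 0, .ofNat 0, .ofNat 0, .ofNat 1, .ofNat 1, .ofNat 1, .negSucc 0, .negSucc 0, .ofNat 0, .negSucc 0, .ofNat 0, .ofNat 0, .ofNat 0, .ofNat 1, .ofNat 1, .negSucc 0, .negSucc 0, .ofNat 0, .ofNat 0, .ofNat 0, .negSucc 0],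
    [.negSucc 0, .negSucc 0, .negSucc 0, .ofNat 0, .negSucc 0, .negSucc 0, .ofNat 0, .negSucc 0, .ofNat 0, .ofNat 0, .ofNat 0, .ofNat 0, .ofNat 1, .ofNat 0, .ofNat 1, .ofNat 1, .ofNat 0, .ofNat 1, .ofNat 1, .ofNat 1, .negSucc 0, .negSucc 0, .ofNat 0, .negSucc 0, .ofNat 0, .ofNat 0, .negSucc 0, .ofNat 0, .ofNat 0, .ofNat 0, .ofNat 0, .ofNat 1, .ofNat 1, .negSucc 0, .negSucc 0],
    [.negSucc 0, .negSucc 0, .negSucc 0, .ofNat 0, .negSucc 0, .negSucc 0, .ofNat 0, .negSucc 0, .ofNat 0, .ofNat 0, .negSucc 0, .negSucc 0, .ofNat 0, .negSucc 0, .ofNat 0, .ofNat 0, .negSucc 0, .ofNat 0, .ofNat 0, .ofNat 0, .ofNat 0, .ofNat 0, .ofNat 1, .ofNat 0, .ofNat 1, .ofNat 1, .ofNat 0, .ofNat 1, .ofNat 1, .negSucc 0, .ofNat 0, .ofNat 1, .ofNat 1, .negSucc 0, .negSucc 0]]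
  U := [
    [.ofNat 2045],
    [.negSucc 1138, .ofNat 1052],
    [.negSucc 388, .negSucc 1554, .ofNat 1604],
    [.negSucc 215, .negSucc 453, .negSucc 409, .ofNat 2373],
    [.negSucc 187, .negSucc 936, .negSucc 835, .negSucc 323, .ofNat 2111],
    [.negSucc 145, .negSucc 870, .negSucc 772, .negSucc 384, .negSucc 984, .ofNat 1888],
    [.negSucc 113, .negSucc 450, .negSucc 335, .negSucc 116, .negSucc 455, .negSucc 511, .ofNat 2463],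
    [.ofNat 21, .negSucc 279, .negSucc 354, .negSucc 78, .negSucc 407, .negSucc 493, .negSucc 230, .ofNat 2305],
    [.negSucc 4, .negSucc 247, .negSucc 408, .negSucc 141, .negSucc 334, .negSucc 535, .negSucc 245, .negSucc 318, .ofNat 2534],
    [.negSucc 170, .negSucc 124, .negSucc 257, .negSucc 156, .negSucc 215, .negSucc 399, .negSucc 270, .negSucc 310, .negSucc 299, .ofNat 2297],
    [.negSucc 92, .negSucc 249, .negSucc 167, .negSucc 32, .negSucc 352, .negSucc 353, .negSucc 193, .negSucc 139, .negSucc 167, .negSucc 355, .ofNat 2248],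
    [.negSucc 40, .negSucc 421, .negSucc 305, .negSucc 41, .negSucc 508, .negSucc 467, .negSucc 228, .negSucc 219, .negSucc 374, .negSucc 215, .negSucc 375, .ofNat 1931],
    [.negSucc 57, .negSucc 307, .negSucc 345, .negSucc 80, .negSucc 396, .negSucc 423, .negSucc 153, .negSucc 210, .negSucc 42, .negSucc 81, .negSucc 252, .negSucc 258, .ofNat 2301],
    [.ofNat 48, .negSucc 130, .negSucc 143, .negSucc 6, .negSucc 333, .negSucc 379, .negSucc 223, .negSucc 191, .negSucc 124, .negSucc 132, .negSucc 177, .negSucc 195, .negSucc 33, .ofNat 2168],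
    [.ofNat 53, .negSucc 106, .negSucc 297, .negSucc 117, .negSucc 319, .negSucc 312, .negSucc 327, .negSucc 364, .negSucc 209, .negSucc 191, .negSucc 221, .negSucc 401, .negSucc 131, .negSucc 188, .ofNat 2354],
    [.ofNat 21, .negSucc 13, .negSucc 124, .negSucc 101, .negSucc 205, .negSucc 384, .negSucc 344, .negSucc 365, .negSucc 298, .negSucc 229, .negSucc 102, .negSucc 269, .negSucc 183, .negSucc 197, .negSucc 209, .ofNat 2095],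
    [.negSucc 2, .ofNat 33, .ofNat 35, .negSucc 135, .negSucc 95, .negSucc 108, .ofNat 2, .negSucc 99, .negSucc 20, .negSucc 8, .negSucc 131, .negSucc 102, .ofNat 5, .negSucc 55, .negSucc 161, .negSucc 7, .ofNat 2403],
    [.ofNat 35, .ofNat 29, .negSucc 115, .ofNat 28, .negSucc 86, .negSucc 274, .negSucc 111, .negSucc 267, .negSucc 142, .negSucc 45, .negSucc 146, .negSucc 301, .negSucc 101, .negSucc 105, .negSucc 113, .negSucc 20, .negSucc 66, .ofNat 2575],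
    [.ofNat 40, .negSucc 130, .ofNat 20, .ofNat 38, .negSucc 8, .negSucc 118, .negSucc 107, .negSucc 281, .negSucc 324, .negSucc 193, .negSucc 72, .negSucc 184, .negSucc 125, .negSucc 309, .negSucc 326, .negSucc 162, .negSucc 100, .negSucc 103, .ofNat 2313],
    [.negSucc 132, .ofNat 8, .ofNat 7, .negSucc 18, .ofNat 15, .ofNat 46, .ofNat 61, .negSucc 61, .negSucc 62, .negSucc 82, .negSucc 145, .ofNat 22, .ofNat 66, .negSucc 95, .negSucc 62, .negSucc 51, .negSucc 142, .negSucc 80, .negSucc 38, .ofNat 2451],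
    [.negSucc 100, .negSucc 88, .ofNat 12, .ofNat 32, .negSucc 71, .ofNat 19, .ofNat 9, .negSucc 13, .ofNat 16, .negSucc 131, .negSucc 64, .ofNat 20, .negSucc 17, .ofNat 36, .negSucc 13, .negSucc 137, .ofNat 31, .ofNat 11, .negSucc 132, .negSucc 85, .ofNat 2646],
    [.negSucc 51, .negSucc 257, .negSucc 133, .ofNat 5, .negSucc 274, .negSucc 125, .negSucc 15, .ofNat 42, .negSucc 154, .negSucc 31, .negSucc 293, .negSucc 122, .negSucc 36, .ofNat 55, .negSucc 182, .negSucc 70, .ofNat 43, .negSucc 163, .negSucc 38, .negSucc 78, .negSucc 53, .ofNat 2376],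
    [.negSucc 40, .negSucc 226, .negSucc 259, .negSucc 83, .negSucc 244, .negSucc 248, .negSucc 59, .negSucc 90, .ofNat 51, .ofNat 34, .negSucc 264, .negSucc 245, .negSucc 45, .negSucc 90, .ofNat 60, .ofNat 13, .negSucc 94, .ofNat 45, .ofNat 30, .negSucc 60, .negSucc 96, .negSucc 69, .ofNat 2611],
    [.ofNat 69, .negSucc 29, .negSucc 32, .ofNat 35, .negSucc 181, .negSucc 213, .negSucc 145, .negSucc 40, .negSucc 218, .negSucc 280, .negSucc 246, .negSucc 232, .negSucc 141, .negSucc 33, .negSucc 234, .negSucc 255, .ofNat 67, .negSucc 134, .negSucc 131, .ofNat 36, .negSucc 80, .negSucc 52, .ofNat 40, .ofNat 2498],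
    [.ofNat 13, .negSucc 65, .negSucc 211, .negSucc 53, .negSucc 236, .negSucc 165, .negSucc 211, .negSucc 25, .negSucc 77, .negSucc 259, .negSucc 252, .negSucc 188, .negSucc 228, .ofNat 10, .negSucc 81, .negSucc 240, .negSucc 101, .ofNat 11, .negSucc 147, .ofNat 47, .negSucc 77, .negSucc 235, .negSucc 51, .negSucc 58, .ofNat 2667],
    [.ofNat 51, .ofNat 47, .negSucc 84, .negSucc 97, .negSucc 138, .negSucc 287, .negSucc 250, .negSucc 12, .negSucc 3, .negSucc 119, .negSucc 188, .negSucc 311, .negSucc 269, .negSucc 17, .negSucc 6, .negSucc 126, .negSucc 106, .negSucc 134, .negSucc 27, .ofNat 43, .ofNat 6, .negSucc 122, .negSucc 52, .negSucc 91, .negSucc 89, .ofNat 2410],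
    [.ofNat 40, .ofNat 5, .ofNat 68, .negSucc 86, .negSucc 39, .negSucc 47, .ofNat 25, .negSucc 76, .negSucc 265, .negSucc 256, .negSucc 213, .negSucc 201, .negSucc 127, .negSucc 216, .negSucc 174, .negSucc 172, .negSucc 30, .negSucc 217, .negSucc 237, .ofNat 1, .negSucc 76, .negSucc 48, .negSucc 2, .negSucc 22, .negSucc 228, .negSucc 249, .ofNat 2643],
    [.ofNat 14, .ofNat 24, .negSucc 108, .ofNat 52, .negSucc 71, .negSucc 211, .negSucc 50, .ofNat 0, .negSucc 80, .negSucc 234, .negSucc 225, .negSucc 152, .negSucc 181, .negSucc 134, .negSucc 217, .negSucc 151, .ofNat 28, .negSucc 52, .negSucc 202, .ofNat 39, .negSucc 91, .negSucc 196, .negSucc 44, .ofNat 24, .negSucc 48, .negSucc 201, .negSucc 66, .ofNat 2817],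
    [.ofNat 15, .negSucc 88, .ofNat 22, .ofNat 21, .ofNat 34, .negSucc 90, .negSucc 96, .ofNat 0, .ofNat 5, .negSucc 103, .negSucc 131, .negSucc 263, .negSucc 227, .negSucc 144, .negSucc 140, .negSucc 250, .ofNat 14, .ofNat 33, .negSucc 78, .ofNat 59, .negSucc 21, .negSucc 115, .negSucc 68, .ofNat 9, .ofNat 9, .negSucc 77, .negSucc 104, .negSucc 70, .ofNat 2581],
    [.ofNat 93, .ofNat 34, .negSucc 19, .negSucc 28, .negSucc 36, .negSucc 21, .negSucc 59, .ofNat 111, .ofNat 57, .ofNat 28, .ofNat 88, .ofNat 85, .ofNat 64, .ofNat 0, .negSucc 42, .negSucc 59, .negSucc 35, .negSucc 47, .negSucc 36, .ofNat 114, .negSucc 8, .negSucc 27, .negSucc 17, .ofNat 103, .ofNat 78, .ofNat 75, .ofNat 63, .ofNat 67, .ofNat 94, .ofNat 2692],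
    [.ofNat 37, .ofNat 37, .ofNat 56, .negSucc 96, .ofNat 51, .ofNat 70, .negSucc 98, .ofNat 55, .negSucc 145, .negSucc 143, .negSucc 31, .negSucc 39, .ofNat 40, .negSucc 57, .negSucc 262, .negSucc 252, .negSucc 84, .negSucc 262, .negSucc 262, .ofNat 41, .negSucc 84, .negSucc 57, .ofNat 5, .negSucc 49, .negSucc 256, .negSucc 279, .negSucc 23, .negSucc 223, .negSucc 269, .negSucc 39, .ofNat 2419],
    [.ofNat 33, .ofNat 35, .negSucc 122, .ofNat 46, .ofNat 19, .negSucc 124, .ofNat 60, .negSucc 106, .ofNat 48, .negSucc 110, .negSucc 73, .negSucc 221, .negSucc 35, .ofNat 13, .negSucc 59, .negSucc 220, .negSucc 3, .negSucc 83, .negSucc 228, .ofNat 44, .negSucc 121, .negSucc 251, .negSucc 52, .ofNat 22, .negSucc 53, .negSucc 215, .ofNat 10, .negSucc 28, .negSucc 207, .negSucc 21, .negSucc 49, .ofNat 2615],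
    [.ofNat 0, .negSucc 103, .ofNat 40, .ofNat 50, .negSucc 105, .ofNat 21, .ofNat 31, .negSucc 122, .negSucc 94, .ofNat 48, .ofNat 45, .negSucc 82, .negSucc 87, .ofNat 26, .ofNat 39, .negSucc 68, .ofNat 21, .ofNat 34, .negSucc 90, .ofNat 29, .ofNat 9, .negSucc 131, .negSucc 105, .ofNat 6, .ofNat 49, .negSucc 59, .ofNat 11, .ofNat 56, .negSucc 38, .negSucc 29, .negSucc 89, .negSucc 30, .ofNat 2373],
    [.ofNat 98, .negSucc 23, .negSucc 39, .negSucc 47, .ofNat 130, .ofNat 130, .ofNat 105, .ofNat 270, .ofNat 230, .ofNat 213, .negSucc 40, .negSucc 23, .negSucc 64, .ofNat 116, .ofNat 59, .ofNat 26, .negSucc 6, .negSucc 47, .negSucc 64, .ofNat 73, .negSucc 23, .negSucc 40, .negSucc 48, .ofNat 81, .ofNat 57, .ofNat 57, .ofNat 236, .ofNat 204, .ofNat 244, .negSucc 24, .ofNat 66, .ofNat 74, .ofNat 107, .ofNat 2461],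
    [.ofNat 92, .ofNat 92, .ofNat 92, .ofNat 69, .negSucc 22, .negSucc 37, .negSucc 45, .ofNat 222, .ofNat 214, .ofNat 229, .negSucc 12, .negSucc 7, .negSucc 45, .ofNat 252, .ofNat 214, .ofNat 199, .ofNat 107, .ofNat 53, .ofNat 23, .ofNat 23, .ofNat 12, .negSucc 22, .negSucc 30, .negSucc 37, .negSucc 23, .negSucc 30, .ofNat 76, .ofNat 53, .ofNat 53, .negSucc 68, .ofNat 61, .ofNat 69, .ofNat 99, .negSucc 22, .ofNat 2617]]

theorem cls3_ok : check cls3 = true := by decide +kernel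

end Pool.Agent.V1197.ZN
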