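import Pool.Agent.V1197.ZN.Cert

namespace Pool.Agent.V1197.ZN

def cls4 : Cls where
  chi := [.ofNat 1, .ofNat 1, .ofNat 1, .ofNat 1, .ofNat 1, .ofNat 1, .ofNat 1, .ofNat 1, .ofNat 1, .ofNat 1, .ofNat 1, .ofNat 1, .ofNat 1, .ofNat 1, .ofNat 1, .ofNat 1, .ofNat 1, .ofNat 1, .ofNat 1, .ofNat 1, .ofNat 1, .ofNat 1, .ofNat 1, .ofNat 1, .ofNat 1, .ofNat 1, .ofNat 1, .ofNat 1, .ofNat 1, .negSucc 0, .ofNat 1, .ofNat 1, .negSucc 0, .negSucc 0, .negSucc 0]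
  mu := [.ofNat 300, .ofNat 300, .ofNat 300, .ofNat 128, .ofNat 300, .ofNat 300, .ofNat 300, .ofNat 300, .ofNat 300, .ofNat 300, .ofNat 300, .ofNat 300, .ofNat 300, .ofNat 300, .ofNat 300, .negSucc 299, .negSucc 299, .negSucc 299, .negSucc 299, .negSucc 299, .negSucc 299, .negSucc 299, .negSucc 299, .negSucc 299, .negSucc 299, .ofNat 300, .ofNat 300, .ofNat 5, .ofNat 300, .ofNat 300, .ofNat 300, .ofNat 300, .ofNat 300, .ofNat 300, .ofNat 300, .negSucc 299, .negSucc 299, .negSucc 299, .ofNat 300, .negSucc 299, .negSucc 299, .negSucc 299, .ofNat 300, .negSucc 92, .negSucc 242, .negSucc 299, .negSucc 299, .negSucc 299, .ofNat 300, .negSucc 299, .negSucc 299, .ofNat 300, .negSucc 299, .negSucc 299, .negSucc 299, .ofNat 102, .negSucc 299, .negSucc 299, .negSucc 299, .negSucc 299, .ofNat 300, .negSucc 299, .negSucc 299, .negSucc 299, .ofNat 300, .negSucc 299, .negSucc 299, .ofNat 300,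 .negSucc 141, .ofNat 300, .negSucc 299, .ofNat 300, .negSucc 299, .ofNat 300, .ofNat 300, .ofNat 300, .ofNat 300, .ofNat 227, .ofNat 300, .ofNat 300, .ofNat 300, .ofNat 300, .negSucc 299, .negSucc 299, .negSucc 299, .ofNat 300, .ofNat 300, .ofNat 102, .negSucc 299, .ofNat 300, .ofNat 300, .ofNat 300, .negSucc 299, .negSucc 299, .negSucc 299, .negSucc 299, .negSucc 299, .ofNat 300, .negSucc 299, .negSucc 299, .negSucc 299, .negSucc 299, .negSucc 299, .negSucc 299, .ofNat 300]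
  om := [.negSucc 1471, .ofNat 300, .ofNat 300, .negSucc 27, .ofNat 300, .ofNat 300, .ofNat 300]
  kap := 12800
  s := 100000
  del := 9000000
  eta := 344868
  L := [
    [.ofNat 0, .ofNat 0, .ofNat 1, .negSucc 0, .ofNat 0, .ofNat 1, .negSucc 0, .ofNat 1, .negSucc 0, .ofNat 0, .ofNat 0, .ofNat 1, .negSucc 0, .ofNat 1, .negSucc 0, .ofNat 0, .ofNat 1, .negSucc 0, .ofNat 0, .ofNat 0, .ofNat 0, .ofNat 1, .negSucc 0, .ofNat 1, .negSucc 0, .ofNat 0, .ofNat 1, .negSucc 0, .ofNat 0, .ofNat 0, .ofNat 1, .negSucc 0],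
    [.ofNat 0, .negSucc 0, .ofNat 0, .ofNat 1, .negSucc 0, .ofNat 0, .ofNat 1, .ofNat 1, .ofNat 0, .negSucc 0, .negSucc 0, .ofNat 0, .ofNat 1, .ofNat 1, .ofNat 0, .negSucc 0, .ofNat 1, .ofNat 0, .negSucc 0, .ofNat 0, .negSucc 0, .ofNat 0, .ofNat 1, .ofNat 1, .ofNat 0, .negSucc 0, .ofNat 1, .ofNat 0, .negSucc 0, .ofNat 0, .negSucc 0, .ofNat 0, .negSucc 0],
    [.ofNat 1, .ofNat 0, .ofNat 0, .negSucc 0, .negSucc 0, .negSucc 0, .ofNat 0, .ofNat 0, .ofNat 1, .ofNat 1, .negSucc 0, .negSucc 0, .ofNat 0, .ofNat 0, .ofNat 1, .ofNat 1, .ofNat 1, .ofNat 0, .ofNat 0, .negSucc 0, .negSucc 0, .negSucc 0, .ofNat 0, .ofNat 0, .ofNat 1, .ofNat 1, .negSucc 0, .ofNat 0, .ofNat 0, .negSucc 0, .negSucc 0, .ofNat 0, .ofNat 0, .negSucc 0],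
    [.ofNat 1, .ofNat 1, .ofNat 1, .ofNat 0, .ofNat 0, .ofNat 0, .negSucc 0, .ofNat 0, .negSucc 0, .negSucc 0, .negSucc 0, .negSucc 0, .ofNat 0, .negSucc 0, .ofNat 0, .ofNat 0, .ofNat 0, .ofNat 1, .ofNat 1, .ofNat 1, .negSucc 0, .negSucc 0, .ofNat 0, .ofNat 1, .ofNat 0, .ofNat 0, .ofNat 0, .ofNat 1, .ofNat 1, .ofNat 1, .negSucc 0, .ofNat 0, .ofNat 0, .ofNat 0, .negSucc 0],
    [.ofNat 1, .ofNat 1, .ofNat 1, .ofNat 0, .ofNat 1, .ofNat 1, .ofNat 0, .ofNat 1, .ofNat 0, .ofNat 0, .ofNat 0, .ofNat 0, .negSucc 0, .ofNat 0, .negSucc 0, .negSucc 0, .ofNat 0, .negSucc 0, .negSucc 0, .negSucc 0, .negSucc 0, .ofNat 1, .ofNat 0, .ofNat 1, .ofNat 0, .ofNat 0, .ofNat 1, .ofNat 0, .ofNat 0, .ofNat 0, .ofNat 0, .ofNat 1, .ofNat 1, .ofNat 1, .ofNat 1],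
    [.ofNat 1, .ofNat 1, .ofNat 1, .ofNat 0, .ofNat 1, .ofNat 1, .ofNat 0, .negSucc 0, .ofNat 0, .ofNat 0, .ofNat 1, .negSucc 0, .ofNat 0, .negSucc 0, .ofNat 0, .ofNat 0, .negSucc 0, .ofNat 0, .ofNat 0, .ofNat 0, .ofNat 0, .ofNat 0, .negSucc 0, .ofNat 0, .negSucc 0, .negSucc 0, .ofNat 0, .negSucc 0, .negSucc 0, .negSucc 0, .ofNat 0, .negSucc 0, .negSucc 0, .negSucc 0, .negSucc 0],
    [.ofNat 0, .ofNat 1, .negSucc 0, .ofNat 0, .ofNat 1, .negSucc 0, .ofNat 0, .ofNat 0, .ofNat 1, .negSucc 0, .ofNat 1, .negSucc 0, .ofNat 0, .ofNat 0, .ofNat 1, .negSucc 0, .ofNat 0, .ofNat 1, .negSucc 0, .ofNat 0, .ofNat 1, .negSucc 0, .ofNat 0, .ofNat 0, .ofNat 1, .negSucc 0, .ofNat 0, .ofNat 1, .negSucc 0, .ofNat 0, .ofNat 0, .negSucc 0, .negSucc 0],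
    [.negSucc 0, .ofNat 0, .ofNat 1, .ofNat 0, .ofNat 1, .ofNat 0, .negSucc 0, .negSucc 0, .ofNat 0, .ofNat 1, .ofNat 1, .ofNat 0, .negSucc 0, .negSucc 0, .ofNat 0, .ofNat 1, .ofNat 0, .ofNat 1, .ofNat 0, .negSucc 0, .ofNat 1, .ofNat 0, .negSucc 0, .negSucc 0, .ofNat 0, .ofNat 1, .ofNat 0, .negSucc 0, .ofNat 0, .negSucc 0, .ofNat 0, .negSucc 0, .ofNat 0, .negSucc 0],
    [.negSucc 0, .negSucc 0, .ofNat 0, .ofNat 1, .ofNat 0, .ofNat 1, .ofNat 0, .ofNat 1, .ofNat 0, .negSucc 0, .ofNat 1, .ofNat 0, .negSucc 0, .ofNat 0, .negSucc 0, .ofNat 0, .negSucc 0, .ofNat 0, .ofNat 1, .ofNat 1, .ofNat 1, .ofNat 0, .negSucc 0, .ofNat 0, .ofNat 1, .ofNat 0, .negSucc 0, .ofNat 0, .ofNat 1, .ofNat 1, .ofNat 0, .negSucc 0, .ofNat 0, .ofNat 0, .negSucc 0],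
    [.negSucc 0, .negSucc 0, .ofNat 0, .ofNat 1, .negSucc 0, .ofNat 0, .ofNat 1, .ofNat 0, .ofNat 1, .ofNat 0, .ofNat 0, .ofNat 1, .ofNat 0, .ofNat 1, .ofNat 0, .negSucc 0, .ofNat 1, .ofNat 0, .negSucc 0, .negSucc 0, .ofNat 1, .ofNat 0, .ofNat 1, .ofNat 0, .ofNat 1, .ofNat 0, .ofNat 0, .ofNat 1, .ofNat 0, .ofNat 0, .negSucc 0, .ofNat 0, .ofNat 1, .ofNat 1, .ofNat 1],
    [.negSucc 0, .negSucc 0, .ofNat 0, .ofNat 1, .negSucc 0, .ofNat 0, .ofNat 1, .ofNat 0, .negSucc 0, .ofNat 0, .negSucc 0, .ofNat 0, .negSucc 0, .ofNat 0, .negSucc 0, .ofNat 0, .ofNat 0, .negSucc 0, .ofNat 0, .ofNat 0, .ofNat 0, .ofNat 1, .ofNat 0, .ofNat 1, .ofNat 0, .negSucc 0, .ofNat 1, .ofNat 0, .negSucc 0, .negSucc 0, .ofNat 1, .ofNat 0, .negSucc 0, .negSucc 0, .negSucc 0],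
    [.ofNat 1, .negSucc 0, .ofNat 0, .ofNat 0, .ofNat 0, .ofNat 1, .ofNat 1, .negSucc 0, .negSucc 0, .ofNat 0, .ofNat 0, .ofNat 1, .ofNat 1, .negSucc 0, .negSucc 0, .ofNat 0, .ofNat 0, .ofNat 0, .ofNat 1, .negSucc 0, .ofNat 0, .ofNat 1, .ofNat 1, .negSucc 0, .negSucc 0, .ofNat 0, .ofNat 0, .ofNat 0, .negSucc 0, .negSucc 0, .ofNat 0, .ofNat 0, .negSucc 0, .ofNat 1],
    [.ofNat 1, .ofNat 0, .negSucc 0, .negSucc 0, .negSucc 0, .ofNat 0, .ofNat 0, .ofNat 1, .ofNat 1, .ofNat 0, .ofNat 0, .ofNat 1, .ofNat 1, .ofNat 0, .ofNat 0, .negSucc 0, .negSucc 0, .negSucc 0, .ofNat 0, .ofNat 1, .ofNat 0, .ofNat 1, .ofNat 1, .ofNat 0, .ofNat 0, .ofNat 1, .negSucc 0, .negSucc 0, .ofNat 0, .ofNat 1, .ofNat 0, .ofNat 0, .negSucc 0, .ofNat 0, .ofNat 1],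
    [.ofNat 1, .ofNat 0, .negSucc 0, .negSucc 0, .ofNat 0, .negSucc 0, .negSucc 0, .ofNat 0, .ofNat 0, .ofNat 1, .negSucc 0, .ofNat 0, .ofNat 0, .ofNat 1, .ofNat 1, .ofNat 0, .ofNat 1, .ofNat 1, .ofNat 0, .negSucc 0, .ofNat 0, .ofNat 1, .ofNat 1, .ofNat 0, .ofNat 0, .ofNat 1, .ofNat 0, .ofNat 0, .ofNat 1, .ofNat 0, .negSucc 0, .negSucc 0, .ofNat 0, .ofNat 1, .ofNat 1],
    [.ofNat 1, .ofNat 0, .negSucc 0, .negSucc 0, .ofNat 0, .negSucc 0, .negSucc 0, .ofNat 0, .ofNat 0, .negSucc 0, .ofNat 0, .negSucc 0, .negSucc 0, .ofNat 0, .ofNat 0, .negSucc 0, .ofNat 0, .ofNat 0, .negSucc 0, .ofNat 0, .negSucc 0, .ofNat 0, .ofNat 0, .ofNat 1, .ofNat 1, .ofNat 0, .ofNat 1, .ofNat 1, .ofNat 0, .negSucc 0, .ofNat 1, .ofNat 1, .ofNat 0, .negSucc 0, .negSucc 0],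
    [.ofNat 0, .ofNat 1, .ofNat 1, .ofNat 1, .negSucc 0, .negSucc 0, .negSucc 0, .ofNat 0, .ofNat 0, .ofNat 0, .ofNat 0, .ofNat 0, .ofNat 0, .ofNat 1, .ofNat 1, .ofNat 1, .negSucc 0, .negSucc 0, .negSucc 0, .ofNat 0, .ofNat 0, .ofNat 0, .ofNat 0, .ofNat 1, .ofNat 1, .ofNat 1, .negSucc 0, .negSucc 0, .negSucc 0, .ofNat 0, .ofNat 0, .ofNat 0, .ofNat 0, .negSucc 0, .ofNat 1],
    [.ofNat 0, .ofNat 1, .ofNat 1, .ofNat 1, .ofNat 0, .ofNat 0, .ofNat 0, .negSucc 0, .negSucc 0, .negSucc 0, .negSucc 0, .negSucc 0, .negSucc 0, .ofNat 0, .ofNat 0, .ofNat 0, .ofNat 1, .ofNat 1, .ofNat 1, .ofNat 0, .ofNat 0, .ofNat 0, .ofNat 0, .ofNat 1, .ofNat 1, .negSucc 0, .ofNat 0, .ofNat 0, .ofNat 0, .ofNat 1, .negSucc 0, .negSucc 0, .negSucc 0, .ofNat 0, .negSucc 0],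
    [.ofNat 0, .ofNat 1, .ofNat 1, .ofNat 1, .ofNat 0, .ofNat 0, .ofNat 0, .negSucc 0, .negSucc 0, .negSucc 0, .ofNat 0, .ofNat 0, .ofNat 0, .negSucc 0, .negSucc 0, .ofNat 1, .ofNat 0, .ofNat 0, .ofNat 0, .negSucc 0, .negSucc 0, .negSucc 0, .negSucc 0, .ofNat 0, .ofNat 0, .ofNat 0, .ofNat 1, .ofNat 1, .ofNat 1, .ofNat 0, .ofNat 1, .ofNat 1, .ofNat 1, .ofNat 0, .negSucc 0],
    [.ofNat 0, .ofNat 0, .ofNat 0, .ofNat 0, .ofNat 1, .ofNat 1, .ofNat 1, .ofNat 1, .ofNat 1, .ofNat 1, .negSucc 0, .negSucc 0, .negSucc 0, .negSucc 0, .negSucc 0, .negSucc 0, .ofNat 0, .ofNat 0, .ofNat 0, .ofNat 0, .ofNat 0, .ofNat 0, .ofNat 0, .ofNat 0, .ofNat 0, .ofNat 0, .ofNat 1, .ofNat 1, .negSucc 0, .negSucc 0, .negSucc 0, .negSucc 0, .negSucc 0, .ofNat 1, .ofNat 0],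
    [.ofNat 0, .ofNat 0, .ofNat 0, .ofNat 0, .ofNat 1, .ofNat 1, .ofNat 1, .ofNat 1, .ofNat 1, .ofNat 1, .ofNat 0, .ofNat 0, .ofNat 0, .ofNat 0, .ofNat 0, .ofNat 0, .negSucc 0, .negSucc 0, .ofNat 1, .ofNat 1, .negSucc 0, .negSucc 0, .negSucc 0, .negSucc 0, .negSucc 0, .negSucc 0, .ofNat 0, .ofNat 0, .ofNat 0, .ofNat 0, .ofNat 1, .ofNat 1, .ofNat 1, .ofNat 1, .ofNat 0],
    [.ofNat 0, .ofNat 0, .ofNat 0, .ofNat 0, .ofNat 0, .ofNat 0, .ofNat 0, .ofNat 0, .ofNat 0, .ofNat 0, .ofNat 1, .ofNat 1, .ofNat 1, .ofNat 1, .ofNat 1, .ofNat 1, .ofNat 1, .ofNat 1, .ofNat 1, .negSucc 0, .negSucc 0, .negSucc 0, .negSucc 0, .negSucc 0, .negSucc 0, .negSucc 0, .negSucc 0, .negSucc 0, .negSucc 0, .negSucc 0, .ofNat 0, .ofNat 0, .ofNat 0, .ofNat 0, .ofNat 0],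
    [.ofNat 0, .ofNat 0, .negSucc 0, .ofNat 1, .ofNat 0, .negSucc 0, .ofNat 1, .negSucc 0, .ofNat 1, .ofNat 0, .ofNat 0, .negSucc 0, .ofNat 1, .negSucc 0, .ofNat 1, .ofNat 0, .negSucc 0, .ofNat 1, .ofNat 0, .ofNat 0, .ofNat 0, .negSucc 0, .ofNat 1, .negSucc 0, .ofNat 1, .ofNat 0, .negSucc 0, .ofNat 1, .ofNat 0, .ofNat 0, .negSucc 0, .ofNat 1],
    [.ofNat 0, .negSucc 0, .ofNat 0, .ofNat 1, .negSucc 0, .ofNat 0, .ofNat 1, .negSucc 0, .ofNat 0, .ofNat 1, .negSucc 0, .ofNat 0, .ofNat 1, .negSucc 0, .ofNat 0, .ofNat 1, .negSucc 0, .ofNat 0, .ofNat 1, .ofNat 0, .negSucc 0, .ofNat 0, .ofNat 1, .negSucc 0, .ofNat 0, .ofNat 1, .negSucc 0, .ofNat 0, .ofNat 1, .ofNat 0, .negSucc 0, .ofNat 0, .negSucc 0],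
    [.negSucc 0, .ofNat 0, .ofNat 0, .ofNat 1, .negSucc 0, .negSucc 0, .ofNat 0, .ofNat 0, .ofNat 1, .ofNat 1, .negSucc 0, .negSucc 0, .ofNat 0, .ofNat 0, .ofNat 1, .ofNat 1, .negSucc 0, .ofNat 0, .ofNat 0, .ofNat 1, .negSucc 0, .negSucc 0, .ofNat 0, .ofNat 0, .ofNat 1, .ofNat 1, .negSucc 0, .ofNat 0, .ofNat 0, .negSucc 0, .negSucc 0, .ofNat 0, .ofNat 0, .negSucc 0],
    [.negSucc 0, .negSucc 0, .negSucc 0, .ofNat 0, .ofNat 0, .ofNat 0, .ofNat 1, .ofNat 0, .ofNat 1, .ofNat 1, .negSucc 0, .negSucc 0, .ofNat 0, .negSucc 0, .ofNat 0, .ofNat 0, .ofNat 0, .ofNat 1, .ofNat 1, .ofNat 1, .negSucc 0, .negSucc 0, .ofNat 0, .negSucc 0, .ofNat 0, .ofNat 0, .ofNat 0, .ofNat 1, .ofNat 1, .negSucc 0, .negSucc 0, .ofNat 0, .ofNat 0, .ofNat 0, .negSucc 0],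
    [.negSucc 0, .negSucc 0, .negSucc 0, .ofNat 0, .negSucc 0, .negSucc 0, .ofNat 0, .negSucc 0, .ofNat 0, .ofNat 0, .ofNat 0, .ofNat 0, .ofNat 1, .ofNat 0, .ofNat 1, .ofNat 1, .ofNat 0, .ofNat 1, .ofNat 1, .ofNat 1, .negSucc 0, .negSucc 0, .ofNat 0, .negSucc 0, .ofNat 0, .ofNat 0, .negSucc 0, .ofNat 0, .ofNat 0, .ofNat 0, .ofNat 0, .ofNat 1, .negSucc 0, .negSucc 0, .negSucc 0],
    [.negSucc 0, .negSucc 0, .negSucc 0, .ofNat 0, .negSucc 0, .negSucc 0, .ofNat 0, .negSucc 0, .ofNat 0, .ofNat 0, .negSucc 0, .negSucc 0, .ofNat 0, .negSucc 0, .ofNat 0, .ofNat 0, .negSucc 0, .ofNat 0, .ofNat 0, .ofNat 0, .ofNat 0, .ofNat 0, .ofNat 1, .ofNat 0, .ofNat 1, .ofNat 1, .ofNat 0, .ofNat 1, .ofNat 1, .negSucc 0, .ofNat 0, .ofNat 1, .negSucc 0, .negSucc 0, .negSucc 0]]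
  U := [
    [.ofNat 24116],
    [.negSucc 33660, .ofNat 23794],
    [.negSucc 15065, .negSucc 17933, .ofNat 27832],
    [.negSucc 30138, .negSucc 10285, .ofNat 7875, .ofNat 48924],
    [.negSucc 7468, .negSucc 11248, .negSucc 12873, .negSucc 8204, .ofNat 25295],
    [.negSucc 9119, .negSucc 26116, .ofNat 1335, .negSucc 1112, .negSucc 11382, .ofNat 25596],
    [.negSucc 19676, .negSucc 17556, .negSucc 9467, .ofNat 21917, .negSucc 13753, .negSucc 3128, .ofNat 42667],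
    [.negSucc 243, .negSucc 23745, .negSucc 22183, .negSucc 12576, .ofNat 2515, .negSucc 1987, .negSucc 902, .ofNat 54580],
    [.negSucc 3763, .negSucc 4011, .negSucc 22549, .negSucc 9877, .negSucc 10257, .negSucc 10925, .ofNat 4619, .ofNat 11134, .ofNat 38589],
    [.negSucc 10272, .negSucc 7456, .negSucc 8943, .negSucc 8099, .negSucc 3456, .negSucc 8393, .negSucc 245, .negSucc 2953, .ofNat 6080, .ofNat 38410],
    [.ofNat 12824, .ofNat 411, .ofNat 2838, .negSucc 10802, .ofNat 12787, .ofNat 4570, .negSucc 21663, .negSucc 6317, .negSucc 11464, .negSucc 25273, .ofNat 41976],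
    [.negSucc 27956, .negSucc 13861, .ofNat 13461, .ofNat 26468, .negSucc 26406, .ofNat 2360, .negSucc 1150, .negSucc 8626, .negSucc 12392, .negSucc 13294, .ofNat 7217, .ofNat 44718],
    [.ofNat 8555, .negSucc 4929, .negSucc 7817, .ofNat 6530, .negSucc 22781, .negSucc 6174, .ofNat 2298, .negSucc 6337, .negSucc 12836, .negSucc 27546, .ofNat 3950, .ofNat 14625, .ofNat 50566],
    [.negSucc 44195, .negSucc 48865, .negSucc 15879, .ofNat 30696, .negSucc 33531, .negSucc 5936, .ofNat 1126, .ofNat 23123, .negSucc 2643, .negSucc 11616, .ofNat 2807, .ofNat 30090, .ofNat 10206, .ofNat 56256],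
    [.ofNat 24761, .ofNat 25685, .negSucc 23579, .negSucc 35034, .ofNat 15751, .negSucc 32700, .negSucc 22820, .negSucc 12870, .ofNat 11998, .ofNat 24269, .negSucc 16197, .negSucc 33705, .negSucc 6737, .ofNat 14102, .ofNat 56379],
    [.negSucc 46868, .negSucc 7581, .ofNat 20769, .ofNat 57348, .negSucc 25853, .negSucc 20154, .ofNat 8104, .negSucc 31679, .negSucc 37852, .ofNat 13008, .negSucc 26079, .ofNat 6062, .ofNat 5278, .ofNat 16054, .ofNat 6971, .ofNat 65750],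
    [.negSucc 27638, .negSucc 55389, .negSucc 33788, .negSucc 44935, .negSucc 45945, .negSucc 13743, .ofNat 3352, .ofNat 32276, .ofNat 9123, .ofNat 4713, .negSucc 14860, .ofNat 39497, .ofNat 3948, .ofNat 60044, .ofNat 7673, .negSucc 3738, .ofNat 88682],
    [.ofNat 15590, .ofNat 22438, .negSucc 34293, .negSucc 42011, .ofNat 28388, .negSucc 44552, .negSucc 64851, .negSucc 17150, .negSucc 18753, .negSucc 22058, .ofNat 21947, .negSucc 6577, .negSucc 1467, .ofNat 19134, .ofNat 42459, .negSucc 6552, .ofNat 33506, .ofNat 79162],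
    [.negSucc 25814, .negSucc 11107, .ofNat 18581, .ofNat 10952, .negSucc 16691, .negSucc 1167, .ofNat 4840, .negSucc 12450, .negSucc 32997, .ofNat 19206, .negSucc 41473, .ofNat 7599, .negSucc 21088, .negSucc 3877, .negSucc 10082, .ofNat 29821, .ofNat 22509, .ofNat 2494, .ofNat 58405],
    [.negSucc 44036, .negSucc 33627, .negSucc 35325, .negSucc 2319, .ofNat 1299, .ofNat 19633, .ofNat 24071, .ofNat 65727, .ofNat 54279, .ofNat 35063, .negSucc 19983, .negSucc 19033, .negSucc 16597, .ofNat 1264, .negSucc 6820, .negSucc 36872, .negSucc 57553, .negSucc 36987, .ofNat 3996, .ofNat 109491],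
    [.negSucc 32863, .ofNat 946, .ofNat 12030, .ofNat 7372, .ofNat 15398, .ofNat 7359, .negSucc 6822, .negSucc 19508, .negSucc 3576, .negSucc 12159, .ofNat 30267, .ofNat 1798, .negSucc 3879, .negSucc 12605, .negSucc 4419, .negSucc 9858, .negSucc 11761, .ofNat 6543, .negSucc 15007, .negSucc 6444, .ofNat 72148],
    [.negSucc 9916, .negSucc 24680, .ofNat 3423, .ofNat 9713, .ofNat 9832, .ofNat 34528, .ofNat 14769, .negSucc 7068, .negSucc 14072, .ofNat 5086, .ofNat 17663, .ofNat 11080, .negSucc 31840, .negSucc 19333, .negSucc 41764, .negSucc 19515, .negSucc 18197, .negSucc 14887, .ofNat 2740, .negSucc 8549, .ofNat 37314, .ofNat 61274],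
    [.negSucc 2652, .negSucc 51907, .negSucc 31390, .ofNat 2414, .negSucc 44442, .negSucc 16893, .ofNat 16879, .negSucc 32007, .negSucc 26045, .negSucc 11209, .negSucc 10789, .ofNat 32922, .ofNat 29101, .ofNat 17309, .ofNat 850, .negSucc 13631, .ofNat 16937, .ofNat 451, .negSucc 7586, .negSucc 16624, .ofNat 33706, .ofNat 44213, .ofNat 69335],
    [.ofNat 52294, .ofNat 25842, .ofNat 22053, .negSucc 16588, .negSucc 33253, .ofNat 1622, .negSucc 30711, .ofNat 42664, .negSucc 27815, .negSucc 21189, .negSucc 41971, .negSucc 8259, .negSucc 18240, .ofNat 37790, .negSucc 5437, .negSucc 11228, .ofNat 7308, .negSucc 42175, .negSucc 3823, .ofNat 11596, .negSucc 42282, .ofNat 21432, .ofNat 3838, .ofNat 81078],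
    [.negSucc 23072, .negSucc 7597, .negSucc 4542, .ofNat 34591, .negSucc 17089, .negSucc 14168, .ofNat 3542, .ofNat 13342, .ofNat 10234, .negSucc 24227, .negSucc 4990, .negSucc 13303, .negSucc 52315, .ofNat 30664, .negSucc 9301, .negSucc 21749, .ofNat 552, .negSucc 17780, .negSucc 27254, .negSucc 20156, .ofNat 19057, .ofNat 23069, .ofNat 7146, .ofNat 36586, .ofNat 81214],
    [.ofNat 15806, .ofNat 5528, .ofNat 27449, .negSucc 9245, .negSucc 10594, .ofNat 8939, .negSucc 27114, .negSucc 3063, .negSucc 18792, .ofNat 10048, .negSucc 16978, .ofNat 3243, .negSucc 19489, .negSucc 34892, .negSucc 34652, .ofNat 16742, .negSucc 24440, .negSucc 24953, .ofNat 1515, .negSucc 4015, .ofNat 4866, .ofNat 23585, .ofNat 6207, .ofNat 11105, .ofNat 13957, .ofNat 75341],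
    [.ofNat 23277, .ofNat 18578, .ofNat 48914, .negSucc 9796, .ofNat 4894, .ofNat 21701, .negSucc 19498, .ofNat 24142, .negSucc 51088, .negSucc 21142, .negSucc 53314, .negSucc 10086, .negSucc 47373, .ofNat 10429, .negSucc 53141, .negSucc 45898, .ofNat 53075, .negSucc 27909, .negSucc 56333, .negSucc 26619, .negSucc 24487, .ofNat 57037, .ofNat 13032, .ofNat 87108, .negSucc 15455, .negSucc 11128, .ofNat 109298],
    [.negSucc 14930, .ofNat 11129, .negSucc 46488, .ofNat 5943, .ofNat 3513, .negSucc 53055, .ofNat 1041, .ofNat 5258, .ofNat 29360, .negSucc 37768, .negSucc 14299, .negSucc 49869, .negSucc 34177, .negSucc 9572, .ofNat 1697, .negSucc 59840, .ofNat 2314, .ofNat 11745, .negSucc 69824, .negSucc 1790, .ofNat 42971, .negSucc 16802, .ofNat 34499, .ofNat 36874, .ofNat 75392, .ofNat 1017, .ofNat 41094, .ofNat 101101],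
    [.negSucc 10090, .negSucc 39561, .negSucc 38166, .negSucc 41128, .negSucc 21103, .negSucc 18180, .negSucc 30145, .negSucc 17767, .negSucc 4089, .ofNat 44717, .negSucc 33076, .ofNat 3106, .negSucc 7595, .negSucc 33002, .negSucc 13778, .ofNat 22965, .negSucc 24055, .ofNat 4384, .ofNat 30174, .ofNat 4381, .ofNat 49, .ofNat 29715, .ofNat 24418, .negSucc 29297, .ofNat 5585, .ofNat 86793, .negSucc 12197, .ofNat 11509, .ofNat 110267],
    [.ofNat 7953, .ofNat 31034, .ofNat 10545, .ofNat 16256, .negSucc 24814, .negSucc 8342, .negSucc 34432, .ofNat 14468, .negSucc 31711, .negSucc 72718, .ofNat 10274, .ofNat 14538, .ofNat 15330, .ofNat 24008, .ofNat 5764, .negSucc 10551, .negSucc 16236, .negSucc 2618, .ofNat 12190, .ofNat 62087, .ofNat 24619, .ofNat 4703, .ofNat 11006, .ofNat 41629, .ofNat 26586, .negSucc 2638, .negSucc 32955, .negSucc 11453, .ofNat 44258, .ofNat 132353],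
    [.ofNat 11649, .ofNat 12833, .ofNat 12687, .negSucc 42513, .ofNat 40410, .ofNat 49201, .negSucc 27799, .ofNat 27369, .negSucc 53227, .negSucc 31356, .ofNat 70138, .ofNat 65688, .negSucc 30587, .ofNat 24245, .negSucc 59132, .negSucc 18595, .negSucc 11316, .negSucc 72847, .negSucc 17424, .negSucc 3798, .ofNat 38155, .ofNat 63718, .negSucc 54676, .ofNat 18771, .negSucc 64940, .negSucc 39590, .ofNat 54262, .negSucc 51076, .negSucc 41127, .ofNat 3816, .ofNat 133613],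
    [.ofNat 10617, .negSucc 32931, .negSucc 55293, .ofNat 8461, .negSucc 47282, .negSucc 36989, .ofNat 46640, .negSucc 19976, .ofNat 13773, .negSucc 5996, .negSucc 33121, .ofNat 2423, .ofNat 66013, .negSucc 22324, .ofNat 10910, .negSucc 7715, .negSucc 39229, .negSucc 25533, .negSucc 5887, .ofNat 11459, .negSucc 70762, .negSucc 18122, .ofNat 59587, .negSucc 22122, .ofNat 5630, .ofNat 8032, .negSucc 5341, .ofNat 42229, .ofNat 6449, .negSucc 11442, .ofNat 17873, .ofNat 130506],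
    [.negSucc 17409, .ofNat 34918, .ofNat 38992, .negSucc 1243, .ofNat 26233, .ofNat 2563, .negSucc 37778, .ofNat 13171, .negSucc 3167, .negSucc 3353, .ofNat 34795, .ofNat 8867, .negSucc 37780, .ofNat 17347, .negSucc 5139, .ofNat 31515, .ofNat 6487, .negSucc 16175, .negSucc 16381, .negSucc 12204, .negSucc 12978, .negSucc 41026, .negSucc 65922, .ofNat 4236, .ofNat 3568, .ofNat 5541, .ofNat 15451, .ofNat 14300, .ofNat 53283, .ofNat 12179, .ofNat 47803, .ofNat 53258, .ofNat 130996],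
    [.ofNat 22513, .negSucc 9231, .negSucc 149, .ofNat 3325, .ofNat 61077, .ofNat 81316, .ofNat 55471, .ofNat 33858, .negSucc 12337, .negSucc 12337, .negSucc 9124, .ofNat 24776, .negSucc 3588, .negSucc 16049, .negSucc 64376, .negSucc 57213, .ofNat 31357, .ofNat 12406, .ofNat 42258, .negSucc 7649, .ofNat 2088, .ofNat 13776, .ofNat 7694, .negSucc 20099, .negSucc 46000, .negSucc 53163, .ofNat 49996, .ofNat 53471, .ofNat 23619, .ofNat 37026, .negSucc 11124, .negSucc 5518, .ofNat 27945, .ofNat 126143],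
    [.ofNat 36365, .ofNat 18253, .ofNat 141, .negSucc 27025, .negSucc 70, .ofNat 41, .negSucc 9126, .ofNat 54689, .ofNat 45633, .ofNat 45633, .ofNat 18041, .ofNat 72801, .ofNat 27237, .ofNat 72801, .ofNat 27521, .negSucc 27237, .ofNat 18253, .negSucc 45137, .negSucc 63249, .negSucc 45137, .ofNat 36153, .ofNat 54265, .ofNat 45209, .negSucc 70, .negSucc 9126, .ofNat 45633, .negSucc 17969, .negSucc 45137, .negSucc 27025, .ofNat 27026, .negSucc 17969, .negSucc 8913, .ofNat 45138, .ofNat 63250, .ofNat 141344]]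

theorem cls4_ok : check cls4 = true := by decide +kernel

end Pool.Agent.V1197.ZN
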