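import Pool.Agent.V1197.ZN.Cert

namespace Pool.Agent.V1197.ZN

def cls5 : Cls where
  chi := [.ofNat 1, .ofNat 1, .ofNat 1, .ofNat 1, .ofNat 1, .ofNat 1, .ofNat 1, .ofNat 1, .ofNat 1, .ofNat 1, .ofNat 1, .ofNat 1, .ofNat 1, .ofNat 1, .ofNat 1, .ofNat 1, .ofNat 1, .ofNat 1, .ofNat 1, .negSucc 0, .ofNat 1, .ofNat 1, .ofNat 1, .ofNat 1, .ofNat 1, .ofNat 1, .ofNat 1, .ofNat 1, .ofNat 1, .negSucc 0, .ofNat 1, .ofNat 1, .negSucc 0, .negSucc 0, .negSucc 0]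
  mu := [.negSucc 72, .ofNat 300, .ofNat 189, .ofNat 300, .ofNat 239, .ofNat 300, .ofNat 300, .ofNat 188, .ofNat 300, .ofNat 300, .ofNat 300, .ofNat 62, .ofNat 300, .ofNat 300, .ofNat 300, .negSucc 299, .negSucc 299, .negSucc 299, .negSucc 299, .negSucc 299, .ofNat 300, .negSucc 299, .negSucc 299, .ofNat 300, .negSucc 206, .ofNat 300, .ofNat 300, .negSucc 30, .ofNat 300, .ofNat 300, .ofNat 300, .ofNat 300, .ofNat 300, .ofNat 300, .ofNat 300, .negSucc 299, .negSucc 299, .negSucc 299, .ofNat 300, .ofNat 300, .negSucc 299, .negSucc 299, .ofNat 300, .ofNat 300, .negSucc 299, .negSucc 299, .negSucc 299, .negSucc 299, .negSucc 299, .negSucc 299, .negSucc 299, .negSucc 299, .negSucc 299, .negSucc 299, .ofNat 300, .negSucc 299, .negSucc 299, .negSucc 299, .ofNat 300, .ofNat 300, .ofNat 300, .negSucc 299, .negSucc 299, .ofNat 300, .ofNat 300, .negSucc 299, .ofNat 300, .ofNat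 300, .negSucc 299, .negSucc 299, .ofNat 300, .ofNat 300, .negSucc 299, .negSucc 299, .negSucc 299, .ofNat 300, .ofNat 300, .ofNat 300, .negSucc 299, .ofNat 300, .ofNat 300, .negSucc 299, .negSucc 299, .negSucc 299, .ofNat 300, .negSucc 65, .negSucc 237, .negSucc 187, .ofNat 187, .ofNat 69, .ofNat 300, .ofNat 15, .ofNat 300, .negSucc 299, .negSucc 202, .ofNat 300, .negSucc 299, .ofNat 300, .ofNat 300, .negSucc 299, .negSucc 299, .ofNat 300, .ofNat 300, .negSucc 299, .ofNat 300]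
  om := [.negSucc 283, .ofNat 297, .ofNat 300, .negSucc 299, .negSucc 299, .negSucc 9, .ofNat 297]
  kap := 800
  s := 3000
  del := 360000
  eta := 15782
  L := [
    [.ofNat 0, .ofNat 0, .ofNat 1, .negSucc 0, .ofNat 0, .ofNat 1, .negSucc 0, .ofNat 1, .negSucc 0, .ofNat 0, .ofNat 0, .ofNat 1, .negSucc 0, .ofNat 1, .negSucc 0, .ofNat 0, .ofNat 1, .negSucc 0, .ofNat 0, .ofNat 0, .ofNat 0, .ofNat 1, .negSucc 0, .ofNat 1, .negSucc 0, .ofNat 0, .ofNat 1, .negSucc 0, .ofNat 0, .ofNat 0, .ofNat 1, .negSucc 0],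
    [.ofNat 0, .negSucc 0, .ofNat 0, .ofNat 1, .negSucc 0, .ofNat 0, .ofNat 1, .ofNat 1, .ofNat 0, .negSucc 0, .negSucc 0, .ofNat 0, .ofNat 1, .ofNat 1, .ofNat 0, .negSucc 0, .ofNat 1, .ofNat 0, .negSucc 0, .ofNat 0, .negSucc 0, .ofNat 0, .ofNat 1, .ofNat 1, .ofNat 0, .negSucc 0, .ofNat 1, .ofNat 0, .negSucc 0, .ofNat 0, .negSucc 0, .ofNat 0, .negSucc 0],
    [.ofNat 1, .ofNat 0, .ofNat 0, .negSucc 0, .negSucc 0, .negSucc 0, .ofNat 0, .ofNat 0, .ofNat 1, .ofNat 1, .negSucc 0, .negSucc 0, .ofNat 0, .ofNat 0, .ofNat 1, .ofNat 1, .negSucc 0, .ofNat 0, .ofNat 0, .negSucc 0, .negSucc 0, .negSucc 0, .ofNat 0, .ofNat 0, .ofNat 1, .ofNat 1, .negSucc 0, .ofNat 0, .ofNat 0, .negSucc 0, .negSucc 0, .ofNat 0, .ofNat 0, .negSucc 0],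
    [.ofNat 1, .ofNat 1, .ofNat 1, .ofNat 0, .ofNat 0, .ofNat 0, .negSucc 0, .ofNat 0, .negSucc 0, .negSucc 0, .negSucc 0, .negSucc 0, .ofNat 0, .ofNat 1, .ofNat 0, .ofNat 0, .ofNat 0, .ofNat 1, .ofNat 1, .ofNat 1, .negSucc 0, .negSucc 0, .ofNat 0, .ofNat 1, .ofNat 0, .ofNat 0, .ofNat 0, .ofNat 1, .ofNat 1, .ofNat 1, .negSucc 0, .ofNat 0, .ofNat 0, .ofNat 0, .negSucc 0],
    [.ofNat 1, .ofNat 1, .ofNat 1, .ofNat 0, .ofNat 1, .ofNat 1, .ofNat 0, .negSucc 0, .ofNat 0, .ofNat 0, .ofNat 0, .ofNat 0, .negSucc 0, .ofNat 0, .negSucc 0, .negSucc 0, .ofNat 0, .negSucc 0, .negSucc 0, .negSucc 0, .negSucc 0, .ofNat 1, .ofNat 0, .ofNat 1, .ofNat 0, .ofNat 0, .ofNat 1, .ofNat 0, .ofNat 0, .ofNat 0, .ofNat 0, .ofNat 1, .ofNat 1, .ofNat 1, .ofNat 1],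
    [.ofNat 1, .ofNat 1, .ofNat 1, .ofNat 0, .ofNat 1, .ofNat 1, .ofNat 0, .negSucc 0, .ofNat 0, .ofNat 0, .ofNat 1, .negSucc 0, .ofNat 0, .negSucc 0, .ofNat 0, .ofNat 0, .negSucc 0, .ofNat 0, .ofNat 0, .ofNat 0, .ofNat 0, .ofNat 0, .negSucc 0, .ofNat 0, .negSucc 0, .negSucc 0, .ofNat 0, .negSucc 0, .negSucc 0, .negSucc 0, .ofNat 0, .negSucc 0, .negSucc 0, .negSucc 0, .negSucc 0],
    [.ofNat 0, .ofNat 1, .negSucc 0, .ofNat 0, .ofNat 1, .negSucc 0, .ofNat 0, .ofNat 0, .ofNat 1, .negSucc 0, .ofNat 1, .negSucc 0, .ofNat 0, .ofNat 0, .ofNat 1, .negSucc 0, .ofNat 0, .ofNat 1, .negSucc 0, .ofNat 0, .ofNat 1, .negSucc 0, .ofNat 0, .ofNat 0, .ofNat 1, .negSucc 0, .ofNat 0, .ofNat 1, .negSucc 0, .ofNat 0, .ofNat 0, .negSucc 0, .negSucc 0],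
    [.negSucc 0, .ofNat 0, .ofNat 1, .ofNat 0, .ofNat 1, .ofNat 0, .negSucc 0, .negSucc 0, .ofNat 0, .ofNat 1, .ofNat 1, .ofNat 0, .negSucc 0, .negSucc 0, .ofNat 0, .ofNat 1, .ofNat 0, .negSucc 0, .ofNat 0, .negSucc 0, .ofNat 1, .ofNat 0, .negSucc 0, .negSucc 0, .ofNat 0, .ofNat 1, .ofNat 0, .negSucc 0, .ofNat 0, .negSucc 0, .ofNat 0, .negSucc 0, .ofNat 0, .negSucc 0],
    [.negSucc 0, .negSucc 0, .ofNat 0, .ofNat 1, .ofNat 0, .ofNat 1, .ofNat 0, .ofNat 1, .ofNat 0, .negSucc 0, .ofNat 1, .ofNat 0, .negSucc 0, .ofNat 0, .ofNat 1, .ofNat 0, .negSucc 0, .ofNat 0, .ofNat 1, .ofNat 1, .ofNat 1, .ofNat 0, .negSucc 0, .ofNat 0, .ofNat 1, .ofNat 0, .negSucc 0, .ofNat 0, .ofNat 1, .ofNat 1, .ofNat 0, .negSucc 0, .ofNat 0, .ofNat 0, .negSucc 0],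
    [.negSucc 0, .negSucc 0, .ofNat 0, .ofNat 1, .negSucc 0, .ofNat 0, .ofNat 1, .ofNat 0, .negSucc 0, .ofNat 0, .ofNat 0, .ofNat 1, .ofNat 0, .ofNat 1, .ofNat 0, .negSucc 0, .ofNat 1, .ofNat 0, .negSucc 0, .negSucc 0, .ofNat 1, .ofNat 0, .ofNat 1, .ofNat 0, .ofNat 1, .ofNat 0, .ofNat 0, .ofNat 1, .ofNat 0, .ofNat 0, .negSucc 0, .ofNat 0, .ofNat 1, .ofNat 1, .ofNat 1],
    [.negSucc 0, .negSucc 0, .ofNat 0, .ofNat 1, .negSucc 0, .ofNat 0, .ofNat 1, .ofNat 0, .negSucc 0, .ofNat 0, .negSucc 0, .ofNat 0, .negSucc 0, .ofNat 0, .negSucc 0, .ofNat 0, .ofNat 0, .negSucc 0, .ofNat 0, .ofNat 0, .ofNat 0, .ofNat 1, .ofNat 0, .ofNat 1, .ofNat 0, .negSucc 0, .ofNat 1, .ofNat 0, .negSucc 0, .negSucc 0, .ofNat 1, .ofNat 0, .negSucc 0, .negSucc 0, .negSucc 0],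
    [.ofNat 1, .negSucc 0, .ofNat 0, .ofNat 0, .ofNat 0, .ofNat 1, .ofNat 1, .negSucc 0, .negSucc 0, .ofNat 0, .ofNat 0, .ofNat 1, .ofNat 1, .negSucc 0, .negSucc 0, .ofNat 0, .ofNat 0, .ofNat 0, .negSucc 0, .negSucc 0, .ofNat 0, .ofNat 1, .ofNat 1, .negSucc 0, .negSucc 0, .ofNat 0, .ofNat 0, .ofNat 0, .negSucc 0, .negSucc 0, .ofNat 0, .ofNat 0, .negSucc 0, .ofNat 1],
    [.ofNat 1, .ofNat 0, .negSucc 0, .negSucc 0, .negSucc 0, .ofNat 0, .ofNat 0, .ofNat 1, .ofNat 1, .ofNat 0, .ofNat 0, .ofNat 1, .ofNat 1, .ofNat 0, .ofNat 0, .ofNat 1, .negSucc 0, .negSucc 0, .ofNat 0, .ofNat 1, .ofNat 0, .ofNat 1, .ofNat 1, .ofNat 0, .ofNat 0, .ofNat 1, .negSucc 0, .negSucc 0, .ofNat 0, .ofNat 1, .ofNat 0, .ofNat 0, .negSucc 0, .ofNat 0, .ofNat 1],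
    [.ofNat 1, .ofNat 0, .negSucc 0, .negSucc 0, .ofNat 0, .negSucc 0, .negSucc 0, .ofNat 0, .ofNat 0, .negSucc 0, .negSucc 0, .ofNat 0, .ofNat 0, .ofNat 1, .ofNat 1, .ofNat 0, .ofNat 1, .ofNat 1, .ofNat 0, .negSucc 0, .ofNat 0, .ofNat 1, .ofNat 1, .ofNat 0, .ofNat 0, .ofNat 1, .ofNat 0, .ofNat 0, .ofNat 1, .ofNat 0, .negSucc 0, .negSucc 0, .ofNat 0, .ofNat 1, .ofNat 1],
    [.ofNat 1, .ofNat 0, .negSucc 0, .negSucc 0, .ofNat 0, .negSucc 0, .negSucc 0, .ofNat 0, .ofNat 0, .negSucc 0, .ofNat 0, .negSucc 0, .negSucc 0, .ofNat 0, .ofNat 0, .negSucc 0, .ofNat 0, .ofNat 0, .negSucc 0, .ofNat 0, .negSucc 0, .ofNat 0, .ofNat 0, .ofNat 1, .ofNat 1, .ofNat 0, .ofNat 1, .ofNat 1, .ofNat 0, .negSucc 0, .ofNat 1, .ofNat 1, .ofNat 0, .negSucc 0, .negSucc 0],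
    [.ofNat 0, .ofNat 1, .ofNat 1, .ofNat 1, .negSucc 0, .negSucc 0, .negSucc 0, .ofNat 0, .ofNat 0, .ofNat 0, .ofNat 0, .ofNat 0, .ofNat 0, .ofNat 1, .ofNat 1, .ofNat 1, .negSucc 0, .negSucc 0, .negSucc 0, .ofNat 0, .ofNat 0, .ofNat 0, .ofNat 0, .ofNat 1, .ofNat 1, .ofNat 1, .negSucc 0, .negSucc 0, .negSucc 0, .ofNat 0, .ofNat 0, .ofNat 0, .ofNat 0, .negSucc 0, .ofNat 1],
    [.ofNat 0, .ofNat 1, .ofNat 1, .ofNat 1, .ofNat 0, .ofNat 0, .ofNat 0, .negSucc 0, .negSucc 0, .negSucc 0, .negSucc 0, .negSucc 0, .negSucc 0, .ofNat 0, .ofNat 0, .ofNat 0, .ofNat 1, .ofNat 1, .ofNat 1, .ofNat 0, .ofNat 0, .ofNat 0, .ofNat 0, .ofNat 1, .ofNat 1, .negSucc 0, .ofNat 0, .ofNat 0, .ofNat 0, .ofNat 1, .negSucc 0, .negSucc 0, .negSucc 0, .ofNat 0, .negSucc 0],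
    [.ofNat 0, .ofNat 1, .ofNat 1, .ofNat 1, .ofNat 0, .ofNat 0, .ofNat 0, .negSucc 0, .negSucc 0, .negSucc 0, .ofNat 0, .ofNat 0, .ofNat 0, .negSucc 0, .negSucc 0, .ofNat 1, .ofNat 0, .ofNat 0, .ofNat 0, .negSucc 0, .negSucc 0, .negSucc 0, .negSucc 0, .ofNat 0, .ofNat 0, .ofNat 0, .ofNat 1, .ofNat 1, .ofNat 1, .ofNat 0, .ofNat 1, .ofNat 1, .ofNat 1, .ofNat 0, .ofNat 1],
    [.ofNat 0, .ofNat 0, .ofNat 0, .ofNat 0, .ofNat 1, .ofNat 1, .ofNat 1, .ofNat 1, .ofNat 1, .ofNat 1, .negSucc 0, .negSucc 0, .negSucc 0, .negSucc 0, .negSucc 0, .negSucc 0, .ofNat 0, .ofNat 0, .ofNat 0, .ofNat 0, .ofNat 0, .ofNat 0, .ofNat 0, .ofNat 0, .ofNat 0, .ofNat 0, .ofNat 1, .ofNat 1, .negSucc 0, .negSucc 0, .negSucc 0, .negSucc 0, .negSucc 0, .ofNat 1, .ofNat 0],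
    [.ofNat 0, .ofNat 0, .ofNat 0, .ofNat 0, .ofNat 1, .ofNat 1, .ofNat 1, .ofNat 1, .ofNat 1, .ofNat 1, .ofNat 0, .ofNat 0, .ofNat 0, .ofNat 0, .ofNat 0, .ofNat 0, .negSucc 0, .negSucc 0, .ofNat 1, .ofNat 1, .negSucc 0, .negSucc 0, .negSucc 0, .negSucc 0, .negSucc 0, .negSucc 0, .ofNat 0, .ofNat 0, .ofNat 0, .ofNat 0, .ofNat 1, .ofNat 1, .ofNat 1, .negSucc 0, .ofNat 0],
    [.ofNat 0, .ofNat 0, .ofNat 0, .ofNat 0, .ofNat 0, .ofNat 0, .ofNat 0, .ofNat 0, .ofNat 0, .ofNat 0, .ofNat 1, .ofNat 1, .ofNat 1, .ofNat 1, .ofNat 1, .ofNat 1, .ofNat 1, .ofNat 1, .ofNat 1, .negSucc 0, .negSucc 0, .negSucc 0, .negSucc 0, .negSucc 0, .negSucc 0, .negSucc 0, .negSucc 0, .negSucc 0, .negSucc 0, .ofNat 1, .ofNat 0, .ofNat 0, .ofNat 0, .ofNat 0, .ofNat 0],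
    [.ofNat 0, .ofNat 0, .negSucc 0, .ofNat 1, .ofNat 0, .negSucc 0, .ofNat 1, .negSucc 0, .ofNat 1, .ofNat 0, .ofNat 0, .negSucc 0, .ofNat 1, .negSucc 0, .ofNat 1, .ofNat 0, .negSucc 0, .ofNat 1, .ofNat 0, .ofNat 0, .ofNat 0, .negSucc 0, .ofNat 1, .negSucc 0, .ofNat 1, .ofNat 0, .negSucc 0, .ofNat 1, .ofNat 0, .ofNat 0, .negSucc 0, .ofNat 1],
    [.ofNat 0, .negSucc 0, .ofNat 0, .ofNat 1, .negSucc 0, .ofNat 0, .ofNat 1, .negSucc 0, .ofNat 0, .ofNat 1, .negSucc 0, .ofNat 0, .ofNat 1, .negSucc 0, .ofNat 0, .ofNat 1, .negSucc 0, .ofNat 0, .ofNat 1, .ofNat 0, .negSucc 0, .ofNat 0, .ofNat 1, .negSucc 0, .ofNat 0, .ofNat 1, .negSucc 0, .ofNat 0, .ofNat 1, .ofNat 0, .negSucc 0, .ofNat 0, .negSucc 0],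
    [.negSucc 0, .ofNat 0, .ofNat 0, .ofNat 1, .negSucc 0, .negSucc 0, .ofNat 0, .ofNat 0, .ofNat 1, .ofNat 1, .negSucc 0, .negSucc 0, .ofNat 0, .ofNat 0, .ofNat 1, .ofNat 1, .negSucc 0, .ofNat 0, .ofNat 0, .negSucc 0, .negSucc 0, .negSucc 0, .ofNat 0, .ofNat 0, .ofNat 1, .ofNat 1, .negSucc 0, .ofNat 0, .ofNat 0, .negSucc 0, .negSucc 0, .ofNat 0, .ofNat 0, .negSucc 0],
    [.negSucc 0, .negSucc 0, .negSucc 0, .ofNat 0, .ofNat 0, .ofNat 0, .ofNat 1, .ofNat 0, .ofNat 1, .ofNat 1, .negSucc 0, .negSucc 0, .ofNat 0, .negSucc 0, .ofNat 0, .ofNat 0, .ofNat 0, .ofNat 1, .ofNat 1, .negSucc 0, .negSucc 0, .negSucc 0, .ofNat 0, .negSucc 0, .ofNat 0, .ofNat 0, .ofNat 0, .ofNat 1, .ofNat 1, .negSucc 0, .negSucc 0, .ofNat 0, .ofNat 0, .ofNat 0, .negSucc 0],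
    [.negSucc 0, .negSucc 0, .negSucc 0, .ofNat 0, .negSucc 0, .negSucc 0, .ofNat 0, .negSucc 0, .ofNat 0, .ofNat 0, .ofNat 0, .ofNat 0, .ofNat 1, .ofNat 0, .ofNat 1, .ofNat 1, .ofNat 0, .ofNat 1, .ofNat 1, .negSucc 0, .negSucc 0, .negSucc 0, .ofNat 0, .negSucc 0, .ofNat 0, .ofNat 0, .negSucc 0, .ofNat 0, .ofNat 0, .ofNat 0, .ofNat 0, .ofNat 1, .negSucc 0, .negSucc 0, .negSucc 0],
    [.negSucc 0, .negSucc 0, .negSucc 0, .ofNat 0, .negSucc 0, .negSucc 0, .ofNat 0, .negSucc 0, .ofNat 0, .ofNat 0, .negSucc 0, .negSucc 0, .ofNat 0, .negSucc 0, .ofNat 0, .ofNat 0, .negSucc 0, .ofNat 0, .ofNat 0, .ofNat 0, .ofNat 0, .ofNat 0, .ofNat 1, .ofNat 0, .ofNat 1, .ofNat 1, .ofNat 0, .ofNat 1, .ofNat 1, .negSucc 0, .ofNat 0, .ofNat 1, .negSucc 0, .negSucc 0, .negSucc 0]]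
  U := [
    [.ofNat 3805],
    [.negSucc 3145, .ofNat 2908],
    [.negSucc 2235, .negSucc 2593, .ofNat 3452],
    [.negSucc 2679, .negSucc 1290, .negSucc 45, .ofNat 6049],
    [.negSucc 529, .negSucc 1307, .negSucc 2477, .negSucc 1450, .ofNat 3874],
    [.negSucc 976, .negSucc 2059, .negSucc 1142, .negSucc 248, .negSucc 1665, .ofNat 3956],
    [.negSucc 1569, .negSucc 2017, .negSucc 1084, .ofNat 1473, .negSucc 1640, .negSucc 291, .ofNat 5498],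
    [.negSucc 792, .negSucc 1524, .negSucc 994, .negSucc 436, .negSucc 675, .ofNat 631, .ofNat 824, .ofNat 5345],
    [.negSucc 55, .negSucc 570, .negSucc 2732, .negSucc 1938, .ofNat 3, .negSucc 1405, .negSucc 201, .ofNat 1799, .ofNat 5528],
    [.negSucc 1400, .negSucc 1138, .negSucc 1127, .negSucc 914, .negSucc 912, .negSucc 1084, .negSucc 86, .ofNat 523, .ofNat 449, .ofNat 4961],
    [.ofNat 92, .ofNat 179, .negSucc 251, .negSucc 566, .ofNat 459, .negSucc 480, .negSucc 1423, .negSucc 750, .negSucc 476, .negSucc 1408, .ofNat 5389],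
    [.negSucc 1102, .negSucc 2098, .negSucc 668, .ofNat 299, .negSucc 1845, .negSucc 48, .ofNat 253, .ofNat 690, .negSucc 1398, .negSucc 448, .ofNat 63, .ofNat 5053],
    [.negSucc 101, .negSucc 1196, .negSucc 1248, .ofNat 67, .negSucc 1745, .negSucc 1137, .ofNat 297, .negSucc 297, .negSucc 453, .negSucc 771, .negSucc 369, .ofNat 313, .ofNat 5644],
    [.negSucc 220, .negSucc 886, .negSucc 318, .negSucc 451, .negSucc 1530, .negSucc 846, .negSucc 760, .ofNat 1616, .negSucc 771, .negSucc 568, .negSucc 744, .ofNat 932, .ofNat 104, .ofNat 5470],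
    [.negSucc 221, .negSucc 445, .negSucc 1833, .negSucc 749, .negSucc 744, .negSucc 2060, .negSucc 1346, .ofNat 567, .ofNat 643, .negSucc 1317, .ofNat 19, .negSucc 813, .negSucc 115, .ofNat 1167, .ofNat 5415],
    [.negSucc 371, .ofNat 166, .ofNat 464, .ofNat 438, .negSucc 1681, .negSucc 1293, .negSucc 796, .negSucc 918, .negSucc 1233, .negSucc 365, .negSucc 820, .ofNat 107, .ofNat 150, .negSucc 456, .negSucc 446, .ofNat 5331],
    [.negSucc 927, .negSucc 881, .negSucc 230, .negSucc 755, .negSucc 769, .negSucc 859, .negSucc 751, .ofNat 609, .negSucc 1413, .negSucc 674, .negSucc 472, .ofNat 1111, .negSucc 66, .ofNat 1803, .negSucc 301, .negSucc 647, .ofNat 5558],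
    [.ofNat 756, .ofNat 794, .negSucc 1297, .negSucc 916, .ofNat 141, .negSucc 1958, .negSucc 1351, .negSucc 770, .negSucc 447, .negSucc 1975, .negSucc 162, .negSucc 1312, .ofNat 332, .ofNat 412, .ofNat 882, .negSucc 580, .ofNat 1044, .ofNat 5576],
    [.negSucc 1233, .negSucc 819, .ofNat 12, .ofNat 382, .negSucc 555, .ofNat 48, .ofNat 290, .negSucc 77, .negSucc 413, .ofNat 520, .negSucc 1545, .negSucc 543, .negSucc 1121, .negSucc 507, .negSucc 737, .ofNat 543, .negSucc 88, .negSucc 56, .ofNat 5399],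
    [.ofNat 1010, .ofNat 538, .negSucc 230, .negSucc 389, .ofNat 789, .ofNat 1112, .ofNat 389, .ofNat 2556, .ofNat 1620, .ofNat 531, .negSucc 112, .negSucc 614, .ofNat 251, .negSucc 125, .negSucc 118, .negSucc 706, .negSucc 1958, .negSucc 985, .ofNat 702, .ofNat 6144],
    [.negSucc 1661, .negSucc 380, .negSucc 304, .ofNat 280, .ofNat 744, .ofNat 8, .negSucc 163, .negSucc 37, .negSucc 328, .negSucc 458, .ofNat 1708, .ofNat 416, .negSucc 875, .negSucc 471, .negSucc 181, .negSucc 1075, .ofNat 79, .negSucc 288, .negSucc 921, .ofNat 1303, .ofNat 6674],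
    [.negSucc 10, .negSucc 1284, .negSucc 319, .negSucc 262, .negSucc 481, .ofNat 797, .ofNat 123, .negSucc 115, .negSucc 964, .negSucc 88, .negSucc 222, .ofNat 1026, .negSucc 1191, .negSucc 113, .negSucc 1200, .negSucc 847, .ofNat 52, .negSucc 1505, .negSucc 852, .ofNat 623, .ofNat 1174, .ofNat 6066],
    [.ofNat 248, .negSucc 1740, .negSucc 1951, .negSucc 243, .negSucc 1862, .negSucc 1222, .ofNat 812, .negSucc 148, .negSucc 171, .negSucc 263, .negSucc 1179, .ofNat 556, .ofNat 1337, .ofNat 223, .negSucc 166, .negSucc 931, .ofNat 35, .ofNat 89, .negSucc 1209, .ofNat 554, .ofNat 253, .ofNat 1288, .ofNat 6488],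
    [.ofNat 1373, .ofNat 1381, .ofNat 1535, .negSucc 31, .negSucc 1160, .negSucc 238, .negSucc 1647, .ofNat 830, .negSucc 1463, .negSucc 1720, .negSucc 1577, .negSucc 607, .negSucc 1485, .ofNat 2172, .negSucc 805, .negSucc 1033, .ofNat 493, .negSucc 968, .negSucc 1236, .ofNat 947, .negSucc 583, .ofNat 1446, .ofNat 399, .ofNat 6461],
    [.negSucc 858, .ofNat 360, .negSucc 584, .ofNat 1070, .negSucc 1229, .negSucc 1895, .negSucc 806, .negSucc 121, .negSucc 16, .negSucc 1619, .negSucc 52, .negSucc 1297, .negSucc 1617, .ofNat 609, .ofNat 1080, .negSucc 1038, .negSucc 405, .negSucc 105, .negSucc 1584, .negSucc 31, .ofNat 1159, .negSucc 121, .ofNat 670, .ofNat 1896, .ofNat 6553],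
    [.ofNat 192, .negSucc 276, .negSucc 435, .negSucc 1238, .negSucc 1349, .negSucc 1429, .negSucc 1900, .negSucc 34, .ofNat 113, .ofNat 493, .negSucc 1055, .negSucc 150, .negSucc 612, .negSucc 180, .ofNat 17, .ofNat 853, .negSucc 1084, .negSucc 1233, .negSucc 954, .negSucc 188, .ofNat 240, .ofNat 918, .ofNat 861, .ofNat 457, .ofNat 1015, .ofNat 6251],
    [.ofNat 591, .ofNat 713, .ofNat 1460, .negSucc 357, .ofNat 923, .ofNat 1191, .negSucc 286, .ofNat 424, .negSucc 1844, .negSucc 1415, .negSucc 1378, .negSucc 564, .negSucc 2055, .ofNat 325, .negSucc 2890, .negSucc 2328, .ofNat 2148, .negSucc 1164, .negSucc 1319, .ofNat 184, .negSucc 718, .ofNat 1308, .negSucc 580, .ofNat 2645, .negSucc 1030, .negSucc 1674, .ofNat 6549],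
    [.negSucc 449, .ofNat 292, .negSucc 1418, .ofNat 994, .ofNat 135, .negSucc 1415, .ofNat 875, .ofNat 104, .ofNat 170, .negSucc 1496, .negSucc 1103, .negSucc 2187, .negSucc 836, .negSucc 681, .negSucc 291, .negSucc 2065, .ofNat 113, .ofNat 1483, .negSucc 860, .ofNat 161, .ofNat 22, .negSucc 1797, .ofNat 722, .ofNat 522, .ofNat 1945, .negSucc 1016, .ofNat 1190, .ofNat 6718],
    [.negSucc 529, .negSucc 894, .negSucc 669, .negSucc 501, .negSucc 646, .negSucc 672, .negSucc 1092, .negSucc 672, .negSucc 301, .negSucc 268, .negSucc 1417, .negSucc 647, .negSucc 478, .negSucc 1247, .negSucc 111, .ofNat 1091, .negSucc 794, .ofNat 559, .ofNat 1762, .ofNat 176, .negSucc 390, .negSucc 84, .ofNat 351, .negSucc 576, .ofNat 816, .ofNat 2346, .negSucc 457, .ofNat 1169, .ofNat 7062],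
    [.ofNat 444, .ofNat 1068, .ofNat 391, .ofNat 454, .negSucc 557, .ofNat 87, .negSucc 1070, .ofNat 1147, .negSucc 692, .negSucc 2144, .ofNat 1225, .ofNat 1439, .ofNat 1185, .ofNat 2595, .ofNat 1601, .ofNat 1014, .ofNat 878, .ofNat 1214, .ofNat 2206, .ofNat 2456, .ofNat 176, .negSucc 554, .negSucc 524, .ofNat 720, .ofNat 13, .negSucc 980, .negSucc 1688, .negSucc 1064, .ofNat 942, .ofNat 6982],
    [.ofNat 313, .ofNat 528, .ofNat 607, .negSucc 1436, .ofNat 1508, .ofNat 1774, .negSucc 1137, .ofNat 822, .negSucc 1594, .negSucc 1011, .ofNat 2415, .ofNat 2037, .negSucc 1448, .negSucc 122, .negSucc 2383, .negSucc 352, .ofNat 442, .negSucc 2437, .negSucc 690, .ofNat 1332, .ofNat 1046, .ofNat 1884, .negSucc 2106, .ofNat 670, .negSucc 2284, .negSucc 1456, .ofNat 2100, .negSucc 1272, .negSucc 976, .ofNat 89, .ofNat 7211],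
    [.negSucc 19, .negSucc 1237, .negSucc 1720, .ofNat 267, .negSucc 1402, .negSucc 1203, .ofNat 1447, .negSucc 1487, .ofNat 250, .ofNat 5, .negSucc 1058, .negSucc 26, .ofNat 1809, .negSucc 832, .negSucc 572, .ofNat 29, .negSucc 982, .ofNat 54, .negSucc 339, .negSucc 250, .negSucc 2576, .negSucc 1091, .ofNat 1516, .negSucc 631, .ofNat 198, .ofNat 170, .negSucc 102, .ofNat 1720, .ofNat 689, .negSucc 383, .ofNat 712, .ofNat 7302],
    [.negSucc 499, .ofNat 1001, .ofNat 1069, .negSucc 286, .ofNat 1371, .ofNat 561, .negSucc 964, .ofNat 543, .negSucc 295, .ofNat 242, .ofNat 1105, .ofNat 501, .negSucc 1264, .ofNat 885, .negSucc 196, .negSucc 281, .ofNat 304, .negSucc 571, .ofNat 433, .negSucc 114, .negSucc 91, .negSucc 1102, .negSucc 1988, .negSucc 31, .negSucc 231, .negSucc 118, .ofNat 543, .ofNat 513, .ofNat 1802, .ofNat 715, .ofNat 1428, .ofNat 1652, .ofNat 7241],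
    [.ofNat 1019, .negSucc 481, .negSucc 275, .negSucc 308, .ofNat 1472, .ofNat 2158, .ofNat 1232, .ofNat 450, .negSucc 1162, .negSucc 1162, .negSucc 236, .ofNat 1382, .ofNat 171, .ofNat 372, .negSucc 1528, .negSucc 2436, .ofNat 2728, .ofNat 1687, .negSucc 215, .negSucc 92, .ofNat 1100, .ofNat 1796, .ofNat 1556, .ofNat 99, .negSucc 827, .negSucc 838, .ofNat 1562, .ofNat 1528, .ofNat 378, .ofNat 1346, .negSucc 1312, .negSucc 1072, .ofNat 246, .ofNat 6993],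
    [.ofNat 1391, .ofNat 1391, .ofNat 736, .negSucc 244, .negSucc 40, .negSucc 40, .negSucc 367, .ofNat 614, .ofNat 286, .ofNat 286, .ofNat 614, .ofNat 2823, .ofNat 1141, .ofNat 1268, .negSucc 321, .ofNat 381, .ofNat 736, .negSucc 1554, .negSucc 2208, .negSucc 1063, .ofNat 859, .ofNat 1514, .ofNat 1186, .negSucc 40, .negSucc 367, .ofNat 1841, .ofNat 82, .negSucc 899, .negSucc 244, .ofNat 900, .ofNat 82, .ofNat 409, .ofNat 2209, .ofNat 2209, .ofNat 7333]]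

theorem cls5_ok : check cls5 = true := by decide +kernel

end Pool.Agent.V1197.ZN
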