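import Pool.Agent.V1197.ZN.Cert

namespace Pool.Agent.V1197.ZN

def cls6 : Cls where
  chi := [.ofNat 1, .ofNat 1, .ofNat 1, .ofNat 1, .ofNat 1, .ofNat 1, .ofNat 1, .ofNat 1, .ofNat 1, .ofNat 1, .ofNat 1, .ofNat 1, .ofNat 1, .ofNat 1, .ofNat 1, .ofNat 1, .ofNat 1, .ofNat 1, .negSucc 0, .negSucc 0, .ofNat 1, .ofNat 1, .ofNat 1, .ofNat 1, .ofNat 1, .ofNat 1, .ofNat 1, .ofNat 1, .ofNat 1, .negSucc 0, .ofNat 1, .ofNat 1, .ofNat 1, .ofNat 1, .ofNat 1]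
  mu := [.ofNat 300, .ofNat 300, .ofNat 300, .ofNat 300, .ofNat 300, .ofNat 300, .ofNat 300, .ofNat 300, .ofNat 300, .ofNat 300, .ofNat 300, .ofNat 300, .ofNat 300, .ofNat 300, .ofNat 300, .negSucc 299, .negSucc 299, .negSucc 299, .negSucc 299, .negSucc 299, .negSucc 299, .negSucc 299, .negSucc 299, .negSucc 299, .negSucc 299, .ofNat 300, .ofNat 300, .ofNat 300, .ofNat 300, .ofNat 300, .ofNat 300, .ofNat 300, .ofNat 300, .negSucc 299, .ofNat 300, .ofNat 300, .ofNat 297, .negSucc 299, .negSucc 299, .ofNat 300, .negSucc 299, .negSucc 299, .negSucc 299, .negSucc 254, .ofNat 300, .negSucc 299, .negSucc 299, .negSucc 299, .negSucc 299, .negSucc 299, .ofNat 300, .negSucc 299, .negSucc 299, .ofNat 300, .ofNat 68, .ofNat 191, .negSucc 31, .negSucc 299, .ofNat 300, .ofNat 300, .ofNat 300, .ofNat 300, .negSucc 299, .ofNat 300, .ofNat 300, .ofNat 300, .negSucc 299, .negSucc 299, .negSucc 299,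 .ofNat 300, .negSucc 299, .ofNat 300, .ofNat 300, .ofNat 300, .ofNat 300, .ofNat 300, .negSucc 299, .negSucc 299, .negSucc 299, .negSucc 299, .negSucc 299, .negSucc 299, .ofNat 300, .ofNat 91, .negSucc 153, .ofNat 107, .negSucc 299, .ofNat 300, .ofNat 300, .ofNat 300, .ofNat 300, .ofNat 300, .ofNat 300, .negSucc 299, .ofNat 300, .ofNat 300, .ofNat 248, .ofNat 300, .ofNat 300, .ofNat 300, .negSucc 299, .ofNat 300, .ofNat 300, .negSucc 296, .ofNat 300]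
  om := [.negSucc 1464, .negSucc 34, .ofNat 300, .ofNat 300, .ofNat 300, .ofNat 300, .ofNat 300]
  kap := 12800
  s := 300000
  del := 21600000
  eta := 555794
  L := [
    [.ofNat 0, .ofNat 0, .ofNat 1, .negSucc 0, .ofNat 0, .ofNat 1, .negSucc 0, .ofNat 1, .negSucc 0, .ofNat 0, .ofNat 0, .ofNat 1, .negSucc 0, .ofNat 1, .negSucc 0, .ofNat 0, .ofNat 1, .negSucc 0, .ofNat 0, .ofNat 0, .ofNat 0, .ofNat 1, .negSucc 0, .ofNat 1, .negSucc 0, .ofNat 0, .ofNat 1, .negSucc 0, .ofNat 0, .ofNat 0, .ofNat 1, .negSucc 0],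
    [.ofNat 0, .negSucc 0, .ofNat 0, .ofNat 1, .negSucc 0, .ofNat 0, .ofNat 1, .ofNat 1, .ofNat 0, .negSucc 0, .negSucc 0, .ofNat 0, .ofNat 1, .ofNat 1, .ofNat 0, .negSucc 0, .negSucc 0, .ofNat 0, .negSucc 0, .ofNat 0, .negSucc 0, .ofNat 0, .ofNat 1, .ofNat 1, .ofNat 0, .negSucc 0, .ofNat 1, .ofNat 0, .negSucc 0, .ofNat 0, .ofNat 1, .ofNat 0, .negSucc 0],
    [.ofNat 1, .ofNat 0, .ofNat 0, .negSucc 0, .negSucc 0, .negSucc 0, .ofNat 0, .ofNat 0, .ofNat 1, .ofNat 1, .negSucc 0, .negSucc 0, .ofNat 0, .ofNat 0, .ofNat 1, .ofNat 1, .negSucc 0, .ofNat 0, .ofNat 0, .negSucc 0, .negSucc 0, .negSucc 0, .ofNat 0, .ofNat 0, .ofNat 1, .ofNat 1, .negSucc 0, .ofNat 0, .ofNat 0, .negSucc 0, .ofNat 1, .ofNat 0, .ofNat 0, .negSucc 0],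
    [.ofNat 1, .ofNat 1, .ofNat 1, .ofNat 0, .ofNat 0, .ofNat 0, .negSucc 0, .ofNat 0, .negSucc 0, .negSucc 0, .negSucc 0, .ofNat 1, .ofNat 0, .ofNat 1, .ofNat 0, .ofNat 0, .ofNat 0, .ofNat 1, .ofNat 1, .ofNat 1, .negSucc 0, .negSucc 0, .ofNat 0, .ofNat 1, .ofNat 0, .ofNat 0, .ofNat 0, .ofNat 1, .ofNat 1, .ofNat 1, .ofNat 1, .ofNat 0, .ofNat 0, .ofNat 0, .negSucc 0],
    [.ofNat 1, .ofNat 1, .ofNat 1, .ofNat 0, .ofNat 1, .negSucc 0, .ofNat 0, .negSucc 0, .ofNat 0, .ofNat 0, .ofNat 0, .ofNat 0, .negSucc 0, .ofNat 0, .negSucc 0, .negSucc 0, .ofNat 0, .negSucc 0, .negSucc 0, .negSucc 0, .negSucc 0, .negSucc 0, .ofNat 0, .negSucc 0, .ofNat 0, .ofNat 0, .negSucc 0, .ofNat 0, .ofNat 0, .ofNat 0, .ofNat 0, .ofNat 1, .ofNat 1, .ofNat 1, .ofNat 1],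
    [.ofNat 1, .ofNat 1, .ofNat 1, .ofNat 0, .ofNat 1, .ofNat 1, .ofNat 0, .negSucc 0, .ofNat 0, .ofNat 0, .ofNat 1, .ofNat 1, .ofNat 0, .ofNat 1, .ofNat 0, .ofNat 0, .ofNat 1, .ofNat 0, .ofNat 0, .ofNat 0, .ofNat 0, .ofNat 0, .negSucc 0, .ofNat 0, .negSucc 0, .negSucc 0, .ofNat 0, .negSucc 0, .negSucc 0, .negSucc 0, .ofNat 0, .negSucc 0, .negSucc 0, .negSucc 0, .negSucc 0],
    [.ofNat 0, .ofNat 1, .negSucc 0, .ofNat 0, .ofNat 1, .negSucc 0, .ofNat 0, .ofNat 0, .ofNat 1, .negSucc 0, .ofNat 1, .negSucc 0, .ofNat 0, .ofNat 0, .ofNat 1, .negSucc 0, .ofNat 0, .negSucc 0, .negSucc 0, .ofNat 0, .ofNat 1, .negSucc 0, .ofNat 0, .ofNat 0, .ofNat 1, .negSucc 0, .ofNat 0, .ofNat 1, .negSucc 0, .ofNat 0, .ofNat 0, .ofNat 1, .negSucc 0],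
    [.negSucc 0, .ofNat 0, .ofNat 1, .ofNat 0, .ofNat 1, .ofNat 0, .negSucc 0, .negSucc 0, .ofNat 0, .ofNat 1, .ofNat 1, .ofNat 0, .negSucc 0, .negSucc 0, .ofNat 0, .ofNat 1, .ofNat 0, .negSucc 0, .ofNat 0, .negSucc 0, .ofNat 1, .ofNat 0, .negSucc 0, .negSucc 0, .ofNat 0, .ofNat 1, .ofNat 0, .negSucc 0, .ofNat 0, .negSucc 0, .ofNat 0, .ofNat 1, .ofNat 0, .negSucc 0],
    [.negSucc 0, .negSucc 0, .ofNat 0, .ofNat 1, .ofNat 0, .ofNat 1, .ofNat 0, .ofNat 1, .ofNat 0, .negSucc 0, .ofNat 1, .ofNat 0, .ofNat 1, .ofNat 0, .ofNat 1, .ofNat 0, .negSucc 0, .ofNat 0, .ofNat 1, .ofNat 1, .ofNat 1, .ofNat 0, .negSucc 0, .ofNat 0, .ofNat 1, .ofNat 0, .negSucc 0, .ofNat 0, .ofNat 1, .ofNat 1, .ofNat 0, .ofNat 1, .ofNat 0, .ofNat 0, .negSucc 0],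
    [.negSucc 0, .negSucc 0, .ofNat 0, .ofNat 1, .negSucc 0, .ofNat 0, .negSucc 0, .ofNat 0, .negSucc 0, .ofNat 0, .ofNat 0, .ofNat 1, .ofNat 0, .ofNat 1, .ofNat 0, .negSucc 0, .ofNat 1, .ofNat 0, .negSucc 0, .negSucc 0, .ofNat 1, .ofNat 0, .negSucc 0, .ofNat 0, .negSucc 0, .ofNat 0, .ofNat 0, .negSucc 0, .ofNat 0, .ofNat 0, .negSucc 0, .ofNat 0, .ofNat 1, .ofNat 1, .ofNat 1],
    [.negSucc 0, .negSucc 0, .ofNat 0, .ofNat 1, .negSucc 0, .ofNat 0, .ofNat 1, .ofNat 0, .negSucc 0, .ofNat 0, .negSucc 0, .ofNat 0, .ofNat 1, .ofNat 0, .ofNat 1, .ofNat 0, .ofNat 0, .ofNat 1, .ofNat 0, .ofNat 0, .ofNat 0, .ofNat 1, .ofNat 0, .ofNat 1, .ofNat 0, .negSucc 0, .ofNat 1, .ofNat 0, .negSucc 0, .negSucc 0, .ofNat 1, .ofNat 0, .negSucc 0, .negSucc 0, .negSucc 0],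
    [.ofNat 1, .negSucc 0, .ofNat 0, .ofNat 0, .ofNat 0, .ofNat 1, .ofNat 1, .negSucc 0, .negSucc 0, .ofNat 0, .ofNat 0, .ofNat 1, .ofNat 1, .negSucc 0, .negSucc 0, .ofNat 0, .ofNat 0, .ofNat 0, .negSucc 0, .ofNat 1, .ofNat 0, .ofNat 1, .ofNat 1, .negSucc 0, .negSucc 0, .ofNat 0, .ofNat 0, .ofNat 0, .negSucc 0, .negSucc 0, .ofNat 0, .ofNat 0, .ofNat 1, .negSucc 0],
    [.ofNat 1, .ofNat 0, .negSucc 0, .negSucc 0, .negSucc 0, .ofNat 0, .ofNat 0, .ofNat 1, .ofNat 1, .ofNat 0, .ofNat 0, .ofNat 1, .ofNat 1, .ofNat 0, .ofNat 0, .ofNat 1, .negSucc 0, .negSucc 0, .ofNat 0, .ofNat 1, .ofNat 0, .ofNat 1, .ofNat 1, .ofNat 0, .ofNat 0, .ofNat 1, .negSucc 0, .negSucc 0, .ofNat 0, .ofNat 1, .ofNat 0, .ofNat 0, .ofNat 1, .ofNat 0, .negSucc 0],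
    [.ofNat 1, .ofNat 0, .negSucc 0, .negSucc 0, .ofNat 0, .negSucc 0, .negSucc 0, .ofNat 0, .ofNat 0, .negSucc 0, .negSucc 0, .ofNat 0, .ofNat 0, .ofNat 1, .ofNat 1, .ofNat 0, .ofNat 1, .ofNat 1, .ofNat 0, .negSucc 0, .ofNat 0, .ofNat 1, .ofNat 1, .ofNat 0, .ofNat 0, .negSucc 0, .ofNat 0, .ofNat 0, .negSucc 0, .ofNat 0, .negSucc 0, .negSucc 0, .ofNat 0, .ofNat 1, .ofNat 1],
    [.ofNat 1, .ofNat 0, .negSucc 0, .negSucc 0, .ofNat 0, .negSucc 0, .negSucc 0, .ofNat 0, .ofNat 0, .negSucc 0, .ofNat 0, .negSucc 0, .negSucc 0, .ofNat 0, .ofNat 0, .ofNat 1, .ofNat 0, .ofNat 0, .ofNat 1, .ofNat 0, .negSucc 0, .ofNat 0, .ofNat 0, .ofNat 1, .ofNat 1, .ofNat 0, .ofNat 1, .ofNat 1, .ofNat 0, .negSucc 0, .ofNat 1, .ofNat 1, .ofNat 0, .negSucc 0, .ofNat 1],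
    [.ofNat 0, .ofNat 1, .ofNat 1, .ofNat 1, .negSucc 0, .negSucc 0, .negSucc 0, .ofNat 0, .ofNat 0, .ofNat 0, .ofNat 0, .ofNat 0, .ofNat 0, .ofNat 1, .ofNat 1, .negSucc 0, .negSucc 0, .negSucc 0, .negSucc 0, .ofNat 0, .ofNat 0, .ofNat 0, .ofNat 0, .ofNat 1, .ofNat 1, .ofNat 1, .negSucc 0, .negSucc 0, .negSucc 0, .ofNat 0, .ofNat 0, .ofNat 0, .ofNat 0, .ofNat 1, .negSucc 0],
    [.ofNat 0, .ofNat 1, .ofNat 1, .ofNat 1, .ofNat 0, .ofNat 0, .ofNat 0, .negSucc 0, .negSucc 0, .ofNat 1, .negSucc 0, .negSucc 0, .negSucc 0, .ofNat 0, .ofNat 0, .ofNat 0, .ofNat 1, .ofNat 1, .ofNat 1, .ofNat 0, .ofNat 0, .ofNat 0, .ofNat 0, .ofNat 1, .ofNat 1, .ofNat 1, .ofNat 0, .ofNat 0, .ofNat 0, .negSucc 0, .negSucc 0, .negSucc 0, .negSucc 0, .ofNat 0, .negSucc 0],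
    [.ofNat 0, .ofNat 1, .ofNat 1, .ofNat 1, .ofNat 0, .ofNat 0, .ofNat 0, .negSucc 0, .negSucc 0, .negSucc 0, .ofNat 0, .ofNat 0, .ofNat 0, .negSucc 0, .negSucc 0, .negSucc 0, .ofNat 0, .ofNat 0, .ofNat 0, .ofNat 1, .negSucc 0, .negSucc 0, .negSucc 0, .ofNat 0, .ofNat 0, .ofNat 0, .ofNat 1, .ofNat 1, .ofNat 1, .ofNat 0, .ofNat 1, .ofNat 1, .ofNat 1, .ofNat 0, .ofNat 1],
    [.ofNat 0, .ofNat 0, .ofNat 0, .ofNat 0, .ofNat 1, .ofNat 1, .ofNat 1, .ofNat 1, .ofNat 1, .ofNat 1, .negSucc 0, .negSucc 0, .negSucc 0, .negSucc 0, .negSucc 0, .negSucc 0, .ofNat 0, .ofNat 0, .ofNat 0, .ofNat 0, .ofNat 0, .ofNat 0, .ofNat 0, .ofNat 0, .ofNat 0, .ofNat 0, .ofNat 1, .ofNat 1, .ofNat 1, .ofNat 1, .negSucc 0, .negSucc 0, .negSucc 0, .ofNat 1, .ofNat 0],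
    [.ofNat 0, .ofNat 0, .ofNat 0, .ofNat 0, .ofNat 1, .ofNat 1, .ofNat 1, .ofNat 1, .ofNat 1, .ofNat 1, .ofNat 0, .ofNat 0, .ofNat 0, .ofNat 0, .ofNat 0, .ofNat 0, .negSucc 0, .negSucc 0, .negSucc 0, .negSucc 0, .negSucc 0, .negSucc 0, .negSucc 0, .negSucc 0, .negSucc 0, .negSucc 0, .ofNat 0, .ofNat 0, .ofNat 0, .ofNat 0, .ofNat 1, .ofNat 1, .negSucc 0, .negSucc 0, .ofNat 0],
    [.ofNat 0, .ofNat 0, .ofNat 0, .ofNat 0, .ofNat 0, .ofNat 0, .ofNat 0, .ofNat 0, .ofNat 0, .ofNat 0, .ofNat 1, .ofNat 1, .ofNat 1, .ofNat 1, .ofNat 1, .ofNat 1, .ofNat 1, .ofNat 1, .ofNat 1, .negSucc 0, .negSucc 0, .negSucc 0, .negSucc 0, .negSucc 0, .negSucc 0, .negSucc 0, .negSucc 0, .negSucc 0, .ofNat 1, .ofNat 1, .ofNat 0, .ofNat 0, .ofNat 0, .ofNat 0, .ofNat 0],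
    [.ofNat 0, .ofNat 0, .negSucc 0, .ofNat 1, .ofNat 0, .negSucc 0, .ofNat 1, .negSucc 0, .ofNat 1, .ofNat 0, .ofNat 0, .negSucc 0, .ofNat 1, .negSucc 0, .ofNat 1, .ofNat 0, .negSucc 0, .ofNat 1, .ofNat 0, .ofNat 0, .ofNat 0, .negSucc 0, .ofNat 1, .negSucc 0, .ofNat 1, .ofNat 0, .negSucc 0, .ofNat 1, .ofNat 0, .ofNat 0, .negSucc 0, .ofNat 1],
    [.ofNat 0, .negSucc 0, .ofNat 0, .ofNat 1, .negSucc 0, .ofNat 0, .ofNat 1, .negSucc 0, .ofNat 0, .ofNat 1, .negSucc 0, .ofNat 0, .ofNat 1, .negSucc 0, .ofNat 0, .ofNat 1, .negSucc 0, .ofNat 0, .negSucc 0, .ofNat 0, .negSucc 0, .ofNat 0, .ofNat 1, .negSucc 0, .ofNat 0, .ofNat 1, .negSucc 0, .ofNat 0, .ofNat 1, .ofNat 0, .negSucc 0, .ofNat 0, .ofNat 1],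
    [.negSucc 0, .ofNat 0, .ofNat 0, .ofNat 1, .negSucc 0, .negSucc 0, .ofNat 0, .ofNat 0, .ofNat 1, .ofNat 1, .negSucc 0, .negSucc 0, .ofNat 0, .ofNat 0, .ofNat 1, .ofNat 1, .negSucc 0, .ofNat 0, .ofNat 0, .negSucc 0, .negSucc 0, .negSucc 0, .ofNat 0, .ofNat 0, .ofNat 1, .ofNat 1, .negSucc 0, .ofNat 0, .ofNat 0, .negSucc 0, .negSucc 0, .ofNat 0, .ofNat 0, .ofNat 1],
    [.negSucc 0, .negSucc 0, .negSucc 0, .ofNat 0, .ofNat 0, .ofNat 0, .ofNat 1, .ofNat 0, .ofNat 1, .ofNat 1, .negSucc 0, .negSucc 0, .ofNat 0, .negSucc 0, .ofNat 0, .ofNat 0, .ofNat 0, .ofNat 1, .negSucc 0, .negSucc 0, .negSucc 0, .negSucc 0, .ofNat 0, .negSucc 0, .ofNat 0, .ofNat 0, .ofNat 0, .ofNat 1, .ofNat 1, .negSucc 0, .negSucc 0, .ofNat 0, .ofNat 0, .ofNat 0, .ofNat 1],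
    [.negSucc 0, .negSucc 0, .negSucc 0, .ofNat 0, .negSucc 0, .negSucc 0, .ofNat 0, .negSucc 0, .ofNat 0, .ofNat 0, .ofNat 0, .ofNat 0, .ofNat 1, .ofNat 0, .ofNat 1, .ofNat 1, .ofNat 0, .ofNat 1, .negSucc 0, .negSucc 0, .negSucc 0, .negSucc 0, .ofNat 0, .negSucc 0, .ofNat 0, .ofNat 0, .negSucc 0, .ofNat 0, .ofNat 0, .ofNat 0, .ofNat 0, .ofNat 1, .ofNat 1, .ofNat 1, .ofNat 1],
    [.negSucc 0, .negSucc 0, .negSucc 0, .ofNat 0, .negSucc 0, .negSucc 0, .ofNat 0, .negSucc 0, .ofNat 0, .ofNat 0, .negSucc 0, .negSucc 0, .ofNat 0, .negSucc 0, .ofNat 0, .ofNat 0, .negSucc 0, .ofNat 0, .ofNat 0, .ofNat 0, .ofNat 0, .ofNat 0, .ofNat 1, .ofNat 0, .ofNat 1, .ofNat 1, .ofNat 0, .ofNat 1, .ofNat 1, .negSucc 0, .ofNat 0, .ofNat 1, .ofNat 1, .ofNat 1, .ofNat 1]]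
  U := [
    [.ofNat 19009],
    [.negSucc 60078, .ofNat 40042],
    [.negSucc 35581, .negSucc 34977, .ofNat 52457],
    [.negSucc 45069, .negSucc 24865, .ofNat 8726, .ofNat 71768],
    [.negSucc 4582, .negSucc 11798, .negSucc 16816, .negSucc 31351, .ofNat 46876],
    [.negSucc 6791, .negSucc 47870, .negSucc 19953, .negSucc 11866, .negSucc 1909, .ofNat 61830],
    [.negSucc 20911, .negSucc 32110, .negSucc 21258, .ofNat 12041, .negSucc 24564, .negSucc 1536, .ofNat 71212],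
    [.negSucc 29523, .negSucc 47125, .negSucc 29725, .negSucc 15796, .negSucc 10088, .ofNat 28145, .ofNat 11569, .ofNat 102049],
    [.ofNat 21311, .ofNat 6013, .negSucc 76685, .negSucc 77243, .negSucc 4610, .negSucc 14889, .negSucc 5230, .ofNat 48867, .ofNat 102534],
    [.negSucc 28646, .negSucc 14121, .negSucc 23524, .negSucc 170, .negSucc 26652, .negSucc 6774, .ofNat 13048, .ofNat 5890, .negSucc 2926, .ofNat 71567],
    [.negSucc 15558, .negSucc 1542, .negSucc 16634, .negSucc 11204, .ofNat 7818, .negSucc 11939, .negSucc 12502, .negSucc 16595, .ofNat 14156, .negSucc 23951, .ofNat 83265],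
    [.ofNat 7809, .ofNat 7479, .ofNat 28380, .ofNat 8407, .ofNat 3849, .negSucc 4936, .negSucc 42607, .negSucc 22621, .negSucc 26116, .negSucc 28590, .negSucc 11831, .ofNat 63114],
    [.negSucc 35739, .negSucc 52897, .negSucc 29049, .ofNat 33851, .negSucc 55743, .ofNat 8523, .ofNat 41366, .ofNat 11727, .negSucc 9581, .negSucc 10597, .negSucc 2326, .ofNat 2404, .ofNat 83636],
    [.ofNat 30032, .negSucc 9144, .ofNat 484, .negSucc 21435, .ofNat 7239, .ofNat 3408, .negSucc 62023, .ofNat 15535, .negSucc 13896, .negSucc 45311, .negSucc 3910, .ofNat 30114, .negSucc 14364, .ofNat 76037],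
    [.negSucc 10315, .ofNat 7058, .negSucc 33954, .ofNat 2531, .negSucc 37698, .negSucc 36722, .negSucc 25754, .negSucc 1902, .ofNat 9423, .negSucc 17775, .negSucc 4525, .negSucc 1270, .ofNat 39526, .ofNat 8685, .ofNat 91893],
    [.negSucc 45441, .negSucc 38306, .negSucc 82875, .negSucc 58747, .negSucc 33166, .negSucc 13557, .negSucc 28119, .ofNat 24229, .ofNat 41704, .ofNat 465, .ofNat 21647, .negSucc 159, .ofNat 27738, .ofNat 2272, .ofNat 51296, .ofNat 131330],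
    [.ofNat 53904, .ofNat 80678, .ofNat 31308, .negSucc 46517, .ofNat 64063, .negSucc 30783, .negSucc 50192, .negSucc 78158, .negSucc 64146, .negSucc 15977, .ofNat 27786, .ofNat 12583, .negSucc 67270, .ofNat 7133, .negSucc 35747, .negSucc 7835, .ofNat 116439],
    [.negSucc 84610, .negSucc 87951, .negSucc 21597, .ofNat 64346, .negSucc 88790, .negSucc 3513, .ofNat 23912, .negSucc 34636, .negSucc 67613, .negSucc 4853, .negSucc 36308, .ofNat 7846, .ofNat 89177, .negSucc 3196, .ofNat 70064, .ofNat 19123, .ofNat 18346, .ofNat 153632],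
    [.ofNat 38431, .ofNat 63913, .ofNat 8479, .negSucc 47317, .ofNat 46643, .negSucc 31922, .negSucc 62619, .negSucc 52361, .negSucc 31675, .negSucc 29536, .ofNat 41518, .ofNat 10948, .negSucc 36013, .ofNat 17112, .ofNat 8143, .ofNat 76941, .ofNat 69446, .ofNat 69547, .ofNat 160150],
    [.ofNat 33442, .ofNat 40305, .ofNat 26201, .ofNat 31900, .ofNat 26955, .ofNat 50088, .ofNat 29613, .negSucc 23663, .negSucc 8202, .negSucc 46913, .ofNat 62992, .ofNat 16473, .ofNat 22892, .negSucc 15959, .negSucc 51166, .negSucc 38969, .negSucc 8289, .negSucc 28852, .ofNat 3605, .ofNat 111957],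
    [.negSucc 37470, .ofNat 861, .negSucc 13643, .negSucc 32079, .ofNat 29699, .ofNat 17, .negSucc 40713, .negSucc 12861, .negSucc 7271, .negSucc 22461, .ofNat 66181, .ofNat 7976, .negSucc 15295, .ofNat 2039, .ofNat 5278, .negSucc 44837, .ofNat 32365, .negSucc 19098, .ofNat 13847, .ofNat 19056, .ofNat 146980],
    [.negSucc 27882, .negSucc 74490, .negSucc 53012, .negSucc 63447, .ofNat 15772, .ofNat 45666, .negSucc 11457, .ofNat 51827, .negSucc 5668, .negSucc 6243, .ofNat 15530, .negSucc 1851, .negSucc 8296, .negSucc 25678, .ofNat 3606, .ofNat 28873, .negSucc 4023, .negSucc 25246, .ofNat 34392, .ofNat 21366, .ofNat 80963, .ofNat 124080],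
    [.ofNat 9521, .negSucc 108082, .negSucc 90925, .negSucc 8642, .negSucc 88667, .negSucc 25847, .ofNat 83295, .ofNat 24478, .ofNat 31330, .ofNat 7244, .negSucc 93092, .negSucc 6214, .ofNat 86427, .negSucc 15318, .ofNat 11942, .ofNat 47799, .negSucc 80919, .ofNat 29389, .negSucc 24211, .ofNat 5374, .negSucc 53037, .ofNat 61294, .ofNat 165689],
    [.ofNat 12392, .ofNat 8558, .negSucc 5319, .ofNat 23742, .negSucc 57145, .negSucc 29106, .negSucc 80222, .ofNat 22439, .negSucc 56453, .negSucc 56369, .negSucc 16458, .ofNat 26644, .negSucc 10062, .ofNat 99336, .ofNat 31496, .negSucc 429, .ofNat 35365, .ofNat 32657, .ofNat 42372, .ofNat 8993, .negSucc 4241, .negSucc 6912, .negSucc 22117, .ofNat 104070],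
    [.negSucc 2202, .negSucc 4583, .negSucc 53270, .negSucc 11950, .negSucc 55148, .negSucc 77890, .negSucc 68381, .ofNat 17990, .negSucc 4348, .negSucc 89166, .ofNat 15127, .negSucc 58169, .ofNat 7121, .ofNat 32446, .ofNat 87617, .ofNat 28971, .ofNat 6867, .ofNat 39477, .ofNat 99724, .ofNat 22293, .ofNat 40788, .ofNat 40034, .ofNat 13993, .ofNat 82782, .ofNat 129468],
    [.ofNat 19831, .ofNat 41927, .ofNat 9373, .negSucc 51207, .negSucc 15381, .negSucc 46662, .negSucc 52260, .ofNat 36383, .ofNat 59341, .ofNat 65883, .negSucc 27634, .negSucc 85686, .negSucc 98259, .negSucc 54405, .negSucc 30482, .ofNat 28750, .negSucc 74314, .negSucc 96618, .ofNat 12195, .ofNat 8155, .ofNat 29849, .ofNat 20080, .ofNat 39875, .ofNat 46226, .ofNat 94838, .ofNat 161363],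
    [.negSucc 81816, .negSucc 32237, .ofNat 38088, .ofNat 56313, .ofNat 25862, .ofNat 88824, .negSucc 17368, .ofNat 13879, .negSucc 108800, .negSucc 42566, .ofNat 24204, .ofNat 33900, .negSucc 50131, .negSucc 47194, .negSucc 111184, .negSucc 87342, .ofNat 54403, .negSucc 37523, .ofNat 7956, .ofNat 88398, .ofNat 111427, .ofNat 111705, .negSucc 32072, .ofNat 68069, .negSucc 45187, .negSucc 8299, .ofNat 167620],
    [.ofNat 73390, .ofNat 19302, .negSucc 72236, .negSucc 2032, .negSucc 1010, .negSucc 38166, .ofNat 68385, .negSucc 26891, .ofNat 3231, .negSucc 73143, .negSucc 99145, .negSucc 85474, .ofNat 20770, .negSucc 85214, .negSucc 27181, .negSucc 50906, .negSucc 47529, .ofNat 75531, .ofNat 17497, .ofNat 121871, .negSucc 27909, .negSucc 3011, .ofNat 135606, .ofNat 46909, .ofNat 86830, .negSucc 7290, .ofNat 54960, .ofNat 197606],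
    [.negSucc 66628, .negSucc 13488, .ofNat 42084, .ofNat 22710, .negSucc 1402, .ofNat 46460, .ofNat 22150, .negSucc 1147, .ofNat 710, .ofNat 80936, .negSucc 72232, .negSucc 62822, .negSucc 52335, .negSucc 78426, .negSucc 40562, .ofNat 51817, .negSucc 19500, .ofNat 58702, .ofNat 101188, .ofNat 7680, .negSucc 75671, .negSucc 81648, .negSucc 63952, .negSucc 345, .ofNat 32937, .ofNat 79653, .ofNat 14333, .ofNat 76504, .ofNat 213079],
    [.ofNat 44742, .ofNat 7552, .negSucc 34617, .negSucc 48260, .ofNat 84470, .ofNat 88350, .ofNat 17115, .ofNat 112121, .ofNat 37495, .negSucc 60564, .ofNat 88975, .ofNat 78063, .ofNat 38340, .ofNat 17441, .negSucc 33933, .negSucc 17721, .ofNat 25263, .negSucc 3125, .ofNat 45051, .ofNat 53340, .ofNat 28895, .negSucc 7069, .negSucc 28790, .negSucc 54012, .negSucc 79505, .negSucc 84592, .ofNat 1789, .ofNat 7831, .ofNat 82204, .ofNat 212432],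
    [.ofNat 55780, .ofNat 40121, .ofNat 68902, .negSucc 65002, .negSucc 39123, .ofNat 5063, .negSucc 70730, .ofNat 84457, .negSucc 80806, .negSucc 106998, .negSucc 17979, .ofNat 74137, .negSucc 22258, .ofNat 112220, .negSucc 46389, .negSucc 47299, .negSucc 147, .negSucc 50662, .ofNat 19190, .ofNat 48304, .negSucc 68832, .ofNat 16599, .negSucc 39603, .ofNat 128622, .negSucc 35330, .negSucc 47652, .ofNat 90553, .negSucc 11201, .negSucc 18889, .ofNat 47299, .ofNat 209144],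
    [.negSucc 76951, .ofNat 3601, .negSucc 40226, .ofNat 84079, .ofNat 12021, .negSucc 82116, .ofNat 24026, .negSucc 22418, .ofNat 66150, .negSucc 47542, .ofNat 62356, .negSucc 78901, .ofNat 48233, .negSucc 58975, .ofNat 85283, .negSucc 12690, .negSucc 140412, .negSucc 48414, .negSucc 26866, .negSucc 1474, .negSucc 6585, .negSucc 129609, .negSucc 24214, .negSucc 48072, .ofNat 109481, .ofNat 1475, .negSucc 68090, .ofNat 72431, .ofNat 26867, .ofNat 12695, .ofNat 55287, .ofNat 219851],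
    [.ofNat 28191, .negSucc 44330, .ofNat 12794, .negSucc 7419, .negSucc 93773, .negSucc 9572, .negSucc 36247, .negSucc 80253, .negSucc 64410, .negSucc 7285, .ofNat 27947, .ofNat 106378, .ofNat 77973, .negSucc 50956, .negSucc 36996, .ofNat 78351, .negSucc 49605, .negSucc 28131, .negSucc 8697, .ofNat 76485, .negSucc 8209, .ofNat 34277, .ofNat 35964, .negSucc 66895, .negSucc 21978, .ofNat 121568, .negSucc 107745, .negSucc 56564, .ofNat 58357, .ofNat 21548, .ofNat 6001, .ofNat 58570, .ofNat 214153],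
    [.negSucc 55809, .ofNat 21352, .negSucc 1179, .ofNat 64945, .negSucc 66503, .negSucc 67647, .negSucc 44667, .ofNat 20752, .ofNat 10578, .negSucc 11953, .negSucc 55545, .negSucc 12487, .negSucc 359, .ofNat 54003, .ofNat 32354, .negSucc 77521, .negSucc 10944, .ofNat 11478, .negSucc 22663, .negSucc 12481, .ofNat 21228, .negSucc 11873, .ofNat 44456, .ofNat 31411, .ofNat 54885, .ofNat 54638, .negSucc 77337, .negSucc 9665, .ofNat 33234, .ofNat 98787, .negSucc 122013, .negSucc 43151, .ofNat 45584, .ofNat 232009],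
    [.negSucc 31613, .negSucc 62982, .negSucc 94352, .negSucc 47298, .ofNat 123, .negSucc 94719, .negSucc 15561, .negSucc 62615, .ofNat 15807, .negSucc 15561, .negSucc 31246, .negSucc 63094, .negSucc 47665, .negSucc 62794, .negSucc 47665, .negSucc 16296, .ofNat 31124, .ofNat 15440, .negSucc 78177, .negSucc 109546, .negSucc 62615, .negSucc 62615, .ofNat 15807, .negSucc 93984, .negSucc 16293, .negSucc 15561, .ofNat 31124, .ofNat 78178, .ofNat 46809, .negSucc 46808, .negSucc 31613, .ofNat 78178, .ofNat 109547, .ofNat 78178, .ofNat 244826]]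

theorem cls6_ok : check cls6 = true := by decide +kernel

end Pool.Agent.V1197.ZN
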