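import Pool.Agent.V1197.ZN.Cert

namespace Pool.Agent.V1197.ZN

def cls7 : Cls where
  chi := [.ofNat 1, .ofNat 1, .ofNat 1, .ofNat 1, .ofNat 1, .ofNat 1, .ofNat 1, .ofNat 1, .ofNat 1, .ofNat 1, .ofNat 1, .ofNat 1, .ofNat 1, .ofNat 1, .ofNat 1, .ofNat 1, .ofNat 1, .ofNat 1, .negSucc 0, .negSucc 0, .ofNat 1, .ofNat 1, .ofNat 1, .ofNat 1, .ofNat 1, .ofNat 1, .ofNat 1, .ofNat 1, .ofNat 1, .negSucc 0, .ofNat 1, .ofNat 1, .ofNat 1, .negSucc 0, .ofNat 1]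
  mu := [.ofNat 300, .ofNat 300, .ofNat 300, .ofNat 299, .ofNat 300, .ofNat 300, .ofNat 300, .ofNat 300, .ofNat 300, .ofNat 300, .ofNat 300, .ofNat 300, .ofNat 300, .ofNat 238, .negSucc 293, .negSucc 299, .negSucc 299, .negSucc 299, .negSucc 299, .negSucc 299, .negSucc 299, .negSucc 299, .negSucc 299, .negSucc 299, .negSucc 299, .ofNat 300, .ofNat 300, .ofNat 300, .ofNat 300, .ofNat 300, .ofNat 300, .ofNat 300, .ofNat 300, .negSucc 250, .ofNat 300, .ofNat 300, .negSucc 299, .negSucc 299, .negSucc 299, .ofNat 300, .negSucc 285, .negSucc 299, .negSucc 299, .ofNat 300, .ofNat 29, .negSucc 299, .negSucc 299, .negSucc 80, .negSucc 299, .negSucc 299, .negSucc 299, .negSucc 299, .negSucc 299, .negSucc 299, .ofNat 300, .negSucc 299, .negSucc 299, .negSucc 299, .ofNat 300, .ofNat 300, .ofNat 300, .ofNat 300, .negSucc 299, .ofNat 300, .ofNat 300, .ofNat 300, .negSucc 299,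 .ofNat 214, .negSucc 299, .ofNat 300, .negSucc 299, .ofNat 300, .ofNat 300, .ofNat 300, .negSucc 299, .ofNat 300, .negSucc 299, .negSucc 299, .negSucc 299, .ofNat 300, .negSucc 299, .negSucc 299, .ofNat 300, .negSucc 299, .negSucc 299, .ofNat 300, .ofNat 300, .ofNat 300, .negSucc 299, .ofNat 300, .ofNat 300, .ofNat 300, .ofNat 300, .negSucc 299, .negSucc 299, .ofNat 300, .negSucc 299, .negSucc 299, .ofNat 300, .ofNat 300, .negSucc 299, .negSucc 299, .ofNat 300, .ofNat 300, .ofNat 300]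
  om := [.negSucc 596, .ofNat 300, .ofNat 300, .negSucc 299, .ofNat 297, .ofNat 300, .negSucc 299]
  kap := 3200
  s := 10000
  del := 1200000
  eta := 52008
  L := [
    [.ofNat 0, .ofNat 0, .ofNat 1, .negSucc 0, .ofNat 0, .ofNat 1, .negSucc 0, .ofNat 1, .negSucc 0, .ofNat 0, .ofNat 0, .ofNat 1, .negSucc 0, .ofNat 1, .negSucc 0, .ofNat 0, .ofNat 1, .negSucc 0, .ofNat 0, .ofNat 0, .ofNat 0, .ofNat 1, .negSucc 0, .ofNat 1, .negSucc 0, .ofNat 0, .ofNat 1, .negSucc 0, .ofNat 0, .ofNat 0, .ofNat 1, .negSucc 0],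
    [.ofNat 0, .negSucc 0, .ofNat 0, .ofNat 1, .negSucc 0, .ofNat 0, .ofNat 1, .ofNat 1, .ofNat 0, .negSucc 0, .negSucc 0, .ofNat 0, .ofNat 1, .ofNat 1, .ofNat 0, .negSucc 0, .negSucc 0, .ofNat 0, .negSucc 0, .ofNat 0, .negSucc 0, .ofNat 0, .ofNat 1, .ofNat 1, .ofNat 0, .negSucc 0, .ofNat 1, .ofNat 0, .negSucc 0, .ofNat 0, .ofNat 1, .ofNat 0, .negSucc 0],
    [.ofNat 1, .ofNat 0, .ofNat 0, .negSucc 0, .negSucc 0, .negSucc 0, .ofNat 0, .ofNat 0, .ofNat 1, .ofNat 1, .negSucc 0, .negSucc 0, .ofNat 0, .ofNat 0, .ofNat 1, .ofNat 1, .negSucc 0, .ofNat 0, .ofNat 0, .negSucc 0, .negSucc 0, .negSucc 0, .ofNat 0, .ofNat 0, .ofNat 1, .ofNat 1, .negSucc 0, .ofNat 0, .ofNat 0, .negSucc 0, .negSucc 0, .ofNat 0, .ofNat 0, .negSucc 0],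
    [.ofNat 1, .ofNat 1, .ofNat 1, .ofNat 0, .ofNat 0, .ofNat 0, .negSucc 0, .ofNat 0, .negSucc 0, .negSucc 0, .negSucc 0, .ofNat 1, .ofNat 0, .ofNat 1, .ofNat 0, .ofNat 0, .ofNat 0, .ofNat 1, .ofNat 1, .ofNat 1, .negSucc 0, .negSucc 0, .ofNat 0, .ofNat 1, .ofNat 0, .ofNat 0, .ofNat 0, .ofNat 1, .ofNat 1, .ofNat 1, .ofNat 1, .ofNat 0, .ofNat 0, .ofNat 0, .negSucc 0],
    [.ofNat 1, .ofNat 1, .ofNat 1, .ofNat 0, .ofNat 1, .negSucc 0, .ofNat 0, .negSucc 0, .ofNat 0, .ofNat 0, .ofNat 0, .ofNat 0, .negSucc 0, .ofNat 0, .negSucc 0, .negSucc 0, .ofNat 0, .negSucc 0, .negSucc 0, .negSucc 0, .negSucc 0, .negSucc 0, .ofNat 0, .ofNat 1, .ofNat 0, .ofNat 0, .negSucc 0, .ofNat 0, .ofNat 0, .ofNat 0, .ofNat 0, .ofNat 1, .ofNat 1, .ofNat 1, .ofNat 1],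
    [.ofNat 1, .ofNat 1, .ofNat 1, .ofNat 0, .ofNat 1, .ofNat 1, .ofNat 0, .negSucc 0, .ofNat 0, .ofNat 0, .ofNat 1, .ofNat 1, .ofNat 0, .negSucc 0, .ofNat 0, .ofNat 0, .ofNat 1, .ofNat 0, .ofNat 0, .ofNat 0, .ofNat 0, .ofNat 0, .negSucc 0, .ofNat 0, .negSucc 0, .negSucc 0, .ofNat 0, .negSucc 0, .negSucc 0, .negSucc 0, .ofNat 0, .negSucc 0, .negSucc 0, .negSucc 0, .negSucc 0],
    [.ofNat 0, .ofNat 1, .negSucc 0, .ofNat 0, .ofNat 1, .negSucc 0, .ofNat 0, .ofNat 0, .ofNat 1, .negSucc 0, .ofNat 1, .negSucc 0, .ofNat 0, .ofNat 0, .ofNat 1, .negSucc 0, .ofNat 0, .negSucc 0, .negSucc 0, .ofNat 0, .ofNat 1, .negSucc 0, .ofNat 0, .ofNat 0, .ofNat 1, .negSucc 0, .ofNat 0, .ofNat 1, .negSucc 0, .ofNat 0, .ofNat 0, .ofNat 1, .negSucc 0],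
    [.negSucc 0, .ofNat 0, .ofNat 1, .ofNat 0, .ofNat 1, .ofNat 0, .negSucc 0, .negSucc 0, .ofNat 0, .ofNat 1, .ofNat 1, .ofNat 0, .negSucc 0, .negSucc 0, .ofNat 0, .ofNat 1, .ofNat 0, .negSucc 0, .ofNat 0, .negSucc 0, .ofNat 1, .ofNat 0, .negSucc 0, .negSucc 0, .ofNat 0, .ofNat 1, .ofNat 0, .negSucc 0, .ofNat 0, .negSucc 0, .ofNat 0, .negSucc 0, .ofNat 0, .negSucc 0],
    [.negSucc 0, .negSucc 0, .ofNat 0, .ofNat 1, .ofNat 0, .ofNat 1, .ofNat 0, .ofNat 1, .ofNat 0, .negSucc 0, .ofNat 1, .ofNat 0, .ofNat 1, .ofNat 0, .ofNat 1, .ofNat 0, .negSucc 0, .ofNat 0, .ofNat 1, .ofNat 1, .ofNat 1, .ofNat 0, .negSucc 0, .ofNat 0, .ofNat 1, .ofNat 0, .negSucc 0, .ofNat 0, .ofNat 1, .ofNat 1, .ofNat 0, .ofNat 1, .ofNat 0, .ofNat 0, .negSucc 0],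
    [.negSucc 0, .negSucc 0, .ofNat 0, .ofNat 1, .negSucc 0, .ofNat 0, .negSucc 0, .ofNat 0, .negSucc 0, .ofNat 0, .ofNat 0, .ofNat 1, .ofNat 0, .ofNat 1, .ofNat 0, .negSucc 0, .ofNat 1, .ofNat 0, .negSucc 0, .negSucc 0, .ofNat 1, .ofNat 0, .negSucc 0, .ofNat 0, .ofNat 1, .ofNat 0, .ofNat 0, .negSucc 0, .ofNat 0, .ofNat 0, .negSucc 0, .ofNat 0, .ofNat 1, .ofNat 1, .ofNat 1],
    [.negSucc 0, .negSucc 0, .ofNat 0, .ofNat 1, .negSucc 0, .ofNat 0, .ofNat 1, .ofNat 0, .negSucc 0, .ofNat 0, .negSucc 0, .ofNat 0, .ofNat 1, .ofNat 0, .negSucc 0, .ofNat 0, .ofNat 0, .ofNat 1, .ofNat 0, .ofNat 0, .ofNat 0, .ofNat 1, .ofNat 0, .ofNat 1, .ofNat 0, .negSucc 0, .ofNat 1, .ofNat 0, .negSucc 0, .negSucc 0, .ofNat 1, .ofNat 0, .negSucc 0, .negSucc 0, .negSucc 0],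
    [.ofNat 1, .negSucc 0, .ofNat 0, .ofNat 0, .ofNat 0, .ofNat 1, .ofNat 1, .negSucc 0, .negSucc 0, .ofNat 0, .ofNat 0, .ofNat 1, .ofNat 1, .negSucc 0, .negSucc 0, .ofNat 0, .ofNat 0, .ofNat 0, .negSucc 0, .ofNat 1, .ofNat 0, .ofNat 1, .ofNat 1, .negSucc 0, .negSucc 0, .ofNat 0, .ofNat 0, .ofNat 0, .negSucc 0, .negSucc 0, .ofNat 0, .ofNat 0, .negSucc 0, .negSucc 0],
    [.ofNat 1, .ofNat 0, .negSucc 0, .negSucc 0, .negSucc 0, .ofNat 0, .ofNat 0, .ofNat 1, .ofNat 1, .ofNat 0, .ofNat 0, .ofNat 1, .ofNat 1, .ofNat 0, .ofNat 0, .ofNat 1, .negSucc 0, .negSucc 0, .ofNat 0, .ofNat 1, .ofNat 0, .ofNat 1, .ofNat 1, .ofNat 0, .ofNat 0, .ofNat 1, .negSucc 0, .negSucc 0, .ofNat 0, .ofNat 1, .ofNat 0, .ofNat 0, .ofNat 1, .ofNat 0, .negSucc 0],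
    [.ofNat 1, .ofNat 0, .negSucc 0, .negSucc 0, .ofNat 0, .negSucc 0, .negSucc 0, .ofNat 0, .ofNat 0, .negSucc 0, .negSucc 0, .ofNat 0, .ofNat 0, .ofNat 1, .ofNat 1, .ofNat 0, .ofNat 1, .ofNat 1, .ofNat 0, .negSucc 0, .ofNat 0, .ofNat 1, .ofNat 1, .ofNat 0, .ofNat 0, .ofNat 1, .ofNat 0, .ofNat 0, .negSucc 0, .ofNat 0, .negSucc 0, .negSucc 0, .ofNat 0, .ofNat 1, .ofNat 1],
    [.ofNat 1, .ofNat 0, .negSucc 0, .negSucc 0, .ofNat 0, .negSucc 0, .negSucc 0, .ofNat 0, .ofNat 0, .negSucc 0, .ofNat 0, .negSucc 0, .negSucc 0, .ofNat 0, .ofNat 0, .negSucc 0, .ofNat 0, .ofNat 0, .ofNat 1, .ofNat 0, .negSucc 0, .ofNat 0, .ofNat 0, .ofNat 1, .ofNat 1, .ofNat 0, .ofNat 1, .ofNat 1, .ofNat 0, .negSucc 0, .ofNat 1, .ofNat 1, .ofNat 0, .negSucc 0, .ofNat 1],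
    [.ofNat 0, .ofNat 1, .ofNat 1, .ofNat 1, .negSucc 0, .negSucc 0, .negSucc 0, .ofNat 0, .ofNat 0, .ofNat 0, .ofNat 0, .ofNat 0, .ofNat 0, .ofNat 1, .ofNat 1, .negSucc 0, .negSucc 0, .negSucc 0, .negSucc 0, .ofNat 0, .ofNat 0, .ofNat 0, .ofNat 0, .ofNat 1, .ofNat 1, .ofNat 1, .negSucc 0, .negSucc 0, .negSucc 0, .ofNat 0, .ofNat 0, .ofNat 0, .ofNat 0, .ofNat 1, .ofNat 1],
    [.ofNat 0, .ofNat 1, .ofNat 1, .ofNat 1, .ofNat 0, .ofNat 0, .ofNat 0, .negSucc 0, .negSucc 0, .ofNat 1, .negSucc 0, .negSucc 0, .negSucc 0, .ofNat 0, .ofNat 0, .ofNat 0, .ofNat 1, .ofNat 1, .ofNat 1, .ofNat 0, .ofNat 0, .ofNat 0, .ofNat 0, .ofNat 1, .ofNat 1, .ofNat 1, .ofNat 0, .ofNat 0, .ofNat 0, .negSucc 0, .negSucc 0, .negSucc 0, .negSucc 0, .ofNat 0, .negSucc 0],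
    [.ofNat 0, .ofNat 1, .ofNat 1, .ofNat 1, .ofNat 0, .ofNat 0, .ofNat 0, .negSucc 0, .negSucc 0, .negSucc 0, .ofNat 0, .ofNat 0, .ofNat 0, .negSucc 0, .negSucc 0, .negSucc 0, .ofNat 0, .ofNat 0, .ofNat 0, .ofNat 1, .negSucc 0, .negSucc 0, .negSucc 0, .ofNat 0, .ofNat 0, .ofNat 0, .ofNat 1, .ofNat 1, .ofNat 1, .ofNat 0, .ofNat 1, .ofNat 1, .ofNat 1, .ofNat 0, .ofNat 1],
    [.ofNat 0, .ofNat 0, .ofNat 0, .ofNat 0, .ofNat 1, .ofNat 1, .ofNat 1, .ofNat 1, .ofNat 1, .ofNat 1, .negSucc 0, .negSucc 0, .negSucc 0, .negSucc 0, .negSucc 0, .negSucc 0, .ofNat 0, .ofNat 0, .ofNat 0, .ofNat 0, .ofNat 0, .ofNat 0, .ofNat 0, .ofNat 0, .ofNat 0, .ofNat 0, .ofNat 1, .ofNat 1, .ofNat 1, .negSucc 0, .negSucc 0, .negSucc 0, .negSucc 0, .ofNat 1, .ofNat 0],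
    [.ofNat 0, .ofNat 0, .ofNat 0, .ofNat 0, .ofNat 1, .ofNat 1, .ofNat 1, .ofNat 1, .ofNat 1, .ofNat 1, .ofNat 0, .ofNat 0, .ofNat 0, .ofNat 0, .ofNat 0, .ofNat 0, .negSucc 0, .negSucc 0, .negSucc 0, .ofNat 1, .negSucc 0, .negSucc 0, .negSucc 0, .negSucc 0, .negSucc 0, .negSucc 0, .ofNat 0, .ofNat 0, .ofNat 0, .ofNat 0, .ofNat 1, .ofNat 1, .negSucc 0, .negSucc 0, .ofNat 0],
    [.ofNat 0, .ofNat 0, .ofNat 0, .ofNat 0, .ofNat 0, .ofNat 0, .ofNat 0, .ofNat 0, .ofNat 0, .ofNat 0, .ofNat 1, .ofNat 1, .ofNat 1, .ofNat 1, .ofNat 1, .ofNat 1, .ofNat 1, .ofNat 1, .ofNat 1, .negSucc 0, .negSucc 0, .negSucc 0, .negSucc 0, .negSucc 0, .negSucc 0, .negSucc 0, .negSucc 0, .negSucc 0, .ofNat 1, .ofNat 1, .ofNat 0, .ofNat 0, .ofNat 0, .ofNat 0, .ofNat 0],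
    [.ofNat 0, .ofNat 0, .negSucc 0, .ofNat 1, .ofNat 0, .negSucc 0, .ofNat 1, .negSucc 0, .ofNat 1, .ofNat 0, .ofNat 0, .negSucc 0, .ofNat 1, .negSucc 0, .ofNat 1, .ofNat 0, .negSucc 0, .ofNat 1, .ofNat 0, .ofNat 0, .ofNat 0, .negSucc 0, .ofNat 1, .negSucc 0, .ofNat 1, .ofNat 0, .negSucc 0, .ofNat 1, .ofNat 0, .ofNat 0, .negSucc 0, .ofNat 1],
    [.ofNat 0, .negSucc 0, .ofNat 0, .ofNat 1, .negSucc 0, .ofNat 0, .ofNat 1, .negSucc 0, .ofNat 0, .ofNat 1, .negSucc 0, .ofNat 0, .ofNat 1, .negSucc 0, .ofNat 0, .ofNat 1, .negSucc 0, .ofNat 0, .negSucc 0, .ofNat 0, .negSucc 0, .ofNat 0, .ofNat 1, .negSucc 0, .ofNat 0, .ofNat 1, .negSucc 0, .ofNat 0, .ofNat 1, .ofNat 0, .negSucc 0, .ofNat 0, .ofNat 1],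
    [.negSucc 0, .ofNat 0, .ofNat 0, .ofNat 1, .negSucc 0, .negSucc 0, .ofNat 0, .ofNat 0, .ofNat 1, .ofNat 1, .negSucc 0, .negSucc 0, .ofNat 0, .ofNat 0, .ofNat 1, .ofNat 1, .negSucc 0, .ofNat 0, .ofNat 0, .negSucc 0, .negSucc 0, .negSucc 0, .ofNat 0, .ofNat 0, .ofNat 1, .ofNat 1, .negSucc 0, .ofNat 0, .ofNat 0, .negSucc 0, .negSucc 0, .ofNat 0, .ofNat 0, .negSucc 0],
    [.negSucc 0, .negSucc 0, .negSucc 0, .ofNat 0, .ofNat 0, .ofNat 0, .ofNat 1, .ofNat 0, .ofNat 1, .ofNat 1, .negSucc 0, .negSucc 0, .ofNat 0, .negSucc 0, .ofNat 0, .ofNat 0, .ofNat 0, .ofNat 1, .negSucc 0, .negSucc 0, .negSucc 0, .negSucc 0, .ofNat 0, .negSucc 0, .ofNat 0, .ofNat 0, .ofNat 0, .ofNat 1, .ofNat 1, .negSucc 0, .negSucc 0, .ofNat 0, .ofNat 0, .ofNat 0, .ofNat 1],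
    [.negSucc 0, .negSucc 0, .negSucc 0, .ofNat 0, .negSucc 0, .negSucc 0, .ofNat 0, .negSucc 0, .ofNat 0, .ofNat 0, .ofNat 0, .ofNat 0, .ofNat 1, .ofNat 0, .ofNat 1, .ofNat 1, .ofNat 0, .ofNat 1, .negSucc 0, .negSucc 0, .negSucc 0, .negSucc 0, .ofNat 0, .negSucc 0, .ofNat 0, .ofNat 0, .negSucc 0, .ofNat 0, .ofNat 0, .ofNat 0, .ofNat 0, .ofNat 1, .ofNat 1, .negSucc 0, .ofNat 1],
    [.negSucc 0, .negSucc 0, .negSucc 0, .ofNat 0, .negSucc 0, .negSucc 0, .ofNat 0, .negSucc 0, .ofNat 0, .ofNat 0, .negSucc 0, .negSucc 0, .ofNat 0, .negSucc 0, .ofNat 0, .ofNat 0, .negSucc 0, .ofNat 0, .ofNat 0, .ofNat 0, .ofNat 0, .ofNat 0, .ofNat 1, .ofNat 0, .ofNat 1, .ofNat 1, .ofNat 0, .ofNat 1, .ofNat 1, .negSucc 0, .ofNat 0, .ofNat 1, .ofNat 1, .negSucc 0, .ofNat 1]]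
  U := [
    [.ofNat 7512],
    [.negSucc 7499, .ofNat 5385],
    [.negSucc 4079, .negSucc 5604, .ofNat 7049],
    [.negSucc 8676, .negSucc 3332, .negSucc 114, .ofNat 13452],
    [.ofNat 477, .negSucc 3572, .negSucc 4702, .negSucc 4829, .ofNat 8868],
    [.negSucc 2592, .negSucc 6345, .negSucc 2457, .negSucc 1098, .negSucc 3061, .ofNat 8872],
    [.negSucc 2922, .negSucc 3524, .negSucc 2669, .ofNat 1208, .negSucc 3807, .negSucc 1380, .ofNat 10172],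
    [.negSucc 1496, .negSucc 4571, .negSucc 3396, .negSucc 3113, .negSucc 1410, .ofNat 3349, .ofNat 854, .ofNat 12054],
    [.ofNat 2072, .ofNat 70, .negSucc 8382, .negSucc 8212, .negSucc 380, .negSucc 2365, .negSucc 1582, .ofNat 6800, .ofNat 13170],
    [.negSucc 3915, .negSucc 1337, .negSucc 1080, .ofNat 656, .negSucc 3923, .negSucc 1562, .negSucc 388, .negSucc 436, .negSucc 1434, .ofNat 10869],
    [.ofNat 1569, .ofNat 839, .negSucc 582, .negSucc 1401, .ofNat 912, .negSucc 1472, .negSucc 2736, .negSucc 1887, .negSucc 976, .negSucc 4423, .ofNat 11043],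
    [.ofNat 3460, .negSucc 1147, .ofNat 1286, .negSucc 570, .negSucc 1770, .ofNat 306, .negSucc 4785, .negSucc 2046, .negSucc 4386, .negSucc 4470, .negSucc 345, .ofNat 11577],
    [.negSucc 2410, .negSucc 4072, .negSucc 904, .ofNat 4471, .negSucc 6618, .negSucc 700, .ofNat 1679, .negSucc 1339, .negSucc 3114, .negSucc 4254, .negSucc 1311, .ofNat 2319, .ofNat 13197],
    [.negSucc 787, .negSucc 3829, .negSucc 1442, .negSucc 1821, .negSucc 4059, .negSucc 55, .negSucc 2442, .ofNat 6260, .negSucc 1624, .ofNat 600, .negSucc 4195, .ofNat 2419, .ofNat 301, .ofNat 12640],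
    [.negSucc 211, .negSucc 62, .negSucc 5094, .negSucc 3018, .negSucc 2107, .negSucc 2985, .negSucc 4634, .ofNat 3062, .ofNat 2928, .negSucc 4606, .ofNat 295, .negSucc 2463, .ofNat 1098, .ofNat 3395, .ofNat 13095],
    [.negSucc 3251, .negSucc 970, .negSucc 2174, .negSucc 3080, .negSucc 2681, .negSucc 2458, .negSucc 715, .ofNat 1489, .ofNat 565, .ofNat 2090, .negSucc 1991, .negSucc 2245, .negSucc 670, .ofNat 1573, .ofNat 656, .ofNat 10939],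
    [.ofNat 4961, .ofNat 4879, .ofNat 77, .negSucc 3976, .ofNat 3498, .negSucc 1511, .negSucc 5462, .negSucc 6832, .negSucc 6404, .negSucc 2617, .ofNat 2291, .ofNat 2688, .negSucc 4257, .ofNat 662, .negSucc 2282, .negSucc 1692, .ofNat 14434],
    [.negSucc 5010, .negSucc 4726, .ofNat 68, .ofNat 6849, .negSucc 6469, .negSucc 364, .ofNat 131, .negSucc 5696, .negSucc 9639, .negSucc 3093, .negSucc 4665, .ofNat 2951, .ofNat 6468, .ofNat 2445, .ofNat 1300, .ofNat 591, .ofNat 4851, .ofNat 17907],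
    [.ofNat 5063, .ofNat 5187, .negSucc 1012, .negSucc 3995, .ofNat 3223, .negSucc 2141, .negSucc 4022, .negSucc 2879, .negSucc 1027, .negSucc 3473, .ofNat 4481, .negSucc 988, .negSucc 1914, .ofNat 1062, .ofNat 3537, .ofNat 2069, .ofNat 5662, .ofNat 6825, .ofNat 17240],
    [.ofNat 4796, .ofNat 3963, .ofNat 4130, .ofNat 3662, .ofNat 128, .ofNat 6436, .ofNat 2560, .negSucc 160, .negSucc 1179, .negSucc 186, .ofNat 851, .ofNat 3557, .ofNat 1945, .negSucc 3865, .negSucc 2291, .negSucc 3986, .negSucc 3246, .negSucc 3602, .negSucc 2439, .ofNat 14953],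
    [.negSucc 4249, .ofNat 2350, .ofNat 820, .negSucc 1445, .ofNat 6744, .ofNat 359, .negSucc 3872, .negSucc 2952, .negSucc 326, .negSucc 1387, .ofNat 8232, .negSucc 454, .negSucc 4596, .negSucc 3438, .negSucc 592, .negSucc 2060, .ofNat 2119, .negSucc 5365, .ofNat 837, .ofNat 697, .ofNat 15800],
    [.negSucc 2270, .negSucc 8151, .negSucc 5213, .negSucc 2413, .negSucc 1529, .ofNat 4703, .negSucc 374, .ofNat 3086, .negSucc 3658, .negSucc 3059, .ofNat 2657, .ofNat 2461, .ofNat 2356, .negSucc 1562, .negSucc 3011, .negSucc 537, .ofNat 1609, .negSucc 395, .ofNat 3124, .ofNat 4171, .ofNat 8477, .ofNat 15118],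
    [.ofNat 2168, .negSucc 8785, .negSucc 8141, .negSucc 387, .negSucc 8444, .negSucc 2633, .ofNat 7414, .ofNat 660, .ofNat 1724, .negSucc 648, .negSucc 7836, .negSucc 452, .ofNat 8069, .negSucc 492, .negSucc 1181, .ofNat 1628, .negSucc 6026, .ofNat 3184, .negSucc 3065, .ofNat 1482, .negSucc 3426, .ofNat 6070, .ofNat 18410],
    [.ofNat 5877, .ofNat 4557, .ofNat 4523, .negSucc 2041, .negSucc 3433, .negSucc 3584, .negSucc 3316, .ofNat 1772, .negSucc 3557, .negSucc 2198, .negSucc 6356, .negSucc 8, .negSucc 4374, .ofNat 7277, .negSucc 2090, .negSucc 2977, .ofNat 2501, .ofNat 1278, .ofNat 3581, .negSucc 2476, .negSucc 6968, .negSucc 410, .ofNat 449, .ofNat 15388],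
    [.negSucc 6382, .ofNat 789, .negSucc 451, .ofNat 5436, .negSucc 6114, .negSucc 7036, .negSucc 7596, .ofNat 2751, .negSucc 546, .negSucc 4507, .negSucc 98, .negSucc 5663, .negSucc 1777, .ofNat 6527, .ofNat 7746, .negSucc 4390, .negSucc 1582, .ofNat 1210, .ofNat 5117, .negSucc 3775, .ofNat 4522, .negSucc 3071, .negSucc 3537, .ofNat 8317, .ofNat 16978],
    [.ofNat 1964, .ofNat 1868, .ofNat 1067, .negSucc 1418, .negSucc 5245, .negSucc 3839, .negSucc 6288, .ofNat 1603, .negSucc 1208, .negSucc 281, .negSucc 5784, .negSucc 4563, .negSucc 3953, .ofNat 1563, .ofNat 1531, .ofNat 725, .negSucc 7143, .negSucc 4729, .ofNat 3707, .ofNat 5434, .ofNat 1833, .ofNat 5419, .ofNat 5317, .ofNat 5219, .ofNat 7390, .ofNat 16582],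
    [.negSucc 4246, .negSucc 5395, .negSucc 3455, .negSucc 593, .negSucc 77, .ofNat 5415, .ofNat 964, .ofNat 4041, .negSucc 4356, .negSucc 2880, .ofNat 435, .ofNat 275, .negSucc 1726, .negSucc 582, .negSucc 6383, .negSucc 4520, .ofNat 5653, .ofNat 924, .ofNat 892, .ofNat 2172, .ofNat 6104, .ofNat 6340, .negSucc 2033, .ofNat 402, .negSucc 1218, .negSucc 4787, .ofNat 15009],
    [.ofNat 3880, .ofNat 1877, .negSucc 6806, .negSucc 2867, .ofNat 1076, .negSucc 4994, .ofNat 2023, .negSucc 1671, .ofNat 1065, .negSucc 6070, .negSucc 7707, .negSucc 7550, .negSucc 1152, .negSucc 3807, .negSucc 1215, .negSucc 2793, .negSucc 1300, .ofNat 7146, .ofNat 3399, .ofNat 3832, .negSucc 1845, .negSucc 1087, .ofNat 9503, .ofNat 1991, .ofNat 3233, .ofNat 776, .ofNat 6073, .ofNat 18252],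
    [.negSucc 4671, .negSucc 1636, .ofNat 2284, .ofNat 1087, .ofNat 4181, .ofNat 6680, .ofNat 3160, .ofNat 2410, .ofNat 806, .ofNat 4712, .negSucc 3672, .negSucc 3761, .negSucc 4136, .negSucc 5552, .negSucc 3998, .ofNat 1007, .negSucc 89, .ofNat 4206, .ofNat 7482, .ofNat 2375, .negSucc 5444, .negSucc 6985, .negSucc 5870, .negSucc 3711, .negSucc 1460, .ofNat 139, .ofNat 3221, .ofNat 7868, .ofNat 20883],
    [.ofNat 1175, .negSucc 1055, .negSucc 4007, .negSucc 3658, .negSucc 51, .ofNat 1512, .negSucc 2123, .ofNat 5911, .ofNat 3111, .negSucc 3734, .ofNat 7228, .ofNat 7634, .ofNat 7686, .ofNat 8437, .ofNat 9914, .ofNat 7252, .ofNat 1012, .ofNat 1673, .ofNat 1768, .ofNat 653, .ofNat 614, .negSucc 1588, .negSucc 970, .negSucc 7353, .negSucc 5246, .negSucc 2940, .negSucc 6353, .negSucc 4692, .ofNat 737, .ofNat 15771],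
    [.ofNat 3420, .ofNat 3791, .ofNat 7582, .negSucc 4376, .ofNat 2694, .ofNat 5663, .negSucc 6277, .ofNat 5742, .negSucc 10202, .negSucc 10627, .ofNat 4551, .ofNat 10294, .negSucc 2968, .ofNat 7732, .negSucc 9901, .negSucc 6547, .ofNat 3609, .negSucc 5885, .ofNat 2715, .ofNat 8490, .negSucc 1609, .ofNat 5401, .negSucc 5560, .ofNat 9490, .negSucc 9576, .negSucc 8489, .ofNat 12018, .negSucc 2643, .negSucc 2443, .ofNat 6548, .ofNat 22137],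
    [.negSucc 694, .ofNat 103, .negSucc 6214, .ofNat 5725, .ofNat 759, .negSucc 3968, .ofNat 6374, .ofNat 1381, .ofNat 4196, .negSucc 8091, .ofNat 3631, .negSucc 4776, .ofNat 7082, .negSucc 578, .ofNat 3331, .negSucc 6761, .negSucc 9975, .negSucc 1286, .negSucc 2123, .ofNat 7986, .negSucc 2413, .negSucc 9391, .ofNat 1095, .ofNat 73, .ofNat 5712, .negSucc 7984, .negSucc 4056, .ofNat 9463, .ofNat 2125, .ofNat 6762, .ofNat 5894, .ofNat 21094],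
    [.negSucc 2119, .negSucc 2585, .negSucc 935, .negSucc 1007, .negSucc 8359, .negSucc 4545, .negSucc 5555, .negSucc 4493, .negSucc 2031, .negSucc 399, .ofNat 1203, .ofNat 4911, .ofNat 3777, .negSucc 1002, .ofNat 1115, .ofNat 8632, .negSucc 3896, .negSucc 666, .ofNat 2802, .negSucc 344, .negSucc 1330, .negSucc 1131, .ofNat 649, .negSucc 2514, .ofNat 2628, .ofNat 8529, .negSucc 9258, .negSucc 3287, .ofNat 9769, .ofNat 8326, .negSucc 1240, .ofNat 5074, .ofNat 21181],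
    [.ofNat 3428, .ofNat 6113, .ofNat 3802, .ofNat 1634, .ofNat 3404, .ofNat 2153, .negSucc 3386, .ofNat 6596, .negSucc 1713, .negSucc 3977, .ofNat 454, .ofNat 3778, .negSucc 3471, .ofNat 8533, .negSucc 1581, .negSucc 8468, .ofNat 5607, .negSucc 1183, .ofNat 391, .ofNat 259, .ofNat 6596, .ofNat 3778, .ofNat 1104, .ofNat 6222, .ofNat 730, .ofNat 730, .negSucc 27, .negSucc 2195, .ofNat 1128, .ofNat 10517, .negSucc 5024, .negSucc 5387, .ofNat 2559, .ofNat 22714],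
    [.negSucc 2825, .negSucc 2825, .negSucc 5565, .negSucc 1455, .negSucc 2696, .negSucc 11174, .negSucc 4067, .negSucc 5437, .ofNat 1413, .negSucc 1583, .negSucc 2696, .negSucc 5437, .negSucc 4324, .ofNat 43, .ofNat 1413, .negSucc 7064, .negSucc 85, .negSucc 1455, .negSucc 9504, .negSucc 9504, .negSucc 5437, .negSucc 5437, .ofNat 1413, .negSucc 2696, .ofNat 4153, .ofNat 4153, .negSucc 85, .ofNat 4025, .ofNat 1285, .negSucc 4024, .negSucc 2825, .ofNat 6765, .ofNat 9505, .ofNat 4196, .ofNat 23355]]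

theorem cls7_ok : check cls7 = true := by decide +kernel

end Pool.Agent.V1197.ZN
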