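import Pool.Agent.V1197.ZN.Cert

namespace Pool.Agent.V1197.ZN

def cls8 : Cls where
  chi := [.ofNat 1, .ofNat 1, .ofNat 1, .ofNat 1, .ofNat 1, .ofNat 1, .ofNat 1, .ofNat 1, .ofNat 1, .ofNat 1, .ofNat 1, .ofNat 1, .ofNat 1, .ofNat 1, .ofNat 1, .ofNat 1, .ofNat 1, .ofNat 1, .negSucc 0, .negSucc 0, .ofNat 1, .ofNat 1, .ofNat 1, .ofNat 1, .ofNat 1, .ofNat 1, .ofNat 1, .ofNat 1, .negSucc 0, .negSucc 0, .ofNat 1, .ofNat 1, .ofNat 1, .ofNat 1, .ofNat 1]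
  mu := [.ofNat 300, .ofNat 300, .ofNat 300, .ofNat 300, .negSucc 108, .ofNat 260, .ofNat 300, .ofNat 300, .ofNat 300, .ofNat 300, .ofNat 300, .ofNat 300, .ofNat 300, .ofNat 300, .negSucc 54, .negSucc 299, .negSucc 299, .negSucc 257, .negSucc 299, .ofNat 106, .negSucc 299, .negSucc 299, .negSucc 299, .negSucc 299, .negSucc 299, .negSucc 50, .ofNat 300, .ofNat 300, .ofNat 300, .ofNat 300, .ofNat 300, .ofNat 258, .ofNat 300, .negSucc 299, .ofNat 56, .ofNat 300, .ofNat 300, .ofNat 300, .negSucc 299, .negSucc 299, .negSucc 104, .ofNat 300, .negSucc 299, .negSucc 299, .ofNat 300, .negSucc 299, .negSucc 299, .negSucc 299, .negSucc 299, .negSucc 299, .ofNat 300, .negSucc 299, .negSucc 299, .ofNat 300, .ofNat 51, .ofNat 103, .negSucc 299, .ofNat 260, .negSucc 299, .negSucc 299, .ofNat 300, .ofNat 300, .negSucc 57, .ofNat 300, .ofNat 300, .ofNat 300, .negSucc 299, .negSucc 299,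 .ofNat 300, .negSucc 63, .ofNat 65, .negSucc 299, .ofNat 300, .ofNat 300, .ofNat 300, .ofNat 300, .negSucc 299, .negSucc 299, .negSucc 299, .negSucc 299, .negSucc 299, .ofNat 300, .negSucc 257, .ofNat 300, .negSucc 106, .negSucc 55, .negSucc 299, .ofNat 300, .ofNat 300, .negSucc 299, .ofNat 300, .ofNat 44, .ofNat 300, .negSucc 299, .ofNat 258, .ofNat 300, .ofNat 300, .ofNat 300, .negSucc 299, .ofNat 105, .ofNat 300, .ofNat 300, .negSucc 299, .negSucc 299, .ofNat 300]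
  om := [.ofNat 99, .ofNat 41, .ofNat 49, .ofNat 5, .negSucc 299, .ofNat 49, .ofNat 57]
  kap := 5
  s := 3000
  del := 144000
  eta := 6240
  L := [
    [.ofNat 0, .ofNat 0, .ofNat 1, .negSucc 0, .ofNat 0, .ofNat 1, .negSucc 0, .ofNat 1, .negSucc 0, .ofNat 0, .ofNat 0, .ofNat 1, .negSucc 0, .ofNat 1, .negSucc 0, .ofNat 0, .ofNat 1, .negSucc 0, .ofNat 0, .ofNat 0, .ofNat 0, .ofNat 1, .negSucc 0, .ofNat 1, .negSucc 0, .ofNat 0, .ofNat 1, .negSucc 0, .ofNat 0, .ofNat 0, .ofNat 1, .negSucc 0],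
    [.ofNat 0, .negSucc 0, .ofNat 0, .ofNat 1, .negSucc 0, .ofNat 0, .ofNat 1, .ofNat 1, .ofNat 0, .negSucc 0, .negSucc 0, .ofNat 0, .ofNat 1, .ofNat 1, .ofNat 0, .negSucc 0, .negSucc 0, .ofNat 0, .negSucc 0, .ofNat 0, .negSucc 0, .ofNat 0, .ofNat 1, .ofNat 1, .ofNat 0, .negSucc 0, .negSucc 0, .ofNat 0, .negSucc 0, .ofNat 0, .ofNat 1, .ofNat 0, .negSucc 0],
    [.ofNat 1, .ofNat 0, .ofNat 0, .negSucc 0, .negSucc 0, .negSucc 0, .ofNat 0, .ofNat 0, .ofNat 1, .ofNat 1, .negSucc 0, .negSucc 0, .ofNat 0, .ofNat 0, .ofNat 1, .ofNat 1, .negSucc 0, .ofNat 0, .ofNat 0, .negSucc 0, .negSucc 0, .negSucc 0, .ofNat 0, .ofNat 0, .ofNat 1, .ofNat 1, .negSucc 0, .ofNat 0, .ofNat 0, .negSucc 0, .ofNat 1, .ofNat 0, .ofNat 0, .negSucc 0],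
    [.ofNat 1, .ofNat 1, .ofNat 1, .ofNat 0, .ofNat 0, .ofNat 0, .negSucc 0, .ofNat 0, .negSucc 0, .negSucc 0, .negSucc 0, .ofNat 1, .ofNat 0, .ofNat 1, .ofNat 0, .ofNat 0, .ofNat 0, .ofNat 1, .ofNat 1, .ofNat 1, .negSucc 0, .ofNat 1, .ofNat 0, .ofNat 1, .ofNat 0, .ofNat 0, .ofNat 0, .ofNat 1, .ofNat 1, .ofNat 1, .ofNat 1, .ofNat 0, .ofNat 0, .ofNat 0, .negSucc 0],
    [.ofNat 1, .ofNat 1, .ofNat 1, .ofNat 0, .ofNat 1, .negSucc 0, .ofNat 0, .negSucc 0, .ofNat 0, .ofNat 0, .ofNat 0, .ofNat 0, .negSucc 0, .ofNat 0, .negSucc 0, .negSucc 0, .ofNat 0, .negSucc 0, .negSucc 0, .negSucc 0, .negSucc 0, .negSucc 0, .ofNat 0, .negSucc 0, .ofNat 0, .ofNat 0, .negSucc 0, .ofNat 0, .ofNat 0, .ofNat 0, .ofNat 0, .ofNat 1, .ofNat 1, .ofNat 1, .ofNat 1],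
    [.ofNat 1, .ofNat 1, .ofNat 1, .ofNat 0, .ofNat 1, .negSucc 0, .ofNat 0, .negSucc 0, .ofNat 0, .ofNat 0, .ofNat 1, .ofNat 1, .ofNat 0, .ofNat 1, .ofNat 0, .ofNat 0, .ofNat 1, .ofNat 0, .ofNat 0, .ofNat 0, .ofNat 0, .ofNat 0, .negSucc 0, .ofNat 0, .negSucc 0, .negSucc 0, .ofNat 0, .negSucc 0, .negSucc 0, .negSucc 0, .ofNat 0, .negSucc 0, .negSucc 0, .negSucc 0, .negSucc 0],
    [.ofNat 0, .ofNat 1, .negSucc 0, .ofNat 0, .ofNat 1, .negSucc 0, .ofNat 0, .ofNat 0, .ofNat 1, .negSucc 0, .ofNat 1, .negSucc 0, .ofNat 0, .ofNat 0, .ofNat 1, .negSucc 0, .ofNat 0, .negSucc 0, .negSucc 0, .ofNat 0, .ofNat 1, .negSucc 0, .ofNat 0, .ofNat 0, .ofNat 1, .negSucc 0, .ofNat 0, .negSucc 0, .negSucc 0, .ofNat 0, .ofNat 0, .ofNat 1, .negSucc 0],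
    [.negSucc 0, .ofNat 0, .ofNat 1, .ofNat 0, .ofNat 1, .ofNat 0, .negSucc 0, .negSucc 0, .ofNat 0, .ofNat 1, .ofNat 1, .ofNat 0, .negSucc 0, .negSucc 0, .ofNat 0, .ofNat 1, .ofNat 0, .negSucc 0, .ofNat 0, .negSucc 0, .ofNat 1, .ofNat 0, .negSucc 0, .negSucc 0, .ofNat 0, .ofNat 1, .ofNat 0, .negSucc 0, .ofNat 0, .negSucc 0, .ofNat 0, .ofNat 1, .ofNat 0, .negSucc 0],
    [.negSucc 0, .negSucc 0, .ofNat 0, .ofNat 1, .ofNat 0, .ofNat 1, .ofNat 0, .ofNat 1, .ofNat 0, .negSucc 0, .ofNat 1, .ofNat 0, .ofNat 1, .ofNat 0, .ofNat 1, .ofNat 0, .negSucc 0, .ofNat 0, .ofNat 1, .ofNat 1, .ofNat 1, .ofNat 0, .ofNat 1, .ofNat 0, .ofNat 1, .ofNat 0, .negSucc 0, .ofNat 0, .ofNat 1, .ofNat 1, .ofNat 0, .ofNat 1, .ofNat 0, .ofNat 0, .negSucc 0],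
    [.negSucc 0, .negSucc 0, .ofNat 0, .ofNat 1, .negSucc 0, .ofNat 0, .negSucc 0, .ofNat 0, .negSucc 0, .ofNat 0, .ofNat 0, .ofNat 1, .ofNat 0, .ofNat 1, .ofNat 0, .negSucc 0, .ofNat 1, .ofNat 0, .negSucc 0, .negSucc 0, .ofNat 1, .ofNat 0, .negSucc 0, .ofNat 0, .negSucc 0, .ofNat 0, .ofNat 0, .negSucc 0, .ofNat 0, .ofNat 0, .negSucc 0, .ofNat 0, .ofNat 1, .ofNat 1, .ofNat 1],
    [.negSucc 0, .negSucc 0, .ofNat 0, .ofNat 1, .negSucc 0, .ofNat 0, .negSucc 0, .ofNat 0, .negSucc 0, .ofNat 0, .negSucc 0, .ofNat 0, .ofNat 1, .ofNat 0, .ofNat 1, .ofNat 0, .ofNat 0, .ofNat 1, .ofNat 0, .ofNat 0, .ofNat 0, .ofNat 1, .ofNat 0, .ofNat 1, .ofNat 0, .negSucc 0, .ofNat 1, .ofNat 0, .negSucc 0, .negSucc 0, .ofNat 1, .ofNat 0, .negSucc 0, .negSucc 0, .negSucc 0],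
    [.ofNat 1, .negSucc 0, .ofNat 0, .ofNat 0, .ofNat 0, .ofNat 1, .ofNat 1, .negSucc 0, .negSucc 0, .ofNat 0, .ofNat 0, .ofNat 1, .ofNat 1, .negSucc 0, .negSucc 0, .ofNat 0, .ofNat 0, .ofNat 0, .negSucc 0, .ofNat 1, .ofNat 0, .ofNat 1, .ofNat 1, .negSucc 0, .negSucc 0, .ofNat 0, .ofNat 0, .ofNat 0, .negSucc 0, .ofNat 1, .ofNat 0, .ofNat 0, .ofNat 1, .negSucc 0],
    [.ofNat 1, .ofNat 0, .negSucc 0, .negSucc 0, .negSucc 0, .ofNat 0, .ofNat 0, .ofNat 1, .ofNat 1, .ofNat 0, .ofNat 0, .ofNat 1, .ofNat 1, .ofNat 0, .ofNat 0, .ofNat 1, .negSucc 0, .negSucc 0, .ofNat 0, .ofNat 1, .ofNat 0, .ofNat 1, .ofNat 1, .ofNat 0, .ofNat 0, .ofNat 1, .negSucc 0, .negSucc 0, .ofNat 0, .ofNat 1, .ofNat 0, .ofNat 0, .ofNat 1, .ofNat 0, .negSucc 0],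
    [.ofNat 1, .ofNat 0, .negSucc 0, .negSucc 0, .ofNat 0, .negSucc 0, .negSucc 0, .ofNat 0, .ofNat 0, .negSucc 0, .negSucc 0, .ofNat 0, .ofNat 0, .ofNat 1, .ofNat 1, .ofNat 0, .ofNat 1, .ofNat 1, .ofNat 0, .negSucc 0, .ofNat 0, .ofNat 1, .ofNat 1, .ofNat 0, .ofNat 0, .negSucc 0, .ofNat 0, .ofNat 0, .negSucc 0, .ofNat 0, .negSucc 0, .negSucc 0, .ofNat 0, .ofNat 1, .negSucc 0],
    [.ofNat 1, .ofNat 0, .negSucc 0, .negSucc 0, .ofNat 0, .negSucc 0, .negSucc 0, .ofNat 0, .ofNat 0, .negSucc 0, .ofNat 0, .negSucc 0, .negSucc 0, .ofNat 0, .ofNat 0, .ofNat 1, .ofNat 0, .ofNat 0, .ofNat 1, .ofNat 0, .negSucc 0, .ofNat 0, .ofNat 0, .ofNat 1, .ofNat 1, .ofNat 0, .ofNat 1, .ofNat 1, .ofNat 0, .negSucc 0, .ofNat 1, .ofNat 1, .ofNat 0, .negSucc 0, .ofNat 1],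
    [.ofNat 0, .ofNat 1, .ofNat 1, .ofNat 1, .negSucc 0, .negSucc 0, .negSucc 0, .ofNat 0, .ofNat 0, .ofNat 0, .ofNat 0, .ofNat 0, .ofNat 0, .ofNat 1, .ofNat 1, .negSucc 0, .negSucc 0, .negSucc 0, .negSucc 0, .ofNat 0, .ofNat 0, .ofNat 0, .ofNat 0, .ofNat 1, .ofNat 1, .negSucc 0, .negSucc 0, .negSucc 0, .negSucc 0, .ofNat 0, .ofNat 0, .ofNat 0, .ofNat 0, .ofNat 1, .negSucc 0],
    [.ofNat 0, .ofNat 1, .ofNat 1, .ofNat 1, .ofNat 0, .ofNat 0, .ofNat 0, .negSucc 0, .negSucc 0, .ofNat 1, .negSucc 0, .negSucc 0, .negSucc 0, .ofNat 0, .ofNat 0, .ofNat 0, .ofNat 1, .ofNat 1, .ofNat 1, .ofNat 0, .ofNat 0, .ofNat 0, .ofNat 0, .ofNat 1, .ofNat 1, .ofNat 1, .ofNat 0, .ofNat 0, .ofNat 0, .negSucc 0, .negSucc 0, .negSucc 0, .negSucc 0, .ofNat 0, .negSucc 0],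
    [.ofNat 0, .ofNat 1, .ofNat 1, .ofNat 1, .ofNat 0, .ofNat 0, .ofNat 0, .negSucc 0, .negSucc 0, .ofNat 1, .ofNat 0, .ofNat 0, .ofNat 0, .negSucc 0, .negSucc 0, .negSucc 0, .ofNat 0, .ofNat 0, .ofNat 0, .ofNat 1, .negSucc 0, .negSucc 0, .negSucc 0, .ofNat 0, .ofNat 0, .ofNat 0, .ofNat 1, .ofNat 1, .ofNat 1, .ofNat 0, .ofNat 1, .ofNat 1, .ofNat 1, .ofNat 0, .ofNat 1],
    [.ofNat 0, .ofNat 0, .ofNat 0, .ofNat 0, .ofNat 1, .ofNat 1, .ofNat 1, .ofNat 1, .ofNat 1, .ofNat 1, .negSucc 0, .negSucc 0, .negSucc 0, .negSucc 0, .negSucc 0, .negSucc 0, .ofNat 0, .ofNat 0, .ofNat 0, .ofNat 0, .ofNat 0, .ofNat 0, .ofNat 0, .ofNat 0, .ofNat 0, .ofNat 0, .ofNat 1, .ofNat 1, .ofNat 1, .ofNat 1, .negSucc 0, .negSucc 0, .ofNat 1, .ofNat 1, .ofNat 0],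
    [.ofNat 0, .ofNat 0, .ofNat 0, .ofNat 0, .ofNat 1, .ofNat 1, .ofNat 1, .ofNat 1, .ofNat 1, .ofNat 1, .ofNat 0, .ofNat 0, .ofNat 0, .ofNat 0, .ofNat 0, .ofNat 0, .negSucc 0, .negSucc 0, .negSucc 0, .negSucc 0, .negSucc 0, .negSucc 0, .negSucc 0, .negSucc 0, .negSucc 0, .negSucc 0, .ofNat 0, .ofNat 0, .ofNat 0, .ofNat 0, .ofNat 1, .ofNat 1, .negSucc 0, .negSucc 0, .ofNat 0],
    [.ofNat 0, .ofNat 0, .ofNat 0, .ofNat 0, .ofNat 0, .ofNat 0, .ofNat 0, .ofNat 0, .ofNat 0, .ofNat 0, .ofNat 1, .ofNat 1, .ofNat 1, .ofNat 1, .ofNat 1, .ofNat 1, .ofNat 1, .ofNat 1, .negSucc 0, .negSucc 0, .negSucc 0, .negSucc 0, .negSucc 0, .negSucc 0, .negSucc 0, .negSucc 0, .negSucc 0, .negSucc 0, .ofNat 1, .ofNat 1, .ofNat 0, .ofNat 0, .ofNat 0, .ofNat 0, .ofNat 0],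
    [.ofNat 0, .ofNat 0, .negSucc 0, .ofNat 1, .ofNat 0, .negSucc 0, .ofNat 1, .negSucc 0, .ofNat 1, .ofNat 0, .ofNat 0, .negSucc 0, .ofNat 1, .negSucc 0, .ofNat 1, .ofNat 0, .negSucc 0, .ofNat 1, .ofNat 0, .ofNat 0, .ofNat 0, .negSucc 0, .ofNat 1, .negSucc 0, .ofNat 1, .ofNat 0, .negSucc 0, .ofNat 1, .ofNat 0, .ofNat 0, .negSucc 0, .ofNat 1],
    [.ofNat 0, .negSucc 0, .ofNat 0, .ofNat 1, .negSucc 0, .ofNat 0, .ofNat 1, .negSucc 0, .ofNat 0, .ofNat 1, .negSucc 0, .ofNat 0, .ofNat 1, .negSucc 0, .ofNat 0, .ofNat 1, .negSucc 0, .ofNat 0, .negSucc 0, .ofNat 0, .negSucc 0, .ofNat 0, .ofNat 1, .negSucc 0, .ofNat 0, .ofNat 1, .negSucc 0, .ofNat 0, .negSucc 0, .ofNat 0, .negSucc 0, .ofNat 0, .ofNat 1],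
    [.negSucc 0, .ofNat 0, .ofNat 0, .ofNat 1, .negSucc 0, .negSucc 0, .ofNat 0, .ofNat 0, .ofNat 1, .ofNat 1, .negSucc 0, .negSucc 0, .ofNat 0, .ofNat 0, .ofNat 1, .ofNat 1, .negSucc 0, .ofNat 0, .ofNat 0, .negSucc 0, .negSucc 0, .negSucc 0, .ofNat 0, .ofNat 0, .ofNat 1, .ofNat 1, .negSucc 0, .ofNat 0, .ofNat 0, .negSucc 0, .negSucc 0, .ofNat 0, .ofNat 0, .ofNat 1],
    [.negSucc 0, .negSucc 0, .negSucc 0, .ofNat 0, .ofNat 0, .ofNat 0, .ofNat 1, .ofNat 0, .ofNat 1, .ofNat 1, .negSucc 0, .negSucc 0, .ofNat 0, .negSucc 0, .ofNat 0, .ofNat 0, .ofNat 0, .ofNat 1, .negSucc 0, .negSucc 0, .negSucc 0, .negSucc 0, .ofNat 0, .negSucc 0, .ofNat 0, .ofNat 0, .ofNat 0, .ofNat 1, .negSucc 0, .negSucc 0, .negSucc 0, .ofNat 0, .ofNat 0, .ofNat 0, .ofNat 1],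
    [.negSucc 0, .negSucc 0, .negSucc 0, .ofNat 0, .negSucc 0, .negSucc 0, .ofNat 0, .negSucc 0, .ofNat 0, .ofNat 0, .ofNat 0, .ofNat 0, .ofNat 1, .ofNat 0, .ofNat 1, .ofNat 1, .ofNat 0, .ofNat 1, .negSucc 0, .negSucc 0, .negSucc 0, .negSucc 0, .ofNat 0, .negSucc 0, .ofNat 0, .ofNat 0, .negSucc 0, .ofNat 0, .ofNat 0, .ofNat 0, .ofNat 0, .ofNat 1, .ofNat 1, .ofNat 1, .ofNat 1],
    [.negSucc 0, .negSucc 0, .negSucc 0, .ofNat 0, .negSucc 0, .negSucc 0, .ofNat 0, .negSucc 0, .ofNat 0, .ofNat 0, .negSucc 0, .negSucc 0, .ofNat 0, .negSucc 0, .ofNat 0, .ofNat 0, .negSucc 0, .ofNat 0, .ofNat 0, .ofNat 0, .ofNat 0, .ofNat 0, .ofNat 1, .ofNat 0, .ofNat 1, .ofNat 1, .ofNat 0, .ofNat 1, .negSucc 0, .negSucc 0, .ofNat 0, .ofNat 1, .ofNat 1, .ofNat 1, .ofNat 1]]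
  U := [
    [.ofNat 3206],
    [.negSucc 2451, .ofNat 2577],
    [.negSucc 1096, .negSucc 2251, .ofNat 3397],
    [.negSucc 468, .negSucc 809, .negSucc 855, .ofNat 4143],
    [.negSucc 747, .negSucc 1544, .negSucc 1410, .negSucc 594, .ofNat 3360],
    [.negSucc 567, .negSucc 1273, .negSucc 1135, .negSucc 410, .negSucc 1277, .ofNat 3554],
    [.negSucc 416, .negSucc 939, .negSucc 1044, .negSucc 507, .negSucc 962, .negSucc 1012, .ofNat 3704],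
    [.negSucc 13, .negSucc 322, .negSucc 371, .negSucc 75, .negSucc 401, .negSucc 438, .negSucc 211, .ofNat 4039],
    [.negSucc 90, .negSucc 498, .negSucc 817, .negSucc 425, .negSucc 740, .negSucc 976, .negSucc 748, .negSucc 377, .ofNat 3780],
    [.negSucc 124, .negSucc 339, .negSucc 539, .negSucc 329, .negSucc 483, .negSucc 665, .negSucc 672, .negSucc 326, .negSucc 615, .ofNat 3781],
    [.negSucc 320, .negSucc 428, .negSucc 265, .negSucc 97, .negSucc 575, .negSucc 358, .negSucc 391, .negSucc 77, .negSucc 350, .negSucc 620, .ofNat 4135],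
    [.negSucc 286, .negSucc 623, .negSucc 487, .negSucc 204, .negSucc 784, .negSucc 584, .negSucc 785, .negSucc 150, .negSucc 612, .negSucc 793, .negSucc 632, .ofNat 4040],
    [.negSucc 226, .negSucc 486, .negSucc 553, .negSucc 281, .negSucc 622, .negSucc 201, .negSucc 390, .negSucc 257, .negSucc 445, .negSucc 293, .negSucc 454, .negSucc 593, .ofNat 4172],
    [.ofNat 19, .negSucc 202, .negSucc 275, .negSucc 34, .negSucc 548, .negSucc 578, .negSucc 368, .negSucc 230, .negSucc 541, .negSucc 559, .negSucc 379, .negSucc 492, .negSucc 223, .ofNat 4229],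
    [.negSucc 23, .negSucc 218, .negSucc 476, .negSucc 241, .negSucc 517, .negSucc 335, .negSucc 289, .negSucc 13, .negSucc 306, .negSucc 198, .negSucc 344, .negSucc 683, .negSucc 421, .negSucc 364, .ofNat 4179],
    [.ofNat 18, .ofNat 60, .negSucc 150, .negSucc 185, .negSucc 183, .ofNat 27, .negSucc 244, .ofNat 59, .negSucc 238, .negSucc 138, .ofNat 41, .negSucc 183, .negSucc 173, .negSucc 174, .negSucc 184, .ofNat 4320],
    [.ofNat 6, .ofNat 49, .negSucc 14, .negSucc 229, .negSucc 212, .negSucc 317, .negSucc 524, .negSucc 239, .negSucc 512, .negSucc 74, .negSucc 330, .negSucc 397, .negSucc 594, .negSucc 313, .negSucc 548, .ofNat 22, .ofNat 4062],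
    [.ofNat 55, .ofNat 35, .negSucc 192, .negSucc 193, .negSucc 171, .ofNat 21, .negSucc 151, .ofNat 50, .negSucc 188, .negSucc 240, .negSucc 207, .negSucc 25, .negSucc 193, .ofNat 37, .negSucc 193, .negSucc 186, .negSucc 186, .ofNat 4100],
    [.ofNat 76, .ofNat 284, .ofNat 58, .ofNat 275, .ofNat 74, .ofNat 382, .ofNat 312, .ofNat 8, .ofNat 330, .ofNat 336, .ofNat 224, .ofNat 466, .ofNat 365, .ofNat 144, .ofNat 384, .ofNat 196, .ofNat 328, .ofNat 201, .ofNat 3953],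
    [.ofNat 231, .ofNat 10, .ofNat 35, .ofNat 266, .ofNat 55, .ofNat 513, .ofNat 232, .ofNat 218, .ofNat 231, .ofNat 262, .ofNat 140, .ofNat 606, .ofNat 303, .ofNat 337, .ofNat 294, .ofNat 172, .ofNat 279, .ofNat 163, .negSucc 352, .ofNat 3982],
    [.negSucc 180, .negSucc 168, .ofNat 25, .ofNat 32, .negSucc 167, .negSucc 252, .negSucc 270, .ofNat 58, .ofNat 18, .negSucc 215, .negSucc 212, .negSucc 27, .ofNat 19, .ofNat 13, .ofNat 33, .negSucc 143, .ofNat 27, .ofNat 47, .ofNat 219, .ofNat 199, .ofNat 4388],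
    [.negSucc 184, .negSucc 402, .negSucc 228, .ofNat 26, .negSucc 149, .negSucc 235, .negSucc 223, .negSucc 1, .negSucc 233, .negSucc 471, .negSucc 490, .negSucc 331, .negSucc 109, .negSucc 109, .negSucc 280, .ofNat 80, .negSucc 68, .negSucc 154, .ofNat 537, .ofNat 317, .negSucc 174, .ofNat 4308],
    [.negSucc 180, .negSucc 356, .negSucc 407, .negSucc 147, .negSucc 116, .negSucc 243, .negSucc 172, .negSucc 183, .ofNat 47, .negSucc 389, .negSucc 437, .negSucc 474, .negSucc 225, .negSucc 254, .negSucc 14, .ofNat 73, .negSucc 239, .ofNat 70, .ofNat 460, .ofNat 237, .negSucc 152, .negSucc 261, .ofNat 4324],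
    [.ofNat 69, .negSucc 128, .negSucc 144, .ofNat 57, .negSucc 390, .negSucc 378, .negSucc 195, .negSucc 176, .negSucc 397, .negSucc 393, .negSucc 402, .negSucc 448, .negSucc 224, .negSucc 228, .negSucc 7, .ofNat 41, .negSucc 238, .negSucc 138, .ofNat 218, .ofNat 206, .negSucc 141, .negSucc 212, .ofNat 8, .ofNat 4339],
    [.negSucc 13, .negSucc 138, .negSucc 375, .negSucc 146, .negSucc 390, .negSucc 202, .negSucc 373, .negSucc 2, .negSucc 168, .negSucc 340, .negSucc 414, .negSucc 303, .negSucc 450, .negSucc 459, .negSucc 228, .ofNat 17, .negSucc 240, .ofNat 64, .ofNat 251, .ofNat 440, .negSucc 146, .negSucc 466, .negSucc 201, .negSucc 207, .ofNat 4286],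
    [.ofNat 56, .ofNat 55, .negSucc 122, .negSucc 128, .negSucc 164, .ofNat 53, .ofNat 55, .ofNat 50, .ofNat 75, .negSucc 118, .negSucc 144, .negSucc 342, .negSucc 342, .negSucc 383, .negSucc 326, .negSucc 114, .negSucc 140, .negSucc 125, .ofNat 368, .ofNat 352, .ofNat 76, .negSucc 137, .negSucc 133, .negSucc 152, .negSucc 120, .ofNat 4343],
    [.negSucc 254, .ofNat 85, .ofNat 65, .negSucc 152, .negSucc 129, .negSucc 168, .negSucc 145, .negSucc 176, .negSucc 381, .ofNat 54, .negSucc 398, .negSucc 422, .negSucc 210, .negSucc 178, .negSucc 220, .negSucc 156, .negSucc 191, .ofNat 60, .ofNat 408, .ofNat 141, .negSucc 153, .negSucc 199, .negSucc 179, .negSucc 167, .negSucc 414, .ofNat 62, .ofNat 4141],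
    [.negSucc 237, .ofNat 58, .negSucc 167, .ofNat 80, .negSucc 142, .negSucc 209, .negSucc 136, .ofNat 58, .negSucc 135, .ofNat 65, .negSucc 405, .negSucc 197, .negSucc 385, .negSucc 191, .negSucc 386, .negSucc 135, .negSucc 392, .negSucc 126, .ofNat 401, .ofNat 368, .negSucc 173, .negSucc 223, .negSucc 160, .ofNat 67, .negSucc 137, .ofNat 81, .negSucc 151, .ofNat 4122],
    [.ofNat 194, .ofNat 172, .negSucc 56, .negSucc 75, .ofNat 203, .ofNat 172, .ofNat 146, .negSucc 45, .negSucc 68, .ofNat 144, .ofNat 157, .negSucc 46, .negSucc 58, .ofNat 159, .ofNat 156, .negSucc 69, .negSucc 65, .negSucc 68, .negSucc 143, .ofNat 65, .ofNat 167, .ofNat 164, .ofNat 158, .negSucc 58, .negSucc 47, .ofNat 162, .ofNat 150, .ofNat 162, .ofNat 4130],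
    [.ofNat 165, .negSucc 59, .negSucc 81, .negSucc 69, .negSucc 51, .ofNat 389, .ofNat 384, .ofNat 205, .ofNat 160, .ofNat 122, .ofNat 157, .ofNat 204, .ofNat 184, .ofNat 234, .negSucc 35, .negSucc 69, .ofNat 207, .negSucc 84, .negSucc 381, .negSucc 176, .negSucc 68, .ofNat 411, .ofNat 397, .ofNat 185, .ofNat 177, .ofNat 147, .ofNat 152, .ofNat 133, .negSucc 134, .ofNat 4079],
    [.ofNat 47, .ofNat 68, .ofNat 76, .negSucc 147, .ofNat 61, .ofNat 69, .negSucc 146, .negSucc 184, .negSucc 146, .negSucc 144, .negSucc 125, .negSucc 150, .ofNat 48, .negSucc 154, .ofNat 25, .ofNat 33, .negSucc 165, .ofNat 50, .negSucc 57, .ofNat 243, .negSucc 147, .negSucc 156, .ofNat 35, .negSucc 147, .negSucc 1, .ofNat 50, .negSucc 144, .ofNat 65, .negSucc 54, .ofNat 229, .ofNat 4410],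
    [.ofNat 47, .ofNat 55, .negSucc 151, .ofNat 78, .ofNat 61, .negSucc 151, .ofNat 72, .negSucc 166, .ofNat 79, .negSucc 133, .negSucc 117, .negSucc 370, .negSucc 139, .negSucc 380, .negSucc 153, .ofNat 65, .negSucc 379, .negSucc 146, .negSucc 73, .negSucc 52, .negSucc 138, .negSucc 383, .negSucc 145, .negSucc 352, .negSucc 145, .ofNat 66, .negSucc 365, .negSucc 125, .negSucc 58, .negSucc 51, .negSucc 137, .ofNat 4373],
    [.ofNat 60, .negSucc 152, .ofNat 59, .ofNat 62, .negSucc 152, .ofNat 66, .ofNat 70, .negSucc 160, .negSucc 135, .ofNat 83, .ofNat 65, .negSucc 139, .negSucc 141, .negSucc 339, .negSucc 373, .negSucc 135, .ofNat 52, .ofNat 63, .ofNat 128, .ofNat 353, .ofNat 64, .negSucc 145, .negSucc 134, .negSucc 368, .negSucc 358, .negSucc 113, .ofNat 52, .ofNat 77, .ofNat 150, .ofNat 367, .negSucc 158, .negSucc 133, .ofNat 4382],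
    [.negSucc 156, .ofNat 64, .ofNat 57, .ofNat 47, .negSucc 148, .negSucc 149, .negSucc 138, .negSucc 178, .ofNat 75, .ofNat 68, .ofNat 57, .ofNat 21, .ofNat 54, .negSucc 133, .negSucc 145, .negSucc 152, .negSucc 215, .ofNat 68, .negSucc 74, .ofNat 131, .ofNat 42, .ofNat 50, .ofNat 68, .negSucc 140, .negSucc 138, .negSucc 131, .negSucc 227, .ofNat 68, .negSucc 60, .ofNat 152, .negSucc 169, .negSucc 144, .negSucc 116, .ofNat 4353],
    [.negSucc 158, .negSucc 158, .negSucc 158, .negSucc 148, .ofNat 72, .ofNat 65, .ofNat 83, .negSucc 205, .ofNat 76, .ofNat 83, .ofNat 72, .negSucc 376, .negSucc 372, .negSucc 88, .negSucc 380, .ofNat 69, .negSucc 144, .negSucc 148, .ofNat 127, .ofNat 127, .ofNat 58, .negSucc 390, .negSucc 372, .negSucc 90, .negSucc 365, .ofNat 83, .negSucc 137, .negSucc 126, .ofNat 149, .ofNat 134, .negSucc 144, .negSucc 119, .negSucc 119, .negSucc 133,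 .ofNat 4139]]

theorem cls8_ok : check cls8 = true := by decide +kernel

end Pool.Agent.V1197.ZN
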