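import Pool.Agent.V1197.ZN.Cert

namespace Pool.Agent.V1197.ZN

def cls9 : Cls where
  chi := [.ofNat 1, .ofNat 1, .ofNat 1, .ofNat 1, .ofNat 1, .ofNat 1, .ofNat 1, .ofNat 1, .ofNat 1, .ofNat 1, .ofNat 1, .ofNat 1, .ofNat 1, .ofNat 1, .ofNat 1, .ofNat 1, .ofNat 1, .ofNat 1, .negSucc 0, .negSucc 0, .ofNat 1, .ofNat 1, .ofNat 1, .ofNat 1, .ofNat 1, .negSucc 0, .ofNat 1, .ofNat 1, .negSucc 0, .negSucc 0, .ofNat 1, .ofNat 1, .negSucc 0, .negSucc 0, .ofNat 1]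
  mu := [.ofNat 300, .ofNat 274, .ofNat 300, .ofNat 300, .ofNat 300, .ofNat 300, .ofNat 300, .ofNat 300, .ofNat 300, .ofNat 300, .ofNat 300, .ofNat 300, .ofNat 300, .ofNat 300, .ofNat 300, .negSucc 261, .ofNat 34, .negSucc 299, .negSucc 299, .negSucc 299, .negSucc 299, .negSucc 299, .negSucc 299, .negSucc 299, .negSucc 299, .ofNat 300, .ofNat 300, .ofNat 300, .ofNat 299, .negSucc 160, .ofNat 300, .ofNat 300, .negSucc 299, .negSucc 299, .ofNat 214, .negSucc 298, .ofNat 274, .negSucc 299, .negSucc 299, .ofNat 300, .negSucc 28, .negSucc 299, .negSucc 299, .ofNat 300, .ofNat 300, .negSucc 299, .negSucc 299, .ofNat 300, .negSucc 299, .negSucc 299, .negSucc 299, .negSucc 299, .ofNat 300, .ofNat 300, .ofNat 300, .negSucc 266, .ofNat 300, .ofNat 300, .ofNat 300, .negSucc 299, .ofNat 300, .ofNat 258, .ofNat 300, .ofNat 300, .ofNat 300, .ofNat 300, .negSucc 299, .negSucc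 299, .ofNat 300, .ofNat 300, .negSucc 299, .negSucc 299, .ofNat 300, .ofNat 300, .ofNat 300, .ofNat 300, .negSucc 26, .ofNat 300, .negSucc 263, .ofNat 300, .negSucc 299, .ofNat 300, .ofNat 185, .negSucc 299, .negSucc 299, .ofNat 300, .negSucc 298, .negSucc 299, .negSucc 299, .negSucc 299, .negSucc 299, .negSucc 299, .negSucc 299, .negSucc 299, .negSucc 299, .ofNat 300, .negSucc 299, .negSucc 299, .ofNat 300, .ofNat 300, .negSucc 299, .negSucc 299, .ofNat 300, .ofNat 300, .negSucc 299]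
  om := [.negSucc 270, .ofNat 300, .ofNat 300, .negSucc 166, .negSucc 161, .ofNat 300, .negSucc 299]
  kap := 200
  s := 1000
  del := 120000
  eta := 6628
  L := [
    [.ofNat 0, .ofNat 0, .ofNat 1, .negSucc 0, .ofNat 0, .ofNat 1, .negSucc 0, .ofNat 1, .negSucc 0, .ofNat 0, .ofNat 0, .ofNat 1, .negSucc 0, .ofNat 1, .negSucc 0, .ofNat 0, .ofNat 1, .negSucc 0, .ofNat 0, .ofNat 0, .ofNat 0, .ofNat 1, .negSucc 0, .ofNat 1, .negSucc 0, .ofNat 0, .ofNat 1, .negSucc 0, .ofNat 0, .ofNat 0, .ofNat 1, .negSucc 0],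
    [.ofNat 0, .negSucc 0, .ofNat 0, .ofNat 1, .negSucc 0, .ofNat 0, .ofNat 1, .ofNat 1, .ofNat 0, .negSucc 0, .negSucc 0, .ofNat 0, .ofNat 1, .ofNat 1, .ofNat 0, .negSucc 0, .negSucc 0, .ofNat 0, .negSucc 0, .ofNat 0, .negSucc 0, .ofNat 0, .ofNat 1, .negSucc 0, .ofNat 0, .negSucc 0, .negSucc 0, .ofNat 0, .negSucc 0, .ofNat 0, .negSucc 0, .ofNat 0, .negSucc 0],
    [.ofNat 1, .ofNat 0, .ofNat 0, .negSucc 0, .negSucc 0, .negSucc 0, .ofNat 0, .ofNat 0, .ofNat 1, .ofNat 1, .negSucc 0, .negSucc 0, .ofNat 0, .ofNat 0, .ofNat 1, .ofNat 1, .negSucc 0, .ofNat 0, .ofNat 0, .negSucc 0, .negSucc 0, .ofNat 1, .ofNat 0, .ofNat 0, .ofNat 1, .ofNat 1, .negSucc 0, .ofNat 0, .ofNat 0, .negSucc 0, .negSucc 0, .ofNat 0, .ofNat 0, .negSucc 0],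
    [.ofNat 1, .ofNat 1, .ofNat 1, .ofNat 0, .ofNat 0, .ofNat 0, .negSucc 0, .ofNat 0, .negSucc 0, .negSucc 0, .negSucc 0, .ofNat 1, .ofNat 0, .ofNat 1, .ofNat 0, .ofNat 0, .ofNat 0, .ofNat 1, .ofNat 1, .ofNat 1, .negSucc 0, .ofNat 1, .ofNat 0, .ofNat 1, .ofNat 0, .ofNat 0, .ofNat 0, .ofNat 1, .ofNat 1, .ofNat 1, .ofNat 1, .ofNat 0, .ofNat 0, .ofNat 0, .negSucc 0],
    [.ofNat 1, .ofNat 1, .ofNat 1, .ofNat 0, .ofNat 1, .negSucc 0, .ofNat 0, .negSucc 0, .ofNat 0, .ofNat 0, .ofNat 0, .ofNat 0, .negSucc 0, .ofNat 0, .negSucc 0, .negSucc 0, .ofNat 0, .negSucc 0, .negSucc 0, .negSucc 0, .negSucc 0, .ofNat 1, .ofNat 0, .ofNat 1, .ofNat 0, .ofNat 0, .negSucc 0, .ofNat 0, .ofNat 0, .ofNat 0, .ofNat 0, .ofNat 1, .ofNat 1, .ofNat 1, .ofNat 1],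
    [.ofNat 1, .ofNat 1, .negSucc 0, .ofNat 0, .ofNat 1, .negSucc 0, .ofNat 0, .negSucc 0, .ofNat 0, .ofNat 0, .ofNat 1, .negSucc 0, .ofNat 0, .negSucc 0, .ofNat 0, .ofNat 0, .ofNat 1, .ofNat 0, .ofNat 0, .ofNat 0, .ofNat 0, .ofNat 0, .negSucc 0, .ofNat 0, .negSucc 0, .negSucc 0, .ofNat 0, .negSucc 0, .negSucc 0, .negSucc 0, .ofNat 0, .negSucc 0, .negSucc 0, .negSucc 0, .negSucc 0],
    [.ofNat 0, .ofNat 1, .negSucc 0, .ofNat 0, .ofNat 1, .negSucc 0, .ofNat 0, .ofNat 0, .ofNat 1, .negSucc 0, .ofNat 1, .negSucc 0, .ofNat 0, .ofNat 0, .ofNat 1, .negSucc 0, .ofNat 0, .negSucc 0, .negSucc 0, .ofNat 0, .ofNat 1, .negSucc 0, .ofNat 0, .ofNat 0, .negSucc 0, .negSucc 0, .ofNat 0, .negSucc 0, .negSucc 0, .ofNat 0, .ofNat 0, .negSucc 0, .negSucc 0],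
    [.negSucc 0, .ofNat 0, .ofNat 1, .ofNat 0, .ofNat 1, .ofNat 0, .negSucc 0, .negSucc 0, .ofNat 0, .ofNat 1, .ofNat 1, .ofNat 0, .negSucc 0, .negSucc 0, .ofNat 0, .ofNat 1, .ofNat 0, .negSucc 0, .ofNat 0, .negSucc 0, .ofNat 1, .ofNat 0, .ofNat 1, .negSucc 0, .ofNat 0, .ofNat 1, .ofNat 0, .negSucc 0, .ofNat 0, .negSucc 0, .ofNat 0, .negSucc 0, .ofNat 0, .negSucc 0],
    [.negSucc 0, .negSucc 0, .ofNat 0, .ofNat 1, .ofNat 0, .ofNat 1, .ofNat 0, .ofNat 1, .ofNat 0, .negSucc 0, .ofNat 1, .ofNat 0, .ofNat 1, .ofNat 0, .ofNat 1, .ofNat 0, .negSucc 0, .ofNat 0, .ofNat 1, .ofNat 1, .ofNat 1, .ofNat 0, .ofNat 1, .ofNat 0, .ofNat 1, .ofNat 0, .negSucc 0, .ofNat 0, .ofNat 1, .ofNat 1, .ofNat 0, .ofNat 1, .ofNat 0, .ofNat 0, .negSucc 0],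
    [.negSucc 0, .negSucc 0, .ofNat 0, .ofNat 1, .negSucc 0, .ofNat 0, .negSucc 0, .ofNat 0, .negSucc 0, .ofNat 0, .ofNat 0, .ofNat 1, .ofNat 0, .ofNat 1, .ofNat 0, .negSucc 0, .ofNat 1, .ofNat 0, .negSucc 0, .negSucc 0, .ofNat 1, .ofNat 0, .ofNat 1, .ofNat 0, .ofNat 1, .ofNat 0, .ofNat 0, .negSucc 0, .ofNat 0, .ofNat 0, .negSucc 0, .ofNat 0, .ofNat 1, .ofNat 1, .ofNat 1],
    [.negSucc 0, .negSucc 0, .ofNat 0, .negSucc 0, .negSucc 0, .ofNat 0, .negSucc 0, .ofNat 0, .negSucc 0, .ofNat 0, .negSucc 0, .ofNat 0, .negSucc 0, .ofNat 0, .negSucc 0, .ofNat 0, .ofNat 0, .ofNat 1, .ofNat 0, .ofNat 0, .ofNat 0, .ofNat 1, .ofNat 0, .ofNat 1, .ofNat 0, .negSucc 0, .ofNat 1, .ofNat 0, .negSucc 0, .negSucc 0, .ofNat 1, .ofNat 0, .negSucc 0, .negSucc 0, .negSucc 0],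
    [.ofNat 1, .negSucc 0, .ofNat 0, .ofNat 0, .ofNat 0, .ofNat 1, .ofNat 1, .negSucc 0, .negSucc 0, .ofNat 0, .ofNat 0, .ofNat 1, .ofNat 1, .negSucc 0, .negSucc 0, .ofNat 0, .ofNat 0, .ofNat 0, .negSucc 0, .ofNat 1, .ofNat 0, .ofNat 1, .ofNat 1, .negSucc 0, .negSucc 0, .ofNat 0, .ofNat 0, .ofNat 0, .negSucc 0, .ofNat 1, .ofNat 0, .ofNat 0, .negSucc 0, .ofNat 1],
    [.ofNat 1, .ofNat 0, .negSucc 0, .negSucc 0, .negSucc 0, .ofNat 0, .ofNat 0, .ofNat 1, .ofNat 1, .ofNat 0, .ofNat 0, .ofNat 1, .ofNat 1, .ofNat 0, .ofNat 0, .ofNat 1, .negSucc 0, .negSucc 0, .ofNat 0, .ofNat 1, .ofNat 0, .ofNat 1, .ofNat 1, .ofNat 0, .ofNat 0, .ofNat 1, .negSucc 0, .negSucc 0, .ofNat 0, .negSucc 0, .ofNat 0, .ofNat 0, .ofNat 1, .ofNat 0, .ofNat 1],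
    [.ofNat 1, .ofNat 0, .negSucc 0, .negSucc 0, .ofNat 0, .negSucc 0, .negSucc 0, .ofNat 0, .ofNat 0, .negSucc 0, .negSucc 0, .ofNat 0, .ofNat 0, .ofNat 1, .ofNat 1, .ofNat 0, .ofNat 1, .ofNat 1, .ofNat 0, .negSucc 0, .ofNat 0, .ofNat 1, .ofNat 1, .ofNat 0, .ofNat 0, .ofNat 1, .ofNat 0, .ofNat 0, .negSucc 0, .ofNat 0, .negSucc 0, .negSucc 0, .ofNat 0, .negSucc 0, .negSucc 0],
    [.ofNat 1, .ofNat 0, .negSucc 0, .negSucc 0, .ofNat 0, .negSucc 0, .negSucc 0, .ofNat 0, .ofNat 0, .negSucc 0, .ofNat 0, .negSucc 0, .negSucc 0, .ofNat 0, .ofNat 0, .negSucc 0, .ofNat 0, .ofNat 0, .ofNat 1, .ofNat 0, .negSucc 0, .ofNat 0, .ofNat 0, .ofNat 1, .ofNat 1, .ofNat 0, .ofNat 1, .ofNat 1, .ofNat 0, .negSucc 0, .ofNat 1, .ofNat 1, .ofNat 0, .negSucc 0, .ofNat 1],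
    [.ofNat 0, .ofNat 1, .ofNat 1, .ofNat 1, .negSucc 0, .negSucc 0, .negSucc 0, .ofNat 0, .ofNat 0, .ofNat 0, .ofNat 0, .ofNat 0, .ofNat 0, .ofNat 1, .ofNat 1, .negSucc 0, .negSucc 0, .negSucc 0, .negSucc 0, .ofNat 0, .ofNat 0, .ofNat 0, .ofNat 0, .ofNat 1, .ofNat 1, .negSucc 0, .negSucc 0, .negSucc 0, .ofNat 1, .ofNat 0, .ofNat 0, .ofNat 0, .ofNat 0, .ofNat 1, .ofNat 1],
    [.ofNat 0, .ofNat 1, .ofNat 1, .ofNat 1, .ofNat 0, .ofNat 0, .ofNat 0, .negSucc 0, .negSucc 0, .ofNat 1, .negSucc 0, .negSucc 0, .negSucc 0, .ofNat 0, .ofNat 0, .ofNat 0, .ofNat 1, .ofNat 1, .ofNat 1, .ofNat 0, .ofNat 0, .ofNat 0, .ofNat 0, .ofNat 1, .ofNat 1, .negSucc 0, .ofNat 0, .ofNat 0, .ofNat 0, .negSucc 0, .negSucc 0, .negSucc 0, .ofNat 1, .ofNat 0, .negSucc 0],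
    [.ofNat 0, .ofNat 1, .ofNat 1, .ofNat 1, .ofNat 0, .ofNat 0, .ofNat 0, .negSucc 0, .negSucc 0, .ofNat 1, .ofNat 0, .ofNat 0, .ofNat 0, .negSucc 0, .negSucc 0, .ofNat 1, .ofNat 0, .ofNat 0, .ofNat 0, .ofNat 1, .negSucc 0, .negSucc 0, .negSucc 0, .ofNat 0, .ofNat 0, .ofNat 0, .ofNat 1, .ofNat 1, .ofNat 1, .ofNat 0, .ofNat 1, .ofNat 1, .ofNat 1, .ofNat 0, .ofNat 1],
    [.ofNat 0, .ofNat 0, .ofNat 0, .ofNat 0, .ofNat 1, .ofNat 1, .ofNat 1, .ofNat 1, .ofNat 1, .ofNat 1, .negSucc 0, .negSucc 0, .negSucc 0, .negSucc 0, .negSucc 0, .negSucc 0, .ofNat 0, .ofNat 0, .ofNat 0, .ofNat 0, .ofNat 0, .ofNat 0, .ofNat 0, .ofNat 0, .ofNat 0, .ofNat 0, .ofNat 1, .ofNat 1, .negSucc 0, .negSucc 0, .negSucc 0, .negSucc 0, .ofNat 1, .ofNat 1, .ofNat 0],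
    [.ofNat 0, .ofNat 0, .ofNat 0, .ofNat 0, .ofNat 1, .ofNat 1, .ofNat 1, .ofNat 1, .ofNat 1, .negSucc 0, .ofNat 0, .ofNat 0, .ofNat 0, .ofNat 0, .ofNat 0, .ofNat 0, .negSucc 0, .negSucc 0, .ofNat 1, .ofNat 1, .negSucc 0, .negSucc 0, .negSucc 0, .negSucc 0, .negSucc 0, .negSucc 0, .ofNat 0, .ofNat 0, .ofNat 0, .ofNat 0, .ofNat 1, .ofNat 1, .negSucc 0, .negSucc 0, .ofNat 0],
    [.ofNat 0, .ofNat 0, .ofNat 0, .ofNat 0, .ofNat 0, .ofNat 0, .ofNat 0, .ofNat 0, .ofNat 0, .ofNat 0, .ofNat 1, .ofNat 1, .ofNat 1, .ofNat 1, .ofNat 1, .negSucc 0, .ofNat 1, .ofNat 1, .negSucc 0, .negSucc 0, .negSucc 0, .negSucc 0, .negSucc 0, .negSucc 0, .negSucc 0, .negSucc 0, .negSucc 0, .negSucc 0, .ofNat 1, .ofNat 1, .ofNat 0, .ofNat 0, .ofNat 0, .ofNat 0, .ofNat 0],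
    [.ofNat 0, .ofNat 0, .negSucc 0, .ofNat 1, .ofNat 0, .negSucc 0, .ofNat 1, .negSucc 0, .ofNat 1, .ofNat 0, .ofNat 0, .negSucc 0, .ofNat 1, .negSucc 0, .ofNat 1, .ofNat 0, .negSucc 0, .ofNat 1, .ofNat 0, .ofNat 0, .ofNat 0, .negSucc 0, .ofNat 1, .negSucc 0, .ofNat 1, .ofNat 0, .negSucc 0, .ofNat 1, .ofNat 0, .ofNat 0, .negSucc 0, .ofNat 1],
    [.ofNat 0, .negSucc 0, .ofNat 0, .ofNat 1, .negSucc 0, .ofNat 0, .ofNat 1, .negSucc 0, .ofNat 0, .ofNat 1, .negSucc 0, .ofNat 0, .ofNat 1, .negSucc 0, .ofNat 0, .ofNat 1, .negSucc 0, .ofNat 0, .negSucc 0, .ofNat 0, .negSucc 0, .ofNat 0, .ofNat 1, .negSucc 0, .ofNat 0, .negSucc 0, .negSucc 0, .ofNat 0, .negSucc 0, .ofNat 0, .negSucc 0, .ofNat 0, .negSucc 0],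
    [.negSucc 0, .ofNat 0, .ofNat 0, .ofNat 1, .negSucc 0, .negSucc 0, .ofNat 0, .ofNat 0, .ofNat 1, .ofNat 1, .negSucc 0, .negSucc 0, .ofNat 0, .ofNat 0, .ofNat 1, .ofNat 1, .negSucc 0, .ofNat 0, .ofNat 0, .negSucc 0, .negSucc 0, .negSucc 0, .ofNat 0, .ofNat 0, .ofNat 1, .negSucc 0, .negSucc 0, .ofNat 0, .ofNat 0, .negSucc 0, .negSucc 0, .ofNat 0, .ofNat 0, .negSucc 0],
    [.negSucc 0, .negSucc 0, .negSucc 0, .ofNat 0, .ofNat 0, .ofNat 0, .ofNat 1, .ofNat 0, .ofNat 1, .ofNat 1, .negSucc 0, .negSucc 0, .ofNat 0, .negSucc 0, .ofNat 0, .ofNat 0, .ofNat 0, .ofNat 1, .negSucc 0, .negSucc 0, .negSucc 0, .negSucc 0, .ofNat 0, .negSucc 0, .ofNat 0, .ofNat 0, .ofNat 0, .ofNat 1, .negSucc 0, .negSucc 0, .negSucc 0, .ofNat 0, .ofNat 0, .ofNat 0, .ofNat 1],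
    [.negSucc 0, .negSucc 0, .negSucc 0, .ofNat 0, .negSucc 0, .negSucc 0, .ofNat 0, .negSucc 0, .ofNat 0, .ofNat 0, .ofNat 0, .ofNat 0, .ofNat 1, .ofNat 0, .ofNat 1, .ofNat 1, .ofNat 0, .ofNat 1, .negSucc 0, .negSucc 0, .negSucc 0, .negSucc 0, .ofNat 0, .negSucc 0, .ofNat 0, .ofNat 0, .negSucc 0, .ofNat 0, .ofNat 0, .ofNat 0, .ofNat 0, .ofNat 1, .negSucc 0, .negSucc 0, .ofNat 1],
    [.negSucc 0, .negSucc 0, .negSucc 0, .ofNat 0, .negSucc 0, .negSucc 0, .ofNat 0, .negSucc 0, .ofNat 0, .ofNat 0, .negSucc 0, .negSucc 0, .ofNat 0, .negSucc 0, .ofNat 0, .ofNat 0, .negSucc 0, .ofNat 0, .ofNat 0, .ofNat 0, .ofNat 0, .ofNat 0, .ofNat 1, .ofNat 0, .ofNat 1, .negSucc 0, .ofNat 0, .ofNat 1, .negSucc 0, .negSucc 0, .ofNat 0, .ofNat 1, .negSucc 0, .negSucc 0, .ofNat 1]]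
  U := [
    [.ofNat 2041],
    [.negSucc 1506, .ofNat 1599],
    [.negSucc 1172, .negSucc 1419, .ofNat 1914],
    [.negSucc 811, .negSucc 959, .negSucc 967, .ofNat 2338],
    [.negSucc 194, .negSucc 509, .negSucc 777, .negSucc 919, .ofNat 2270],
    [.negSucc 522, .negSucc 927, .negSucc 461, .negSucc 573, .negSucc 588, .ofNat 2434],
    [.negSucc 211, .negSucc 659, .negSucc 792, .negSucc 579, .negSucc 619, .negSucc 453, .ofNat 2491],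
    [.negSucc 140, .negSucc 382, .negSucc 249, .negSucc 289, .negSucc 246, .ofNat 284, .negSucc 9, .ofNat 2644],
    [.ofNat 74, .negSucc 181, .negSucc 725, .negSucc 626, .negSucc 289, .negSucc 580, .negSucc 331, .ofNat 166, .ofNat 2573],
    [.negSucc 286, .negSucc 168, .negSucc 45, .negSucc 183, .negSucc 435, .negSucc 240, .negSucc 305, .negSucc 393, .negSucc 341, .ofNat 2638],
    [.negSucc 126, .negSucc 134, .negSucc 334, .negSucc 391, .negSucc 121, .negSucc 279, .negSucc 474, .negSucc 117, .negSucc 237, .negSucc 402, .ofNat 2717],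
    [.negSucc 168, .negSucc 449, .negSucc 130, .negSucc 299, .negSucc 596, .negSucc 36, .negSucc 684, .ofNat 100, .negSucc 550, .negSucc 382, .negSucc 284, .ofNat 2767],
    [.negSucc 71, .negSucc 379, .negSucc 613, .negSucc 269, .negSucc 648, .negSucc 262, .negSucc 242, .negSucc 142, .negSucc 158, .negSucc 281, .negSucc 310, .negSucc 165, .ofNat 2889],
    [.negSucc 4, .negSucc 115, .negSucc 85, .negSucc 222, .negSucc 500, .negSucc 279, .negSucc 574, .ofNat 354, .negSucc 360, .negSucc 641, .negSucc 316, .ofNat 160, .negSucc 106, .ofNat 2742],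
    [.negSucc 92, .ofNat 1, .negSucc 533, .negSucc 268, .negSucc 358, .negSucc 582, .negSucc 549, .ofNat 17, .ofNat 38, .negSucc 375, .negSucc 149, .negSucc 519, .negSucc 91, .ofNat 65, .ofNat 2854],
    [.negSucc 119, .negSucc 69, .ofNat 34, .negSucc 110, .negSucc 308, .ofNat 47, .negSucc 102, .negSucc 257, .negSucc 95, .ofNat 363, .negSucc 117, .negSucc 58, .ofNat 6, .negSucc 410, .negSucc 132, .ofNat 3023],
    [.ofNat 69, .ofNat 87, .negSucc 22, .negSucc 202, .ofNat 102, .negSucc 107, .negSucc 416, .negSucc 332, .negSucc 595, .negSucc 5, .ofNat 25, .ofNat 84, .negSucc 347, .ofNat 42, .negSucc 327, .negSucc 172, .ofNat 2743],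
    [.negSucc 75, .negSucc 192, .negSucc 259, .ofNat 14, .negSucc 330, .negSucc 93, .negSucc 93, .negSucc 184, .negSucc 327, .ofNat 71, .negSucc 342, .negSucc 53, .ofNat 100, .ofNat 111, .ofNat 39, .ofNat 44, .ofNat 247, .ofNat 3040],
    [.ofNat 91, .ofNat 233, .ofNat 106, .ofNat 145, .ofNat 261, .ofNat 379, .ofNat 209, .ofNat 222, .ofNat 138, .negSucc 24, .ofNat 232, .ofNat 123, .ofNat 156, .ofNat 102, .ofNat 160, .ofNat 234, .ofNat 75, .ofNat 81, .ofNat 2839],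
    [.ofNat 309, .ofNat 104, .ofNat 3, .ofNat 167, .ofNat 30, .ofNat 561, .ofNat 511, .ofNat 318, .ofNat 130, .negSucc 100, .ofNat 132, .ofNat 349, .ofNat 562, .negSucc 22, .negSucc 8, .ofNat 242, .negSucc 188, .negSucc 118, .ofNat 144, .ofNat 2790],
    [.negSucc 399, .negSucc 108, .negSucc 111, .ofNat 60, .ofNat 136, .ofNat 213, .negSucc 143, .ofNat 115, .negSucc 30, .negSucc 235, .ofNat 383, .ofNat 46, .negSucc 97, .negSucc 63, .ofNat 51, .negSucc 177, .ofNat 105, .negSucc 210, .ofNat 292, .ofNat 261, .ofNat 2824],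
    [.ofNat 391, .negSucc 232, .ofNat 123, .negSucc 575, .negSucc 321, .ofNat 98, .negSucc 209, .ofNat 137, .negSucc 372, .negSucc 96, .negSucc 407, .ofNat 340, .negSucc 281, .ofNat 259, .negSucc 377, .ofNat 28, .ofNat 43, .negSucc 186, .negSucc 0, .ofNat 203, .negSucc 59, .ofNat 2821],
    [.negSucc 127, .negSucc 529, .negSucc 93, .negSucc 50, .negSucc 455, .negSucc 172, .negSucc 213, .negSucc 153, .negSucc 164, .negSucc 169, .negSucc 389, .ofNat 93, .ofNat 25, .negSucc 173, .negSucc 31, .negSucc 21, .negSucc 332, .ofNat 33, .negSucc 2, .ofNat 250, .ofNat 213, .ofNat 233, .ofNat 2917],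
    [.ofNat 286, .ofNat 323, .ofNat 103, .negSucc 495, .negSucc 267, .negSucc 444, .negSucc 614, .ofNat 1, .negSucc 475, .negSucc 195, .negSucc 349, .negSucc 258, .negSucc 630, .ofNat 308, .negSucc 326, .negSucc 217, .ofNat 231, .negSucc 188, .ofNat 323, .negSucc 16, .ofNat 13, .ofNat 461, .negSucc 335, .ofNat 2638],
    [.negSucc 222, .negSucc 239, .ofNat 27, .ofNat 69, .negSucc 635, .negSucc 362, .negSucc 495, .negSucc 63, .negSucc 183, .ofNat 50, .negSucc 526, .negSucc 463, .negSucc 388, .ofNat 13, .ofNat 95, .ofNat 0, .negSucc 350, .ofNat 46, .ofNat 344, .negSucc 98, .ofNat 27, .ofNat 63, .ofNat 229, .ofNat 192, .ofNat 2746],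
    [.ofNat 224, .negSucc 113, .negSucc 27, .negSucc 440, .ofNat 175, .ofNat 72, .negSucc 189, .ofNat 69, .ofNat 48, .ofNat 62, .ofNat 205, .ofNat 208, .negSucc 56, .negSucc 77, .negSucc 80, .ofNat 415, .ofNat 147, .ofNat 2, .ofNat 205, .negSucc 29, .ofNat 215, .ofNat 456, .ofNat 291, .negSucc 20, .ofNat 71, .ofNat 2903],
    [.negSucc 19, .ofNat 82, .ofNat 116, .negSucc 385, .ofNat 262, .ofNat 286, .negSucc 365, .ofNat 14, .negSucc 553, .ofNat 57, .negSucc 160, .negSucc 165, .negSucc 624, .negSucc 301, .negSucc 658, .negSucc 189, .ofNat 413, .ofNat 26, .ofNat 484, .ofNat 378, .ofNat 193, .ofNat 8, .negSucc 500, .ofNat 269, .negSucc 357, .ofNat 89, .ofNat 2672],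
    [.ofNat 53, .negSucc 71, .negSucc 155, .ofNat 100, .negSucc 39, .ofNat 80, .ofNat 259, .negSucc 74, .negSucc 0, .ofNat 141, .negSucc 694, .negSucc 456, .negSucc 246, .negSucc 450, .negSucc 211, .negSucc 27, .negSucc 358, .ofNat 400, .ofNat 457, .ofNat 334, .negSucc 414, .negSucc 77, .ofNat 1, .ofNat 49, .ofNat 243, .ofNat 44, .ofNat 253, .ofNat 2908],
    [.ofNat 86, .ofNat 416, .ofNat 566, .ofNat 346, .negSucc 104, .ofNat 84, .negSucc 242, .ofNat 49, .negSucc 114, .ofNat 87, .ofNat 390, .ofNat 402, .ofNat 253, .ofNat 389, .ofNat 413, .ofNat 96, .ofNat 7, .negSucc 31, .ofNat 192, .ofNat 35, .ofNat 9, .negSucc 74, .negSucc 145, .ofNat 337, .ofNat 421, .ofNat 107, .negSucc 98, .negSucc 61, .ofNat 2793],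
    [.ofNat 170, .negSucc 43, .ofNat 402, .ofNat 390, .ofNat 60, .ofNat 523, .ofNat 245, .ofNat 218, .negSucc 158, .negSucc 317, .ofNat 461, .ofNat 716, .ofNat 576, .ofNat 621, .ofNat 377, .negSucc 184, .ofNat 171, .ofNat 78, .negSucc 310, .ofNat 103, .ofNat 134, .negSucc 33, .ofNat 2, .negSucc 104, .negSucc 177, .ofNat 59, .negSucc 93, .negSucc 35, .ofNat 300, .ofNat 2665],
    [.ofNat 177, .ofNat 327, .ofNat 335, .negSucc 480, .ofNat 324, .ofNat 325, .negSucc 489, .ofNat 187, .negSucc 471, .negSucc 440, .ofNat 349, .ofNat 351, .negSucc 459, .ofNat 80, .negSucc 590, .negSucc 146, .ofNat 112, .negSucc 256, .ofNat 546, .ofNat 691, .negSucc 37, .ofNat 82, .negSucc 713, .ofNat 359, .negSucc 583, .negSucc 19, .ofNat 503, .ofNat 6, .ofNat 562, .ofNat 419, .ofNat 2925],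
    [.negSucc 66, .negSucc 194, .negSucc 155, .ofNat 237, .negSucc 191, .negSucc 156, .ofNat 215, .negSucc 178, .negSucc 86, .negSucc 285, .negSucc 68, .ofNat 35, .ofNat 247, .negSucc 78, .negSucc 0, .ofNat 98, .negSucc 635, .ofNat 52, .ofNat 279, .ofNat 379, .negSucc 420, .negSucc 192, .negSucc 12, .negSucc 75, .ofNat 234, .negSucc 97, .negSucc 395, .ofNat 391, .ofNat 478, .ofNat 380, .ofNat 204, .ofNat 3063],
    [.ofNat 88, .ofNat 461, .ofNat 499, .ofNat 164, .ofNat 189, .ofNat 56, .negSucc 271, .ofNat 191, .ofNat 12, .ofNat 442, .negSucc 47, .ofNat 141, .negSucc 299, .ofNat 239, .negSucc 191, .ofNat 54, .ofNat 243, .negSucc 35, .ofNat 227, .negSucc 38, .ofNat 86, .ofNat 202, .negSucc 11, .ofNat 539, .ofNat 473, .ofNat 390, .ofNat 118, .ofNat 46, .ofNat 352, .negSucc 269, .negSucc 51, .negSucc 31, .ofNat 3054],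
    [.ofNat 224, .ofNat 122, .ofNat 601, .ofNat 513, .ofNat 227, .ofNat 501, .ofNat 264, .ofNat 112, .negSucc 261, .ofNat 217, .ofNat 99, .ofNat 412, .ofNat 230, .ofNat 215, .negSucc 270, .negSucc 406, .ofNat 134, .negSucc 200, .negSucc 474, .ofNat 150, .ofNat 262, .ofNat 125, .ofNat 25, .ofNat 215, .negSucc 21, .negSucc 2, .negSucc 14, .negSucc 102, .ofNat 227, .ofNat 423, .negSucc 61, .negSucc 37, .ofNat 385, .ofNat 2923],
    [.negSucc 203, .negSucc 203, .negSucc 203, .ofNat 0, .negSucc 237, .negSucc 237, .ofNat 102, .negSucc 101, .ofNat 238, .ofNat 238, .ofNat 34, .ofNat 34, .ofNat 102, .negSucc 101, .negSucc 33, .negSucc 33, .negSucc 339, .negSucc 408, .negSucc 408, .negSucc 135, .negSucc 237, .negSucc 237, .ofNat 102, .negSucc 101, .ofNat 238, .ofNat 34, .negSucc 203, .ofNat 0, .ofNat 136, .negSucc 135, .negSucc 67, .ofNat 409, .ofNat 272, .ofNat 272, .ofNat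 2937]]

theorem cls9_ok : check cls9 = true := by decide +kernel

end Pool.Agent.V1197.ZN
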