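import Pool.Agent.V1197.ZN.Cert

namespace Pool.Agent.V1197.ZN

/-- partial l1 norm -/
def PS (p : ℕ → ℝ) : ℕ → ℕ → ℝ
  | _, 0 => 0
  | k, n + 1 => |p k| + PS p (k + 1) n

/-- partial square norm -/
def P2 (p : ℕ → ℝ) : ℕ → ℕ → ℝ
  | _, 0 => 0
  | k, n + 1 => p k ^ 2 + P2 p (k + 1) n

theorem PS_nonneg (p : ℕ → ℝ) (k n : ℕ) : 0 ≤ PS p k n := by
  induction n generalizing k with
  | zero => simp [PS]
  | succ n ih => simp only [PS]; linarith [ih (k + 1), abs_nonneg (p k)]

theorem P2_nonneg (p : ℕ → ℝ) (k n : ℕ) : 0 ≤ P2 p k n := by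
  induction n generalizing k with
  | zero => simp [P2]
  | succ n ih => simp only [P2]; have := ih (k + 1); positivity

theorem PS_sq (p : ℕ → ℝ) (k n : ℕ) : PS p k n ^ 2 ≤ n * P2 p k n := by
  induction n generalizing k with
  | zero => simp [PS, P2]
  | succ n ih =>
    simp only [PS, P2]
    have h := ih (k + 1)
    have h0 := PS_nonneg p (k + 1) n
    have ha := abs_nonneg (p k)
    have hs := sq_abs (p k)
    push_cast
    -- (a + X)^2 ≤ (n+1)(a^2 + Y), X^2 ≤ n Y
    rcases Nat.eq_zero_or_pos n with hn | hn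
    · subst hn
      simp [PS, P2]
    · have hn' : (0 : ℝ) < n := by exact_mod_cast hn
      have e : 2 * |p k| * PS p (k + 1) n ≤ n * |p k| ^ 2 + P2 p (k + 1) n := by
        have h1 : PS p (k + 1) n ^ 2 / n ≤ P2 p (k + 1) n := by
          rw [div_le_iff₀ hn']; linarith
        have h2 : 2 * |p k| * PS p (k + 1) n ≤ n * |p k| ^ 2 + PS p (k + 1) n ^ 2 / n := by
          rw [← sub_nonneg]
          have : n * |p k| ^ 2 + PS p (k + 1) n ^ 2 / n - 2 * |p k| * PS p (k + 1) n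
              = (n * |p k| - PS p (k + 1) n) ^ 2 / n := by
            field_simp
            ring
          rw [this]
          positivity
        linarith
      nlinarith

theorem rowOK_bound (eta : ℕ) (r : List ℤ) (n : ℕ) (p : ℕ → ℝ) (k : ℕ)
    (h : rowOK eta r n = true) : |dot r p k| ≤ eta * PS p k n := by
  induction r generalizing n k with
  | nil => simp only [dot, abs_zero]; exact mul_nonneg (Nat.cast_nonneg _) (PS_nonneg _ _ _)
  | cons a l ih =>
    cases n with
    | zero => simp [rowOK] at h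
    | succ n =>
      simp only [rowOK, Bool.and_eq_true, Nat.ble_eq] at h
      simp only [dot, PS]
      have h1 := ih n (k + 1) h.2
      have h2 : |(a : ℝ)| ≤ eta := by
        have : (a.natAbs : ℝ) ≤ eta := by exact_mod_cast h.1
        rwa [Nat.cast_natAbs, Int.cast_abs] at this
      calc |(a : ℝ) * p k + dot l p (k + 1)| ≤ |(a : ℝ) * p k| + |dot l p (k + 1)| := abs_add_le _ _
        _ ≤ eta * |p k| + eta * PS p (k + 1) n := by
            rw [abs_mul]
            exact add_le_add (mul_le_mul_of_nonneg_right h2 (abs_nonneg _)) h1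
        _ = _ := by ring

theorem imul (a b : ℤ) : Int.mul a b = a * b := rfl
theorem iadd (a b : ℤ) : Int.add a b = a + b := rfl
theorem ineg (a : ℤ) : Int.neg a = -a := rfl

theorem matOK_bound (eta : ℕ) (N : List (List ℤ)) (n : ℕ) (p : ℕ → ℝ) (k : ℕ)
    (h : matOK eta N n = true) : |qev N p k| ≤ eta * ((PS p k n ^ 2 + P2 p k n) / 2) := by
  induction N generalizing n k with
  | nil =>
    simp only [qev, abs_zero]
    have h1 := P2_nonneg p k n
    positivity
  | cons r l ih =>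
    cases n with
    | zero => simp [matOK] at h
    | succ n =>
      simp only [matOK, Bool.and_eq_true] at h
      have h1 := ih n (k + 1) h.2
      have h2 := rowOK_bound eta r (n + 1) p k h.1
      simp only [qev, PS, P2] at h2 ⊢
      have hsq := sq_abs (p k)
      have heta : (0 : ℝ) ≤ eta := Nat.cast_nonneg _
      calc |p k * dot r p k + qev l p (k + 1)| ≤ |p k * dot r p k| + |qev l p (k + 1)| := abs_add_le _ _
        _ ≤ |p k| * (eta * (|p k| + PS p (k + 1) n)) + eta * ((PS p (k + 1) n ^ 2 + P2 p (k + 1) n) / 2) := by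
            rw [abs_mul]
            exact add_le_add (mul_le_mul_of_nonneg_left h2 (abs_nonneg _)) h1
        _ = _ := by rw [← hsq]; ring

theorem qev_diagM (c : ℤ) (n : ℕ) (p : ℕ → ℝ) (k : ℕ) : qev (diagM c n) p k = c * P2 p k n := by
  induction n generalizing k with
  | zero => simp [diagM, qev, P2]
  | succ n ih =>
    simp only [diagM, qev, P2, ih, dot]
    ring

theorem sum_sq_nonneg (U : List (List ℤ)) (p : ℕ → ℝ) (k : ℕ) :
    0 ≤ (U.map (fun u => dot u p k ^ 2)).sum := by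
  induction U with
  | nil => simp
  | cons u l ih => simp only [List.map_cons, List.sum_cons]; positivity

theorem sound (C : Cls) (p : ℕ → ℝ) (hc : check C = true) (h1 : 18 * (C.eta : ℤ) < C.del)
    (h2 : 0 < C.s) (hP : 0 < P2 p 0 35) :
    0 < qev (base C) p 0 + C.kap * ((linAll C.chi).map (fun u => dot u p 0 ^ 2)).sum := by
  simp only [check, Bool.and_eq_true] at hc
  obtain ⟨hc, hL⟩ := hc
  have hL' := eqLL_spec _ _ hL
  have hb := matOK_bound C.eta (mkR C) 35 p 0 hc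
  set X := qev (base C) p 0 + C.kap * ((linAll C.chi).map (fun u => dot u p 0 ^ 2)).sum with hX
  have hR : qev (mkR C) p 0 ≤ -(C.del : ℝ) * P2 p 0 35 + C.s * X := by
    simp only [mkR, qev_madd, qev_diagM, qev_mscale, qev_sumOuter, ineg]
    rw [← hL', ← hX]
    have e : ((Int.negSucc 0 : ℤ) : ℝ) = -1 := by norm_num
    rw [e]
    have := sum_sq_nonneg C.U p 0
    push_cast
    linarith
  have hlow : -(C.eta * ((PS p 0 35 ^ 2 + P2 p 0 35) / 2)) ≤ qev (mkR C) p 0 := (abs_le.1 hb).1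
  have hsq := PS_sq p 0 35
  have h1' : 18 * (C.eta : ℝ) < C.del := by exact_mod_cast h1
  have h2' : (0 : ℝ) < C.s := by exact_mod_cast h2
  have heta : (0 : ℝ) ≤ C.eta := Nat.cast_nonneg _
  have h3 : C.eta * ((PS p 0 35 ^ 2 + P2 p 0 35) / 2) ≤ 18 * C.eta * P2 p 0 35 := by
    push_cast at hsq
    nlinarith
  have h4 : 0 < C.s * X := by nlinarith
  exact (pos_iff_pos_of_mul_pos h4).1 h2'

/-! meaning of the matrix `mkN` -/

section sem

variable (p : ℕ → ℝ) (Dn : ℕ → ℕ → ℕ → ℝ)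
variable (hD : ∀ a b c, a < 7 → b < 7 → c < 7 → Dn a b c = sg a b c * p (ix a b c))

include hD in
theorem qev_addGP (N : List (List ℤ)) (m : ℤ) (q : ℕ × ℕ × ℕ × ℕ × ℕ)
    (hq : q.1 < 7 ∧ q.2.1 < 7 ∧ q.2.2.1 < 7 ∧ q.2.2.2.1 < 7 ∧ q.2.2.2.2 < 7)
    (hGP : ∀ i a b c d, Dn i a b * Dn i c d - Dn i a c * Dn i b d + Dn i a d * Dn i b c = 0) :
    qev (addGP N m q) p 0 = qev N p 0 := by
  obtain ⟨i, a, b, c, d⟩ := q
  obtain ⟨h1, h2, h3, h4, h5⟩ := hq
  simp only at h1 h2 h3 h4 h5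
  have h := hGP i a b c d
  rw [hD i a b h1 h2 h3, hD i c d h1 h4 h5, hD i a c h1 h2 h4, hD i b d h1 h3 h5,
    hD i a d h1 h2 h5, hD i b c h1 h3 h4] at h
  simp only [addGP, qev_addMon, imul, ineg]
  push_cast
  linear_combination (2 * (m : ℝ)) * h

include hD in
theorem qev_addGPs (l : List (ℕ × ℕ × ℕ × ℕ × ℕ)) (mu : List ℤ) (N : List (List ℤ))
    (hl : ∀ q ∈ l, q.1 < 7 ∧ q.2.1 < 7 ∧ q.2.2.1 < 7 ∧ q.2.2.2.1 < 7 ∧ q.2.2.2.2 < 7)
    (hGP : ∀ i a b c d, Dn i a b * Dn i c d - Dn i a c * Dn i b d + Dn i a d * Dn i b c = 0) :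
    qev (addGPs l mu N) p 0 = qev N p 0 := by
  induction l generalizing mu N with
  | nil => simp [addGPs]
  | cons q l ih =>
    cases mu with
    | nil => simp [addGPs]
    | cons m mu =>
      simp only [addGPs]
      rw [ih _ _ (fun q hq => hl q (List.mem_cons_of_mem _ hq)),
        qev_addGP p Dn hD N m q (hl q List.mem_cons_self) hGP]

theorem gps_lt : ∀ q ∈ gps, q.1 < 7 ∧ q.2.1 < 7 ∧ q.2.2.1 < 7 ∧ q.2.2.2.1 < 7 ∧ q.2.2.2.2 < 7 := by
  decide +kernel

theorem pairs_lt : ∀ q ∈ pairs7, q.1 < 7 ∧ q.2 < 7 := by decide +kernel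

include hD in
theorem qev_addT (i : ℕ) (hi : i < 7) (w : ℤ) (l : List (ℕ × ℕ)) (N : List (List ℤ))
    (hl : ∀ q ∈ l, q.1 < 7 ∧ q.2 < 7) :
    qev (addT i w l N) p 0 = qev N p 0 + 2 * w * (l.map (fun q => Dn i q.1 q.2 ^ 2)).sum := by
  induction l generalizing N with
  | nil => simp [addT]
  | cons q l ih =>
    simp only [addT, List.map_cons, List.sum_cons]
    rw [ih _ (fun q hq => hl q (List.mem_cons_of_mem _ hq)), qev_addMon]
    have hq := hl q List.mem_cons_self
    rw [hD i q.1 q.2 hi hq.1 hq.2]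
    simp only [imul]
    push_cast
    ring

include hD in
theorem qev_addTs (i : ℕ) (l : List ℤ) (N : List (List ℤ)) (hi : i + l.length ≤ 7) (t0 : ℝ)
    (hT : ∀ i, i < 7 → (pairs7.map (fun q => Dn i q.1 q.2 ^ 2)).sum = t0) :
    qev (addTs i l N) p 0 = qev N p 0 + 2 * t0 * (l.sum : ℤ) := by
  induction l generalizing i N with
  | nil => simp [addTs]
  | cons w l ih =>
    simp only [addTs]
    simp only [List.length_cons] at hi
    rw [ih (i + 1) _ (by omega), qev_addT p Dn hD i (by omega) w pairs7 N pairs_lt, hT i (by omega)]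
    simp only [List.sum_cons]
    push_cast
    ring

/-- the alternating sign function of a class -/
def chf (chi : List ℤ) (a b c : ℕ) : ℤ := sg a b c * nthZ chi (ix a b c)

include hD in
theorem dot_linA (chi : List ℤ) (i j : ℕ) (s : ℤ) (hi : i < 7) (l : List (ℕ × ℕ)) (L : List ℤ)
    (hl : ∀ q ∈ l, q.1 < 7 ∧ q.2 < 7) :
    dot (linA chi i j s l L) p 0 = dot L p 0 +
      s * (l.map (fun q => (chf chi j q.1 q.2 : ℝ) * Dn i q.1 q.2)).sum := by
  induction l generalizing L with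
  | nil => simp [linA]
  | cons q l ih =>
    simp only [linA, List.map_cons, List.sum_cons]
    rw [ih _ (fun q hq => hl q (List.mem_cons_of_mem _ hq)), dot_vadd, dot_single]
    have hq := hl q List.mem_cons_self
    rw [hD i q.1 q.2 hi hq.1 hq.2]
    simp only [chf, Nat.zero_add, imul]
    push_cast
    ring

variable (chi : List ℤ)
variable (hA1 : ∀ i j, i < 7 → j < 7 →
  (pairs7.map (fun q => (chf chi j q.1 q.2 : ℝ) * Dn i q.1 q.2)).sum =
  (pairs7.map (fun q => (chf chi i q.1 q.2 : ℝ) * Dn j q.1 q.2)).sum)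
variable (hA2 : ∀ i, i < 7 →
  (pairs7.map (fun q => (chf chi i q.1 q.2 : ℝ) * Dn i q.1 q.2)).sum =
  (pairs7.map (fun q => (chf chi 0 q.1 q.2 : ℝ) * Dn 0 q.1 q.2)).sum)

include hD hA1 hA2 in
theorem linAll_zero : ((linAll chi).map (fun u => dot u p 0 ^ 2)).sum = 0 := by
  have h : ∀ u ∈ linAll chi, dot u p 0 = 0 := by
    intro u hu
    simp only [linAll, List.mem_append, List.mem_map] at hu
    rcases hu with ⟨q, hq, rfl⟩ | ⟨q, hq, rfl⟩
    · have hq := pairs_lt q hq
      rw [linOff, dot_linA p Dn hD chi _ _ _ hq.2 _ _ pairs_lt, dot_linA p Dn hD chi _ _ _ hq.1 _ _ pairs_lt,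
        hA1 q.1 q.2 hq.1 hq.2]
      simp [dot]
    · have hq : q < 7 := by
        simp only [List.mem_cons, List.not_mem_nil, or_false] at hq
        omega
      rw [linDiag, dot_linA p Dn hD chi _ _ _ (by norm_num) _ _ pairs_lt, dot_linA p Dn hD chi _ _ _ hq _ _ pairs_lt,
        hA2 q hq]
      simp [dot]
  have h2 : ∀ l : List (List ℤ), (∀ u ∈ l, dot u p 0 = 0) → (l.map (fun u => dot u p 0 ^ 2)).sum = 0 := by
    intro l
    induction l with
    | nil => intro _; simp
    | cons a l ih =>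
      intro hl
      simp only [List.map_cons, List.sum_cons]
      rw [hl a List.mem_cons_self, ih (fun u hu => hl u (List.mem_cons_of_mem _ hu))]
      simp
  exact h2 _ h

end sem

theorem contra (C : Cls) (p : ℕ → ℝ) (Dn : ℕ → ℕ → ℕ → ℝ)
    (hD : ∀ a b c, a < 7 → b < 7 → c < 7 → Dn a b c = sg a b c * p (ix a b c))
    (hGP : ∀ i a b c d, Dn i a b * Dn i c d - Dn i a c * Dn i b d + Dn i a d * Dn i b c = 0)
    (t0 : ℝ) (hT : ∀ i, i < 7 → (pairs7.map (fun q => Dn i q.1 q.2 ^ 2)).sum = t0)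
    (hA1 : ∀ i j, i < 7 → j < 7 →
      (pairs7.map (fun q => (chf C.chi j q.1 q.2 : ℝ) * Dn i q.1 q.2)).sum =
      (pairs7.map (fun q => (chf C.chi i q.1 q.2 : ℝ) * Dn j q.1 q.2)).sum)
    (hA2 : ∀ i, i < 7 →
      (pairs7.map (fun q => (chf C.chi i q.1 q.2 : ℝ) * Dn i q.1 q.2)).sum =
      (pairs7.map (fun q => (chf C.chi 0 q.1 q.2 : ℝ) * Dn 0 q.1 q.2)).sum)
    (hF : 6272 * P2 p 0 35 ≤ 200 * (dot C.chi p 0) ^ 2) (hP : 0 < P2 p 0 35)
    (hc : check C = true) (h1 : 18 * (C.eta : ℤ) < C.del)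
    (h2 : 0 < C.s) (h3 : C.om.sum = 0) (h4 : C.om.length = 7) : False := by
  have h := sound C p hc h1 h2 hP
  rw [linAll_zero p Dn hD C.chi hA1 hA2, base,
    qev_addTs p Dn hD 0 C.om _ (by omega) t0 hT, h3, qev_addGPs p Dn hD _ _ _ gps_lt hGP,
    qev_madd, qev_diagM, qev_mscale, qev_outer] at h
  have e : ((Int.negSucc 199 : ℤ) : ℝ) = -200 := by norm_num
  rw [e] at h
  push_cast at h
  nlinarith

end Pool.Agent.V1197.ZN
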