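import Pool.Agent.V1197.ZN.Geo
import Pool.Agent.V1197.ZN.Sound

namespace Pool.Agent.V1197.ZN
open Finset

def E (v : Fin 7 → Fin 3 → ℝ) (i j a b c : Fin 7) : ℝ :=
  (if a = j then D v i b c else 0) + (if b = j then D v a i c else 0) + (if c = j then D v a b i else 0)

theorem D_update (v : Fin 7 → Fin 3 → ℝ) (i j : Fin 7) (t : ℝ) (a b c : Fin 7) :
    D (Function.update v j (v j + t • v i)) a b c = D v a b c + t * E v i j a b c := by
  simp only [D, E, Function.update_apply]
  rcases eq_or_ne a j with ha | ha <;> rcases eq_or_ne b j with hb | hb <;>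
    rcases eq_or_ne c j with hc | hc <;>
    simp only [ha, hb, hc, if_true, if_false, det3, Pi.add_apply, Pi.smul_apply, smul_eq_mul] <;> ring

theorem lin_zero (al be : ℝ) (h : ∀ t : ℝ, al * t ≤ be * t ^ 2) : al = 0 := by
  by_contra hne
  rcases lt_or_gt_of_ne hne with hlt | hgt
  · have hb : 0 < |be| + 1 := by positivity
    have h1 := h (al / (|be| + 1) / 2)
    have h2 : be * (al / (|be| + 1) / 2) ^ 2 ≤ (|be| + 1) * (al / (|be| + 1) / 2) ^ 2 := by
      apply mul_le_mul_of_nonneg_right _ (sq_nonneg _)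
      linarith [le_abs_self be]
    have h3 : (|be| + 1) * (al / (|be| + 1) / 2) ^ 2 = al ^ 2 / (|be| + 1) / 4 := by
      field_simp
      ring
    have h4 : al * (al / (|be| + 1) / 2) = al ^ 2 / (|be| + 1) / 2 := by
      field_simp
    have h5 : 0 < al ^ 2 / (|be| + 1) := by positivity
    rw [h4] at h1
    rw [h3] at h2
    linarith
  · have hb : 0 < |be| + 1 := by positivity
    have h1 := h (al / (|be| + 1) / 2)
    have h2 : be * (al / (|be| + 1) / 2) ^ 2 ≤ (|be| + 1) * (al / (|be| + 1) / 2) ^ 2 := by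
      apply mul_le_mul_of_nonneg_right _ (sq_nonneg _)
      linarith [le_abs_self be]
    have h3 : (|be| + 1) * (al / (|be| + 1) / 2) ^ 2 = al ^ 2 / (|be| + 1) / 4 := by
      field_simp
      ring
    have h4 : al * (al / (|be| + 1) / 2) = al ^ 2 / (|be| + 1) / 2 := by
      field_simp
    have h5 : 0 < al ^ 2 / (|be| + 1) := by positivity
    rw [h4] at h1
    rw [h3] at h2
    linarith

theorem first_order (v : Fin 7 → Fin 3 → ℝ) (F0 : ℝ) (hF0 : 0 < F0)
    (hMI : ∀ w : Fin 7 → Fin 3 → ℝ, S1 w ^ 2 ≤ 6 * F0 ^ 2 * S2 w)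
    (hS1 : S1 v = 6 * F0) (hS2 : S2 v = 6)
    (chi : Fin 7 → Fin 7 → Fin 7 → ℝ) (h1 : ∀ a b c, |chi a b c| ≤ 1)
    (h2 : ∀ a b c, chi a b c * D v a b c = |D v a b c|) (i j : Fin 7) :
    ∑ a, ∑ b, ∑ c, chi a b c * E v i j a b c = F0 * ∑ a, ∑ b, ∑ c, D v a b c * E v i j a b c := by
  set X := ∑ a, ∑ b, ∑ c, chi a b c * E v i j a b c with hX
  set Y := ∑ a, ∑ b, ∑ c, D v a b c * E v i j a b c with hY
  set Z := ∑ a, ∑ b, ∑ c, E v i j a b c ^ 2 with hZ
  have key : ∀ t : ℝ, 12 * F0 * (X - F0 * Y) * t ≤ (6 * F0 ^ 2 * Z - X ^ 2) * t ^ 2 := by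
    intro t
    have hm := hMI (Function.update v j (v j + t • v i))
    have e2 : S2 (Function.update v j (v j + t • v i)) = 6 + 2 * t * Y + t ^ 2 * Z := by
      rw [← hS2, S2, S2, hY, hZ]
      simp only [D_update, mul_sum, ← sum_add_distrib]
      refine sum_congr rfl (fun a _ => sum_congr rfl (fun b _ => sum_congr rfl (fun c _ => ?_)))
      ring
    have e1 : ∑ a, ∑ b, ∑ c, chi a b c * D (Function.update v j (v j + t • v i)) a b c
        = 6 * F0 + t * X := by
      rw [← hS1, S1, hX]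
      simp only [D_update, mul_sum, ← sum_add_distrib]
      refine sum_congr rfl (fun a _ => sum_congr rfl (fun b _ => sum_congr rfl (fun c _ => ?_)))
      rw [mul_add, h2]
      ring
    have e3 : |6 * F0 + t * X| ≤ S1 (Function.update v j (v j + t • v i)) := by
      rw [← e1, S1]
      refine (abs_sum_le_sum_abs _ _).trans (sum_le_sum (fun a _ => ?_))
      refine (abs_sum_le_sum_abs _ _).trans (sum_le_sum (fun b _ => ?_))
      refine (abs_sum_le_sum_abs _ _).trans (sum_le_sum (fun c _ => ?_))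
      rw [abs_mul]
      calc |chi a b c| * |D (Function.update v j (v j + t • v i)) a b c|
          ≤ 1 * |D (Function.update v j (v j + t • v i)) a b c| :=
            mul_le_mul_of_nonneg_right (h1 a b c) (abs_nonneg _)
        _ = _ := one_mul _
    have e4 : (6 * F0 + t * X) ^ 2 ≤ 6 * F0 ^ 2 * (6 + 2 * t * Y + t ^ 2 * Z) := by
      rw [← e2]
      refine le_trans ?_ hm
      rw [← sq_abs]
      exact pow_le_pow_left₀ (abs_nonneg _) e3 2
    nlinarith
  have h := lin_zero _ _ key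
  have h12 : (12 * F0) ≠ 0 := by positivity
  rcases mul_eq_zero.1 h with h | h
  · exact absurd h h12
  · linarith

/-- total sums of an alternating against a derivative -/
theorem sum_E (v : Fin 7 → Fin 3 → ℝ) (i j : Fin 7) (f : Fin 7 → Fin 7 → Fin 7 → ℝ)
    (f1 : ∀ a b c, f b a c = - f a b c) (f2 : ∀ a b c, f a c b = - f a b c) :
    ∑ a, ∑ b, ∑ c, f a b c * E v i j a b c = 3 * ∑ b, ∑ c, f j b c * D v i b c := by
  have d1 : ∀ a b c, D v b a c = - D v a b c := fun a b c => det3_swap12 _ _ _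
  have d2 : ∀ a b c, D v a c b = - D v a b c := fun a b c => det3_swap23 _ _ _
  simp only [E, mul_add, sum_add_distrib, mul_ite, mul_zero]
  have t1 : ∑ a, ∑ b, ∑ c, (if a = j then f a b c * D v i b c else 0) = ∑ b, ∑ c, f j b c * D v i b c := by
    rw [Finset.sum_eq_single j]
    · simp
    · intro a _ ha; simp [ha]
    · simp
  have t2 : ∑ a, ∑ b, ∑ c, (if b = j then f a b c * D v a i c else 0) = ∑ b, ∑ c, f j b c * D v i b c := by
    refine sum_congr rfl (fun a _ => ?_)
    rw [Finset.sum_eq_single j]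
    · refine sum_congr rfl (fun c _ => ?_)
      rw [if_pos rfl, f1 j a c, d1 i a c]; ring
    · intro b _ hb; simp [hb]
    · simp
  have t3 : ∑ a, ∑ b, ∑ c, (if c = j then f a b c * D v a b i else 0) = ∑ b, ∑ c, f j b c * D v i b c := by
    refine sum_congr rfl (fun a _ => ?_)
    refine sum_congr rfl (fun b _ => ?_)
    rw [Finset.sum_eq_single j]
    · rw [if_pos rfl, f2 a j b, f1 j a b, d2 a i b, d1 i a b]; ring
    · intro c _ hc; simp [hc]
    · simp
  rw [t1, t2, t3]
  ring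

theorem sum_pairs (f : ℕ → ℕ → ℝ) (hs : ∀ a b, f b a = f a b) (h0 : ∀ a, f a a = 0) :
    ∑ b : Fin 7, ∑ c : Fin 7, f b c = 2 * (pairs7.map (fun q => f q.1 q.2)).sum := by
  simp only [Fin.sum_univ_succ, Fin.sum_univ_zero, pairs7, List.map_cons, List.map_nil, List.sum_cons, List.sum_nil]
  simp only [Fin.val_zero, Fin.val_succ, h0]
  norm_num
  simp only [hs 0 1, hs 0 2, hs 0 3, hs 0 4, hs 0 5, hs 0 6, hs 1 2, hs 1 3, hs 1 4, hs 1 5, hs 1 6,
    hs 2 3, hs 2 4, hs 2 5, hs 2 6, hs 3 4, hs 3 5, hs 3 6, hs 4 5, hs 4 6, hs 5 6]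
  ring

theorem count6 : ∀ k : Fin 35, ((Finset.univ : Finset (Fin 7 × Fin 7 × Fin 7)).filter
    (fun t => sg t.1 t.2.1 t.2.2 ≠ 0 ∧ ix t.1 t.2.1 t.2.2 = k)).card = 6 := by
  decide +kernel

theorem sum_ix (f : ℕ → ℝ) (g : Fin 7 → Fin 7 → Fin 7 → ℝ)
    (hg : ∀ a b c : Fin 7, g a b c = if sg a b c ≠ 0 then f (ix a b c) else 0) :
    ∑ a, ∑ b, ∑ c, g a b c = 6 * ∑ k ∈ range 35, f k := by
  have h1 : ∀ a b c : Fin 7, g a b c = ∑ k : Fin 35,
      if (sg a b c ≠ 0 ∧ ix a b c = k) then f k else 0 := by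
    intro a b c
    rw [hg]
    by_cases h : sg a b c ≠ 0
    · have hlt := ix_lt a b c h
      rw [if_pos h, Finset.sum_eq_single ⟨ix a b c, hlt⟩]
      · simp [h]
      · intro k _ hk
        rw [if_neg]
        rintro ⟨_, h2⟩
        exact hk (Fin.ext h2.symm)
      · simp
    · rw [if_neg h]
      symm
      apply Finset.sum_eq_zero
      intro k _
      rw [if_neg]
      exact fun hh => h hh.1
  have h2 : ∑ a, ∑ b, ∑ c, g a b c = ∑ t : Fin 7 × Fin 7 × Fin 7, g t.1 t.2.1 t.2.2 := by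
    rw [Fintype.sum_prod_type]
    refine sum_congr rfl (fun a _ => ?_)
    rw [Fintype.sum_prod_type]
  rw [h2]
  simp only [h1]
  rw [Finset.sum_comm, Finset.mul_sum, Finset.sum_range]
  refine sum_congr rfl (fun k _ => ?_)
  rw [← Finset.sum_filter, Finset.sum_const, count6 k]
  simp

end Pool.Agent.V1197.ZN
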