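import Pool.Agent.V1197.ZN.Close
import Pool.Agent.V1197.ZN.Data0
import Pool.Agent.V1197.ZN.Data1
import Pool.Agent.V1197.ZN.Data2
import Pool.Agent.V1197.ZN.Data3
import Pool.Agent.V1197.ZN.Data4
import Pool.Agent.V1197.ZN.Data5
import Pool.Agent.V1197.ZN.Data6
import Pool.Agent.V1197.ZN.Data7
import Pool.Agent.V1197.ZN.Data8
import Pool.Agent.V1197.ZN.Data9
import Pool.Agent.V1197.ZN.Data10

namespace Pool.Agent.V1197.ZN
open Finset

def WZ : Fin 7 → Fin 3 → ℤ :=
  ![![-5, 7, 0], ![3, 0, -7], ![7, 2, 7], ![1, -7, -8], ![-4, -7, -3], ![-8, 1, 1], ![2, -3, 7]]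

def DZ (a b c : Fin 7) : ℤ :=
  WZ a 0 * (WZ b 1 * WZ c 2 - WZ b 2 * WZ c 1) - WZ a 1 * (WZ b 0 * WZ c 2 - WZ b 2 * WZ c 0) +
    WZ a 2 * (WZ b 0 * WZ c 1 - WZ b 1 * WZ c 0)

def wR : Fin 7 → Fin 3 → ℝ := fun i a => (WZ i a : ℝ)

theorem D_wR (a b c : Fin 7) : D wR a b c = (DZ a b c : ℝ) := by
  simp only [D, det3, wR, DZ]
  push_cast
  ring

theorem sum1 : (∑ a : Fin 7, ∑ b : Fin 7, ∑ c : Fin 7, |DZ a b c|) = 73464 := by decide +kernel

theorem sum2 : (∑ a : Fin 7, ∑ b : Fin 7, ∑ c : Fin 7, DZ a b c ^ 2) = 28676256 := by decide +kernel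

theorem S1_wR : S1 wR = 73464 := by
  have h : ((∑ a : Fin 7, ∑ b : Fin 7, ∑ c : Fin 7, |DZ a b c| : ℤ) : ℝ) = 73464 := by
    rw [sum1]; norm_num
  rw [← h, S1]
  push_cast
  simp only [D_wR]

theorem S2_wR : S2 wR = 28676256 := by
  have h : ((∑ a : Fin 7, ∑ b : Fin 7, ∑ c : Fin 7, DZ a b c ^ 2 : ℤ) : ℝ) = 28676256 := by
    rw [sum2]; norm_num
  rw [← h, S2]
  push_cast
  simp only [D_wR]

theorem chi_pm : ∀ r, r < 11 → ∀ k, k < 35 → nthZ (nthL chiL r) k = 1 ∨ nthZ (nthL chiL r) k = -1 := by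
  decide +kernel

theorem sum_perm (π : Fin 7 → Fin 7) (hπ : Function.Bijective π) (f : Fin 7 → Fin 7 → Fin 7 → ℝ) :
    ∑ a, ∑ b, ∑ c, f (π a) (π b) (π c) = ∑ a, ∑ b, ∑ c, f a b c := by
  rw [← hπ.sum_comp (fun a => ∑ b, ∑ c, f a b c)]
  refine sum_congr rfl (fun a _ => ?_)
  rw [← hπ.sum_comp (fun b => ∑ c, f (π a) b c)]
  refine sum_congr rfl (fun b _ => ?_)
  rw [← hπ.sum_comp (fun c => f (π a) (π b) c)]

theorem core : CoreStatement := by
  intro v F0 hF0 hMI hS1 hS2 hT
  obtain ⟨π, ε, r, hπ, hε, hr, hk⟩ := classify_all v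
  have hbij : Function.Bijective π := hπ.bijective_of_finite
  have habs : ∀ i, |ε i| = 1 := by
    intro i
    rcases hε i with h | h <;> rw [h] <;> norm_num
  have hsq : ∀ i, ε i ^ 2 = 1 := by
    intro i
    rcases hε i with h | h <;> rw [h] <;> norm_num
  have hS1' : S1 (act v π ε) = 6 * F0 := by
    rw [← hS1, S1, S1, ← sum_perm π hbij (fun a b c => |D v a b c|)]
    simp only [D_act, abs_mul, habs, one_mul]
  have hS2' : S2 (act v π ε) = 6 := by
    rw [← hS2, S2, S2, ← sum_perm π hbij (fun a b c => D v a b c ^ 2)]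
    simp only [D_act, mul_pow, hsq, one_mul]
  have hT' : ∀ i, ∑ b, ∑ c, (D (act v π ε) i b c) ^ 2 = 6 / 7 := by
    intro i
    rw [← hT (π i), ← hbij.sum_comp (fun b => ∑ c, (D v (π i) b c) ^ 2)]
    refine sum_congr rfl (fun b _ => ?_)
    rw [← hbij.sum_comp (fun c => (D v (π i) (π b) c) ^ 2)]
    simp only [D_act, mul_pow, hsq, one_mul]
  have hbig : 6272 ≤ 200 * F0 ^ 2 := by
    have h := hMI wR
    rw [S1_wR, S2_wR] at h
    nlinarith
  have hchi : ∀ k, k < 35 → (nthZ (nthL chiL r) k : ℝ) * pv (act v π ε) k = |pv (act v π ε) k| := by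
    intro k hk35
    have h := hk k hk35
    rcases chi_pm r hr k hk35 with h1 | h1
    · rw [h1] at h ⊢
      push_cast at h ⊢
      rw [one_mul] at h ⊢
      exact (abs_of_nonneg h).symm
    · rw [h1] at h ⊢
      push_cast at h ⊢
      rw [abs_of_nonpos (by linarith)]
      ring
  have hpm : ∀ k, k < 35 → |(nthZ (nthL chiL r) k : ℝ)| ≤ 1 := by
    intro k hk35
    rcases chi_pm r hr k hk35 with h1 | h1 <;> rw [h1] <;> norm_num
  have go : ∀ C : Cls, check C = true → 18 * (C.eta : ℤ) < C.del → 0 < C.s → C.om.sum = 0 →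
      C.om.length = 7 → C.chi.length = 35 → C.chi = nthL chiL r → False := by
    intro C h1 h2 h3 h4 h5 h6 h7
    rw [← h7] at hchi hpm
    exact class_contra C h1 h2 h3 h4 h5 h6 hpm (act v π ε) F0 hF0 hMI hS1' hS2' hT' hbig hchi
  clear hk hchi hpm
  interval_cases r
  · exact go cls0 cls0_ok (by decide +kernel) (by decide +kernel) (by decide +kernel) (by decide +kernel) (by decide +kernel) rfl
  · exact go cls1 cls1_ok (by decide +kernel) (by decide +kernel) (by decide +kernel) (by decide +kernel) (by decide +kernel) rfl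
  · exact go cls2 cls2_ok (by decide +kernel) (by decide +kernel) (by decide +kernel) (by decide +kernel) (by decide +kernel) rfl
  · exact go cls3 cls3_ok (by decide +kernel) (by decide +kernel) (by decide +kernel) (by decide +kernel) (by decide +kernel) rfl
  · exact go cls4 cls4_ok (by decide +kernel) (by decide +kernel) (by decide +kernel) (by decide +kernel) (by decide +kernel) rfl
  · exact go cls5 cls5_ok (by decide +kernel) (by decide +kernel) (by decide +kernel) (by decide +kernel) (by decide +kernel) rfl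
  · exact go cls6 cls6_ok (by decide +kernel) (by decide +kernel) (by decide +kernel) (by decide +kernel) (by decide +kernel) rfl
  · exact go cls7 cls7_ok (by decide +kernel) (by decide +kernel) (by decide +kernel) (by decide +kernel) (by decide +kernel) rfl
  · exact go cls8 cls8_ok (by decide +kernel) (by decide +kernel) (by decide +kernel) (by decide +kernel) (by decide +kernel) rfl
  · exact go cls9 cls9_ok (by decide +kernel) (by decide +kernel) (by decide +kernel) (by decide +kernel) (by decide +kernel) rfl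
  · exact go cls10 cls10_ok (by decide +kernel) (by decide +kernel) (by decide +kernel) (by decide +kernel) (by decide +kernel) rfl

end Pool.Agent.V1197.ZN
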