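import Pool.Agent.V1197.ZN.Classify
import Pool.Agent.V1197.ZN.Table

namespace Pool.Agent.V1197.ZN

/-- the sign pattern of a normalised configuration -/
noncomputable def bb (u : Fin 7 → Fin 3 → ℝ) (j : ℕ) : Bool := decide (0 < pv u (nth kkL j))

theorem kk_spec : ∀ a b c : Fin 7, 0 < a → a < b → b < c →
    nth taL (nth kkL (ix (a - 1) (b - 1) (c - 1))) = a ∧ nth tbL (nth kkL (ix (a - 1) (b - 1) (c - 1))) = b ∧
      nth tcL (nth kkL (ix (a - 1) (b - 1) (c - 1))) = c := by decide +kernel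

theorem levels_spec : ∀ m, m < 20 → ∀ q ∈ levels.getD m [], q.1 < m ∧ q.2.1 < m ∧ q.2.2 < m ∧
    ∃ a b c d : Fin 7, 0 < a ∧ a < b ∧ b < c ∧ c < d ∧ q.1 = ix (a - 1) (b - 1) (c - 1) ∧
      q.2.1 = ix (a - 1) (b - 1) (d - 1) ∧ q.2.2 = ix (a - 1) (c - 1) (d - 1) ∧
      m = ix (b - 1) (c - 1) (d - 1) := by decide +kernel

theorem levels_getA (m : ℕ) (h : m < 10) : levels.getD m [] = levelsA.getD m [] := by
  interval_cases m <;> rfl

theorem levels_getB (m : ℕ) (h : m < 10) : levels.getD (10 + m) [] = levelsB.getD m [] := by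
  interval_cases m <;> rfl

theorem bb_ix (u : Fin 7 → Fin 3 → ℝ) (a b c : Fin 7) (h0 : 0 < a) (h1 : a < b) (h2 : b < c) :
    bb u (ix (a - 1) (b - 1) (c - 1)) = decide (0 < D u a b c) := by
  obtain ⟨e1, e2, e3⟩ := kk_spec a b c h0 h1 h2
  rw [bb, pv, e1, e2, e3, Dn_val]

theorem okq_of (x y z t : ℝ) (hx : x ≠ 0) (hy : y ≠ 0) (hz : z ≠ 0) (ht : t ≠ 0)
    (h1 : ∃ p q r : ℝ, 0 < p ∧ 0 < q ∧ 0 < r ∧ p * y = q * z + r * x)
    (h2 : ∃ p q r : ℝ, 0 < p ∧ 0 < q ∧ 0 < r ∧ p * y = q * t + r * x)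
    (h3 : ∃ p q r : ℝ, 0 < p ∧ 0 < q ∧ 0 < r ∧ p * z = q * t + r * x)
    (h4 : ∃ p q r : ℝ, 0 < p ∧ 0 < q ∧ 0 < r ∧ p * z = q * t + r * y) :
    okq (decide (0 < x)) (decide (0 < y)) (decide (0 < z)) (decide (0 < t)) = true := by
  have key : ∀ x y z : ℝ, x ≠ 0 → y ≠ 0 → z ≠ 0 →
      (∃ p q r : ℝ, 0 < p ∧ 0 < q ∧ 0 < r ∧ p * y = q * z + r * x) →
      (!(decide (0 < x) != decide (0 < y) && decide (0 < x) == decide (0 < z))) = true := by
    rintro x y z hx hy hz ⟨p, q, r, hp, hq, hr, h⟩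
    rcases lt_or_gt_of_ne hx with h1 | h1 <;> rcases lt_or_gt_of_ne hy with h2 | h2 <;>
      rcases lt_or_gt_of_ne hz with h3 | h3
    · simp [h1.le, h2.le, not_lt.2 h1.le, not_lt.2 h2.le, not_lt.2 h3.le]
    · simp [not_lt.2 h1.le, not_lt.2 h2.le, h3]
    · exfalso; nlinarith [mul_pos hp h2, mul_neg_of_pos_of_neg hq h3, mul_neg_of_pos_of_neg hr h1]
    · simp [not_lt.2 h1.le, h2, h3]
    · simp [h1, not_lt.2 h2.le, not_lt.2 h3.le]
    · exfalso; nlinarith [mul_neg_of_pos_of_neg hp h2, mul_pos hq h3, mul_pos hr h1]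
    · simp [h1, h2, not_lt.2 h3.le]
    · simp [h1, h2, h3]
  have k1 := key x y z hx hy hz h1
  have k2 := key x y t hx hy ht h2
  have k3 := key x z t hx hz ht h3
  have k4 := key y z t hy hz ht h4
  simp only [okq, k1, k2, k3, k4, Bool.and_self]

/-- all configurations with nonzero minors -/
def Gen (w : Fin 7 → Fin 3 → ℝ) : Prop := ∀ a b c : Fin 7, sg a b c ≠ 0 → D w a b c ≠ 0

def Norm (u : Fin 7 → Fin 3 → ℝ) : Prop := ∀ i j : Fin 7, 0 < i → i < j → 0 < D u 0 i j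

theorem sg_ne : ∀ a b c : Fin 7, a < b → b < c → sg a b c ≠ 0 := by decide +kernel

theorem norm_okq (u : Fin 7 → Fin 3 → ℝ) (hg : Gen u) (hn : Norm u) (a b c d : Fin 7)
    (h0 : 0 < a) (h1 : a < b) (h2 : b < c) (h3 : c < d) :
    okq (decide (0 < D u a b c)) (decide (0 < D u a b d)) (decide (0 < D u a c d))
      (decide (0 < D u b c d)) = true := by
  have hb : 0 < b := h0.trans h1
  have hc : 0 < c := hb.trans h2
  apply okq_of
  · exact hg _ _ _ (sg_ne _ _ _ h1 h2)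
  · exact hg _ _ _ (sg_ne _ _ _ h1 (h2.trans h3))
  · exact hg _ _ _ (sg_ne _ _ _ (h1.trans h2) h3)
  · exact hg _ _ _ (sg_ne _ _ _ h2 h3)
  · refine ⟨D u 0 a c, D u 0 a b, D u 0 a d, hn _ _ h0 (h1.trans h2), hn _ _ h0 h1,
      hn _ _ h0 (h1.trans (h2.trans h3)), ?_⟩
    simp only [D, det3]; ring
  · refine ⟨D u 0 b c, D u 0 a b, D u 0 b d, hn _ _ hb h2, hn _ _ h0 h1, hn _ _ hb (h2.trans h3), ?_⟩
    simp only [D, det3]; ring
  · refine ⟨D u 0 b c, D u 0 a c, D u 0 c d, hn _ _ hb h2, hn _ _ h0 (h1.trans h2), hn _ _ hc h3, ?_⟩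
    simp only [D, det3]; ring
  · refine ⟨D u 0 b d, D u 0 a d, D u 0 c d, hn _ _ hb (h2.trans h3), hn _ _ h0 (h1.trans (h2.trans h3)),
      hn _ _ hc h3, ?_⟩
    simp only [D, det3]; ring

theorem bl_spec : ∀ k, k < 35 → (nth blL k = 0 → nth taL k = 0 ∧ 0 < nth tbL k ∧ nth tbL k < nth tcL k) ∧
    (∀ j, j < 20 → nth blL k = j + 1 → nth kkL j = k) ∧ nth blL k < 21 := by decide +kernel

theorem norm_class (u : Fin 7 → Fin 3 → ℝ) (hg : Gen u) (hn : Norm u) :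
    ∃ (π : Fin 7 → Fin 7) (ε : Fin 7 → ℝ) (r : ℕ), Function.Injective π ∧ (∀ i, IsSign (ε i)) ∧ r < 11 ∧
      ∀ k, k < 35 → 0 < (nthZ (nthL chiL r) k : ℝ) * pv (act u π ε) k := by
  have hlenA : levelsA.length = 10 := by decide
  have hlenB : levelsB.length = 10 := by decide
  have hlev : ∀ m, m < 20 → ∀ q ∈ levels.getD m [], q.1 < m ∧ q.2.1 < m ∧ q.2.2 < m ∧
      okq (bb u q.1) (bb u q.2.1) (bb u q.2.2) (bb u m) = true := by
    intro m hm q hq
    obtain ⟨h1, h2, h3, a, b, c, d, h0, hab, hbc, hcd, e1, e2, e3, e4⟩ := levels_spec m hm q hq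
    refine ⟨h1, h2, h3, ?_⟩
    rw [e1, e2, e3, e4, bb_ix u a b c h0 hab hbc, bb_ix u a b d h0 hab (hbc.trans hcd),
      bb_ix u a c d h0 (hab.trans hbc) hcd, bb_ix u b c d (h0.trans hab) hbc hcd]
    exact norm_okq u hg hn a b c d h0 hab hbc hcd
  obtain ⟨tA, htA⟩ := isS_spec _ pre_ok
  obtain ⟨x, hx, hxe⟩ := dfs_sound _ (bb u) levelsA 0 _ tA (by simpa [enc] using htA) (by
    intro m hm q hq
    rw [hlenA] at hm
    rw [← levels_getA m hm] at hq
    rw [Nat.zero_add]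
    exact hlev m (by omega) q hq)
  rw [hlenA, Nat.zero_add, Nat.beq_eq] at hxe
  obtain ⟨q, hq, rfl⟩ := List.mem_map.1 hx
  obtain ⟨tB, htB⟩ := isS_spec _ (chunkOK_spec _ tabs_ok q hq)
  obtain ⟨e, _, he⟩ := dfs_sound good (bb u) levelsB 10 _ tB (by rw [← hxe]; exact htB) (by
    intro m hm q hq
    rw [hlenB] at hm
    rw [← levels_getB m hm] at hq
    exact hlev (10 + m) (by omega) q hq)
  rw [hlenB] at he
  refine good_spec e _ he u (fun k hk => ?_)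
  obtain ⟨hA, hB, hC⟩ := bl_spec k hk
  obtain ⟨ha7, hb7, hc7⟩ := tabc_lt k hk
  unfold sgk
  split
  · rename_i h
    obtain ⟨h1, h2, h3⟩ := hA h
    have := hn ⟨nth tbL k, hb7⟩ ⟨nth tcL k, hc7⟩ h2 h3
    rw [← Dn_val] at this
    rw [pv, h1]
    simpa using this
  · rename_i j h
    have hj : j < 20 := by omega
    have hk' := hB j hj h
    rw [tb_eq, enc_testBit _ _ _ hj, bb, hk']
    have hne : pv u k ≠ 0 := by
      have hs : (sg (nth taL k) (nth tbL k) (nth tcL k)) ≠ 0 := by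
        have : ∀ k, k < 35 → sg (nth taL k) (nth tbL k) (nth tcL k) ≠ 0 := by decide +kernel
        exact this k hk
      have h1 := hg ⟨nth taL k, ha7⟩ ⟨nth tbL k, hb7⟩ ⟨nth tcL k, hc7⟩ hs
      rwa [← Dn_val] at h1
    rcases lt_or_gt_of_ne hne with h1 | h1
    · rw [show decide (0 < pv u k) = false by simpa using h1.le, cond_false]
      have : ((Int.negSucc 0 : ℤ) : ℝ) = -1 := by norm_num
      rw [this]; linarith
    · rw [show decide (0 < pv u k) = true by simpa using h1, cond_true]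
      have : ((Int.ofNat 1 : ℤ) : ℝ) = 1 := by norm_num
      rw [this]; linarith

end Pool.Agent.V1197.ZN
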