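import Pool.Agent.V1197.ZN.Core

namespace Pool.Agent.V1197.ZN
open MeasureTheory Set Module
open scoped ENNReal

/-- rows are orthonormal -/
def Tight (v : Fin 7 → Fin 3 → ℝ) : Prop :=
  ∀ a b : Fin 3, ∑ i, v i a * v i b = if a = b then 1 else 0

theorem tight_quad {v : Fin 7 → Fin 3 → ℝ} (h : Tight v) (k0 k1 k2 : ℝ) :
    ∑ i, (v i 0 * k0 + v i 1 * k1 + v i 2 * k2) ^ 2 = k0 ^ 2 + k1 ^ 2 + k2 ^ 2 := by
  have h00 := h 0 0
  have h11 := h 1 1
  have h22 := h 2 2
  have h01 := h 0 1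
  have h02 := h 0 2
  have h12 := h 1 2
  simp at h00 h11 h22 h01 h02 h12
  have e : ∀ i, (v i 0 * k0 + v i 1 * k1 + v i 2 * k2) ^ 2 = k0 ^ 2 * (v i 0 * v i 0)
      + k1 ^ 2 * (v i 1 * v i 1) + k2 ^ 2 * (v i 2 * v i 2) + (2 * k0 * k1) * (v i 0 * v i 1)
      + (2 * k0 * k2) * (v i 0 * v i 2) + (2 * k1 * k2) * (v i 1 * v i 2) := by
    intro i; ring
  simp only [e, Finset.sum_add_distrib, ← Finset.mul_sum, h00, h11, h22, h01, h02, h12]
  ring

theorem tight_T {v : Fin 7 → Fin 3 → ℝ} (h : Tight v) (u : Fin 3 → ℝ) :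
    ∑ b, ∑ c, (det3 u (v b) (v c)) ^ 2 = 2 * (u 0 ^ 2 + u 1 ^ 2 + u 2 ^ 2) := by
  rw [Finset.sum_comm]
  have h1 : ∀ c, ∑ b, (det3 u (v b) (v c)) ^ 2 =
      (v c 0 * 0 + v c 1 * u 2 + v c 2 * (- u 1)) ^ 2 + (v c 0 * (- u 2) + v c 1 * 0 + v c 2 * u 0) ^ 2
        + (v c 0 * u 1 + v c 1 * (- u 0) + v c 2 * 0) ^ 2 := by
    intro c
    have := tight_quad h (v c 1 * u 2 - v c 2 * u 1) (v c 2 * u 0 - v c 0 * u 2)
      (v c 0 * u 1 - v c 1 * u 0)
    have e : ∀ b, (det3 u (v b) (v c)) ^ 2 = (v b 0 * (v c 1 * u 2 - v c 2 * u 1) +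
        v b 1 * (v c 2 * u 0 - v c 0 * u 2) + v b 2 * (v c 0 * u 1 - v c 1 * u 0)) ^ 2 := by
      intro b
      simp only [det3]
      ring
    simp only [e, this]
    ring
  simp only [h1, Finset.sum_add_distrib, tight_quad h]
  ring

theorem tight_norm_sum {v : Fin 7 → Fin 3 → ℝ} (h : Tight v) :
    ∑ i, (v i 0 ^ 2 + v i 1 ^ 2 + v i 2 ^ 2) = 3 := by
  have h00 := h 0 0
  have h11 := h 1 1
  have h22 := h 2 2
  simp at h00 h11 h22
  simp only [Finset.sum_add_distrib, pow_two, h00, h11, h22]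
  norm_num

theorem tight_S2 {v : Fin 7 → Fin 3 → ℝ} (h : Tight v) : S2 v = 6 := by
  have : ∀ a, ∑ b, ∑ c, (D v a b c) ^ 2 = 2 * (v a 0 ^ 2 + v a 1 ^ 2 + v a 2 ^ 2) :=
    fun a => tight_T h (v a)
  simp only [S2, this, ← Finset.mul_sum, tight_norm_sum h]
  norm_num

theorem orthonormal_tight {H : Submodule ℝ (EuclideanSpace ℝ (Fin 7))}
    (b : OrthonormalBasis (Fin 3) ℝ H)
    (v : Fin 7 → Fin 3 → ℝ) (hv : ∀ i a, v i a = (b a : EuclideanSpace ℝ (Fin 7)) i) : Tight v := by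
  intro a c
  have h := (orthonormal_iff_ite.1 b.orthonormal) a c
  rw [← h, Submodule.coe_inner, PiLp.inner_apply]
  refine Finset.sum_congr rfl (fun i _ => ?_)
  rw [hv, hv]
  simp [mul_comm]

/-- matrix action on configurations -/
theorem D_matrix (M : Matrix (Fin 3) (Fin 3) ℝ) (v w : Fin 7 → Fin 3 → ℝ)
    (h : ∀ i, w i = M.mulVec (v i)) (a b c : Fin 7) : D w a b c = M.det * D v a b c := by
  have := det3_map (Matrix.toLin' M) (v a) (v b) (v c)
  rw [LinearMap.det_toLin'] at this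
  simp only [D, h]
  simpa [Matrix.toLin'_apply] using this

theorem MI_of_max (F0 : ℝ) (hF0 : 0 ≤ F0)
    (hmax : ∀ H' : Submodule ℝ (EuclideanSpace ℝ (Fin 7)), finrank ℝ H' = 3 →
      shadow H' ≤ ENNReal.ofReal F0) (w : Fin 7 → Fin 3 → ℝ) :
    S1 w ^ 2 ≤ 6 * F0 ^ 2 * S2 w := by
  set r : Fin 3 → EuclideanSpace ℝ (Fin 7) := fun a => WithLp.toLp 2 (fun i => w i a) with hr
  by_cases hli : LinearIndependent ℝ r
  · set H' := Submodule.span ℝ (Set.range r) with hH'
    have hfin : finrank ℝ H' = 3 := by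
      rw [hH', finrank_span_eq_card hli]; simp
    let b : OrthonormalBasis (Fin 3) ℝ H' := (stdOrthonormalBasis ℝ H').reindex (finCongr hfin)
    set v : Fin 7 → Fin 3 → ℝ := fun i a => (b a : EuclideanSpace ℝ (Fin 7)) i with hv
    have hvol := basis_volume H' b v (fun _ _ => rfl)
    have hle := hmax H' hfin
    rw [hvol, ENNReal.ofReal_le_ofReal_iff hF0] at hle
    have ht := orthonormal_tight b v (fun _ _ => rfl)
    have hmem : ∀ a, r a ∈ H' := fun a => Submodule.subset_span ⟨a, rfl⟩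
    let M : Matrix (Fin 3) (Fin 3) ℝ := Matrix.of fun a c => b.repr ⟨r a, hmem a⟩ c
    have hw : ∀ i, w i = M.mulVec (v i) := by
      intro i
      funext a
      have h1 := b.sum_repr ⟨r a, hmem a⟩
      have h2 : ((∑ c, b.repr ⟨r a, hmem a⟩ c • b c : H') : EuclideanSpace ℝ (Fin 7)) = r a := by
        rw [h1]
      have h3 := congrArg (fun x : EuclideanSpace ℝ (Fin 7) => x i) h2
      simp only [Submodule.coe_sum, Submodule.coe_smul] at h3
      have h4 : (r a) i = w i a := rfl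
      rw [h4] at h3
      rw [← h3]
      simp [Matrix.mulVec, dotProduct, M, hv]
    have hD := D_matrix M v w hw
    have e1 : S1 w = |M.det| * S1 v := by
      simp only [S1, hD, abs_mul, ← Finset.mul_sum]
    have e2 : S2 w = M.det ^ 2 * S2 v := by
      simp only [S2, hD, mul_pow, ← Finset.mul_sum]
    have hpos : 0 ≤ S1 v := by
      unfold S1
      exact Finset.sum_nonneg (fun _ _ => Finset.sum_nonneg (fun _ _ => Finset.sum_nonneg (fun _ _ => abs_nonneg _)))
    rw [e1, e2, tight_S2 ht, mul_pow, sq_abs]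
    have h6 : S1 v ≤ 6 * F0 := by linarith
    have h7 : S1 v ^ 2 ≤ (6 * F0) ^ 2 := pow_le_pow_left₀ hpos h6 2
    nlinarith [sq_nonneg M.det]
  · rw [Fintype.not_linearIndependent_iff] at hli
    obtain ⟨g, hg, a0, ha0⟩ := hli
    have hk : ∀ i, g 0 * w i 0 + g 1 * w i 1 + g 2 * w i 2 = 0 := by
      intro i
      have h3 := congrArg (fun x : EuclideanSpace ℝ (Fin 7) => x i) hg
      rw [Fin.sum_univ_three] at h3
      simpa [hr] using h3
    have hD : ∀ a b c, D w a b c = 0 := by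
      intro a b c
      have h0 : g 0 * D w a b c = 0 := by
        have := hk a; have := hk b; have := hk c
        simp only [D, det3]
        linear_combination (w b 1 * w c 2 - w b 2 * w c 1) * hk a - (w a 1 * w c 2 - w a 2 * w c 1) * hk b
          + (w a 1 * w b 2 - w a 2 * w b 1) * hk c
      have h1 : g 1 * D w a b c = 0 := by
        simp only [D, det3]
        linear_combination -(w b 0 * w c 2 - w b 2 * w c 0) * hk a + (w a 0 * w c 2 - w a 2 * w c 0) * hk b
          - (w a 0 * w b 2 - w a 2 * w b 0) * hk c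
      have h2 : g 2 * D w a b c = 0 := by
        simp only [D, det3]
        linear_combination (w b 0 * w c 1 - w b 1 * w c 0) * hk a - (w a 0 * w c 1 - w a 1 * w c 0) * hk b
          + (w a 0 * w b 1 - w a 1 * w b 0) * hk c
      fin_cases a0
      · rcases mul_eq_zero.1 h0 with h | h
        · exact absurd h ha0
        · exact h
      · rcases mul_eq_zero.1 h1 with h | h
        · exact absurd h ha0
        · exact h
      · rcases mul_eq_zero.1 h2 with h | h
        · exact absurd h ha0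
        · exact h
    have e1 : S1 w = 0 := by simp [S1, hD]
    have e2 : S2 w = 0 := by simp [S2, hD]
    rw [e1, e2]; simp

theorem norm_proj {H : Submodule ℝ (EuclideanSpace ℝ (Fin 7))}
    (b : OrthonormalBasis (Fin 3) ℝ H)
    (v : Fin 7 → Fin 3 → ℝ) (hv : ∀ i a, v i a = (b a : EuclideanSpace ℝ (Fin 7)) i) (i : Fin 7) :
    ‖H.orthogonalProjectionOnto (EuclideanSpace.single i (1 : ℝ))‖ ^ 2 = v i 0 ^ 2 + v i 1 ^ 2 + v i 2 ^ 2 := by
  rw [← b.repr.norm_map, EuclideanSpace.norm_sq_eq, Fin.sum_univ_three]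
  have h : ∀ a, b.repr (H.orthogonalProjectionOnto (EuclideanSpace.single i (1 : ℝ))) a = v i a := by
    intro a
    rw [OrthonormalBasis.repr_apply_apply, Submodule.inner_orthogonalProjectionOnto_eq_of_mem_left,
      hv, EuclideanSpace.inner_single_right]
    simp
  simp [h]

/-- the algebraic statement -/
def CoreStatement : Prop := ∀ (v : Fin 7 → Fin 3 → ℝ) (F0 : ℝ), 0 < F0 →
  (∀ w : Fin 7 → Fin 3 → ℝ, S1 w ^ 2 ≤ 6 * F0 ^ 2 * S2 w) → S1 v = 6 * F0 → S2 v = 6 →
  (∀ i, ∑ b, ∑ c, (D v i b c) ^ 2 = 6 / 7) → False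

theorem final (hcore : CoreStatement) (H : Submodule ℝ (EuclideanSpace ℝ (Fin 7)))
    (hH : finrank ℝ H = 3)
    (heq : ∀ i j, ‖H.orthogonalProjectionOnto (EuclideanSpace.single i (1 : ℝ))‖ =
      ‖H.orthogonalProjectionOnto (EuclideanSpace.single j (1 : ℝ))‖) :
    ∃ H' : Submodule ℝ (EuclideanSpace ℝ (Fin 7)), finrank ℝ H' = 3 ∧ shadow H < shadow H' := by
  by_contra hno
  push Not at hno
  let b : OrthonormalBasis (Fin 3) ℝ H := (stdOrthonormalBasis ℝ H).reindex (finCongr hH)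
  set v : Fin 7 → Fin 3 → ℝ := fun i a => (b a : EuclideanSpace ℝ (Fin 7)) i with hv
  have ht : Tight v := orthonormal_tight b v (fun _ _ => rfl)
  have hvol := basis_volume H b v (fun _ _ => rfl)
  have hS2 := tight_S2 ht
  have hpos : 0 ≤ S1 v := by
    unfold S1
    exact Finset.sum_nonneg (fun _ _ => Finset.sum_nonneg (fun _ _ => Finset.sum_nonneg (fun _ _ => abs_nonneg _)))
  have hMI := MI_of_max (S1 v / 6) (by positivity) (fun H' h' => by
    rw [← hvol]; exact hno H' h')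
  have hne : S1 v ≠ 0 := by
    intro h0
    have hD : ∀ a b c, D v a b c = 0 := by
      intro a b c
      have h1 := (Finset.sum_eq_zero_iff_of_nonneg (fun _ _ => Finset.sum_nonneg (fun _ _ => Finset.sum_nonneg (fun _ _ => abs_nonneg _)))).1 h0 a (Finset.mem_univ _)
      have h2 := (Finset.sum_eq_zero_iff_of_nonneg (fun _ _ => Finset.sum_nonneg (fun _ _ => abs_nonneg _))).1 h1 b (Finset.mem_univ _)
      have h3 := (Finset.sum_eq_zero_iff_of_nonneg (fun _ _ => abs_nonneg _)).1 h2 c (Finset.mem_univ _)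
      exact abs_eq_zero.1 h3
    have : S2 v = 0 := by simp [S2, hD]
    rw [hS2] at this
    norm_num at this
  have hq : ∀ i, v i 0 ^ 2 + v i 1 ^ 2 + v i 2 ^ 2 = 3 / 7 := by
    have hn := norm_proj b v (fun _ _ => rfl)
    have hall : ∀ i, v i 0 ^ 2 + v i 1 ^ 2 + v i 2 ^ 2 = v 0 0 ^ 2 + v 0 1 ^ 2 + v 0 2 ^ 2 := by
      intro i
      rw [← hn i, ← hn 0, heq i 0]
    have hs := tight_norm_sum ht
    rw [Finset.sum_congr rfl (fun i _ => hall i)] at hs
    simp only [Finset.sum_const, Finset.card_univ, Fintype.card_fin, nsmul_eq_mul] at hs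
    intro i
    rw [hall i]
    push_cast at hs
    linarith
  refine hcore v (S1 v / 6) (by positivity) hMI (by ring) hS2 (fun i => ?_)
  have := tight_T ht (v i)
  simp only [D]
  rw [this, hq i]
  norm_num

end Pool.Agent.V1197.ZN
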