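import Mathlib

/-! Volume of a three-dimensional zonotope. -/

namespace Pool.Agent.V1197.ZN
open MeasureTheory Set
open scoped ENNReal Pointwise

/-- first unit vector -/
noncomputable def e0 (d : ℕ) : Fin (d + 1) → ℝ := Pi.single 0 1

theorem slice_eq {d : ℕ} (K : Set (Fin (d + 1) → ℝ)) (y : Fin d → ℝ) :
    {x : ℝ | Fin.cons x y ∈ K + segment ℝ 0 (e0 d)} =
      {x : ℝ | (Fin.cons x y : Fin (d + 1) → ℝ) ∈ K} + Icc 0 1 := by
  ext x
  simp only [Set.mem_ofPred_eq, Set.mem_add]
  constructor
  · rintro ⟨a, ha, b, hb, hab⟩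
    rw [segment_eq_image] at hb
    obtain ⟨t, ht, rfl⟩ := hb
    refine ⟨x - t, ?_, t, ht, by ring⟩
    have : (Fin.cons (x - t) y : Fin (d + 1) → ℝ) = a := by
      funext i
      have h := congrFun hab i
      refine Fin.cases ?_ (fun j => ?_) i
      · have h0 := congrFun hab 0
        simp [e0] at h0
        simp only [Fin.cons_zero]
        linarith
      · have h0 := congrFun hab j.succ
        simp [e0] at h0
        simp only [Fin.cons_succ]
        linarith
    rwa [this]
  · rintro ⟨a, ha, t, ht, rfl⟩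
    refine ⟨Fin.cons a y, ha, t • e0 d, ?_, ?_⟩
    · rw [segment_eq_image]
      exact ⟨t, ht, by simp⟩
    · funext i
      refine Fin.cases ?_ (fun j => ?_) i
      · simp [e0]
      · simp [e0]

theorem vol_slice_add (S : Set ℝ) (hS : IsCompact S) (hc : Convex ℝ S) (hne : S.Nonempty) :
    volume (S + Icc (0 : ℝ) 1) = volume S + 1 := by
  have hconn : IsConnected S := ⟨hne, hc.isPreconnected⟩
  have h := eq_Icc_of_connected_compact hconn hS
  have hle : sInf S ≤ sSup S := by
    obtain ⟨x, hx⟩ := hne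
    rw [h] at hx
    exact hx.1.trans hx.2
  rw [h, Set.Icc_add_Icc hle zero_le_one, Real.volume_Icc, Real.volume_Icc,
    ← ENNReal.ofReal_one, ← ENNReal.ofReal_add (by linarith) zero_le_one]
  congr 1
  ring

theorem vol_add_seg {d : ℕ} (K : Set (Fin (d + 1) → ℝ)) (hK : IsCompact K) (hc : Convex ℝ K) :
    volume (K + segment ℝ 0 (e0 d)) = volume K + volume ((fun x : Fin (d + 1) → ℝ => Fin.tail x) '' K) := by
  have hseg : IsCompact (segment ℝ (0 : Fin (d + 1) → ℝ) (e0 d)) := by
    rw [segment_eq_image]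
    exact isCompact_Icc.image (by fun_prop)
  have hKs : IsCompact (K + segment ℝ 0 (e0 d)) := hK.add hseg
  have hmp := (volume_preserving_piFinSuccAbove (fun _ : Fin (d + 1) => ℝ) 0).symm
  have hpre : ∀ A : Set (Fin (d + 1) → ℝ), MeasurableSet A →
      volume A = ∫⁻ y : Fin d → ℝ, volume {x : ℝ | (Fin.cons x y : Fin (d + 1) → ℝ) ∈ A} := by
    intro A hA
    rw [← hmp.measure_preimage hA.nullMeasurableSet]
    rw [Measure.volume_eq_prod, Measure.prod_apply_symm (hmp.measurable hA)]
    congr 1
    funext y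
    congr 1
    ext x
    simp only [Set.mem_preimage, Set.mem_ofPred_eq]
    have : (MeasurableEquiv.piFinSuccAbove (fun _ : Fin (d + 1) => ℝ) 0).symm (x, y)
        = Fin.cons x y := by
      simp [MeasurableEquiv.piFinSuccAbove, Fin.insertNthEquiv]
    rw [this]
  have htail : Measurable fun x : Fin (d + 1) → ℝ => Fin.tail x := by
    refine measurable_pi_lambda _ (fun i => ?_)
    exact measurable_pi_apply _
  have htc : Continuous fun x : Fin (d + 1) → ℝ => (Fin.tail x : Fin d → ℝ) := by
    refine continuous_pi (fun i => ?_)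
    exact continuous_apply _
  have hT : IsCompact ((fun x : Fin (d + 1) → ℝ => (Fin.tail x : Fin d → ℝ)) '' K) := hK.image htc
  rw [hpre _ hKs.isClosed.measurableSet, hpre _ hK.isClosed.measurableSet]
  have hind : volume ((fun x : Fin (d + 1) → ℝ => (Fin.tail x : Fin d → ℝ)) '' K) =
      ∫⁻ y, ((fun x : Fin (d + 1) → ℝ => (Fin.tail x : Fin d → ℝ)) '' K).indicator 1 y := by
    rw [lintegral_indicator_one hT.isClosed.measurableSet]
  rw [hind, ← lintegral_add_right _ (measurable_one.indicator hT.isClosed.measurableSet)]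
  refine lintegral_congr (fun y => ?_)
  rw [slice_eq]
  have hcontcons : Continuous fun x : ℝ => (Fin.cons x y : Fin (d + 1) → ℝ) := by
    refine continuous_pi (fun i => ?_)
    refine Fin.cases ?_ (fun j => ?_) i
    · simpa using continuous_id'
    · simpa using continuous_const
  by_cases hne : ({x : ℝ | (Fin.cons x y : Fin (d + 1) → ℝ) ∈ K}).Nonempty
  · have hcl : IsClosed {x : ℝ | (Fin.cons x y : Fin (d + 1) → ℝ) ∈ K} :=
      hK.isClosed.preimage hcontcons
    have hcomp : IsCompact {x : ℝ | (Fin.cons x y : Fin (d + 1) → ℝ) ∈ K} := by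
      refine (hK.image (continuous_apply (0 : Fin (d + 1)))).of_isClosed_subset hcl ?_
      intro x hx
      exact ⟨_, hx, by simp⟩
    have hconv : Convex ℝ {x : ℝ | (Fin.cons x y : Fin (d + 1) → ℝ) ∈ K} := by
      intro a ha b hb s t hs ht hst
      simp only [Set.mem_ofPred_eq] at ha hb ⊢
      have := hc ha hb hs ht hst
      convert this using 1
      funext i
      refine Fin.cases ?_ (fun j => ?_) i
      · simp
      · simp only [Fin.cons_succ, Pi.add_apply, Pi.smul_apply, smul_eq_mul]
        rw [← add_mul, hst, one_mul]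
    rw [vol_slice_add _ hcomp hconv hne]
    congr 1
    obtain ⟨x, hx⟩ := hne
    have : y ∈ ((fun x : Fin (d + 1) → ℝ => (Fin.tail x : Fin d → ℝ)) '' K) :=
      ⟨_, hx, by simp⟩
    rw [Set.indicator_of_mem this]
    rfl
  · rw [Set.not_nonempty_iff_eq_empty] at hne
    have : y ∉ ((fun x : Fin (d + 1) → ℝ => (Fin.tail x : Fin d → ℝ)) '' K) := by
      rintro ⟨x, hx, rfl⟩
      have : x 0 ∈ {x_1 : ℝ | (Fin.cons x_1 (Fin.tail x) : Fin (d + 1) → ℝ) ∈ K} := by
        simpa using hx
      rw [hne] at this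
      exact this
    rw [hne, Set.indicator_of_notMem this]
    simp

end Pool.Agent.V1197.ZN
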