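import Pool.Agent.V1197.ZN.Vol

namespace Pool.Agent.V1197.ZN
open MeasureTheory Set
open scoped ENNReal Pointwise

/-- the zonotope spanned by a list of vectors -/
def Zn {d : ℕ} : List (Fin d → ℝ) → Set (Fin d → ℝ)
  | [] => {0}
  | v :: L => Zn L + segment ℝ 0 v

theorem isCompact_segment' {d : ℕ} (v : Fin d → ℝ) : IsCompact (segment ℝ (0 : Fin d → ℝ) v) := by
  rw [segment_eq_image]
  exact isCompact_Icc.image (by fun_prop)

theorem Zn_compact {d : ℕ} (L : List (Fin d → ℝ)) : IsCompact (Zn L) := by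
  induction L with
  | nil => exact isCompact_singleton
  | cons v L ih => exact ih.add (isCompact_segment' v)

theorem Zn_convex {d : ℕ} (L : List (Fin d → ℝ)) : Convex ℝ (Zn L) := by
  induction L with
  | nil => exact convex_singleton _
  | cons v L ih => exact ih.add (convex_segment _ _)

theorem Zn_nonempty {d : ℕ} (L : List (Fin d → ℝ)) : (Zn L).Nonempty := by
  induction L with
  | nil => exact ⟨0, rfl⟩
  | cons v L ih => exact ih.add ⟨0, left_mem_segment _ _ _⟩

theorem Zn_image {d e : ℕ} (T : (Fin d → ℝ) →ₗ[ℝ] (Fin e → ℝ)) (L : List (Fin d → ℝ)) :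
    T '' (Zn L) = Zn (L.map T) := by
  induction L with
  | nil => simp [Zn]
  | cons v L ih =>
    simp only [Zn, List.map_cons]
    rw [Set.image_add, ih]
    congr 1
    have := image_segment ℝ T.toAffineMap 0 v
    simpa using this

/-- forget the first coordinate -/
def tl (d : ℕ) : (Fin (d + 1) → ℝ) →ₗ[ℝ] (Fin d → ℝ) where
  toFun x := Fin.tail x
  map_add' _ _ := rfl
  map_smul' _ _ := rfl

theorem e0_ne (d : ℕ) : e0 d ≠ 0 := by
  intro h
  have := congrFun h 0
  simp [e0] at this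

theorem step {d : ℕ} (v : Fin (d + 1) → ℝ) (hv : v ≠ 0) (L : List (Fin (d + 1) → ℝ)) :
    ∃ T : (Fin (d + 1) → ℝ) ≃ₗ[ℝ] (Fin (d + 1) → ℝ), T v = e0 d ∧
      volume (Zn (v :: L)) = volume (Zn L) +
        ENNReal.ofReal |LinearMap.det (T.symm : (Fin (d + 1) → ℝ) →ₗ[ℝ] (Fin (d + 1) → ℝ))| *
          volume (Zn (L.map (fun w => tl d (T w)))) := by
  obtain ⟨A, hA⟩ := SeparatingDual.exists_continuousLinearEquiv_apply_eq (R := ℝ) hv (e0_ne d)
  refine ⟨A.toLinearEquiv, hA, ?_⟩
  have hT : A.toLinearEquiv v = e0 d := hA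
  set T := A.toLinearEquiv with hTdef
  have h1 : Zn (v :: L) = (T.symm : (Fin (d + 1) → ℝ) →ₗ[ℝ] (Fin (d + 1) → ℝ)) ''
      (Zn (L.map T) + segment ℝ 0 (e0 d)) := by
    have h2 : Zn (L.map T) + segment ℝ 0 (e0 d) = (T : (Fin (d + 1) → ℝ) →ₗ[ℝ] (Fin (d + 1) → ℝ)) '' Zn (v :: L) := by
      rw [Zn_image]
      simp only [List.map_cons, Zn, LinearEquiv.coe_coe, hT]
    rw [h2, ← Set.image_comp]
    conv_lhs => rw [← Set.image_id (Zn (v :: L))]
    congr 1
    funext x
    simp
  have h3 : Zn L = (T.symm : (Fin (d + 1) → ℝ) →ₗ[ℝ] (Fin (d + 1) → ℝ)) '' (Zn (L.map T)) := by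
    have h2 : Zn (L.map T) = (T : (Fin (d + 1) → ℝ) →ₗ[ℝ] (Fin (d + 1) → ℝ)) '' Zn L := by
      rw [Zn_image]
      rfl
    rw [h2, ← Set.image_comp]
    conv_lhs => rw [← Set.image_id (Zn L)]
    congr 1
    funext x
    simp
  rw [h1]
  conv_rhs => rw [h3]
  rw [Measure.addHaar_image_linearMap, Measure.addHaar_image_linearMap,
    vol_add_seg _ (Zn_compact _) (Zn_convex _), mul_add]
  congr 3
  have : (fun x : Fin (d + 1) → ℝ => (Fin.tail x : Fin d → ℝ)) '' Zn (L.map T) =
      (tl d) '' Zn (L.map T) := rfl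
  rw [this, Zn_image, List.map_map]
  rfl

theorem Zn_zero_cons {d : ℕ} (L : List (Fin d → ℝ)) : Zn ((0 : Fin d → ℝ) :: L) = Zn L := by
  simp [Zn]

/-- 2x2 determinant -/
def det2 (v w : Fin 2 → ℝ) : ℝ := v 0 * w 1 - v 1 * w 0

/-- 3x3 determinant -/
def det3 (u v w : Fin 3 → ℝ) : ℝ :=
  u 0 * (v 1 * w 2 - v 2 * w 1) - u 1 * (v 0 * w 2 - v 2 * w 0) + u 2 * (v 0 * w 1 - v 1 * w 0)

theorem det1_map (f : (Fin 1 → ℝ) →ₗ[ℝ] (Fin 1 → ℝ)) :
    LinearMap.det f = f (e0 0) 0 := by
  rw [← LinearMap.det_toMatrix' f]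
  simp [Matrix.det_fin_one, LinearMap.toMatrix'_apply, e0, Pi.single]

theorem det2_map (f : (Fin 2 → ℝ) →ₗ[ℝ] (Fin 2 → ℝ)) (v w : Fin 2 → ℝ) :
    det2 (f v) (f w) = LinearMap.det f * det2 v w := by
  rw [← LinearMap.det_toMatrix' f]
  have h : ∀ x, f x = (LinearMap.toMatrix' f).mulVec x := by
    intro x
    rw [← LinearMap.toMatrix'_mulVec]
  rw [h v, h w, Matrix.det_fin_two]
  simp only [det2, Matrix.mulVec, dotProduct, Fin.sum_univ_two]
  ring

theorem det3_map (f : (Fin 3 → ℝ) →ₗ[ℝ] (Fin 3 → ℝ)) (u v w : Fin 3 → ℝ) :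
    det3 (f u) (f v) (f w) = LinearMap.det f * det3 u v w := by
  rw [← LinearMap.det_toMatrix' f]
  have h : ∀ x, f x = (LinearMap.toMatrix' f).mulVec x := by
    intro x
    rw [← LinearMap.toMatrix'_mulVec]
  rw [h u, h v, h w, Matrix.det_fin_three]
  simp only [det3, Matrix.mulVec, dotProduct, Fin.sum_univ_three]
  ring

/-- sums of absolute values of minors -/
def s2 : List (Fin 2 → ℝ) → ℝ
  | [] => 0
  | v :: L => s2 L + (L.map (fun w => |det2 v w|)).sum

def p3 (v : Fin 3 → ℝ) : List (Fin 3 → ℝ) → ℝ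
  | [] => 0
  | w :: L => p3 v L + (L.map (fun u => |det3 v w u|)).sum

def s3 : List (Fin 3 → ℝ) → ℝ
  | [] => 0
  | v :: L => s3 L + p3 v L

theorem sum_map_nonneg {α : Type} (f : α → ℝ) (hf : ∀ x, 0 ≤ f x) (L : List α) :
    0 ≤ (L.map f).sum := by
  induction L with
  | nil => simp
  | cons a L ih => simp only [List.map_cons, List.sum_cons]; linarith [hf a]

theorem s2_nonneg (L : List (Fin 2 → ℝ)) : 0 ≤ s2 L := by
  induction L with
  | nil => simp [s2]
  | cons a L ih =>
    simp only [s2]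
    have := sum_map_nonneg (fun w => |det2 a w|) (fun _ => abs_nonneg _) L
    linarith

theorem p3_nonneg (v : Fin 3 → ℝ) (L : List (Fin 3 → ℝ)) : 0 ≤ p3 v L := by
  induction L with
  | nil => simp [p3]
  | cons a L ih =>
    simp only [p3]
    have := sum_map_nonneg (fun w => |det3 v a w|) (fun _ => abs_nonneg _) L
    linarith

theorem s3_nonneg (L : List (Fin 3 → ℝ)) : 0 ≤ s3 L := by
  induction L with
  | nil => simp [s3]
  | cons a L ih =>
    simp only [s3]
    have := p3_nonneg a L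
    linarith

theorem vol1 (L : List (Fin 1 → ℝ)) :
    volume (Zn L) = ENNReal.ofReal ((L.map (fun v => |v 0|)).sum) := by
  induction L with
  | nil => simp [Zn]
  | cons v L ih =>
    by_cases hv : v = 0
    · subst hv
      rw [Zn_zero_cons, ih]
      simp
    · obtain ⟨T, hT, h⟩ := step v hv L
      rw [h, ih, List.map_cons, List.sum_cons]
      have h0 : volume (Zn (L.map (fun w => tl 0 (T w)))) = 1 := by
        have : Zn (L.map (fun w => tl 0 (T w))) = Set.univ := by
          obtain ⟨x, hx⟩ := Zn_nonempty (L.map (fun w => tl 0 (T w)))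
          ext y
          simp only [Set.mem_univ, iff_true]
          rwa [Subsingleton.elim y x]
        rw [this, volume_pi, Measure.pi_of_empty, Measure.dirac_apply' _ MeasurableSet.univ]
        simp
      rw [h0, mul_one, det1_map]
      have hs : (T.symm : (Fin 1 → ℝ) →ₗ[ℝ] (Fin 1 → ℝ)) (e0 0) = v := by
        rw [← hT]; simp
      rw [hs, add_comm |v 0|, ENNReal.ofReal_add (sum_map_nonneg _ (fun _ => abs_nonneg _) _) (abs_nonneg _)]

theorem vol2 (L : List (Fin 2 → ℝ)) : volume (Zn L) = ENNReal.ofReal (s2 L) := by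
  induction L with
  | nil => simp [Zn, s2]
  | cons v L ih =>
    by_cases hv : v = 0
    · subst hv
      rw [Zn_zero_cons, ih]
      simp [s2, det2]
    · obtain ⟨T, hT, h⟩ := step v hv L
      rw [h, ih, vol1, ← ENNReal.ofReal_mul (abs_nonneg _), s2,
        ENNReal.ofReal_add (s2_nonneg _) (sum_map_nonneg _ (fun _ => abs_nonneg _) _)]
      congr 2
      rw [← List.sum_map_mul_left, List.map_map]
      congr 1
      refine List.map_congr_left (fun w _ => ?_)
      simp only [Function.comp]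
      rw [← abs_mul]
      have hs : (T.symm : (Fin 2 → ℝ) →ₗ[ℝ] (Fin 2 → ℝ)) (e0 1) = v := by
        rw [← hT]; simp
      have hw : (T.symm : (Fin 2 → ℝ) →ₗ[ℝ] (Fin 2 → ℝ)) (T w) = w := by simp
      have := det2_map (T.symm : (Fin 2 → ℝ) →ₗ[ℝ] (Fin 2 → ℝ)) (e0 1) (T w)
      rw [hs, hw] at this
      rw [this]
      congr 2
      simp [det2, e0, tl, Fin.tail]

theorem p3_scale (c : ℝ) (v : Fin 3 → ℝ) (g : (Fin 3 → ℝ) → (Fin 2 → ℝ)) (L : List (Fin 3 → ℝ))
    (h : ∀ w u, |c| * |det2 (g w) (g u)| = |det3 v w u|) : |c| * s2 (L.map g) = p3 v L := by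
  induction L with
  | nil => simp [s2, p3]
  | cons w L ih =>
    simp only [List.map_cons, s2, p3, mul_add, ih]
    congr 1
    rw [← List.sum_map_mul_left, List.map_map]
    congr 1
    refine List.map_congr_left (fun u _ => ?_)
    exact h w u

theorem vol3 (L : List (Fin 3 → ℝ)) : volume (Zn L) = ENNReal.ofReal (s3 L) := by
  induction L with
  | nil => simp [Zn, s3]
  | cons v L ih =>
    by_cases hv : v = 0
    · subst hv
      rw [Zn_zero_cons, ih]
      have : p3 0 L = 0 := by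
        have : ∀ L, p3 0 L = 0 := by
          intro L
          induction L with
          | nil => simp [p3]
          | cons w L ih => simp [p3, ih, det3]
        exact this L
      simp [s3, this]
    · obtain ⟨T, hT, h⟩ := step v hv L
      rw [h, ih, vol2, ← ENNReal.ofReal_mul (abs_nonneg _), s3,
        ENNReal.ofReal_add (s3_nonneg _) (p3_nonneg _ _)]
      congr 2
      have hs : (T.symm : (Fin 3 → ℝ) →ₗ[ℝ] (Fin 3 → ℝ)) (e0 2) = v := by
        rw [← hT]; simp
      refine p3_scale _ v (fun w => tl 2 (T w)) L (fun w u => ?_)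
      have hw : ∀ w, (T.symm : (Fin 3 → ℝ) →ₗ[ℝ] (Fin 3 → ℝ)) (T w) = w := by intro w; simp
      have := det3_map (T.symm : (Fin 3 → ℝ) →ₗ[ℝ] (Fin 3 → ℝ)) (e0 2) (T w) (T u)
      rw [hs, hw, hw] at this
      rw [this, abs_mul]
      congr 2
      simp [det3, det2, e0, tl, Fin.tail]

end Pool.Agent.V1197.ZN
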